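import Pool.Agent.H979.BK.Stm

/-! Project BK: bookkeeping for finite Markov operators. -/

open Filter Topology Finset Pool.Agent.H979.BK

namespace Pool.Agent.H505

section

variable {X I : Type} [Fintype I] {p : I → ℝ} {φ : I → X → X}

lemma MK_mono (hp : ∀ i, 0 ≤ p i) {f g : X → ℝ} (h : ∀ x, f x ≤ g x) (x : X) :
    MK p φ f x ≤ MK p φ g x :=
  Finset.sum_le_sum fun i _ => mul_le_mul_of_nonneg_left (h _) (hp i)

lemma MKn_mono (hp : ∀ i, 0 ≤ p i) (n : ℕ) : ∀ {f g : X → ℝ}, (∀ x, f x ≤ g x) → ∀ x : X,
    (MK p φ)^[n] f x ≤ (MK p φ)^[n] g x := by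
  induction n with
  | zero => intro f g h x; exact h x
  | succ n ih =>
    intro f g h x
    rw [Function.iterate_succ_apply, Function.iterate_succ_apply]
    exact ih (fun x => MK_mono hp h x) x

lemma MK_add (f g : X → ℝ) : MK p φ (fun y => f y + g y) = fun x => MK p φ f x + MK p φ g x := by
  funext x
  unfold MK
  rw [← Finset.sum_add_distrib]
  exact Finset.sum_congr rfl fun i _ => by ring

lemma MKn_add (n : ℕ) : ∀ (f g : X → ℝ) (x : X), (MK p φ)^[n] (fun y => f y + g y) x =
    (MK p φ)^[n] f x + (MK p φ)^[n] g x := by
  induction n with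
  | zero => intro f g x; rfl
  | succ n ih =>
    intro f g x
    rw [Function.iterate_succ_apply, Function.iterate_succ_apply, Function.iterate_succ_apply,
      MK_add, ih]

lemma MK_mul (c : ℝ) (f : X → ℝ) : MK p φ (fun y => c * f y) = fun x => c * MK p φ f x := by
  funext x
  unfold MK
  rw [Finset.mul_sum]
  exact Finset.sum_congr rfl fun i _ => by ring

lemma MKn_mul (n : ℕ) (c : ℝ) : ∀ (f : X → ℝ) (x : X), (MK p φ)^[n] (fun y => c * f y) x =
    c * (MK p φ)^[n] f x := by
  induction n with
  | zero => intro f x; rfl
  | succ n ih =>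
    intro f x
    rw [Function.iterate_succ_apply, Function.iterate_succ_apply, MK_mul, ih]

lemma MK_const (hs : ∑ i, p i = 1) (c : ℝ) : MK p φ (fun _ : X => c) = fun _ => c := by
  funext x
  unfold MK
  rw [← Finset.sum_mul, hs, one_mul]

lemma MKn_const (hs : ∑ i, p i = 1) (n : ℕ) (c : ℝ) (x : X) :
    (MK p φ)^[n] (fun _ : X => c) x = c := by
  induction n with
  | zero => rfl
  | succ n ih => rw [Function.iterate_succ_apply, MK_const hs, ih]

end

theorem bk_book : S_BOOK := by
  classical
  intro X I _ p φ Al good Ψ q q' κ K1 L hp hs hq hq' hq'1 hκ hK1 hL hbad hAl hΨ hret x0 hx0 M ζ hζ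
  set g : X → ℝ := fun y => if Al y then 0 else 1 with hg
  have hg0 : ∀ y, 0 ≤ g y := by intro y; simp only [hg]; split_ifs <;> norm_num
  have hg1 : ∀ y, g y ≤ 1 := by intro y; simp only [hg]; split_ifs <;> norm_num
  set nb : ℕ → X → ℝ := fun b x => (MK p φ)^[b] g x with hnb
  have hnb1 : ∀ b x, nb b x ≤ 1 := by
    intro b x
    have h := MKn_mono (φ := φ) hp b (f := g) (g := fun _ => 1) hg1 x
    rwa [MKn_const hs] at h
  -- (i)
  have h1 : ∀ b x, Al x → nb b x ≤ b * q := by
    intro b
    induction b with
    | zero =>
      intro x hx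
      simp only [hnb, hg, Function.iterate_zero, id_eq, if_pos hx, Nat.cast_zero, zero_mul, le_refl]
    | succ b ih =>
      intro x hx
      have e : nb (b + 1) x = ∑ i, p i * nb b (φ i x) := by
        simp only [hnb]
        rw [Function.iterate_succ_apply']
        rfl
      rw [e]
      have h2 : ∀ i ∈ (univ : Finset I), p i * nb b (φ i x) ≤
          p i * (b * q) + p i * (if good i x then 0 else 1) := by
        intro i _
        rw [← mul_add]
        refine mul_le_mul_of_nonneg_left ?_ (hp i)
        by_cases hgd : good i x
        · rw [if_pos hgd, add_zero]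
          exact ih _ (hAl x i hx hgd).1
        · rw [if_neg hgd]
          have := hnb1 b (φ i x)
          have h3 : 0 ≤ (b : ℝ) * q := by positivity
          linarith
      refine (Finset.sum_le_sum h2).trans ?_
      rw [Finset.sum_add_distrib, ← Finset.sum_mul, hs, one_mul]
      have := hbad x
      push_cast
      linarith
  -- (ii)
  have h2 : ∀ x, nb L x ≤ 1 - q' := by
    intro x
    have e : (fun _ : X => (1 : ℝ)) = fun y => g y + (if Al y then 1 else 0) := by
      funext y
      simp only [hg]
      split_ifs <;> norm_num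
    have h3 := MKn_const (φ := φ) hs L 1 x
    rw [e, MKn_add] at h3
    have h4 := hret x
    simp only [hnb]
    linarith
  -- (iii)
  have h3 : ∀ b x, nb (b + L) x ≤ L * q + (1 - q') * nb b x := by
    intro b x
    have e : nb (b + L) x = (MK p φ)^[b] (nb L) x := by
      simp only [hnb]
      rw [Function.iterate_add_apply]
    rw [e]
    have h4 : ∀ y, nb L y ≤ (fun _ => (L : ℝ) * q) y + (fun y => (1 - q') * g y) y := by
      intro y
      by_cases hy : Al y
      · have h5 := h1 L y hy
        have h6 : g y = 0 := by simp only [hg, if_pos hy]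
        simp only [h6]
        linarith
      · have h5 := h2 y
        have h6 : g y = 1 := by simp only [hg, if_neg hy]
        have h7 : 0 ≤ (L : ℝ) * q := by positivity
        simp only [h6]
        linarith
    refine (MKn_mono hp b h4 x).trans ?_
    have h5 := MKn_add (p := p) (φ := φ) b (fun _ => (L : ℝ) * q) (fun y => (1 - q') * g y) x
    rw [h5, MKn_const hs, MKn_mul]
  -- (iv)
  have hLq : 0 ≤ (L : ℝ) * q := by positivity
  have hB : (L : ℝ) * q ≤ L * q / q' := by
    rw [le_div_iff₀ hq']
    nlinarith
  have h4 : ∀ b, nb b x0 ≤ L * q / q' := by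
    intro b
    induction b using Nat.strong_induction_on with
    | _ b ih =>
      by_cases hb : b < L
      · refine (h1 b x0 hx0).trans (le_trans ?_ hB)
        have : (b : ℝ) ≤ L := by exact_mod_cast hb.le
        exact mul_le_mul_of_nonneg_right this hq
      · push Not at hb
        obtain ⟨c, rfl⟩ := Nat.exists_eq_add_of_le' hb
        have h5 := h3 c x0
        have h6 := ih c (by omega)
        have h7 : (1 - q') * nb c x0 ≤ (1 - q') * (L * q / q') :=
          mul_le_mul_of_nonneg_left h6 (by linarith)
        have h8 : L * q + (1 - q') * (L * q / q') = L * q / q' := by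
          field_simp
          ring
        linarith
  -- (v)
  have h5 : ∀ (M : ℕ) (a : ℝ) (x : X), (MK p φ)^[M] (fun y => max (a - Ψ y - κ * M) 0) x ≤
      max (a - Ψ x) 0 + ∑ b ∈ range M, K1 * (nb b x + q) := by
    intro M a x
    induction M with
    | zero =>
      simp
    | succ M ih =>
      rw [Function.iterate_succ_apply, Finset.sum_range_succ]
      have h6 : ∀ y, MK p φ (fun y => max (a - Ψ y - κ * ((M + 1 : ℕ) : ℝ)) 0) y ≤
          (fun y => max (a - Ψ y - κ * M) 0) y + (fun y => K1 * (g y + q)) y := by
        intro y
        have h7 : ∀ i ∈ (univ : Finset I), p i * max (a - Ψ (φ i y) - κ * ((M + 1 : ℕ) : ℝ)) 0 ≤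
            p i * max (a - Ψ y - κ * M) 0 + K1 * (p i * g y + p i * (if good i y then 0 else 1)) := by
          intro i _
          have h8 : max (a - Ψ (φ i y) - κ * ((M + 1 : ℕ) : ℝ)) 0 ≤
              max (a - Ψ y - κ * M) 0 + K1 * (g y + (if good i y then 0 else 1)) := by
            have hnn : 0 ≤ K1 * (g y + (if good i y then 0 else 1)) := by
              refine mul_nonneg hK1 (add_nonneg (hg0 y) ?_)
              split_ifs <;> norm_num
            have hkey : Ψ y - Ψ (φ i y) - κ ≤ K1 * (g y + (if good i y then 0 else 1)) := by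
              have hk1 := hΨ y i
              by_cases hy : Al y
              · by_cases hgd : good i y
                · have := (hAl y i hy hgd).2
                  linarith
                · have e1 : g y = 0 := by simp only [hg, if_pos hy]
                  rw [e1, if_neg hgd]
                  linarith
              · have e1 : g y = 1 := by simp only [hg, if_neg hy]
                rw [e1]
                have e2 : (0 : ℝ) ≤ (if good i y then 0 else 1) := by split_ifs <;> norm_num
                have e3 : K1 * 1 ≤ K1 * (1 + (if good i y then 0 else 1)) :=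
                  mul_le_mul_of_nonneg_left (by linarith) hK1
                linarith
            have h9 := le_max_left (a - Ψ y - κ * M) 0
            have h10 := le_max_right (a - Ψ y - κ * M) 0
            push_cast
            refine max_le ?_ ?_
            · linarith
            · linarith
          have := mul_le_mul_of_nonneg_left h8 (hp i)
          calc _ ≤ _ := this
            _ = _ := by ring
        refine (Finset.sum_le_sum h7).trans ?_
        rw [Finset.sum_add_distrib, ← Finset.mul_sum, Finset.sum_add_distrib, ← Finset.sum_mul,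
          ← Finset.sum_mul, hs, one_mul, one_mul]
        have h8 := mul_le_mul_of_nonneg_left (hbad y) hK1
        have h9 : K1 * (g y + ∑ i, p i * (if good i y then 0 else 1)) =
          K1 * g y + K1 * ∑ i, p i * (if good i y then 0 else 1) := by ring
        rw [h9]
        simp only
        linarith
      refine (MKn_mono hp M h6 x).trans ?_
      have h7 := MKn_add (p := p) (φ := φ) M (fun y => max (a - Ψ y - κ * M) 0)
        (fun y => K1 * (g y + q)) x
      have h8 := MKn_mul (p := p) (φ := φ) M K1 (fun y => g y + q) x
      have h9 := MKn_add (p := p) (φ := φ) M g (fun _ => q) x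
      rw [MKn_const hs] at h9
      rw [h7, h8, h9]
      have h10 : (MK p φ)^[M] g x = nb M x := rfl
      rw [h10]
      linarith
  -- Markov
  have hR : 0 ≤ K1 * L * q / (q' * ζ) := by positivity
  rcases Nat.eq_zero_or_pos M with rfl | hM
  · simp only [Function.iterate_zero, id_eq, Nat.cast_zero, mul_zero, sub_zero, lt_irrefl, if_false]
    positivity
  · have hM' : (0 : ℝ) < M := by exact_mod_cast hM
    have h6 := h5 M (Ψ x0) x0
    rw [sub_self, max_self, zero_add] at h6
    have h7 : ∑ b ∈ range M, K1 * (nb b x0 + q) ≤ M * (K1 * (2 * (L * q / q'))) := by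
      have h8 : ∀ b ∈ range M, K1 * (nb b x0 + q) ≤ K1 * (2 * (L * q / q')) := by
        intro b _
        refine mul_le_mul_of_nonneg_left ?_ hK1
        have h9 := h4 b
        have h10 : q ≤ L * q / q' := by
          refine le_trans ?_ hB
          have : (1 : ℝ) ≤ L := by exact_mod_cast hL
          nlinarith
        linarith
      refine (Finset.sum_le_sum h8).trans ?_
      rw [Finset.sum_const, card_range, nsmul_eq_mul]
    have h8 : ∀ y, (fun y => if Ψ y < Ψ x0 - (κ + ζ) * M then (1 : ℝ) else 0) y ≤
        (fun y => (ζ * M)⁻¹ * max (Ψ x0 - Ψ y - κ * M) 0) y := by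
      intro y
      have hpos : 0 < ζ * M := by positivity
      simp only
      split_ifs with hy
      · rw [← div_eq_inv_mul, le_div_iff₀ hpos, one_mul]
        refine le_trans ?_ (le_max_left _ _)
        linarith
      · exact mul_nonneg (inv_pos.2 hpos).le (le_max_right _ _)
    refine (MKn_mono hp M h8 x0).trans ?_
    rw [MKn_mul]
    have hpos : 0 < ζ * M := by positivity
    have h9 := mul_le_mul_of_nonneg_left (h6.trans h7) (inv_pos.2 hpos).le
    refine h9.trans ?_
    have h10 : (ζ * M)⁻¹ * (M * (K1 * (2 * (L * q / q')))) = 2 * (K1 * L * q / (q' * ζ)) := by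
      field_simp
    have h11 : 3 * K1 * L * q / (q' * ζ) = 3 * (K1 * L * q / (q' * ζ)) := by ring
    rw [h10, h11]
    linarith

end Pool.Agent.H505
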