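import Pool.Agent.H683.BW.Stm

/-!
Project BW (helper683): from an ordering to an accepted word.
-/

set_option autoImplicit false

namespace Pool.Agent.H505.BWEQ1

open Pool.Agent.H683.BW

theorem run_append {Q α : Type} (step : Q → α → Option Q) (q : Q) (a b : List α) :
    run step q (a ++ b) = (run step q a).bind fun q' => run step q' b := by
  induction a generalizing q with
  | nil => simp [run]
  | cons x a ih =>
    simp only [List.cons_append, run]
    cases step q x with
    | none => simp
    | some q' => simp [ih]

/-- the index of the chain which contains `v` -/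
def idx (ch : List (List ℕ)) (v : ℕ) : ℕ := ch.findIdx (fun l => decide (v ∈ l))

theorem idx_spec {ch : List (List ℕ)} {v : ℕ} (h : v ∈ ch.flatten) :
    idx ch v < ch.length ∧ v ∈ ch.getD (idx ch v) [] := by
  obtain ⟨l, hl, hv⟩ := List.mem_flatten.1 h
  have h1 : idx ch v < ch.length :=
    List.findIdx_lt_length_of_exists ⟨l, hl, by simpa using hv⟩
  refine ⟨h1, ?_⟩
  have h2 := List.findIdx_getElem (xs := ch) (p := fun l => decide (v ∈ l)) (w := h1)
  rw [List.getD_eq_getElem _ _ h1]
  exact of_decide_eq_true h2

theorem uniq {ch : List (List ℕ)} (hn : ch.flatten.Nodup) {v c c' : ℕ}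
    (h : v ∈ ch.getD c []) (h' : v ∈ ch.getD c' []) : c = c' := by
  have hc : c < ch.length := by
    by_contra hcon
    rw [List.getD_eq_default _ _ (not_lt.1 hcon)] at h
    exact absurd h (List.not_mem_nil)
  have hc' : c' < ch.length := by
    by_contra hcon
    rw [List.getD_eq_default _ _ (not_lt.1 hcon)] at h'
    exact absurd h' (List.not_mem_nil)
  rw [List.getD_eq_getElem _ _ hc] at h
  rw [List.getD_eq_getElem _ _ hc'] at h'
  have hp := (List.nodup_flatten.1 hn).2
  rw [List.pairwise_iff_getElem] at hp
  rcases lt_trichotomy c c' with h1 | h1 | h1
  · exact absurd h' (hp c c' hc hc' h1 h)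
  · exact h1
  · exact absurd h (hp c' c hc' hc h1 h')

/-- the ages -/
def sg (B : ℕ) (z : ℕ → ℕ) : ℕ → ℕ → ℕ
  | 0, _ => 0
  | t + 1, d => if d = z t then 1 else if sg B z t d = 0 then 0 else min (sg B z t d + 1) (B + 1)

theorem inv {ch : List (List ℕ)} (hn : ch.flatten.Nodup) {l : List ℕ} (hl : l.Nodup)
    (hm : ∀ v ∈ l, v ∈ ch.flatten) (B : ℕ) : ∀ t ≤ l.length, ∀ d,
    (sg B (fun i => idx ch (l.getD i 0)) t d = 0 ↔ ∀ u ∈ ch.getD d [], t ≤ l.idxOf u) ∧
    ∀ u ∈ ch.getD d [], l.idxOf u < t →
      (∀ u' ∈ ch.getD d [], l.idxOf u' < t → l.idxOf u' ≤ l.idxOf u) →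
      sg B (fun i => idx ch (l.getD i 0)) t d = min (t - l.idxOf u) (B + 1) := by
  intro t
  induction t with
  | zero =>
    intro _ d
    refine ⟨⟨fun _ u _ => Nat.zero_le _, fun _ => rfl⟩, fun u _ h => absurd h (by omega)⟩
  | succ t ih =>
    intro ht d
    have ht' : t < l.length := ht
    obtain ⟨ha, hb⟩ := ih ht'.le d
    have hv : l.getD t 0 = l[t] := List.getD_eq_getElem _ _ ht'
    have hpv : l.idxOf l[t] = t := hl.idxOf_getElem t ht'
    have hvm : l[t] ∈ ch.flatten := hm _ (List.getElem_mem _)
    obtain ⟨hk, hvi⟩ := idx_spec hvm
    simp only [sg, hv]
    by_cases hd : d = idx ch l[t]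
    · rw [if_pos hd]
      subst hd
      refine ⟨⟨fun h => absurd h one_ne_zero, fun h => ?_⟩, fun u hu h1 h2 => ?_⟩
      · have := h _ hvi
        rw [hpv] at this
        omega
      · have := h2 _ hvi (by rw [hpv]; omega)
        rw [hpv] at this
        have e : t + 1 - l.idxOf u = 1 := by omega
        rw [e]
        omega
    · rw [if_neg hd]
      have hne : ∀ u ∈ ch.getD d [], l.idxOf u ≠ t := by
        intro u hu he
        have h1 : l.idxOf u < l.length := by omega
        have h2 : l[l.idxOf u] = u := List.getElem_idxOf h1
        have h3 : l[t] = u := by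
          rw [← h2]
          congr 1
          exact he.symm
        rw [← h3] at hu
        exact hd (uniq hn hu hvi)
      constructor
      · constructor
        · intro h u hu
          have h0 : sg B (fun i => idx ch (l.getD i 0)) t d = 0 := by
            by_contra hcon
            rw [if_neg hcon] at h
            omega
          have := ha.1 h0 u hu
          have := hne u hu
          omega
        · intro h
          rw [if_pos (ha.2 fun u hu => by have := h u hu; omega)]
      · intro u hu h1 h2
        have h3 : l.idxOf u < t := by
          have := hne u hu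
          omega
        have h4 := hb u hu h3 (fun u' hu' h5 => h2 u' hu' (by omega))
        rw [h4]
        have h5 : min (t - l.idxOf u) (B + 1) ≠ 0 := by omega
        rw [if_neg h5]
        omega

theorem mono {n : ℕ} {A : ℕ → ℕ → Bool} {ch : List (List ℕ)} {B : ℕ} (hD : Dec n A ch)
    {l : List ℕ} (harc : ∀ u v, u < n → v < n → A u v = true →
      l.idxOf u < l.idxOf v ∧ l.idxOf v ≤ l.idxOf u + B) {C : List ℕ} (hC : C ∈ ch) (i : ℕ) :
    ∀ (j : ℕ) (hij : i < j) (hj : j < C.length), l.idxOf C[i] < l.idxOf C[j] := by
  have hmem : ∀ (j : ℕ) (hj : j < C.length), C[j] < n := fun j hj =>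
    (hD.mem _).1 (List.mem_flatten.2 ⟨C, hC, List.getElem_mem _⟩)
  have hstep : ∀ (j : ℕ) (hj : j + 1 < C.length), l.idxOf C[j] < l.idxOf C[j + 1] := fun j hj =>
    (harc _ _ (hmem j (by omega)) (hmem _ hj) (hD.cons C hC j hj)).1
  intro j
  induction j with
  | zero => intro h; omega
  | succ j ih =>
    intro hij hj
    rcases Nat.lt_succ_iff_lt_or_eq.1 hij with h | h
    · exact (ih h (by omega)).trans (hstep j hj)
    · subst h
      exact hstep i hj

theorem EQ1 : S_EQ1 := by
  intro n A ch B hD hO
  obtain ⟨l, hl, hmem, harc⟩ := hO
  have hfl : ∀ v ∈ l, v ∈ ch.flatten := fun v hv => (hD.mem v).2 ((hmem v).1 hv)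
  have hCn : ∀ c v, v ∈ ch.getD c [] → c < ch.length ∧ v < n := by
    intro c v hv
    have hc : c < ch.length := by
      by_contra hcon
      rw [List.getD_eq_default _ _ (not_lt.1 hcon)] at hv
      exact absurd hv (List.not_mem_nil)
    refine ⟨hc, (hD.mem v).1 (List.mem_flatten.2 ⟨ch[c], List.getElem_mem _, ?_⟩)⟩
    rwa [List.getD_eq_getElem _ _ hc] at hv
  refine ⟨l.map (idx ch), ?_, ?_⟩
  · intro c
    have e1 : (l.map (idx ch)).count c = (l.filter (fun v => decide (idx ch v = c))).length := by
      rw [List.count, List.countP_map, List.countP_eq_length_filter]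
      congr 2
    rw [e1]
    apply List.Perm.length_eq
    rw [List.perm_ext_iff_of_nodup (hl.filter _) ?_]
    · intro v
      rw [List.mem_filter, decide_eq_true_iff]
      constructor
      · rintro ⟨h1, rfl⟩
        exact (idx_spec (hfl v h1)).2
      · intro h1
        have h2 : v ∈ l := (hmem v).2 (hCn c v h1).2
        exact ⟨h2, uniq hD.nodup (idx_spec (hfl v h2)).2 h1⟩
    · by_cases hc : c < ch.length
      · rw [List.getD_eq_getElem _ _ hc]
        exact (List.nodup_flatten.1 hD.nodup).1 _ (List.getElem_mem _)
      · rw [List.getD_eq_default _ _ (not_lt.1 hc)]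
        exact List.nodup_nil
  · have hinv := inv hD.nodup hl hfl B
    set σ := sg B (fun i => idx ch (l.getD i 0)) with hσ
    set k := ch.length with hk
    have key : ∀ t ≤ l.length, run (mstep k B (EE A ch)) (List.replicate k 0)
        ((l.map (idx ch)).take t) = some ((List.range k).map (σ t)) := by
      intro t
      induction t with
      | zero =>
        intro _
        simp only [List.take_zero, run]
        congr 1
        apply List.ext_getElem
        · simp
        · intro i h1 h2
          simp [hσ, sg]
      | succ t ih =>
        intro ht
        have ht' : t < l.length := ht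
        obtain ⟨v, hv⟩ : ∃ v, v = l[t] := ⟨_, rfl⟩
        have hvl : v ∈ l := by rw [hv]; exact List.getElem_mem _
        have hpv : l.idxOf v = t := by rw [hv]; exact hl.idxOf_getElem t ht'
        have hvn : v < n := (hmem v).1 hvl
        obtain ⟨hck, hvc⟩ := idx_spec (hfl v hvl)
        obtain ⟨c, hc⟩ : ∃ c, c = idx ch v := ⟨_, rfl⟩
        rw [← hc] at hck hvc
        have hlt : t < (l.map (idx ch)).length := by simpa using ht'
        rw [List.take_succ_eq_append_getElem hlt, run_append, ih ht'.le]
        have e1 : (l.map (idx ch))[t] = c := by
          rw [List.getElem_map, hc, hv]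
        have hget : ∀ d, d < k → ((List.range k).map (σ t)).getD d 0 = σ t d := by
          intro d hd
          rw [List.getD_eq_getElem _ _ (by simpa using hd)]
          simp
        simp only [Option.bind_some, run, e1]
        -- the chain of `v`
        have hcC : ch.getD c [] = ch[c] := List.getD_eq_getElem _ _ hck
        obtain ⟨i, hi, hiv⟩ := List.mem_iff_getElem.1 hvc
        have hCmem : ch.getD c [] ∈ ch := by rw [hcC]; exact List.getElem_mem _
        have hcond : c < k ∧ ((σ t c = 0 ∧ ∀ d < k, EE A ch d c = true → 1 ≤ σ t d ∧ σ t d ≤ B) ∨
            (1 ≤ σ t c ∧ σ t c ≤ B ∧ ∀ d < k, EE A ch c d = true → σ t d = 0)) := by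
          refine ⟨hck, ?_⟩
          by_cases hi0 : i = 0
          · left
            subst hi0
            refine ⟨(hinv t ht'.le c).1.2 ?_, ?_⟩
            · intro u hu
              obtain ⟨j, hj, rfl⟩ := List.mem_iff_getElem.1 hu
              rcases Nat.eq_zero_or_pos j with rfl | h
              · rw [hiv, hpv]
              · have := mono hD harc hCmem 0 j h hj
                rw [hiv, hpv] at this
                exact this.le
            · intro d hd hE
              have hdC : ch.getD d [] = ch[d] := List.getD_eq_getElem _ _ hd
              have hdm : ch.getD d [] ∈ ch := by rw [hdC]; exact List.getElem_mem _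
              have hne : ch.getD d [] ≠ [] := hD.ne _ hdm
              have hlen : 0 < (ch.getD d []).length := List.length_pos_iff.2 hne
              obtain ⟨u, hu⟩ : ∃ u, u = (ch.getD d [])[(ch.getD d []).length - 1] := ⟨_, rfl⟩
              have hlast : (ch.getD d []).getLastD 0 = u := by
                rw [hu, List.getLastD_eq_getLast?, List.getLast?_eq_getLast_of_ne_nil hne,
                  Option.getD_some, List.getLast_eq_getElem]
              have hhead : (ch.getD c []).headD 0 = v := by
                rw [← hiv, List.headD_eq_head?_getD, List.head?_eq_getElem?,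
                  List.getElem?_eq_getElem hi, Option.getD_some]
              rw [EE, hlast, hhead] at hE
              have hum : u ∈ ch.getD d [] := by rw [hu]; exact List.getElem_mem _
              obtain ⟨h1, h2⟩ := harc u v (hCn d u hum).2 hvn hE
              rw [hpv] at h1 h2
              have h3 := (hinv t ht'.le d).2 u hum h1 (by
                intro u' hu' _
                obtain ⟨j, hj, rfl⟩ := List.mem_iff_getElem.1 hu'
                rcases Nat.lt_or_ge j ((ch.getD d []).length - 1) with h | h
                · have := mono hD harc hdm j _ h (by omega)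
                  rw [hu]
                  exact this.le
                · have e : j = (ch.getD d []).length - 1 := by omega
                  subst e
                  rw [hu])
              rw [h3]
              omega
          · right
            obtain ⟨m, rfl⟩ := Nat.exists_eq_succ_of_ne_zero hi0
            have hi1 : m < (ch.getD c []).length := by omega
            obtain ⟨u, hu⟩ : ∃ u, u = (ch.getD c [])[m] := ⟨_, rfl⟩
            have hum : u ∈ ch.getD c [] := by rw [hu]; exact List.getElem_mem _
            have hA : A u v = true := by
              rw [hu, ← hiv]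
              exact hD.cons _ hCmem m hi
            obtain ⟨h1, h2⟩ := harc u v (hCn c u hum).2 hvn hA
            rw [hpv] at h1 h2
            have h3 := (hinv t ht'.le c).2 u hum h1 (by
              intro u' hu' h4
              obtain ⟨j, hj, rfl⟩ := List.mem_iff_getElem.1 hu'
              rcases lt_trichotomy j m with h | h | h
              · rw [hu]
                exact (mono hD harc hCmem j _ h hi1).le
              · subst h
                rw [hu]
              · exfalso
                rcases Nat.lt_or_ge (m + 1) j with h5 | h5
                · have := mono hD harc hCmem (m + 1) j h5 hj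
                  rw [hiv, hpv] at this
                  omega
                · have e : j = m + 1 := by omega
                  subst e
                  rw [hiv, hpv] at h4
                  omega)
            refine ⟨?_, ?_, ?_⟩
            · rw [h3]; omega
            · rw [h3]; omega
            · intro d hd hE
              apply (hinv t ht'.le d).1.2
              have hdC : ch.getD d [] = ch[d] := List.getD_eq_getElem _ _ hd
              have hdm : ch.getD d [] ∈ ch := by rw [hdC]; exact List.getElem_mem _
              have hne : ch.getD d [] ≠ [] := hD.ne _ hdm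
              have hlen : 0 < (ch.getD d []).length := List.length_pos_iff.2 hne
              have hnec : ch.getD c [] ≠ [] := hD.ne _ hCmem
              obtain ⟨x, hx⟩ : ∃ x, x = (ch.getD c [])[(ch.getD c []).length - 1] := ⟨_, rfl⟩
              obtain ⟨y, hy⟩ : ∃ y, y = (ch.getD d [])[0] := ⟨_, rfl⟩
              have hlast : (ch.getD c []).getLastD 0 = x := by
                rw [hx, List.getLastD_eq_getLast?, List.getLast?_eq_getLast_of_ne_nil hnec,
                  Option.getD_some, List.getLast_eq_getElem]
              have hhead : (ch.getD d []).headD 0 = y := by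
                rw [hy, List.headD_eq_head?_getD, List.head?_eq_getElem?,
                  List.getElem?_eq_getElem hlen, Option.getD_some]
              rw [EE, hlast, hhead] at hE
              have hxm : x ∈ ch.getD c [] := by rw [hx]; exact List.getElem_mem _
              have hym : y ∈ ch.getD d [] := by rw [hy]; exact List.getElem_mem _
              obtain ⟨h4, h5⟩ := harc x y (hCn c x hxm).2 (hCn d y hym).2 hE
              have h6 : t ≤ l.idxOf x := by
                rcases Nat.lt_or_ge (m + 1) ((ch.getD c []).length - 1) with h | h
                · have := mono hD harc hCmem (m + 1) _ h (by omega)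
                  rw [hiv, hpv] at this
                  rw [hx]
                  exact this.le
                · have e : (ch.getD c []).length - 1 = m + 1 := by omega
                  have e2 : x = v := by
                    rw [hx, ← hiv]
                    simp only [e]
                  rw [e2, hpv]
              intro u' hu'
              obtain ⟨j, hj, rfl⟩ := List.mem_iff_getElem.1 hu'
              rcases Nat.eq_zero_or_pos j with rfl | h
              · rw [← hy]; omega
              · have := mono hD harc hdm 0 j h hj
                rw [← hy] at this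
                omega
        have hstep : mstep k B (EE A ch) ((List.range k).map (σ t)) c =
            some ((List.range k).map (σ (t + 1))) := by
          have hcond' : c < k ∧ ((((List.range k).map (σ t)).getD c 0 = 0 ∧ ∀ d < k,
              EE A ch d c = true → 1 ≤ ((List.range k).map (σ t)).getD d 0 ∧
                ((List.range k).map (σ t)).getD d 0 ≤ B) ∨
              (1 ≤ ((List.range k).map (σ t)).getD c 0 ∧ ((List.range k).map (σ t)).getD c 0 ≤ B ∧
                ∀ d < k, EE A ch c d = true → ((List.range k).map (σ t)).getD d 0 = 0)) := by
            refine ⟨hcond.1, hcond.2.imp ?_ ?_⟩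
            · rintro ⟨h1, h2⟩
              refine ⟨by rw [hget c hck]; exact h1, fun d hd hE => ?_⟩
              rw [hget d hd]
              exact h2 d hd hE
            · rintro ⟨h1, h2, h3⟩
              refine ⟨by rw [hget c hck]; exact h1, by rw [hget c hck]; exact h2,
                fun d hd hE => ?_⟩
              rw [hget d hd]
              exact h3 d hd hE
          rw [mstep, if_pos hcond']
          congr 1
          apply List.map_congr_left
          intro d hd
          rw [hget d (List.mem_range.1 hd)]
          have e2 : idx ch (l.getD t 0) = c := by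
            rw [List.getD_eq_getElem _ _ ht', ← hv, hc]
          simp only [hσ, sg, e2]
        rw [hstep]
        rfl
    have h1 := key l.length le_rfl
    rw [List.take_of_length_le (by simp)] at h1
    rw [h1]
    rfl

end Pool.Agent.H505.BWEQ1
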