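import Mathlib

/-!
# Mean values of arithmetic functions
-/

set_option autoImplicit false
set_option linter.unusedSectionVars false
set_option linter.unusedVariables false

open Filter Topology Finset

namespace Pool.Agent.H505

/-- `∑_{0 < n < x} f(n)` -/
noncomputable def SA (f : ℕ → ℝ) (x : ℝ) : ℝ := ∑ n ∈ Finset.Ico 1 ⌈x⌉₊, f n

/-- `f` has the mean value `c` -/
def Mean (f : ℕ → ℝ) (c : ℝ) : Prop := Tendsto (fun x : ℝ => SA f x / x) atTop (𝓝 c)

lemma mem_Ico_ceil {n : ℕ} {x : ℝ} : n ∈ Finset.Ico 1 ⌈x⌉₊ ↔ 0 < n ∧ (n : ℝ) < x := by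
  rw [Finset.mem_Ico, Nat.lt_ceil, Nat.one_le_iff_ne_zero, Nat.pos_iff_ne_zero]

lemma SA_congr {f g : ℕ → ℝ} (h : ∀ n, 0 < n → f n = g n) (x : ℝ) : SA f x = SA g x :=
  Finset.sum_congr rfl fun n hn => h n (mem_Ico_ceil.1 hn).1

lemma SA_add (f g : ℕ → ℝ) (x : ℝ) : SA (fun n => f n + g n) x = SA f x + SA g x :=
  Finset.sum_add_distrib

lemma SA_sub (f g : ℕ → ℝ) (x : ℝ) : SA (fun n => f n - g n) x = SA f x - SA g x :=
  Finset.sum_sub_distrib _ _

lemma SA_mul (c : ℝ) (f : ℕ → ℝ) (x : ℝ) : SA (fun n => c * f n) x = c * SA f x :=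
  (Finset.mul_sum _ _ _).symm

lemma SA_one (x : ℝ) : SA (fun _ => 1) x = ((⌈x⌉₊ - 1 : ℕ) : ℝ) := by
  unfold SA
  rw [Finset.sum_const, Nat.card_Ico, nsmul_eq_mul, mul_one]

lemma SA_one_le {x : ℝ} (hx : 0 ≤ x) : SA (fun _ => 1) x ≤ x := by
  rw [SA_one]
  rcases Nat.eq_zero_or_pos ⌈x⌉₊ with h | h
  · rw [h]; simpa using hx
  · rw [Nat.cast_sub h]
    have := Nat.ceil_lt_add_one hx
    push_cast
    linarith

lemma SA_one_ge (x : ℝ) : x - 1 ≤ SA (fun _ => 1) x := by
  rw [SA_one]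
  have h1 : x ≤ (⌈x⌉₊ : ℝ) := Nat.le_ceil x
  rcases Nat.eq_zero_or_pos ⌈x⌉₊ with h | h
  · rw [h]
    rw [h] at h1
    push_cast at h1 ⊢
    norm_num
    linarith
  · rw [Nat.cast_sub h]
    push_cast
    linarith

lemma SA_bound {f : ℕ → ℝ} {C : ℝ} (hC : ∀ n, |f n| ≤ C) {x : ℝ} (hx : 0 ≤ x) :
    |SA f x| ≤ C * x := by
  have hC0 : 0 ≤ C := (abs_nonneg _).trans (hC 0)
  calc |SA f x| ≤ ∑ n ∈ Finset.Ico 1 ⌈x⌉₊, |f n| := Finset.abs_sum_le_sum_abs _ _
    _ ≤ ∑ n ∈ Finset.Ico 1 ⌈x⌉₊, C := Finset.sum_le_sum fun n _ => hC n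
    _ = C * SA (fun _ => 1) x := by
      unfold SA
      rw [Finset.mul_sum]
      simp
    _ ≤ C * x := mul_le_mul_of_nonneg_left (SA_one_le hx) hC0

lemma mean_one : Mean (fun _ => 1) 1 := by
  have h1 : Tendsto (fun x : ℝ => 1 - 1 / x) atTop (𝓝 (1 - 0)) :=
    tendsto_const_nhds.sub (tendsto_const_nhds.div_atTop tendsto_id)
  rw [sub_zero] at h1
  refine tendsto_of_tendsto_of_tendsto_of_le_of_le' h1 tendsto_const_nhds ?_ ?_
  · filter_upwards [eventually_gt_atTop 0] with x hx
    have := SA_one_ge x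
    rw [le_div_iff₀ hx]
    field_simp
    linarith
  · filter_upwards [eventually_gt_atTop 0] with x hx
    rw [div_le_one hx]
    exact SA_one_le hx.le

lemma Mean.dil {f : ℕ → ℝ} {c : ℝ} (h : Mean f c) {a : ℝ} (ha : 0 < a) :
    Tendsto (fun x : ℝ => SA f (x / a) / x) atTop (𝓝 (c / a)) := by
  have h1 : Tendsto (fun x : ℝ => x / a) atTop atTop := tendsto_id.atTop_div_const ha
  have h2 := (h.comp h1).div_const a
  refine h2.congr' ?_
  filter_upwards [eventually_gt_atTop 0] with x hx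
  simp only [Function.comp]
  field_simp

lemma Mean.add {f g : ℕ → ℝ} {c d : ℝ} (hf : Mean f c) (hg : Mean g d) :
    Mean (fun n => f n + g n) (c + d) := by
  unfold Mean at *
  refine (hf.add hg).congr fun x => ?_
  rw [SA_add, add_div]

lemma Mean.mul {f : ℕ → ℝ} {c : ℝ} (hf : Mean f c) (a : ℝ) : Mean (fun n => a * f n) (a * c) := by
  unfold Mean at *
  refine (hf.const_mul a).congr fun x => ?_
  rw [SA_mul, mul_div_assoc]

lemma Mean.congr {f g : ℕ → ℝ} {c : ℝ} (hf : Mean f c) (h : ∀ n, 0 < n → f n = g n) :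
    Mean g c := by
  unfold Mean at *
  refine hf.congr fun x => ?_
  rw [SA_congr h]

/-- splitting off the multiples of `p` -/
lemma SA_split {p : ℕ} (hp : 0 < p) (f : ℕ → ℝ) (x : ℝ) :
    SA f x = SA (fun n => if p ∣ n then 0 else f n) x + SA (fun m => f (p * m)) (x / p) := by
  unfold SA
  rw [← Finset.sum_filter_add_sum_filter_not (Finset.Ico 1 ⌈x⌉₊) (fun n => ¬ p ∣ n)]
  congr 1
  · rw [Finset.sum_filter]
    refine Finset.sum_congr rfl fun n _ => ?_
    by_cases h : p ∣ n
    · simp [h]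
    · simp [h]
  · symm
    refine Finset.sum_bij (fun m _ => p * m) ?_ ?_ ?_ ?_
    · intro m hm
      rw [mem_Ico_ceil] at hm
      rw [Finset.mem_filter, mem_Ico_ceil]
      refine ⟨⟨Nat.mul_pos hp hm.1, ?_⟩, ?_⟩
      · push_cast
        have h1 : (0 : ℝ) < p := by exact_mod_cast hp
        rw [lt_div_iff₀ h1] at hm
        linarith [hm.2, mul_comm (m : ℝ) p]
      · simp
    · intro a _ b _ h
      exact Nat.eq_of_mul_eq_mul_left hp h
    · intro n hn
      rw [Finset.mem_filter, mem_Ico_ceil, not_not] at hn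
      obtain ⟨⟨h1, h2⟩, m, rfl⟩ := hn
      refine ⟨m, ?_, rfl⟩
      rw [mem_Ico_ceil]
      have h3 : (0 : ℝ) < p := by exact_mod_cast hp
      refine ⟨Nat.pos_of_ne_zero (by rintro rfl; simp at h1), ?_⟩
      rw [lt_div_iff₀ h3]
      push_cast at h2
      linarith [mul_comm (m : ℝ) p]
    · intro m _
      rfl

/-- the recursion lemma -/
lemma rec_lim {t : ℝ → ℝ} {p l C : ℝ} (hp : 2 ≤ p) (hb : ∀ x, 0 < x → |t x| ≤ C)
    (h : Tendsto (fun x => t x + t (x / p) / p) atTop (𝓝 l)) :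
    Tendsto t atTop (𝓝 (l / (1 + 1 / p))) := by
  have hp0 : 0 < p := by linarith
  set L := l / (1 + 1 / p) with hL
  have hL1 : L + L / p = l := by
    rw [hL]; field_simp
  set D := C + |L| + 1 with hD
  have hC0 : 0 ≤ C := (abs_nonneg _).trans (hb 1 one_pos)
  have hD0 : 0 < D := by rw [hD]; positivity
  have hdiv : Tendsto (fun x : ℝ => x / p) atTop atTop := tendsto_id.atTop_div_const hp0
  have hu : Tendsto (fun x => (t x - L) + (t (x / p) - L) / p) atTop (𝓝 0) := by
    have h1 := h.sub_const l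
    rw [sub_self] at h1
    refine h1.congr fun x => ?_
    rw [← hL1]
    ring
  have key : ∀ n : ℕ, ∀ᶠ x in atTop, |t x - L| ≤ D * (3 / 4) ^ n := by
    intro n
    induction n with
    | zero =>
      filter_upwards [eventually_gt_atTop 0] with x hx
      rw [pow_zero, mul_one]
      calc |t x - L| ≤ |t x| + |L| := abs_sub _ _
        _ ≤ D := by rw [hD]; linarith [hb x hx]
    | succ n ih =>
      have h1 := hdiv.eventually ih
      have hpos : 0 < D * (3 / 4) ^ n / 4 := by positivity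
      have h2 : ∀ᶠ x in atTop, |(t x - L) + (t (x / p) - L) / p| < D * (3 / 4) ^ n / 4 := by
        have := hu.abs
        rw [abs_zero] at this
        exact this.eventually (gt_mem_nhds hpos)
      filter_upwards [h1, h2] with x h1 h2
      have h3 : |(t (x / p) - L) / p| ≤ D * (3 / 4) ^ n / 2 := by
        rw [abs_div, abs_of_pos hp0, div_le_iff₀ hp0]
        have : D * (3 / 4) ^ n ≤ D * (3 / 4) ^ n / 2 * p := by
          have h5 : 0 < D * (3 / 4) ^ n := by positivity
          nlinarith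
        linarith
      have h4 : |t x - L| ≤ |(t x - L) + (t (x / p) - L) / p| + |(t (x / p) - L) / p| := by
        have := abs_sub ((t x - L) + (t (x / p) - L) / p) ((t (x / p) - L) / p)
        rwa [add_sub_cancel_right] at this
      rw [pow_succ]
      linarith
  rw [Metric.tendsto_atTop]
  intro ε hε
  obtain ⟨n, hn⟩ := exists_pow_lt_of_lt_one (div_pos hε hD0) (by norm_num : (3 / 4 : ℝ) < 1)
  obtain ⟨x₀, hx₀⟩ := eventually_atTop.1 (key n)
  refine ⟨x₀, fun x hx => ?_⟩
  rw [Real.dist_eq]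
  calc |t x - L| ≤ D * (3 / 4) ^ n := hx₀ x hx
    _ < D * (ε / D) := mul_lt_mul_of_pos_left hn hD0
    _ = ε := by field_simp

/-- the part prime to `p` -/
lemma mean_cop {p : ℕ} (hp : p.Prime) {f : ℕ → ℝ} {c C : ℝ} (hf : Mean f c)
    (hC : ∀ n, |f n| ≤ C) (h : ∀ m, 0 < m → f (p * m) = if p ∣ m then 0 else f m) :
    Mean (fun n => if p ∣ n then 0 else f n) (c / (1 + 1 / p)) := by
  have hp2 : (2 : ℝ) ≤ p := by exact_mod_cast hp.two_le
  have hp0 : (0 : ℝ) < p := by linarith
  have hC0 : 0 ≤ C := (abs_nonneg _).trans (hC 0)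
  set g : ℕ → ℝ := fun n => if p ∣ n then 0 else f n with hg
  have hgC : ∀ n, |g n| ≤ C := by
    intro n
    simp only [hg]
    split_ifs
    · rw [abs_zero]; exact hC0
    · exact hC n
  refine rec_lim (t := fun x => SA g x / x) (C := C) hp2 ?_ ?_
  · intro x hx
    rw [abs_div, abs_of_pos hx, div_le_iff₀ hx]
    exact SA_bound hgC hx.le
  · refine hf.congr' ?_
    filter_upwards [eventually_gt_atTop 0] with x hx
    have h1 := SA_split hp.pos f x
    have h2 : SA (fun m => f (p * m)) (x / p) = SA g (x / p) := SA_congr (fun m hm => h m hm) _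
    rw [h2] at h1
    rw [h1]
    have h3 : SA g (x / p) / (x / p) / p = SA g (x / p) / x := by
      field_simp
    rw [h3, add_div]

/-- changing the sign at the multiples of `p` -/
lemma mean_flip {p : ℕ} (hp : p.Prime) {f : ℕ → ℝ} {c C : ℝ} (hf : Mean f c)
    (hC : ∀ n, |f n| ≤ C) (h : ∀ m, 0 < m → f (p * m) = if p ∣ m then 0 else f m) :
    Mean (fun n => f n * (if p ∣ n then -1 else 1)) (c * (((p : ℝ) - 1) / (p + 1))) := by
  have hp2 : (2 : ℝ) ≤ p := by exact_mod_cast hp.two_le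
  have hp0 : (0 : ℝ) < p := by linarith
  have h1 := mean_cop hp hf hC h
  have h2 := h1.dil hp0
  unfold Mean at h1 ⊢
  have h3 := h1.sub h2
  have h4 : c / (1 + 1 / (p : ℝ)) - c / (1 + 1 / (p : ℝ)) / p = c * (((p : ℝ) - 1) / (p + 1)) := by
    field_simp
  rw [h4] at h3
  refine h3.congr fun x => ?_
  rw [SA_split hp.pos (fun n => f n * (if p ∣ n then -1 else 1)), ← sub_div]
  congr 1
  rw [sub_eq_add_neg]
  congr 1
  · apply SA_congr
    intro n _
    by_cases hn : p ∣ n
    · simp only [if_pos hn]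
    · simp only [if_neg hn, mul_one]
  · have h5 : (fun m => f (p * m) * (if p ∣ p * m then (-1 : ℝ) else 1)) =
        fun m => (-1 : ℝ) * f (p * m) := by
      funext m
      rw [if_pos (dvd_mul_right p m)]
      ring
    rw [h5, SA_mul, neg_one_mul, neg_inj]
    exact (SA_congr (fun m hm => h m hm) _).symm

/-! ## the squarefree numbers -/

open ArithmeticFunction in
lemma sum_moebius_sq {n N : ℕ} (hn : 0 < n) (hN : n < N) :
    ∑ d ∈ (Finset.range N).filter (fun d => d * d ∣ n), moebius d =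
      if Squarefree n then 1 else 0 := by
  obtain ⟨a, b, ha, hb, hab, hsq⟩ := Nat.sq_mul_squarefree_of_pos hn
  have h1 : (Finset.range N).filter (fun d => d * d ∣ n) = b.divisors := by
    ext d
    rw [Finset.mem_filter, Finset.mem_range, Nat.mem_divisors]
    constructor
    · rintro ⟨-, h2⟩
      refine ⟨?_, hb.ne'⟩
      have hd0 : d ≠ 0 := by
        rintro rfl
        rw [mul_zero] at h2
        exact hn.ne' (Nat.eq_zero_of_zero_dvd h2)
      rw [← Nat.factorization_le_iff_dvd hd0 hb.ne']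
      intro p
      have h3 := (Nat.factorization_le_iff_dvd (mul_ne_zero hd0 hd0) hn.ne').2 h2 p
      rw [← hab, Nat.factorization_mul (pow_ne_zero 2 hb.ne') ha.ne', Nat.factorization_pow,
        Nat.factorization_mul hd0 hd0] at h3
      simp only [Finsupp.coe_add, Finsupp.coe_smul, Pi.add_apply, Pi.smul_apply, smul_eq_mul] at h3
      have h4 := hsq.natFactorization_le_one p
      omega
    · rintro ⟨h2, -⟩
      have h3 : d * d ∣ n := by
        rw [← hab, pow_two]
        exact (Nat.mul_dvd_mul h2 h2).mul_right a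
      refine ⟨?_, h3⟩
      have h4 : d ∣ n := (dvd_mul_right d d).trans h3
      exact (Nat.le_of_dvd hn h4).trans_lt hN
  rw [h1, ← ArithmeticFunction.coe_mul_zeta_apply, ArithmeticFunction.moebius_mul_coe_zeta,
    ArithmeticFunction.one_apply]
  congr 1
  rw [eq_iff_iff]
  constructor
  · rintro rfl
    rw [one_pow, one_mul] at hab
    rw [← hab]
    exact hsq
  · intro h2
    rw [← hab] at h2
    have h3 := h2 b (by rw [pow_two]; exact dvd_mul_right _ _)
    exact Nat.isUnit_iff.1 h3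


lemma card_mult {d : ℕ} (hd : 0 < d) (x : ℝ) :
    ∑ n ∈ Finset.Ico 1 ⌈x⌉₊, (if d ∣ n then (1 : ℝ) else 0) = SA (fun _ => 1) (x / d) := by
  have h1 := SA_split hd (fun n => if d ∣ n then (1 : ℝ) else 0) x
  have h2 : SA (fun n => if d ∣ n then (0 : ℝ) else (if d ∣ n then (1 : ℝ) else 0)) x = 0 := by
    unfold SA
    apply Finset.sum_eq_zero
    intro n _
    split_ifs <;> rfl
  rw [h2, zero_add] at h1
  have h3 : SA (fun m => if d ∣ d * m then (1 : ℝ) else 0) (x / d) = SA (fun _ => 1) (x / d) := by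
    apply SA_congr
    intro m _
    rw [if_pos (dvd_mul_right d m)]
  rw [h3] at h1
  exact h1

open ArithmeticFunction in
/-- the number of the squarefree integers -/
lemma SA_sqf {x : ℝ} (hx : 0 < x) :
    SA (fun n => if Squarefree n then 1 else 0) x =
      ∑' d : ℕ, (moebius d : ℝ) * SA (fun _ => 1) (x / ((d * d : ℕ) : ℝ)) := by
  set N := ⌈x⌉₊ with hN
  have hN0 : 0 < N := Nat.ceil_pos.2 hx
  rw [tsum_eq_sum (s := Finset.range N)]
  · unfold SA
    rw [← hN]
    have h1 : ∀ n ∈ Finset.Ico 1 N, (if Squarefree n then (1 : ℝ) else 0) =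
        ∑ d ∈ Finset.range N, (moebius d : ℝ) * (if d * d ∣ n then 1 else 0) := by
      intro n hn
      rw [Finset.mem_Ico] at hn
      have h2 := sum_moebius_sq (n := n) (N := N) (by omega) hn.2
      have h3 := congrArg (fun k : ℤ => (k : ℝ)) h2
      push_cast at h3
      rw [← h3, Finset.sum_filter]
      refine Finset.sum_congr rfl fun d _ => ?_
      split_ifs <;> simp
    rw [Finset.sum_congr rfl h1, Finset.sum_comm]
    refine Finset.sum_congr rfl fun d _ => ?_
    rw [← Finset.mul_sum]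
    rcases Nat.eq_zero_or_pos d with rfl | hd
    · simp
    · congr 1
      have h4 := card_mult (Nat.mul_pos hd hd) x
      unfold SA at h4
      rw [← hN] at h4
      exact h4
  · intro d hd
    rw [Finset.mem_range, not_lt] at hd
    have hd0 : 0 < d := lt_of_lt_of_le hN0 hd
    have h5 : x / ((d * d : ℕ) : ℝ) ≤ 1 := by
      have h6 : (0 : ℝ) < ((d * d : ℕ) : ℝ) := by exact_mod_cast Nat.mul_pos hd0 hd0
      rw [div_le_one h6]
      have h7 : x ≤ (N : ℝ) := Nat.le_ceil x
      have h8 : (N : ℝ) ≤ (d : ℝ) := by exact_mod_cast hd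
      have h9 : (1 : ℝ) ≤ (d : ℝ) := by exact_mod_cast hd0
      push_cast
      nlinarith
    have h6 : SA (fun _ => 1) (x / ((d * d : ℕ) : ℝ)) = 0 := by
      rw [SA_one]
      have : ⌈x / ((d * d : ℕ) : ℝ)⌉₊ ≤ 1 := by
        rw [Nat.ceil_le]
        exact_mod_cast h5
      have h7 : ⌈x / ((d * d : ℕ) : ℝ)⌉₊ - 1 = 0 := by omega
      rw [h7, Nat.cast_zero]
    rw [h6, mul_zero]

open ArithmeticFunction in
/-- the squarefree integers have a positive density -/
lemma mean_sqf : ∃ c : ℝ, 0 < c ∧ Mean (fun n => if Squarefree n then 1 else 0) c := by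
  have hsum : Summable (fun d : ℕ => 1 / ((d : ℝ) ^ 2)) := by
    have := Real.summable_one_div_nat_pow (p := 2)
    exact this.2 (by norm_num)
  have hle : ∀ (x : ℝ) (d : ℕ), 0 < x →
      ‖(moebius d : ℝ) * SA (fun _ => 1) (x / ((d * d : ℕ) : ℝ)) / x‖ ≤ 1 / ((d : ℝ) ^ 2) := by
    intro x d hx
    rcases Nat.eq_zero_or_pos d with rfl | hd
    · simp
    have hd' : (0 : ℝ) < ((d * d : ℕ) : ℝ) := by exact_mod_cast Nat.mul_pos hd hd
    have h1 : 0 ≤ SA (fun _ => 1) (x / ((d * d : ℕ) : ℝ)) := by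
      rw [SA_one]; exact Nat.cast_nonneg _
    have h2 : SA (fun _ => 1) (x / ((d * d : ℕ) : ℝ)) ≤ x / ((d * d : ℕ) : ℝ) :=
      SA_one_le (by positivity)
    have h3 : |(moebius d : ℝ)| ≤ 1 := by
      have := ArithmeticFunction.abs_moebius_le_one (n := d)
      exact_mod_cast this
    rw [Real.norm_eq_abs, abs_div, abs_mul, abs_of_nonneg h1, abs_of_pos hx, div_le_iff₀ hx]
    calc |(moebius d : ℝ)| * SA (fun _ => 1) (x / ((d * d : ℕ) : ℝ)) ≤
          1 * (x / ((d * d : ℕ) : ℝ)) := mul_le_mul h3 h2 h1 zero_le_one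
      _ = 1 / ((d : ℝ) ^ 2) * x := by push_cast; rw [pow_two]; ring
  have hlim : ∀ d : ℕ, Tendsto (fun x : ℝ => (moebius d : ℝ) *
      SA (fun _ => 1) (x / ((d * d : ℕ) : ℝ)) / x) atTop (𝓝 ((moebius d : ℝ) / (d : ℝ) ^ 2)) := by
    intro d
    rcases Nat.eq_zero_or_pos d with rfl | hd
    · simp
    have hd' : (0 : ℝ) < ((d * d : ℕ) : ℝ) := by exact_mod_cast Nat.mul_pos hd hd
    have h1 := (mean_one.dil hd').const_mul (moebius d : ℝ)
    have h2 : (moebius d : ℝ) * (1 / ((d * d : ℕ) : ℝ)) = (moebius d : ℝ) / (d : ℝ) ^ 2 := by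
      push_cast
      rw [pow_two]
      ring
    rw [h2] at h1
    refine h1.congr fun x => ?_
    ring
  have key := tendsto_tsum_of_dominated_convergence (𝓕 := (atTop : Filter ℝ))
    (f := fun x d => (moebius d : ℝ) * SA (fun _ => 1) (x / ((d * d : ℕ) : ℝ)) / x)
    (g := fun d => (moebius d : ℝ) / (d : ℝ) ^ 2) hsum hlim (by
      filter_upwards [eventually_gt_atTop 0] with x hx d
      exact hle x d hx)
  set c : ℝ := ∑' d : ℕ, (moebius d : ℝ) / (d : ℝ) ^ 2 with hc
  have hmean : Mean (fun n => if Squarefree n then 1 else 0) c := by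
    unfold Mean
    refine key.congr' ?_
    filter_upwards [eventually_gt_atTop 0] with x hx
    rw [SA_sqf hx, tsum_div_const]
  have hc0 : c ≠ 0 := by
    intro h0
    have h1 := LSeries_zeta_mul_Lseries_moebius (s := 2) (by norm_num)
    have h2 : LSeries (fun n => ((moebius n : ℤ) : ℂ)) 2 = ((c : ℝ) : ℂ) := by
      rw [hc, Complex.ofReal_tsum]
      unfold LSeries
      refine tsum_congr fun n => ?_
      rcases Nat.eq_zero_or_pos n with rfl | hn
      · simp
      · rw [LSeries.term_of_ne_zero hn.ne']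
        push_cast
        congr 1
        have := Complex.cpow_natCast (n : ℂ) 2
        exact_mod_cast this
    rw [h2, h0, Complex.ofReal_zero, mul_zero] at h1
    exact zero_ne_one h1
  have hc1 : 0 ≤ c := by
    refine ge_of_tendsto hmean ?_
    filter_upwards [eventually_gt_atTop 0] with x hx
    refine div_nonneg ?_ hx.le
    unfold SA
    apply Finset.sum_nonneg
    intro n _
    split_ifs <;> norm_num
  exact ⟨c, lt_of_le_of_ne hc1 hc0.symm, hmean⟩

end Pool.Agent.H505
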