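import Pool.Agent.H505.Dec

/-!
# Primitive quadratic characters: value at `-1`, and the decomposition along the discriminant
-/

set_option autoImplicit false
set_option linter.unusedSectionVars false
set_option linter.unusedVariables false

open ZMod

namespace Pool.Agent.H505

/-- the number of the prime divisors `≡ 3 mod 4` -/
def c3 (g : ℕ) : ℕ := (g.primeFactors.filter (fun p => p % 4 = 3)).card

lemma c3_one : c3 1 = 0 := by simp [c3]

lemma c3_mul {a b : ℕ} (ha : a ≠ 0) (hb : b ≠ 0) (h : a.Coprime b) : c3 (a * b) = c3 a + c3 b := by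
  unfold c3
  rw [Nat.primeFactors_mul ha hb, Finset.filter_union, Finset.card_union_of_disjoint]
  exact Finset.disjoint_filter_filter (Nat.Coprime.disjoint_primeFactors h)

lemma c3_prime {p : ℕ} (hp : p.Prime) : c3 p = if p % 4 = 3 then 1 else 0 := by
  unfold c3
  rw [Nat.Prime.primeFactors hp, Finset.filter_singleton]
  split_ifs <;> simp

lemma qc_neg_one {p : ℕ} [Fact p.Prime] (hp2 : p ≠ 2) : qc p (-1) = (-1) ^ c3 p := by
  have hp : p.Prime := Fact.out
  have hchar : ringChar (ZMod p) ≠ 2 := by rw [ZMod.ringChar_zmod_n]; exact hp2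
  rw [qc_apply, quadraticChar_neg_one hchar, ZMod.card, ZMod.χ₄_nat_eq_if_mod_four, c3_prime hp]
  have hodd : p % 2 = 1 := hp.eq_two_or_odd.resolve_left hp2
  rw [if_neg (by omega)]
  by_cases h : p % 4 = 1
  · rw [if_pos h, if_neg (by omega)]; simp
  · rw [if_neg h, if_pos (by omega)]; simp

/-- the value at `-1` -/
lemma neg_one_val : ∀ (g : ℕ), ¬ 2 ∣ g → Squarefree g → ∀ η ∈ PQ g, η (-1) = (-1) ^ c3 g := by
  intro g
  induction g using Nat.strong_induction_on with
  | _ g ih =>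
    intro hodd hsq η hη
    by_cases h1 : g = 1
    · subst h1
      rw [c3_one, pow_zero, DirichletCharacter.level_one η, MulChar.one_apply]
      exact isUnit_one.neg
    obtain ⟨m, hm⟩ := Nat.minFac_dvd g
    have hp := Nat.minFac_prime h1
    have hp2 : g.minFac ≠ 2 := fun h => hodd (by rw [← h]; exact Nat.minFac_dvd g)
    have hg0 : g ≠ 0 := hsq.ne_zero
    set p := g.minFac with hpdef
    clear_value p
    subst hm
    have : Fact p.Prime := ⟨hp⟩
    have hcop : p.Coprime m := by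
      rw [Nat.squarefree_mul_iff] at hsq
      exact hsq.1
    have hm0 : m ≠ 0 := by
      rintro rfl
      exact hg0 (mul_zero _)
    have : NeZero p := ⟨hp.ne_zero⟩
    have : NeZero m := ⟨hm0⟩
    have : NeZero (p * m) := ⟨hg0⟩
    have hlt : m < p * m := by
      have h2 := hp.two_le
      have h3 : 0 < m := Nat.pos_of_ne_zero hm0
      nlinarith
    have hη' : compL hcop η ∈ PQ p ∧ compR hcop η ∈ PQ m := by
      obtain ⟨e1, e2⟩ := hη
      rw [prim_prod hcop] at e1
      rw [pow_eq_one_iff' hcop] at e2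
      exact ⟨⟨e1.1, e2.1⟩, ⟨e1.2, e2.2⟩⟩
    have hL : compL hcop η = qc p := by
      have := hη'.1
      rwa [PQ_prime hp2, Set.mem_singleton_iff] at this
    have h5 := comp_int hcop η (-1)
    push_cast at h5
    rw [h5, hL, qc_neg_one hp2, ih m hlt (fun h => hodd (h.mul_left _))
      (by rw [Nat.squarefree_mul_iff] at hsq; exact hsq.2.2) _ hη'.2, c3_mul hp.ne_zero hm0 hcop,
      pow_add]

/-- the conductor of a real character is squarefree away from `2` -/
lemma not_sq_dvd {q : ℕ} (hq : q ≠ 0) {η : DirichletCharacter ℂ q} (hη : η ∈ PQ q) {p : ℕ}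
    (hp : p.Prime) (hp2 : p ≠ 2) : ¬ p * p ∣ q := by
  intro hpp
  obtain ⟨k, m, hm, rfl⟩ := Nat.exists_eq_pow_mul_and_not_dvd hq p hp.ne_one
  have hcop0 : p.Coprime m := (Nat.Prime.coprime_iff_not_dvd hp).2 hm
  have hk : 2 ≤ k := by
    by_contra hk
    have h1 : p * p ∣ p ^ 1 * m := hpp.trans (Nat.mul_dvd_mul_right (pow_dvd_pow p (by omega)) m)
    rw [pow_one] at h1
    exact hm (Nat.dvd_of_mul_dvd_mul_left hp.pos h1)
  have hcop : (p ^ k).Coprime m := Nat.Coprime.pow_left k hcop0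
  have hm0 : m ≠ 0 := by rintro rfl; exact hm (dvd_zero _)
  have h2 : NeZero (p ^ k) := ⟨pow_ne_zero _ hp.ne_zero⟩
  have : NeZero m := ⟨hm0⟩
  have : NeZero (p ^ k * m) := ⟨hq⟩
  have h3 := nn_primePow hp hp2 hk
  have h4 : compL hcop η ∈ PQ (p ^ k) := by
    obtain ⟨e1, e2⟩ := hη
    rw [prim_prod hcop] at e1
    rw [pow_eq_one_iff' hcop] at e2
    exact ⟨e1.1, e2.1⟩
  rw [nn, Set.ncard_eq_zero (Set.toFinite _)] at h3
  rw [h3] at h4
  exact h4

/-- the decomposition along a squarefree odd number -/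
lemma exists_dec {q D : ℕ} (hq : q ≠ 0) (hD : Squarefree D) (hD2 : ¬ 2 ∣ D)
    {η : DirichletCharacter ℂ q} (hη : η ∈ PQ q) :
    ∃ g m : ℕ, q = g * m ∧ g = q.gcd D ∧ g.Coprime m ∧ m.Coprime D ∧ g ∣ D ∧ Squarefree g ∧
      ¬ 2 ∣ g ∧ g ≠ 0 ∧ m ≠ 0 := by
  obtain ⟨m, hm⟩ := Nat.gcd_dvd_left q D
  have hgD : q.gcd D ∣ D := Nat.gcd_dvd_right _ _
  have hcop : (q.gcd D).Coprime m := by
    by_contra h
    obtain ⟨p, hp, h1, h2⟩ := Nat.Prime.not_coprime_iff_dvd.1 h
    have hp2 : p ≠ 2 := by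
      rintro rfl
      exact hD2 (h1.trans hgD)
    apply not_sq_dvd hq hη hp hp2
    rw [hm]
    exact mul_dvd_mul h1 h2
  have hg0 : q.gcd D ≠ 0 := Nat.gcd_ne_zero_left hq
  refine ⟨q.gcd D, m, hm, rfl, hcop, ?_, hgD, hD.squarefree_of_dvd hgD, fun h => hD2 (h.trans hgD),
    hg0, ?_⟩
  · by_contra h
    obtain ⟨p, hp, h1, h2⟩ := Nat.Prime.not_coprime_iff_dvd.1 h
    have h3 : p ∣ q.gcd D := Nat.dvd_gcd (by rw [hm]; exact h1.mul_left _) h2
    exact Nat.not_coprime_of_dvd_of_dvd hp.one_lt h3 h1 hcop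
  · rintro rfl
    exact hq (by rw [hm, mul_zero])

end Pool.Agent.H505
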