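import Pool.Agent.H505.Cnt
import Pool.Agent.H505.Dec2

/-!
# Counting the primitive quadratic characters
-/

set_option autoImplicit false
set_option linter.unusedSectionVars false
set_option linter.unusedVariables false

open Filter Topology Finset

namespace Pool.Agent.H505

lemma nn_p_mul {p : ℕ} (hp : p.Prime) (hp2 : p ≠ 2) {m : ℕ} (hm : 0 < m) :
    nn (p * m) = if p ∣ m then 0 else nn m := by
  split_ifs with h
  · obtain ⟨k, m', hm', rfl⟩ := Nat.exists_eq_pow_mul_and_not_dvd hm.ne' p hp.ne_one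
    have hk : 1 ≤ k := by
      by_contra h0
      have : k = 0 := by omega
      rw [this, pow_zero, one_mul] at h
      exact hm' h
    have hm'0 : m' ≠ 0 := by rintro rfl; exact hm' (dvd_zero _)
    have h1 : p * (p ^ k * m') = p ^ (k + 1) * m' := by rw [pow_succ]; ring
    rw [h1, nn_mul (pow_ne_zero _ hp.ne_zero) hm'0
      (Nat.Coprime.pow_left _ ((Nat.Prime.coprime_iff_not_dvd hp).2 hm')),
      nn_primePow hp hp2 (by omega), zero_mul]
  · rw [nn_mul hp.ne_zero hm.ne' ((Nat.Prime.coprime_iff_not_dvd hp).2 h), nn_prime hp hp2, one_mul]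

lemma nn_odd : ∀ (m : ℕ), 0 < m → ¬ 2 ∣ m → (nn m : ℝ) = if Squarefree m then 1 else 0 := by
  intro m
  induction m using Nat.strong_induction_on with
  | _ m ih =>
    intro hm hodd
    by_cases h1 : m = 1
    · rw [h1, nn_one, if_pos squarefree_one, Nat.cast_one]
    obtain ⟨k, hk⟩ := Nat.minFac_dvd m
    have hp := Nat.minFac_prime h1
    have hp2 : m.minFac ≠ 2 := fun h => hodd (by rw [← h]; exact Nat.minFac_dvd m)
    set p := m.minFac with hpdef
    clear_value p
    subst hk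
    have hk0 : 0 < k := Nat.pos_of_ne_zero (by rintro rfl; simp at hm)
    have hlt : k < p * k := by
      have h2 := hp.two_le
      nlinarith
    rw [nn_p_mul hp hp2 hk0]
    by_cases h : p ∣ k
    · rw [if_pos h, if_neg, Nat.cast_zero]
      intro hsq
      have := hsq p (Nat.mul_dvd_mul_left p h)
      exact hp.one_lt.ne' (Nat.isUnit_iff.1 this)
    · rw [if_neg h, ih k hlt hk0 (fun h => hodd (h.mul_left _))]
      congr 1
      rw [eq_iff_iff, Nat.squarefree_mul_iff]
      constructor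
      · intro h3
        exact ⟨(Nat.Prime.coprime_iff_not_dvd hp).2 h, hp.prime.squarefree, h3⟩
      · intro h3
        exact h3.2.2

lemma nn_two_mul {k m : ℕ} (hm : 0 < m) (hodd : ¬ 2 ∣ m) :
    (nn (2 ^ k * m) : ℝ) = nn (2 ^ k) * (if Squarefree m then 1 else 0) := by
  rw [nn_mul (pow_ne_zero _ two_ne_zero) hm.ne'
    (Nat.Coprime.pow_left _ ((Nat.Prime.coprime_iff_not_dvd Nat.prime_two).2 hodd)), Nat.cast_mul,
    nn_odd m hm hodd]

lemma nn_sixteen {m : ℕ} (hm : 0 < m) : nn (2 ^ 4 * m) = 0 := by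
  obtain ⟨k, m', hm', rfl⟩ := Nat.exists_eq_pow_mul_and_not_dvd hm.ne' 2 (by norm_num)
  have hm'0 : m' ≠ 0 := by rintro rfl; exact hm' (dvd_zero _)
  have h1 : 2 ^ 4 * (2 ^ k * m') = 2 ^ (4 + k) * m' := by rw [pow_add]; ring
  rw [h1, nn_mul (pow_ne_zero _ two_ne_zero) hm'0
    (Nat.Coprime.pow_left _ ((Nat.Prime.coprime_iff_not_dvd Nat.prime_two).2 hm')),
    nn_two_pow (by omega), zero_mul]

/-- a bound -/
lemma nn_le : ∃ C : ℝ, ∀ n, |(nn n : ℝ)| ≤ C := by
  refine ⟨(nn 0 : ℝ) + ∑ k ∈ Finset.range 4, (nn (2 ^ k) : ℝ), fun n => ?_⟩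
  have hs : ∀ k ∈ Finset.range 4, (0 : ℝ) ≤ (nn (2 ^ k) : ℝ) := fun k _ => Nat.cast_nonneg _
  have hs0 : (0 : ℝ) ≤ ∑ k ∈ Finset.range 4, (nn (2 ^ k) : ℝ) := Finset.sum_nonneg hs
  have h0 : (0 : ℝ) ≤ (nn 0 : ℝ) := Nat.cast_nonneg _
  rw [abs_of_nonneg (Nat.cast_nonneg _)]
  rcases Nat.eq_zero_or_pos n with rfl | hn
  · linarith
  obtain ⟨k, m', hm', rfl⟩ := Nat.exists_eq_pow_mul_and_not_dvd hn.ne' 2 (by norm_num)
  have hm'0 : 0 < m' := Nat.pos_of_ne_zero (by rintro rfl; exact hm' (dvd_zero _))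
  rw [nn_two_mul hm'0 hm']
  have h1 : (nn (2 ^ k) : ℝ) * (if Squarefree m' then 1 else 0) ≤ (nn (2 ^ k) : ℝ) := by
    split_ifs
    · rw [mul_one]
    · rw [mul_zero]; exact Nat.cast_nonneg _
  refine h1.trans ?_
  by_cases hk : k < 4
  · have := Finset.single_le_sum hs (Finset.mem_range.2 hk)
    linarith
  · rw [nn_two_pow (by omega), Nat.cast_zero]
    linarith

/-- the characters have a positive density -/
theorem mean_nn : ∃ c : ℝ, 0 < c ∧ Mean (fun n => (nn n : ℝ)) c := by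
  obtain ⟨c₀, hc₀, hmean⟩ := mean_sqf
  have hodd : Mean (fun n => if 2 ∣ n then (0 : ℝ) else (if Squarefree n then 1 else 0))
      (c₀ / (1 + 1 / ((2 : ℕ) : ℝ))) := by
    refine mean_cop Nat.prime_two hmean (C := 1) ?_ ?_
    · intro n
      split_ifs <;> simp
    · intro m hm
      by_cases h : 2 ∣ m
      · rw [if_pos h, if_neg]
        intro hsq
        have := hsq 2 (Nat.mul_dvd_mul_left 2 h)
        exact (by norm_num : ¬ IsUnit 2) this
      · rw [if_neg h]
        congr 1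
        rw [eq_iff_iff, Nat.squarefree_mul_iff]
        constructor
        · intro h3
          exact h3.2.2
        · intro h3
          exact ⟨(Nat.Prime.coprime_iff_not_dvd Nat.prime_two).2 h, Nat.prime_two.prime.squarefree, h3⟩
  set o := c₀ / (1 + 1 / ((2 : ℕ) : ℝ)) with ho
  have ho0 : 0 < o := by rw [ho]; positivity
  have step : ∀ (k : ℕ) (c' : ℝ), Mean (fun m => (nn (2 ^ (k + 1) * m) : ℝ)) c' →
      Mean (fun m => (nn (2 ^ k * m) : ℝ)) ((nn (2 ^ k) : ℝ) * o + c' / 2) := by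
    intro k c' hc'
    have h1 := hodd.mul (nn (2 ^ k) : ℝ)
    have h2 := hc'.dil (a := ((2 : ℕ) : ℝ)) (by norm_num)
    unfold Mean at h1 ⊢
    have h3 := h1.add h2
    have h4 : ((2 : ℕ) : ℝ) = 2 := by norm_num
    rw [h4] at h3
    refine h3.congr fun x => ?_
    rw [← add_div]
    congr 1
    rw [SA_split (p := 2) (by norm_num) (fun m => (nn (2 ^ k * m) : ℝ)), h4]
    congr 1
    · apply SA_congr
      intro n hn
      by_cases h : 2 ∣ n
      · simp [h]
      · simp only [if_neg h]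
        rw [nn_two_mul hn h]
    · apply SA_congr
      intro n hn
      have : 2 ^ (k + 1) * n = 2 ^ k * (2 * n) := by rw [pow_succ]; ring
      rw [this]
  have h4 : Mean (fun m => (nn (2 ^ 4 * m) : ℝ)) 0 := by
    have h0 : Mean (fun _ => (0 : ℝ)) 0 := by
      unfold Mean SA
      simp
    exact h0.congr fun n hn => by rw [nn_sixteen hn, Nat.cast_zero]
  have h3 := step 3 _ h4
  have h2 := step 2 _ h3
  have h1 := step 1 _ h2
  have h0 := step 0 _ h1
  refine ⟨_, ?_, h0.congr fun n _ => by rw [pow_zero, one_mul]⟩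
  have e0 : (nn (2 ^ 0) : ℝ) = 1 := by rw [pow_zero, nn_one, Nat.cast_one]
  have e1 : (0 : ℝ) ≤ (nn (2 ^ 1) : ℝ) := Nat.cast_nonneg _
  have e2 : (0 : ℝ) ≤ (nn (2 ^ 2) : ℝ) := Nat.cast_nonneg _
  have e3 : (0 : ℝ) ≤ (nn (2 ^ 3) : ℝ) := Nat.cast_nonneg _
  rw [e0]
  positivity

/-- the signed count -/
noncomputable def fS (S : Finset ℕ) (n : ℕ) : ℝ := (nn n : ℝ) * ∏ p ∈ S, (if p ∣ n then (-1 : ℝ) else 1)

lemma prod_abs (S : Finset ℕ) (n : ℕ) : |∏ p ∈ S, (if p ∣ n then (-1 : ℝ) else 1)| = 1 := by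
  rw [Finset.abs_prod]
  apply Finset.prod_eq_one
  intro p _
  split_ifs <;> norm_num

theorem mean_fS {c : ℝ} (hc : Mean (fun n => (nn n : ℝ)) c) (S : Finset ℕ)
    (hS : ∀ p ∈ S, p.Prime ∧ p ≠ 2) : Mean (fS S) (c * ∏ p ∈ S, ((p : ℝ) - 1) / (p + 1)) := by
  obtain ⟨C, hC⟩ := nn_le
  induction S using Finset.induction_on with
  | empty =>
    rw [Finset.prod_empty, mul_one]
    exact hc.congr fun n _ => by rw [fS, Finset.prod_empty, mul_one]
  | insert p S hp ih =>
    have ih' := ih (fun p hp => hS p (Finset.mem_insert_of_mem hp))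
    obtain ⟨hpp, hp2⟩ := hS p (Finset.mem_insert_self p S)
    have h1 := mean_flip hpp ih' (C := C) (fun n => by
      rw [fS, abs_mul, prod_abs, mul_one]; exact hC n) (fun m hm => by
      unfold fS
      rw [nn_p_mul hpp hp2 hm]
      split_ifs with h
      · rw [Nat.cast_zero, zero_mul]
      · congr 1
        refine Finset.prod_congr rfl fun p' hp' => ?_
        congr 1
        rw [eq_iff_iff]
        have hp'p := (hS p' (Finset.mem_insert_of_mem hp')).1
        constructor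
        · intro h3
          rcases (Nat.Prime.dvd_mul hp'p).1 h3 with h4 | h4
          · exfalso
            have := (Nat.prime_dvd_prime_iff_eq hp'p hpp).1 h4
            exact hp (this ▸ hp')
          · exact h4
        · intro h3
          exact h3.mul_left p)
    rw [Finset.prod_insert hp]
    have e1 : c * (∏ p ∈ S, ((p : ℝ) - 1) / (p + 1)) * (((p : ℝ) - 1) / (p + 1)) =
        c * (((p : ℝ) - 1) / (p + 1) * ∏ p ∈ S, ((p : ℝ) - 1) / (p + 1)) := by ring
    rw [e1] at h1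
    refine h1.congr fun n _ => ?_
    unfold fS
    rw [Finset.prod_insert hp]
    ring

/-! ## sets of characters -/

lemma PQ_finite (q : ℕ) : (PQ q).Finite := by
  rcases q with _ | q
  · have : Finite (MulChar ℤ ℂ) := inferInstance
    exact Set.toFinite (α := MulChar ℤ ℂ) _
  · exact Set.toFinite _

/-- the primitive characters with `χ² = 1`, of conductor less than `x` and with `P` -/
def CS (P : ℕ → Prop) (x : ℝ) : Set (Σ q : ℕ, DirichletCharacter ℂ q) :=
  {η | 0 < η.1 ∧ (η.1 : ℝ) < x ∧ η.2 ∈ PQ η.1 ∧ P η.1}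

open Classical in
lemma CS_eq (P : ℕ → Prop) (x : ℝ) : CS P x =
    (((Finset.Ico 1 ⌈x⌉₊).filter P).sigma fun q => (PQ_finite q).toFinset : Finset _) := by
  ext η
  rw [Finset.mem_coe, Finset.mem_sigma, Finset.mem_filter, mem_Ico_ceil, Set.Finite.mem_toFinset]
  unfold CS
  simp only [Set.mem_ofPred_eq]
  tauto

lemma CS_finite (P : ℕ → Prop) (x : ℝ) : (CS P x).Finite := by
  classical
  rw [CS_eq]
  exact Finset.finite_toSet _

open Classical in
lemma CS_card (P : ℕ → Prop) (x : ℝ) :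
    ((CS P x).ncard : ℝ) = SA (fun n => if P n then (nn n : ℝ) else 0) x := by
  rw [CS_eq, Set.ncard_coe_finset, Finset.card_sigma, Nat.cast_sum]
  unfold SA
  rw [Finset.sum_filter]
  refine Finset.sum_congr rfl fun q _ => ?_
  have h1 : ((PQ_finite q).toFinset.card : ℝ) = (nn q : ℝ) := by
    unfold nn
    rw [Set.ncard_eq_toFinset_card _ (PQ_finite q)]
  rw [h1]

lemma prod_eq_c3 {M : ℕ} (hM : M ≠ 0) (n : ℕ) (hn : 0 < n) :
    ∏ p ∈ M.primeFactors.filter (fun p => p % 4 = 3), (if p ∣ n then (-1 : ℝ) else 1) =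
      (-1) ^ c3 (n.gcd M) := by
  classical
  rw [Finset.prod_ite, Finset.prod_const_one, mul_one, Finset.prod_const]
  congr 1
  unfold c3
  congr 1
  ext p
  simp only [Finset.mem_filter, Nat.mem_primeFactors]
  constructor
  · rintro ⟨⟨⟨h1, h2, h3⟩, h4⟩, h5⟩
    exact ⟨⟨h1, Nat.dvd_gcd h5 h2, Nat.gcd_ne_zero_left hn.ne'⟩, h4⟩
  · rintro ⟨⟨h1, h2, h3⟩, h4⟩
    exact ⟨⟨⟨h1, h2.trans (Nat.gcd_dvd_right _ _), hM⟩, h4⟩, h2.trans (Nat.gcd_dvd_left _ _)⟩

/-- **the density of the characters with negative sign** -/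
theorem ratio_lim {M : ℕ} (hM : M ≠ 0) (hM2 : ¬ 2 ∣ M) :
    Tendsto (fun x : ℝ => ((CS (fun q => Odd (c3 (q.gcd M)) ∧ q ≠ 1) x).ncard : ℝ) /
      ((CS (fun q => q ≠ 1) x).ncard : ℝ)) atTop
      (𝓝 ((1 - ∏ p ∈ M.primeFactors.filter (fun p => p % 4 = 3), ((p : ℝ) - 1) / (p + 1)) / 2)) := by
  classical
  obtain ⟨c, hc0, hc⟩ := mean_nn
  set S := M.primeFactors.filter (fun p => p % 4 = 3) with hS
  set Q₀ := ∏ p ∈ S, ((p : ℝ) - 1) / (p + 1) with hQ₀
  have hSp : ∀ p ∈ S, p.Prime ∧ p ≠ 2 := by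
    intro p hp
    rw [hS, Finset.mem_filter, Nat.mem_primeFactors] at hp
    refine ⟨hp.1.1, ?_⟩
    rintro rfl
    omega
  have h1 := mean_fS hc S hSp
  have hind : Mean (fun n => if n = 1 then (1 : ℝ) else 0) 0 := by
    unfold Mean
    have h0 : Tendsto (fun x : ℝ => (1 : ℝ) / x) atTop (𝓝 0) :=
      tendsto_const_nhds.div_atTop tendsto_id
    refine tendsto_of_tendsto_of_tendsto_of_le_of_le' tendsto_const_nhds h0 ?_ ?_
    · filter_upwards [eventually_gt_atTop 0] with x hx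
      refine div_nonneg ?_ hx.le
      unfold SA
      apply Finset.sum_nonneg
      intro n _
      split_ifs <;> norm_num
    · filter_upwards [eventually_gt_atTop 0] with x hx
      apply div_le_div_of_nonneg_right _ hx.le
      unfold SA
      rw [Finset.sum_ite_eq']
      split_ifs <;> norm_num
  have hN : Mean (fun n => if n ≠ 1 then (nn n : ℝ) else 0) c := by
    have := hc.add (hind.mul (-1))
    rw [mul_zero, add_zero] at this
    refine this.congr fun n _ => ?_
    by_cases h : n = 1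
    · rw [if_pos h, if_neg (not_not.2 h), h, nn_one]; norm_num
    · rw [if_neg h, if_pos h]; ring
  have hB : Mean (fun n => if Odd (c3 (n.gcd M)) ∧ n ≠ 1 then (nn n : ℝ) else 0)
      (1 / 2 * c + (-1 / 2) * (c * Q₀)) := by
    refine ((hc.mul (1 / 2)).add (h1.mul (-1 / 2))).congr fun n hn => ?_
    unfold fS
    rw [prod_eq_c3 hM n hn]
    rcases Nat.even_or_odd (c3 (n.gcd M)) with h | h
    · rw [h.neg_one_pow, if_neg (fun h3 => (Nat.not_odd_iff_even.2 h) h3.1)]
      ring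
    · have hn1 : n ≠ 1 := by
        rintro rfl
        rw [Nat.gcd_one_left, c3_one] at h
        exact (by decide : ¬ Odd 0) h
      rw [h.neg_one_pow, if_pos ⟨h, hn1⟩]
      ring
  have hlim : Tendsto (fun x : ℝ => (SA (fun n => if Odd (c3 (n.gcd M)) ∧ n ≠ 1 then (nn n : ℝ) else 0) x / x) /
      (SA (fun n => if n ≠ 1 then (nn n : ℝ) else 0) x / x)) atTop
      (𝓝 ((1 / 2 * c + (-1 / 2) * (c * Q₀)) / c)) := hB.div hN hc0.ne'
  have he : (1 / 2 * c + (-1 / 2) * (c * Q₀)) / c = (1 - Q₀) / 2 := by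
    field_simp
    ring
  rw [he] at hlim
  refine hlim.congr' ?_
  filter_upwards [eventually_gt_atTop 0] with x hx
  rw [CS_card, CS_card, div_div_div_cancel_right₀ hx.ne']
  congr!

end Pool.Agent.H505
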