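import Pool.Agent.H505.Rea

/-!
# The Gauss sums of the twists
-/

set_option autoImplicit false
set_option linter.unusedSectionVars false
set_option linter.unusedVariables false

open NumberField Complex Finset ZMod
open Pool.Agent.Y773 (TPos FT tw)
open Pool.Agent.Y773.G (rl sg eM)
open Pool.Agent.Y767 (ax)
open Pool.Agent.Y773.G.GH (kk Pk IsModK PrimK Kap)
open Pool.Agent.Y773.G.GH.H505 (GaussProp)

namespace Pool.Agent.H505

section

variable {K : Type} [Field K] [NumberField K] (B : QB K)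

include B in
lemma mem_span_zmod {m : ℕ} {r : 𝓞 K} : r ∈ Ideal.span {(m : 𝓞 K)} ↔
    ((B.cre r : ℤ) : ZMod m) = 0 ∧ ((B.cim r : ℤ) : ZMod m) = 0 := by
  rw [ZMod.intCast_zmod_eq_zero_iff_dvd, ZMod.intCast_zmod_eq_zero_iff_dvd, ← B.mem_span_int]
  rw [Int.cast_natCast]

lemma finsum_quot (m : ℕ) [NeZero m] (F : 𝓞 K → ℂ) (G : ZMod m → ZMod m → ℂ)
    (h : ∀ r, F r = G ((B.cre r : ℤ) : ZMod m) ((B.cim r : ℤ) : ZMod m)) :
    ∑ᶠ r : 𝓞 K ⧸ Ideal.span {(m : 𝓞 K)}, F (Quotient.out r) = ∑ x, ∑ y, G x y := by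
  set e : (𝓞 K ⧸ Ideal.span {(m : 𝓞 K)}) → ZMod m × ZMod m := fun r =>
    (((B.cre (Quotient.out r) : ℤ) : ZMod m), ((B.cim (Quotient.out r) : ℤ) : ZMod m)) with he
  have hbij : Function.Bijective e := by
    constructor
    · intro r s hrs
      have h1 := congrArg Prod.fst hrs
      have h2 := congrArg Prod.snd hrs
      simp only [he] at h1 h2
      have h3 : (Quotient.out r - Quotient.out s : 𝓞 K) ∈ Ideal.span {(m : 𝓞 K)} := by
        rw [mem_span_zmod B, (B.coord_sub _ _).1, (B.coord_sub _ _).2]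
        push_cast
        rw [h1, h2, sub_self, sub_self]
        exact ⟨rfl, rfl⟩
      have h4 := (Ideal.Quotient.eq (I := Ideal.span {(m : 𝓞 K)})).2 h3
      have h5 : ∀ t : 𝓞 K ⧸ Ideal.span {(m : 𝓞 K)},
          Ideal.Quotient.mk (Ideal.span {(m : 𝓞 K)}) (Quotient.out t) = t := fun t =>
        Quotient.out_eq t
      rw [h5, h5] at h4
      exact h4
    · rintro ⟨x, y⟩
      obtain ⟨a, rfl⟩ := ZMod.intCast_surjective x
      obtain ⟨b, rfl⟩ := ZMod.intCast_surjective y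
      refine ⟨Ideal.Quotient.mk _ ((a : 𝓞 K) + b * B.om), ?_⟩
      have h3 : (Quotient.out (Ideal.Quotient.mk (Ideal.span {(m : 𝓞 K)}) ((a : 𝓞 K) + b * B.om)) -
          ((a : 𝓞 K) + b * B.om) : 𝓞 K) ∈ Ideal.span {(m : 𝓞 K)} := by
        rw [← Ideal.Quotient.eq]
        exact Quotient.out_eq _
      rw [mem_span_zmod B, (B.coord_sub _ _).1, (B.coord_sub _ _).2, (B.uniq _ _).1,
        (B.uniq _ _).2] at h3
      push_cast at h3
      simp only [he]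
      rw [Prod.mk.injEq]
      exact ⟨sub_eq_zero.1 h3.1, sub_eq_zero.1 h3.2⟩
  rw [finsum_eq_of_bijective (f := fun r : 𝓞 K ⧸ Ideal.span {(m : 𝓞 K)} => F (Quotient.out r))
    (g := fun p : ZMod m × ZMod m => G p.1 p.2) e hbij (fun r => h _),
    finsum_eq_sum_of_fintype, Fintype.sum_prod_type]

/-- a periodic function in coordinates -/
noncomputable def cof (P : 𝓞 K → ℂ) (m : ℕ) (x y : ZMod m) : ℂ :=
  P ((x.val : 𝓞 K) + (y.val : 𝓞 K) * B.om)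

/-- periodicity -/
def Perd (P : 𝓞 K → ℂ) (m : ℕ) : Prop := ∀ r s : 𝓞 K, r - s ∈ Ideal.span {(m : 𝓞 K)} → P r = P s

lemma cof_spec {P : 𝓞 K → ℂ} {m : ℕ} [NeZero m] (hP : Perd P m) {r : 𝓞 K} {x y : ZMod m}
    (hx : ((B.cre r : ℤ) : ZMod m) = x) (hy : ((B.cim r : ℤ) : ZMod m) = y) :
    cof B P m x y = P r := by
  apply hP
  rw [mem_span_zmod B, (B.coord_sub _ _).1, (B.coord_sub _ _).2]
  have h1 := B.uniq (x.val : ℤ) (y.val : ℤ)
  rw [Int.cast_natCast, Int.cast_natCast] at h1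
  rw [h1.1, h1.2]
  push_cast
  rw [hx, hy]
  simp

lemma cof_int {P : 𝓞 K → ℂ} {m : ℕ} [NeZero m] (hP : Perd P m) (a b : ℤ) :
    cof B P m (a : ZMod m) (b : ZMod m) = P ((a : 𝓞 K) + (b : 𝓞 K) * B.om) := by
  apply cof_spec B hP
  · rw [(B.uniq a b).1]
  · rw [(B.uniq a b).2]

/-- the Gauss sum -/
noncomputable def SS (P : 𝓞 K → ℂ) (m : ℕ) [NeZero m] (u : ℤ) : ℂ :=
  ∑ x : ZMod m, ∑ y : ZMod m, cof B P m x y * ex m u (2 * x + (B.T : ZMod m) * y)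

/-- scaling -/
lemma SS_scale {P : 𝓞 K → ℂ} {m : ℕ} [NeZero m] (hP : Perd P m) {q : ℕ} {a : ℂ}
    (ha : ∀ r, P ((q : 𝓞 K) * r) = a * P r) {u v : ℤ} (huv : u * q + v * m = 1) :
    SS B P m u = a * SS B P m 1 := by
  have hqu : (u : ZMod m) * (q : ZMod m) = 1 := by
    have h1 := congrArg (fun n : ℤ => (n : ZMod m)) huv
    push_cast at h1
    rw [ZMod.natCast_self, mul_zero, add_zero] at h1
    exact h1
  have hq : IsUnit ((q : ZMod m)) := IsUnit.of_mul_eq_one (u : ZMod m) (by rw [mul_comm]; exact hqu)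
  have hbij : Function.Bijective fun x : ZMod m => (q : ZMod m) * x := by
    refine (Finite.injective_iff_bijective).1 fun x x' h => ?_
    exact hq.mul_left_cancel h
  unfold SS
  rw [Finset.mul_sum, ← hbij.sum_comp]
  refine Finset.sum_congr rfl fun x _ => ?_
  rw [Finset.mul_sum, ← hbij.sum_comp]
  refine Finset.sum_congr rfl fun y _ => ?_
  have h1 : cof B P m ((q : ZMod m) * x) ((q : ZMod m) * y) = a * cof B P m x y := by
    obtain ⟨x', rfl⟩ := ZMod.intCast_surjective x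
    obtain ⟨y', rfl⟩ := ZMod.intCast_surjective y
    have e1 : (q : ZMod m) * (x' : ZMod m) = (((q : ℤ) * x' : ℤ) : ZMod m) := by push_cast; rfl
    have e2 : (q : ZMod m) * (y' : ZMod m) = (((q : ℤ) * y' : ℤ) : ZMod m) := by push_cast; rfl
    rw [e1, e2, cof_int B hP, cof_int B hP, ← ha]
    congr 1
    push_cast
    ring
  rw [h1, mul_assoc]
  congr 2
  unfold ex
  congr 1
  push_cast
  linear_combination (2 * x + (B.T : ZMod m) * y) * hqu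

lemma FT_eq {P : 𝓞 K → ℂ} {m : ℕ} [NeZero m] (hP : Perd P m) {D : ℕ} (hD : 0 < D) :
    FT D m P (D : 𝓞 K) = SS B P m 1 := by
  have htr : ∀ r : 𝓞 K, Algebra.trace ℤ (𝓞 K) ((D : 𝓞 K) * r) =
      D * (2 * B.cre r + B.T * B.cim r) := by
    intro r
    have : ((D : 𝓞 K) * r) = (D : ℤ) • r := by rw [zsmul_eq_mul]; push_cast; rfl
    rw [this, map_zsmul, B.trace_int, smul_eq_mul]
  have hm0 : (m : ℂ) ≠ 0 := by exact_mod_cast NeZero.ne m
  have hD0 : (D : ℂ) ≠ 0 := by exact_mod_cast hD.ne'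
  unfold FT
  rw [if_pos (fun r => by rw [htr]; exact dvd_mul_right _ _)]
  unfold SS
  refine finsum_quot B m (fun r => P r *
    Complex.exp (2 * Real.pi * Complex.I * ((Algebra.trace ℤ (𝓞 K) ((D : 𝓞 K) * r) : ℤ) : ℂ) /
      ((m * D : ℕ) : ℂ))) _ fun r => ?_
  rw [cof_spec B hP rfl rfl, htr]
  congr 1
  have e1 : (2 * ((B.cre r : ℤ) : ZMod m) + (B.T : ZMod m) * ((B.cim r : ℤ) : ZMod m)) =
      ((2 * B.cre r + B.T * B.cim r : ℤ) : ZMod m) := by push_cast; rfl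
  rw [e1, ex_int]
  congr 1
  push_cast
  field_simp

/-! ## the sums of the characters -/

lemma Pk_top {ψ : Ideal (𝓞 K) →*₀ ℂ} {κ : K → ℂ} (r : 𝓞 K) :
    Pk ψ κ ⊤ r = ψ (Ideal.span {r}) * κ (r : K) := by
  unfold Pk
  rw [Pool.Agent.Y773.qt_eq (𝔟 := ⊤) (𝔞 := Ideal.span {r}) (by
    rw [← Ideal.one_eq_top]; exact one_ne_zero) (Ideal.mul_top _)]

lemma perd_Pk {𝔣 : Ideal (𝓞 K)} {κ : K → ℂ} {ψ : Ideal (𝓞 K) →*₀ ℂ} (h : IsModK 𝔣 κ ψ) {M : ℕ}
    (hM : (M : 𝓞 K) ∈ 𝔣) : Perd (Pk ψ κ ⊤) M := by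
  intro r s hrs
  refine h.per (𝔟 := ⊤) (by rw [← Ideal.one_eq_top]; exact one_ne_zero) ?_
  rw [Ideal.top_mul]
  exact (Ideal.span_singleton_le_iff_mem _).2 hM hrs

lemma scale_Pk {κ : K → ℂ} (hκ : Kap κ) {ψ : Ideal (𝓞 K) →*₀ ℂ} {q : ℕ} (hq : 0 < q) (r : 𝓞 K) :
    Pk ψ κ ⊤ ((q : 𝓞 K) * r) = ψ (Ideal.span {(q : 𝓞 K)}) * Pk ψ κ ⊤ r := by
  rw [Pk_top, Pk_top, ← Ideal.span_singleton_mul_span_singleton, map_mul]
  by_cases hr : r = 0
  · rw [hr, Ideal.span_singleton_eq_bot.2 rfl, ← Ideal.zero_eq_bot, map_zero]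
    ring
  · have h1 : (((q : 𝓞 K) * r : 𝓞 K) : K) = (q : K) * (r : K) := by
      rw [coe_mul']
      congr 1
    rw [h1, hκ.mul _ _ (by exact_mod_cast hq.ne') (coe_ne hr), hκ.nat q hq]
    ring

/-- the constant of the Gauss sums -/
lemma tau_SS {𝔣 : Ideal (𝓞 K)} {κ : K → ℂ} {ψ : Ideal (𝓞 K) →*₀ ℂ} (h : IsModK 𝔣 κ ψ) {M : ℕ}
    [NeZero M] (hM : 𝔣 * differentIdeal ℤ (𝓞 K) = Ideal.span {(M : 𝓞 K)}) {τ : ℂ}
    (hτ : GaussProp 𝔣 ψ κ τ) :
    SS B (Pk ψ κ ⊤) M 1 = τ * ((M : ℂ) ^ (Module.finrank ℚ K) / (Ideal.absNorm 𝔣 : ℂ)) := by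
  set D := Ideal.absNorm (differentIdeal ℤ (𝓞 K)) with hD
  have hD0 : 0 < D := by
    rw [hD]
    exact Nat.pos_of_ne_zero (fun h1 => differentIdeal_ne_bot (Ideal.absNorm_eq_zero_iff.mp h1))
  have hM0 : 0 < M := Nat.pos_of_ne_zero (NeZero.ne M)
  have hMf : (M : 𝓞 K) ∈ 𝔣 := by
    have h1 : Ideal.span {(M : 𝓞 K)} ≤ 𝔣 := by
      rw [← hM]; exact Ideal.mul_le_left
    exact h1 (Ideal.mem_span_singleton_self _)
  have h1 := hτ ⊤ (Ideal.span {(D : 𝓞 K)}) M D hM0 hD0 (by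
    rw [Ideal.top_mul, hM, Ideal.span_singleton_mul_span_singleton]
    congr 2
    push_cast
    ring) (by rw [Ideal.top_mul]; exact hMf) (Ideal.absNorm_mem _) (D : 𝓞 K)
  rw [FT_eq B (perd_Pk h hMf) hD0] at h1
  rw [h1, Ideal.absNorm_top]
  have h2 : Pk ψ κ (Ideal.span {(D : 𝓞 K)}) (D : 𝓞 K) = 1 := by
    have h3 : Ideal.span {(D : 𝓞 K)} ≠ ⊥ := by
      rw [Ne, Ideal.span_singleton_eq_bot]
      exact_mod_cast hD0.ne'
    rw [Pool.Agent.Y773.G.GH.Pk_of_eq (𝔞 := ⊤) h3 (Ideal.top_mul _), ← Ideal.one_eq_top, map_one,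
      one_mul]
    have h4 : ((D : 𝓞 K) : K) = (D : K) := map_natCast (algebraMap (𝓞 K) K) D
    rw [h4, h.kap.nat D hD0]
  rw [h2, map_one, Nat.cast_one, one_mul, mul_one]

lemma norm_zmod {q : ℕ} (r : 𝓞 K) : ((Algebra.norm ℤ r : ℤ) : ZMod q) =
    Nf B.T B.N ((B.cre r : ℤ) : ZMod q) ((B.cim r : ℤ) : ZMod q) := by
  rw [B.norm_int]
  unfold Nf
  push_cast
  ring

/-- **the Gauss sum of the twist** -/
theorem SS_twist {𝔣 : Ideal (𝓞 K)} {κ : K → ℂ} {ψ : Ideal (𝓞 K) →*₀ ℂ} (h : IsModK 𝔣 κ ψ) {M : ℕ}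
    [NeZero M] (hM : (M : 𝓞 K) ∈ 𝔣) {q : ℕ} [NeZero q] [NeZero (M * q)] (hMq : M.Coprime q)
    {χ : DirichletCharacter ℂ q}
    (hχ : χ.IsPrimitive) (hr : χ⁻¹ = χ) {κ' : K → ℂ} {ψ' : Ideal (𝓞 K) →*₀ ℂ}
    (hψ' : ∀ r : 𝓞 K, Pk ψ' κ' ⊤ r = Pk ψ κ ⊤ r * χ ((Algebra.norm ℤ r : ℤ) : ZMod q))
    (hc : ∀ p, p.Prime → p ∣ q → ¬ (p : ℤ) ∣ B.D ∧ ψ (Ideal.span {(p : 𝓞 K)}) = spl B.T B.N p) :
    SS B (Pk ψ' κ' ⊤) (M * q) 1 = χ (-1) * q * SS B (Pk ψ κ ⊤) M 1 := by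
  have hP : Perd (Pk ψ κ ⊤) M := perd_Pk h hM
  have hq0 : 0 < q := Nat.pos_of_ne_zero (NeZero.ne q)
  obtain ⟨v, u, huv⟩ := Nat.isCoprime_iff_coprime.2 hMq
  -- `v M + u q = 1`
  have h1 : SS B (Pk ψ' κ' ⊤) (M * q) 1 =
      (SS B (Pk ψ κ ⊤) M u) * TZ B.T B.N q χ v := by
    unfold SS TZ
    rw [← sum_crt hMq]
    refine Finset.sum_congr rfl fun x _ => Finset.sum_congr rfl fun y _ => ?_
    obtain ⟨a, rfl⟩ := ZMod.intCast_surjective x
    obtain ⟨b, rfl⟩ := ZMod.intCast_surjective y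
    have hP' : Perd (Pk ψ' κ' ⊤) (M * q) := by
      intro r s hrs
      rw [hψ', hψ']
      have h2 : r - s ∈ Ideal.span {(M : 𝓞 K)} := by
        refine (Ideal.span_singleton_le_span_singleton.2 ?_) hrs
        push_cast
        exact dvd_mul_right _ _
      have h3 : r - s ∈ Ideal.span {(q : 𝓞 K)} := by
        refine (Ideal.span_singleton_le_span_singleton.2 ?_) hrs
        push_cast
        exact dvd_mul_left _ _
      rw [hP r s h2, norm_zmod B, norm_zmod B]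
      rw [mem_span_zmod B, (B.coord_sub _ _).1, (B.coord_sub _ _).2] at h3
      push_cast at h3
      rw [sub_eq_zero.1 h3.1, sub_eq_zero.1 h3.2]
    rw [cof_int B hP', hψ', norm_zmod B, (B.uniq a b).1, (B.uniq a b).2, ← cof_int B hP]
    rw [ex_crt hMq (t1 := u) (t2 := v) (by linarith)]
    have e1 : ∀ n : ℤ, (chineseRemainder hMq (n : ZMod (M * q))).1 = (n : ZMod M) := by
      intro n; rw [map_intCast]; rfl
    have e2 : ∀ n : ℤ, (chineseRemainder hMq (n : ZMod (M * q))).2 = (n : ZMod q) := by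
      intro n; rw [map_intCast]; rfl
    have e3 : (2 * (a : ZMod (M * q)) + (B.T : ZMod (M * q)) * (b : ZMod (M * q))) =
        ((2 * a + B.T * b : ℤ) : ZMod (M * q)) := by push_cast; rfl
    rw [e3, e1, e2, e1, e2, e1, e2]
    push_cast
    ring
  have hcm : ∀ a b : ℕ, ψ (Ideal.span {((a * b : ℕ) : 𝓞 K)}) =
      ψ (Ideal.span {(a : 𝓞 K)}) * ψ (Ideal.span {(b : 𝓞 K)}) := by
    intro a b
    rw [← map_mul, Ideal.span_singleton_mul_span_singleton]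
    push_cast
    rfl
  have hc1 : ψ (Ideal.span {((1 : ℕ) : 𝓞 K)}) = 1 := by
    rw [Nat.cast_one, Ideal.span_singleton_one, ← Ideal.one_eq_top, map_one]
  have hcsq : ψ (Ideal.span {(q : 𝓞 K)}) * ψ (Ideal.span {(q : 𝓞 K)}) = 1 := by
    have key : ∀ n : ℕ, n ≠ 0 → (∀ p, p.Prime → p ∣ n → ¬ (p : ℤ) ∣ B.D ∧
        ψ (Ideal.span {(p : 𝓞 K)}) = spl B.T B.N p) →
        ψ (Ideal.span {(n : 𝓞 K)}) * ψ (Ideal.span {(n : 𝓞 K)}) = 1 := by
      intro n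
      induction n using Nat.strong_induction_on with
      | _ n ih =>
        intro hn0 hn
        by_cases h1 : n = 1
        · rw [h1, hc1, one_mul]
        obtain ⟨k, hk⟩ := Nat.minFac_dvd n
        have hp := Nat.minFac_prime h1
        obtain ⟨g1, g2⟩ := hn _ hp (Nat.minFac_dvd n)
        have hk0 : k ≠ 0 := by
          rintro rfl
          exact hn0 (by rw [hk]; simp)
        have hlt : k < n := by
          have h2 := hp.two_le
          have h3 : 0 < k := Nat.pos_of_ne_zero hk0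
          calc k < n.minFac * k := by nlinarith
            _ = n := hk.symm
        have h4 := ih k hlt hk0 (fun p hp hpk => hn p hp (hpk.trans (by rw [hk]; exact dvd_mul_left _ _)))
        have h5 := spl_sq hp g1
        rw [hk, hcm, g2]
        linear_combination (ψ (Ideal.span {(k : 𝓞 K)}) * ψ (Ideal.span {(k : 𝓞 K)})) * h5 + h4
    exact key q hq0.ne' hc
  have h2 : TZ B.T B.N q χ v = ψ (Ideal.span {(q : 𝓞 K)}) * χ (-1) * q :=
    TZ_eval (fun n => ψ (Ideal.span {(n : 𝓞 K)})) hc1 hcm hχ hr hc ⟨M, u, by linarith⟩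
  rw [h1, h2, SS_scale B hP (fun r => scale_Pk h.kap hq0 r) (u := u) (v := v) (by linarith)]
  linear_combination (χ (-1) * q * SS B (Pk ψ κ ⊤) M 1) * hcsq

end

end Pool.Agent.H505
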