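import Pool.Agent.H505.Gau

/-!
# Components of Dirichlet characters; primitive quadratic characters
-/

set_option autoImplicit false
set_option linter.unusedSectionVars false
set_option linter.unusedVariables false

open ZMod

namespace Pool.Agent.H505

section

variable {A m : ℕ} (h : Nat.Coprime A m) (η : DirichletCharacter ℂ (A * m))

/-- the component at `m` -/
noncomputable def compR : DirichletCharacter ℂ m where
  toFun y := η ((chineseRemainder h).symm (1, y))
  map_one' := by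
    have : ((1 : ZMod A), (1 : ZMod m)) = 1 := rfl
    rw [this, map_one, map_one]
  map_mul' x y := by
    have : ((1 : ZMod A), x * y) = (1, x) * (1, y) := by rw [Prod.mk_mul_mk, one_mul]
    rw [this, map_mul, map_mul]
  map_nonunit' y hy := by
    apply η.map_nonunit
    intro hu
    apply hy
    have h1 := hu.map (chineseRemainder h)
    rw [RingEquiv.apply_symm_apply] at h1
    exact (Prod.isUnit_iff.1 h1).2

/-- the component at `A` -/
noncomputable def compL : DirichletCharacter ℂ A where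
  toFun x := η ((chineseRemainder h).symm (x, 1))
  map_one' := by
    have : ((1 : ZMod A), (1 : ZMod m)) = 1 := rfl
    rw [this, map_one, map_one]
  map_mul' x y := by
    have : (x * y, (1 : ZMod m)) = (x, 1) * (y, 1) := by rw [Prod.mk_mul_mk, one_mul]
    rw [this, map_mul, map_mul]
  map_nonunit' y hy := by
    apply η.map_nonunit
    intro hu
    apply hy
    have h1 := hu.map (chineseRemainder h)
    rw [RingEquiv.apply_symm_apply] at h1
    exact (Prod.isUnit_iff.1 h1).1

lemma compR_apply (y : ZMod m) : compR h η y = η ((chineseRemainder h).symm (1, y)) := rfl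
lemma compL_apply (x : ZMod A) : compL h η x = η ((chineseRemainder h).symm (x, 1)) := rfl

lemma comp_split (z : ZMod (A * m)) :
    η z = compL h η (chineseRemainder h z).1 * compR h η (chineseRemainder h z).2 := by
  rw [compR_apply, compL_apply, ← map_mul, ← map_mul, Prod.mk_mul_mk, mul_one, one_mul,
    Prod.mk.eta, RingEquiv.symm_apply_apply]

lemma comp_nat (n : ℕ) : η (n : ZMod (A * m)) = compL h η (n : ZMod A) * compR h η (n : ZMod m) := by
  have h1 := comp_split h η (n : ZMod (A * m))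
  have e1 : (chineseRemainder h (n : ZMod (A * m))).1 = (n : ZMod A) := by rw [map_natCast]; rfl
  have e2 : (chineseRemainder h (n : ZMod (A * m))).2 = (n : ZMod m) := by rw [map_natCast]; rfl
  rw [e1, e2] at h1
  exact h1

lemma comp_int (n : ℤ) : η (n : ZMod (A * m)) = compL h η (n : ZMod A) * compR h η (n : ZMod m) := by
  have h1 := comp_split h η (n : ZMod (A * m))
  have e1 : (chineseRemainder h (n : ZMod (A * m))).1 = (n : ZMod A) := by rw [map_intCast]; rfl
  have e2 : (chineseRemainder h (n : ZMod (A * m))).2 = (n : ZMod m) := by rw [map_intCast]; rfl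
  rw [e1, e2] at h1
  exact h1

/-- the product of two characters of coprime levels -/
noncomputable def prodC (χ₁ : DirichletCharacter ℂ A) (χ₂ : DirichletCharacter ℂ m) :
    DirichletCharacter ℂ (A * m) where
  toFun z := χ₁ (chineseRemainder h z).1 * χ₂ (chineseRemainder h z).2
  map_one' := by
    rw [map_one, Prod.fst_one, Prod.snd_one, map_one, map_one, mul_one]
  map_mul' x y := by
    rw [map_mul, Prod.fst_mul, Prod.snd_mul, map_mul, map_mul]
    ring
  map_nonunit' y hy := by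
    by_contra h0
    apply hy
    have h1 : IsUnit (chineseRemainder h y) := by
      rw [Prod.isUnit_iff]
      constructor
      · by_contra h2
        exact h0 (by rw [χ₁.map_nonunit h2, zero_mul])
      · by_contra h2
        exact h0 (by rw [χ₂.map_nonunit h2, mul_zero])
    have h3 := h1.map (chineseRemainder h).symm
    rwa [RingEquiv.symm_apply_apply] at h3

lemma prodC_apply (χ₁ : DirichletCharacter ℂ A) (χ₂ : DirichletCharacter ℂ m) (z : ZMod (A * m)) :
    prodC h χ₁ χ₂ z = χ₁ (chineseRemainder h z).1 * χ₂ (chineseRemainder h z).2 := rfl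

lemma prodC_nat (χ₁ : DirichletCharacter ℂ A) (χ₂ : DirichletCharacter ℂ m) (n : ℕ) :
    prodC h χ₁ χ₂ (n : ZMod (A * m)) = χ₁ (n : ZMod A) * χ₂ (n : ZMod m) := by
  have e1 : (chineseRemainder h (n : ZMod (A * m))).1 = (n : ZMod A) := by rw [map_natCast]; rfl
  have e2 : (chineseRemainder h (n : ZMod (A * m))).2 = (n : ZMod m) := by rw [map_natCast]; rfl
  rw [prodC_apply, e1, e2]

lemma prodC_comp : prodC h (compL h η) (compR h η) = η := by
  ext u
  rw [prodC_apply, ← comp_split]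

lemma compL_prodC (χ₁ : DirichletCharacter ℂ A) (χ₂ : DirichletCharacter ℂ m) :
    compL h (prodC h χ₁ χ₂) = χ₁ := by
  ext u
  rw [compL_apply, prodC_apply, RingEquiv.apply_symm_apply, map_one, mul_one]

lemma compR_prodC (χ₁ : DirichletCharacter ℂ A) (χ₂ : DirichletCharacter ℂ m) :
    compR h (prodC h χ₁ χ₂) = χ₂ := by
  ext u
  rw [compR_apply, prodC_apply, RingEquiv.apply_symm_apply, map_one, one_mul]

lemma compL_pow (k : ℕ) : compL h (η ^ k) = compL h η ^ k := by
  ext u
  rw [compL_apply, MulChar.pow_apply_coe, compL_apply]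
  have h2 : IsUnit ((chineseRemainder h).symm ((u : ZMod A), (1 : ZMod m))) :=
    IsUnit.map (chineseRemainder h).symm (Prod.isUnit_iff.2 ⟨u.isUnit, isUnit_one⟩)
  rw [← h2.unit_spec, MulChar.pow_apply_coe]

lemma compR_pow (k : ℕ) : compR h (η ^ k) = compR h η ^ k := by
  ext u
  rw [compR_apply, MulChar.pow_apply_coe, compR_apply]
  have h2 : IsUnit ((chineseRemainder h).symm ((1 : ZMod A), (u : ZMod m))) :=
    IsUnit.map (chineseRemainder h).symm (Prod.isUnit_iff.2 ⟨isUnit_one, u.isUnit⟩)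
  rw [← h2.unit_spec, MulChar.pow_apply_coe]

lemma compL_one : compL h (1 : DirichletCharacter ℂ (A * m)) = 1 := by
  have := compL_pow h (1 : DirichletCharacter ℂ (A * m)) 0
  rwa [pow_zero, pow_zero] at this

lemma compR_one : compR h (1 : DirichletCharacter ℂ (A * m)) = 1 := by
  have := compR_pow h (1 : DirichletCharacter ℂ (A * m)) 0
  rwa [pow_zero, pow_zero] at this

lemma pow_eq_one_iff' (k : ℕ) : η ^ k = 1 ↔ compL h η ^ k = 1 ∧ compR h η ^ k = 1 := by
  constructor
  · intro e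
    rw [← compL_pow, ← compR_pow, e]
    exact ⟨compL_one h, compR_one h⟩
  · rintro ⟨e1, e2⟩
    rw [← compL_pow] at e1
    rw [← compR_pow] at e2
    rw [← prodC_comp h (η ^ k), e1, e2]
    have := prodC_comp h (1 : DirichletCharacter ℂ (A * m))
    rwa [compL_one, compR_one] at this

end

/-! ## factoring -/

/-- `η` is trivial at the `z ≡ 1 mod d` -/
def Fac {n : ℕ} (η : DirichletCharacter ℂ n) (d : ℕ) : Prop :=
  ∀ z : ℕ, z.Coprime n → z ≡ 1 [MOD d] → η (z : ZMod n) = 1

lemma fac_iff {n : ℕ} [NeZero n] (η : DirichletCharacter ℂ n) {d : ℕ} (hd : d ∣ n) :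
    η.FactorsThrough d ↔ Fac η d := by
  have : NeZero d := ⟨fun h => NeZero.ne n (by rw [h] at hd; exact Nat.eq_zero_of_zero_dvd hd)⟩
  rw [DirichletCharacter.factorsThrough_iff_ker_unitsMap hd]
  constructor
  · intro h z hz h1
    have hu : IsUnit (z : ZMod n) := (ZMod.isUnit_iff_coprime z n).2 hz
    have h2 : hu.unit ∈ (ZMod.unitsMap hd).ker := by
      rw [MonoidHom.mem_ker]
      ext
      rw [ZMod.unitsMap_val, hu.unit_spec, ZMod.cast_natCast hd, Units.val_one]
      have := (ZMod.natCast_eq_natCast_iff z 1 d).2 h1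
      rwa [Nat.cast_one] at this
    have h3 := h h2
    rw [MonoidHom.mem_ker] at h3
    have h4 := congrArg (fun u : ℂˣ => (u : ℂ)) h3
    simp only [MulChar.coe_toUnitHom, Units.val_one, hu.unit_spec] at h4
    exact h4
  · intro h u hu
    rw [MonoidHom.mem_ker] at hu ⊢
    ext
    rw [MulChar.coe_toUnitHom, Units.val_one]
    have h1 : ((u : ZMod n).val : ZMod n) = (u : ZMod n) := ZMod.natCast_zmod_val _
    rw [← h1]
    refine h _ (ZMod.val_coe_unit_coprime u) ?_
    rw [← ZMod.natCast_eq_natCast_iff]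
    have h2 := congrArg (fun u : (ZMod d)ˣ => (u : ZMod d)) hu
    simp only [ZMod.unitsMap_val, Units.val_one] at h2
    rw [Nat.cast_one, ← h2, ← ZMod.cast_natCast hd (R := ZMod d), h1]

lemma prim_iff {n : ℕ} [NeZero n] (η : DirichletCharacter ℂ n) :
    η.IsPrimitive ↔ ∀ d, d ∣ n → Fac η d → d = n := by
  rw [DirichletCharacter.isPrimitive_def]
  constructor
  · intro h d hd hf
    rw [← fac_iff η hd] at hf
    have h1 : η.conductor ∣ d := DirichletCharacter.conductor_dvd_of_mem_conductorSet _ hf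
    rw [h] at h1
    exact Nat.dvd_antisymm hd h1
  · intro h
    refine h _ (DirichletCharacter.conductor_dvd_level η) ?_
    rw [← fac_iff η (DirichletCharacter.conductor_dvd_level η)]
    exact DirichletCharacter.factorsThrough_conductor η

lemma prim_prod {a b : ℕ} [NeZero a] [NeZero b] [NeZero (a * b)] (h : a.Coprime b)
    (η : DirichletCharacter ℂ (a * b)) :
    η.IsPrimitive ↔ (compL h η).IsPrimitive ∧ (compR h η).IsPrimitive := by
  rw [prim_iff, prim_iff, prim_iff]
  constructor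
  · intro hp
    constructor
    · intro d hd hf
      have h1 := hp (d * b) (Nat.mul_dvd_mul_right hd b) (by
        intro z hz hz1
        rw [comp_nat h, hf z (Nat.Coprime.coprime_dvd_right (dvd_mul_right _ _) hz)
          (hz1.of_dvd (dvd_mul_right _ _)), one_mul]
        have h2 : z ≡ 1 [MOD b] := hz1.of_dvd (dvd_mul_left _ _)
        have h3 := (ZMod.natCast_eq_natCast_iff z 1 b).2 h2
        rw [h3, Nat.cast_one, map_one])
      exact Nat.eq_of_mul_eq_mul_right (Nat.pos_of_ne_zero (NeZero.ne b)) h1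
    · intro d hd hf
      have h1 := hp (a * d) (Nat.mul_dvd_mul_left a hd) (by
        intro z hz hz1
        rw [comp_nat h, hf z (Nat.Coprime.coprime_dvd_right (dvd_mul_left _ _) hz)
          (hz1.of_dvd (dvd_mul_left _ _)), mul_one]
        have h2 : z ≡ 1 [MOD a] := hz1.of_dvd (dvd_mul_right _ _)
        have h3 := (ZMod.natCast_eq_natCast_iff z 1 a).2 h2
        rw [h3, Nat.cast_one, map_one])
      exact Nat.eq_of_mul_eq_mul_left (Nat.pos_of_ne_zero (NeZero.ne a)) h1
  · rintro ⟨hL, hR⟩ c hc hf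
    have hgcd : c.gcd (a * b) = c.gcd a * c.gcd b := Nat.Coprime.gcd_mul c h
    have hc' : c = c.gcd a * c.gcd b := by rw [← hgcd, Nat.gcd_eq_left hc]
    have hcop : (c.gcd a).Coprime (c.gcd b) :=
      Nat.Coprime.coprime_dvd_left (Nat.gcd_dvd_right _ _)
        (Nat.Coprime.coprime_dvd_right (Nat.gcd_dvd_right _ _) h)
    have mk : ∀ z₁ z₂ : ℕ, z₁.Coprime a → z₂.Coprime b → z₁ ≡ 1 [MOD c.gcd a] →
        z₂ ≡ 1 [MOD c.gcd b] → compL h η (z₁ : ZMod a) * compR h η (z₂ : ZMod b) = 1 := by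
      intro z₁ z₂ h1 h2 h3 h4
      obtain ⟨w, hw1, hw2⟩ := Nat.chineseRemainder h z₁ z₂
      have e1 := (ZMod.natCast_eq_natCast_iff w z₁ a).2 hw1
      have e2 := (ZMod.natCast_eq_natCast_iff w z₂ b).2 hw2
      rw [← e1, ← e2, ← comp_nat h]
      apply hf
      · rw [Nat.coprime_mul_iff_right]
        constructor
        · rw [← ZMod.isUnit_iff_coprime, e1, ZMod.isUnit_iff_coprime]; exact h1
        · rw [← ZMod.isUnit_iff_coprime, e2, ZMod.isUnit_iff_coprime]; exact h2
      · rw [hc']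
        rw [← Nat.modEq_and_modEq_iff_modEq_mul hcop]
        exact ⟨(hw1.of_dvd (Nat.gcd_dvd_right _ _)).trans h3,
          (hw2.of_dvd (Nat.gcd_dvd_right _ _)).trans h4⟩
    have e1 : c.gcd a = a := by
      refine hL _ (Nat.gcd_dvd_right _ _) fun z hz hz1 => ?_
      have := mk z 1 hz (Nat.coprime_one_left b) hz1 (Nat.ModEq.refl 1)
      rwa [Nat.cast_one, map_one, mul_one] at this
    have e2 : c.gcd b = b := by
      refine hR _ (Nat.gcd_dvd_right _ _) fun z hz hz1 => ?_
      have := mk 1 z (Nat.coprime_one_left a) hz (Nat.ModEq.refl 1) hz1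
      rwa [Nat.cast_one, map_one, one_mul] at this
    rw [hc', e1, e2]

/-! ## the primitive characters with `χ² = 1` -/

/-- the primitive characters with `χ² = 1` -/
def PQ (q : ℕ) : Set (DirichletCharacter ℂ q) := {χ | χ.IsPrimitive ∧ χ ^ 2 = 1}

/-- their number -/
noncomputable def nn (q : ℕ) : ℕ := (PQ q).ncard

lemma nn_mul {a b : ℕ} (ha : a ≠ 0) (hb : b ≠ 0) (h : a.Coprime b) : nn (a * b) = nn a * nn b := by
  have : NeZero a := ⟨ha⟩
  have : NeZero b := ⟨hb⟩
  have : NeZero (a * b) := ⟨mul_ne_zero ha hb⟩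
  unfold nn
  rw [← Set.ncard_prod]
  refine Set.ncard_congr (fun η _ => (compL h η, compR h η)) ?_ ?_ ?_
  · rintro η ⟨h1, h2⟩
    rw [prim_prod h] at h1
    rw [pow_eq_one_iff' h] at h2
    exact ⟨⟨h1.1, h2.1⟩, ⟨h1.2, h2.2⟩⟩
  · intro η η' _ _ he
    rw [Prod.mk.injEq] at he
    rw [← prodC_comp h η, he.1, he.2, prodC_comp]
  · rintro ⟨χ₁, χ₂⟩ ⟨⟨h1, h2⟩, h3, h4⟩
    refine ⟨prodC h χ₁ χ₂, ⟨?_, ?_⟩, ?_⟩
    · rw [prim_prod h, compL_prodC, compR_prodC]; exact ⟨h1, h3⟩
    · rw [pow_eq_one_iff' h, compL_prodC, compR_prodC]; exact ⟨h2, h4⟩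
    · simp only [compL_prodC, compR_prodC]

lemma prim_one_level : (1 : DirichletCharacter ℂ 1).IsPrimitive := by
  rw [prim_iff]
  intro d hd _
  exact Nat.dvd_one.1 hd

lemma nn_one : nn 1 = 1 := by
  unfold nn
  have : PQ 1 = {1} := by
    ext χ
    simp only [PQ, Set.mem_ofPred_eq, Set.mem_singleton_iff]
    constructor
    · intro _
      exact DirichletCharacter.level_one χ
    · rintro rfl
      exact ⟨prim_one_level, one_pow 2⟩
  rw [this, Set.ncard_singleton]

lemma sq_mul_self {q : ℕ} {χ : DirichletCharacter ℂ q} (h : χ ^ 2 = 1) {u : ZMod q} (hu : IsUnit u) :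
    χ u * χ u = 1 := by
  have h1 : (χ ^ 2) u = 1 := by rw [h, MulChar.one_apply hu]
  rwa [pow_two, MulChar.mul_apply] at h1

lemma inv_of_sq {q : ℕ} {χ : DirichletCharacter ℂ q} (h : χ ^ 2 = 1) : χ⁻¹ = χ := by
  rw [pow_two] at h
  exact inv_eq_of_mul_eq_one_left h

/-- real characters modulo a power of an odd prime -/
lemma real_primePow {p : ℕ} [Fact p.Prime] (hp2 : p ≠ 2) {k : ℕ} (hk : 0 < k)
    (χ : DirichletCharacter ℂ (p ^ k)) (hχ : χ ^ 2 = 1) :
    (∀ n : ℕ, IsUnit (n : ZMod (p ^ k)) → χ (n : ZMod (p ^ k)) = 1) ∨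
      (∀ n : ℕ, IsUnit (n : ZMod (p ^ k)) → χ (n : ZMod (p ^ k)) = qc p (n : ZMod p)) := by
  have hp : p.Prime := Fact.out
  have : NeZero (p ^ k) := ⟨pow_ne_zero _ hp.ne_zero⟩
  have hcyc := ZMod.isCyclic_units_of_prime_pow p hp hp2 k
  obtain ⟨g, hg⟩ := hcyc.exists_generator
  have hd : p ∣ p ^ k := dvd_pow_self p hk.ne'
  have hext : ∀ f₁ f₂ : (ZMod (p ^ k))ˣ →* ℂˣ, f₁ g = f₂ g → f₁ = f₂ := by
    intro f₁ f₂ h
    refine MonoidHom.ext fun u => ?_
    obtain ⟨j, hj⟩ := Subgroup.mem_zpowers_iff.1 (hg u)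
    rw [← hj, map_zpow, map_zpow, h]
  set f := MulChar.toUnitHom χ with hf
  set f₂ : (ZMod (p ^ k))ˣ →* ℂˣ := (MulChar.toUnitHom (qc p)).comp (ZMod.unitsMap hd) with hf₂
  have hsq := sq_mul_self hχ g.isUnit
  rcases mul_self_eq_one_iff.1 hsq with h1 | h1
  · left
    intro n hn
    have h2 : f = 1 := hext _ _ (by
      ext
      rw [hf, MulChar.coe_toUnitHom, h1]
      rfl)
    have h3 : ((f hn.unit : ℂˣ) : ℂ) = 1 := by rw [h2]; rfl
    rw [hf, MulChar.coe_toUnitHom, hn.unit_spec] at h3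
    exact h3
  · right
    have hq : ∀ x : ZMod p, x ≠ 0 → qc p x * qc p x = 1 := fun x hx => qc_sq hx
    have h2 : ((f₂ g : ℂˣ) : ℂ) = -1 := by
      have h3 : ((f₂ g : ℂˣ) : ℂ) * ((f₂ g : ℂˣ) : ℂ) = 1 := by
        rw [hf₂, MonoidHom.comp_apply, MulChar.coe_toUnitHom]
        exact hq _ (Units.ne_zero _)
      rcases mul_self_eq_one_iff.1 h3 with h4 | h4
      · exfalso
        have h5 : f₂ = 1 := hext _ _ (by ext; rw [h4]; rfl)
        apply qc_ne_one (p := p) hp2
        ext v
        obtain ⟨u, hu⟩ := ZMod.unitsMap_surjective hd v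
        have h6 : ((f₂ u : ℂˣ) : ℂ) = 1 := by rw [h5]; rfl
        rw [hf₂, MonoidHom.comp_apply, MulChar.coe_toUnitHom, hu] at h6
        rw [h6, MulChar.one_apply_coe]
      · exact h4
    have h7 : f = f₂ := hext _ _ (by
      ext
      rw [h2, hf, MulChar.coe_toUnitHom, h1])
    intro n hn
    have h8 : ((f hn.unit : ℂˣ) : ℂ) = ((f₂ hn.unit : ℂˣ) : ℂ) := by rw [h7]
    rw [hf, MulChar.coe_toUnitHom, hn.unit_spec, hf₂, MonoidHom.comp_apply,
      MulChar.coe_toUnitHom] at h8
    rw [h8]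
    congr 1
    rw [ZMod.unitsMap_val, hn.unit_spec]
    exact ZMod.cast_natCast hd n

lemma nn_primePow {p : ℕ} (hp : p.Prime) (hp2 : p ≠ 2) {k : ℕ} (hk : 2 ≤ k) : nn (p ^ k) = 0 := by
  have : Fact p.Prime := ⟨hp⟩
  have : NeZero (p ^ k) := ⟨pow_ne_zero _ hp.ne_zero⟩
  have h0 : PQ (p ^ k) = ∅ := by
    rw [Set.eq_empty_iff_forall_notMem]
    rintro χ ⟨h1, h2⟩
    rw [prim_iff] at h1
    have h3 := h1 p (dvd_pow_self p (by omega)) (by
      intro z hz hz1
      have hu : IsUnit (z : ZMod (p ^ k)) := (ZMod.isUnit_iff_coprime _ _).2 hz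
      rcases real_primePow hp2 (by omega) χ h2 with h | h
      · exact h z hu
      · rw [h z hu]
        have := (ZMod.natCast_eq_natCast_iff z 1 p).2 hz1
        rw [this, Nat.cast_one, map_one])
    have h4 : p ^ 1 = p ^ k := by rw [pow_one]; exact h3
    have h5 := Nat.pow_right_injective hp.two_le h4
    omega
  rw [nn, h0, Set.ncard_empty]

/-- the primitive quadratic character modulo an odd prime -/
lemma PQ_prime {p : ℕ} [Fact p.Prime] (hp2 : p ≠ 2) : PQ p = {qc p} := by
  have hp : p.Prime := Fact.out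
  ext χ
  simp only [Set.mem_singleton_iff]
  constructor
  · rintro ⟨h1, h2⟩
    have hcyc := ZMod.isCyclic_units_of_prime_pow p hp hp2 1
    rw [pow_one] at hcyc
    obtain ⟨g, hg⟩ := hcyc.exists_generator
    have hext : ∀ f₁ f₂ : DirichletCharacter ℂ p, f₁ g = f₂ g → f₁ = f₂ := by
      intro f₁ f₂ h
      ext u
      obtain ⟨j, hj⟩ := Subgroup.mem_zpowers_iff.1 (hg u)
      have h5 : (MulChar.toUnitHom f₁) g = (MulChar.toUnitHom f₂) g := by
        ext; rw [MulChar.coe_toUnitHom, MulChar.coe_toUnitHom, h]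
      have h6 : (MulChar.toUnitHom f₁) (g ^ j) = (MulChar.toUnitHom f₂) (g ^ j) := by
        rw [map_zpow, map_zpow, h5]
      rw [hj] at h6
      have h7 := congrArg (fun u : ℂˣ => (u : ℂ)) h6
      simpa [MulChar.coe_toUnitHom] using h7
    have hq : qc p (g : ZMod p) = -1 := by
      rcases mul_self_eq_one_iff.1 (qc_sq (p := p) (Units.ne_zero g)) with h | h
      · exfalso
        apply qc_ne_one hp2
        apply hext
        rw [h, MulChar.one_apply_coe]
      · exact h
    rcases mul_self_eq_one_iff.1 (sq_mul_self h2 g.isUnit) with h | h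
    · exfalso
      have h3 : χ = 1 := hext _ _ (by rw [h, MulChar.one_apply_coe])
      rw [prim_iff] at h1
      have h4 := h1 1 (one_dvd _) (by
        intro z hz _
        rw [h3, MulChar.one_apply ((ZMod.isUnit_iff_coprime _ _).2 hz)])
      exact hp.ne_one h4.symm
    · exact hext _ _ (by rw [h, hq])
  · rintro rfl
    refine ⟨?_, (qc_quad p).sq_eq_one⟩
    rw [prim_iff]
    intro d hd hf
    rcases (Nat.dvd_prime hp).1 hd with h | h
    · exfalso
      apply qc_ne_one hp2
      ext u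
      rw [MulChar.one_apply_coe]
      have := hf (u : ZMod p).val (ZMod.val_coe_unit_coprime u) (by rw [h]; exact Nat.modEq_one)
      rwa [ZMod.natCast_zmod_val] at this
    · exact h

lemma nn_prime {p : ℕ} (hp : p.Prime) (hp2 : p ≠ 2) : nn p = 1 := by
  have : Fact p.Prime := ⟨hp⟩
  rw [nn, PQ_prime hp2, Set.ncard_singleton]

lemma sqrt_two_pow {a : ℤ} (ha : (8 : ℤ) ∣ a - 1) (k : ℕ) :
    ∃ s : ℤ, Odd s ∧ (2 : ℤ) ^ k ∣ s * s - a := by
  induction k with
  | zero => exact ⟨1, odd_one, by rw [pow_zero]; exact one_dvd _⟩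
  | succ k ih =>
    by_cases hk : k < 3
    · refine ⟨1, odd_one, ?_⟩
      have h1 : (2 : ℤ) ^ (k + 1) ∣ 8 := by
        have : (8 : ℤ) = 2 ^ 3 := by norm_num
        rw [this]
        exact pow_dvd_pow 2 (by omega)
      have h2 := h1.trans ha
      rw [show (1 : ℤ) * 1 - a = -(a - 1) by ring]
      exact (dvd_neg).2 h2
    · obtain ⟨s, ⟨j, hj⟩, t, ht⟩ := ih
      rcases Int.even_or_odd t with ⟨r, hr⟩ | ⟨r, hr⟩
      · refine ⟨s, ⟨j, hj⟩, r, ?_⟩
        rw [ht, hr, pow_succ]; ring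
      · obtain ⟨m, rfl⟩ : ∃ m, k = m + 3 := ⟨k - 3, by omega⟩
        refine ⟨s + 2 ^ (m + 2), ⟨j + 2 ^ (m + 1), by rw [hj]; ring⟩, r + 1 + j + 2 ^ m, ?_⟩
        have h5 : (s + 2 ^ (m + 2)) * (s + 2 ^ (m + 2)) - a =
          (s * s - a) + 2 ^ (m + 3) * s + 2 ^ (m + 2) * 2 ^ (m + 2) := by ring
        rw [h5, ht, hr, hj]
        ring

lemma nn_two_pow {k : ℕ} (hk : 4 ≤ k) : nn (2 ^ k) = 0 := by
  have : NeZero (2 ^ k) := ⟨pow_ne_zero _ two_ne_zero⟩
  have h0 : PQ (2 ^ k) = ∅ := by
    rw [Set.eq_empty_iff_forall_notMem]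
    rintro χ ⟨h1, h2⟩
    rw [prim_iff] at h1
    have h8 : (8 : ℕ) ∣ 2 ^ k := by
      have : (8 : ℕ) = 2 ^ 3 := by norm_num
      rw [this]
      exact pow_dvd_pow 2 (by omega)
    have h3 := h1 8 h8 (by
      intro z hz hz1
      have hz2 : (8 : ℤ) ∣ (z : ℤ) - 1 := by
        have := (Nat.modEq_iff_dvd.1 hz1.symm)
        exact_mod_cast this
      obtain ⟨s, hs, hs2⟩ := sqrt_two_pow hz2 k
      have h4 : (z : ZMod (2 ^ k)) = (s : ZMod (2 ^ k)) * (s : ZMod (2 ^ k)) := by
        have h5 : ((s * s - z : ℤ) : ZMod (2 ^ k)) = 0 := by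
          rw [ZMod.intCast_zmod_eq_zero_iff_dvd]
          exact_mod_cast hs2
        push_cast at h5
        exact (sub_eq_zero.1 h5).symm
      rw [h4, map_mul]
      have hu : IsUnit ((s : ZMod (2 ^ k)) * (s : ZMod (2 ^ k))) := by
        rw [← h4, ZMod.isUnit_iff_coprime]; exact hz
      exact sq_mul_self h2 (isUnit_of_mul_isUnit_left hu))
    have h4 : 2 ^ 3 = 2 ^ k := by rw [← h3]; norm_num
    have h5 := Nat.pow_right_injective (le_refl 2) h4
    omega
  rw [nn, h0, Set.ncard_empty]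

end Pool.Agent.H505
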