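import Pool.Agent.H505.Tw2
import Pool.Graph.R_seed8.Y767.HC.Grp

/-!
# Odd discriminants: reduction modulo `√D`, Jacobi symbol
-/

set_option autoImplicit false
set_option linter.unusedSectionVars false
set_option linter.unusedVariables false

open NumberField Complex Finset ZMod
open Pool.Agent.Y773 (TPos FT tw)
open Pool.Agent.Y773.G (rl sg eM)
open Pool.Agent.Y767 (ax Mq Mq_cop Mq_ne_bot Mq_cancel ext_mon)
open Pool.Agent.Y773.G.GH (kk Pk IsModK PrimK Kap kap_kk)
open Pool.Agent.Y773.G.GH.H505 (GaussProp vanishn entire_n tau_exists)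
open Pool.Agent.Y772.TW (prim_char norm_surj crt_tpos coprime_q absNorm_tpos norm_eq_of_sub)

namespace Pool.Agent.H505

/-! ## the Jacobi symbol as a Dirichlet character -/

/-- the Jacobi symbol -/
noncomputable def jac (M : ℕ) [NeZero M] : DirichletCharacter ℂ M where
  toFun a := ((jacobiSym (a.val : ℤ) M : ℤ) : ℂ)
  map_one' := by
    have h : (((1 : ZMod M).val : ℕ) : ℤ) = 1 % (M : ℤ) := by
      have := ZMod.val_intCast (n := M) (1 : ℤ)
      rw [Int.cast_one] at this
      exact this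
    rw [h, ← jacobiSym.mod_left, jacobiSym.one_left, Int.cast_one]
  map_mul' a b := by
    have h : (((a * b : ZMod M).val : ℕ) : ℤ) = ((a.val : ℤ) * (b.val : ℤ)) % (M : ℤ) := by
      rw [ZMod.val_mul]
      push_cast
      rfl
    rw [h, ← jacobiSym.mod_left, jacobiSym.mul_left, Int.cast_mul]
  map_nonunit' a ha := by
    have h : jacobiSym (a.val : ℤ) M = 0 := by
      rw [jacobiSym.eq_zero_iff_not_coprime]
      intro h1
      apply ha
      have h2 : Nat.Coprime a.val M := by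
        have h3 : (a.val : ℤ).gcd (M : ℤ) = Nat.gcd a.val M := rfl
        rw [h3] at h1
        exact h1
      have h3 := (ZMod.isUnit_iff_coprime a.val M).2 h2
      rwa [ZMod.natCast_zmod_val] at h3
    rw [h, Int.cast_zero]

lemma jac_int (M : ℕ) [NeZero M] (n : ℤ) : jac M (n : ZMod M) = ((jacobiSym n M : ℤ) : ℂ) := by
  show ((jacobiSym (((n : ZMod M).val : ℕ) : ℤ) M : ℤ) : ℂ) = _
  rw [ZMod.val_intCast, ← jacobiSym.mod_left]

lemma jac_nat (M : ℕ) [NeZero M] (n : ℕ) : jac M (n : ZMod M) = ((jacobiSym n M : ℤ) : ℂ) := by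
  have := jac_int M n
  rwa [Int.cast_natCast] at this

lemma jac_prime (p : ℕ) [Fact p.Prime] : jac p = qc p := by
  ext u
  have h1 : ((u : ZMod p).val : ZMod p) = (u : ZMod p) := ZMod.natCast_zmod_val _
  rw [← h1, jac_nat, qc_apply, ← jacobiSym.legendreSym.to_jacobiSym]
  unfold legendreSym
  push_cast
  rfl

lemma jac_mul {a b : ℕ} [NeZero a] [NeZero b] [NeZero (a * b)] (h : a.Coprime b) :
    jac (a * b) = prodC h (jac a) (jac b) := by
  ext u
  have h1 : ((u : ZMod (a * b)).val : ZMod (a * b)) = (u : ZMod (a * b)) := ZMod.natCast_zmod_val _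
  rw [← h1, jac_nat, prodC_nat, jac_nat, jac_nat, jacobiSym.mul_right]
  push_cast
  rfl

lemma jac_sq (M : ℕ) [NeZero M] : jac M ^ 2 = 1 := by
  ext u
  rw [MulChar.pow_apply_coe, MulChar.one_apply_coe]
  have h1 : ((u : ZMod M).val : ZMod M) = (u : ZMod M) := ZMod.natCast_zmod_val _
  rw [← h1, jac_nat]
  have h2 : Nat.Coprime (u : ZMod M).val M := ZMod.val_coe_unit_coprime u
  have h3 : jacobiSym ((u : ZMod M).val : ℤ) M ^ 2 = 1 := by
    apply jacobiSym.sq_one
    exact h2
  exact_mod_cast h3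

lemma jac_prim : ∀ (M : ℕ) [NeZero M], ¬ 2 ∣ M → Squarefree M → (jac M).IsPrimitive := by
  intro M
  induction M using Nat.strong_induction_on with
  | _ M ih =>
    intro _ hodd hsq
    by_cases h1 : M = 1
    · subst h1
      rw [DirichletCharacter.level_one (jac 1)]
      exact prim_one_level
    obtain ⟨m, hm⟩ := Nat.minFac_dvd M
    have hp := Nat.minFac_prime h1
    have hp2 : M.minFac ≠ 2 := fun h => hodd (by rw [← h]; exact Nat.minFac_dvd M)
    have hg0 : M ≠ 0 := hsq.ne_zero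
    set p := M.minFac with hpdef
    clear_value p
    subst hm
    have : Fact p.Prime := ⟨hp⟩
    have hcop : p.Coprime m := by
      rw [Nat.squarefree_mul_iff] at hsq
      exact hsq.1
    have hm0 : m ≠ 0 := by
      rintro rfl
      exact hg0 (mul_zero _)
    have : NeZero p := ⟨hp.ne_zero⟩
    have : NeZero m := ⟨hm0⟩
    have hlt : m < p * m := by
      have h2 := hp.two_le
      have h3 : 0 < m := Nat.pos_of_ne_zero hm0
      nlinarith
    rw [jac_mul hcop, prim_prod hcop, compL_prodC, compR_prodC]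
    refine ⟨?_, ih m hlt (fun h => hodd (h.mul_left _))
      (by rw [Nat.squarefree_mul_iff] at hsq; exact hsq.2.2)⟩
    have h3 : qc p ∈ PQ p := by rw [PQ_prime hp2]; rfl
    rw [jac_prime]
    exact h3.1

lemma jac_neg_one {M : ℕ} [NeZero M] (hM : M % 4 = 1) : jac M (-1) = 1 := by
  have h := jac_int M (-1)
  push_cast at h
  rw [h, jacobiSym.at_neg_one (by rw [Nat.odd_iff]; omega), ZMod.χ₄_nat_eq_if_mod_four,
    if_neg (by omega), if_pos hM, Int.cast_one]

section

variable {K : Type} [Field K] [NumberField K] (B : QB K)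

lemma D_pos (hr : ∀ w : InfinitePlace K, w.IsReal) : 0 < B.D := by
  obtain ⟨w⟩ : Nonempty (InfinitePlace K) := inferInstance
  set φ : K →+* ℝ := InfinitePlace.embedding_of_isReal (hr w)
  have h1 := congrArg (fun x : 𝓞 K => φ (x : K)) B.rt_sq
  have h2 : φ ((B.rt * B.rt : 𝓞 K) : K) = φ (B.rt : K) * φ (B.rt : K) := by
    rw [coe_mul', map_mul]
  have h3 : φ (((B.D : ℤ) : 𝓞 K) : K) = (B.D : ℝ) := by
    have : (((B.D : ℤ) : 𝓞 K) : K) = ((B.D : ℤ) : K) := map_intCast (algebraMap (𝓞 K) K) B.D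
    rw [this, map_intCast]
  simp only [h2, h3] at h1
  have h4 : (0 : ℝ) ≤ (B.D : ℝ) := by rw [← h1]; exact mul_self_nonneg _
  have h5 : (0 : ℤ) ≤ B.D := by exact_mod_cast h4
  exact lt_of_le_of_ne h5 B.D_ne_zero.symm

lemma D_ne_one (h2 : Module.finrank ℚ K = 2) : B.D ≠ 1 := by
  intro h
  have h1 := NumberField.abs_discr_gt_two (K := K) (by rw [h2]; norm_num)
  rw [B.discr_eq, h] at h1
  norm_num at h1

lemma D_mod (hodd : ¬ (2 : ℤ) ∣ B.D) : B.D % 4 = 1 := by
  unfold QB.D at *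
  have h : ¬ (2 : ℤ) ∣ B.T := by
    rintro ⟨k, hk⟩
    apply hodd
    rw [hk]
    exact ⟨2 * k * k - 2 * B.N, by ring⟩
  obtain ⟨k, hk⟩ : ∃ k, B.T = 2 * k + 1 := by
    have := Int.emod_two_eq_zero_or_one B.T
    rcases this with h1 | h1
    · exact absurd (Int.dvd_of_emod_eq_zero h1) h
    · exact ⟨B.T / 2, by omega⟩
  rw [hk]
  have : (2 * k + 1) * (2 * k + 1) - 4 * B.N = 4 * (k * k + k - B.N) + 1 := by ring
  omega

lemma D_sqfree {M : ℕ} (hM : (M : ℤ) = B.D) (hM2 : ¬ 2 ∣ M) : Squarefree M := by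
  rw [Nat.squarefree_iff_prime_squarefree]
  rintro p hp ⟨k, hk⟩
  have hp0 : (p : K) ≠ 0 := by exact_mod_cast hp.ne_zero
  have hp2 : p ≠ 2 := by
    rintro rfl
    exact hM2 ⟨2 * k, by rw [hk]; ring⟩
  have h1 : ((B.rt : K) / p) ^ 2 = (k : K) := by
    have h2 : (B.rt : K) * (B.rt : K) = ((M : ℕ) : K) := by
      rw [← coe_mul', B.rt_sq, ← hM, Int.cast_natCast]
      exact map_natCast (algebraMap (𝓞 K) K) M
    rw [div_pow, pow_two, h2, hk]
    push_cast
    field_simp
  have hint : IsIntegral ℤ ((B.rt : K) / p) := by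
    apply IsIntegral.of_pow (n := 2) (by norm_num)
    rw [h1]
    exact_mod_cast isIntegral_algebraMap (R := ℤ) (A := K) (x := (k : ℤ))
  obtain ⟨y, hy⟩ : ∃ y : 𝓞 K, (y : K) = (B.rt : K) / p := ⟨⟨_, hint⟩, rfl⟩
  have h3 : (p : 𝓞 K) * y = B.rt := by
    apply RingOfIntegers.ext
    rw [coe_mul', hy]
    have : ((p : 𝓞 K) : K) = (p : K) := map_natCast (algebraMap (𝓞 K) K) p
    rw [this]
    field_simp
  have h4 : B.rt ∈ Ideal.span {((p : ℤ) : 𝓞 K)} := by
    rw [Ideal.mem_span_singleton]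
    exact ⟨y, by rw [← h3]; push_cast; rfl⟩
  rw [B.mem_span_int, B.rt_coord.2] at h4
  have h5 : p ∣ 2 := by exact_mod_cast h4.2
  have := Nat.le_of_dvd (by norm_num) h5
  have := hp.two_le
  omega

/-! ## the reduction modulo `√D` -/

/-- one half -/
def hf (M : ℕ) : ZMod M := (((M + 1) / 2 : ℕ) : ZMod M)

lemma two_hf {M : ℕ} (hM2 : ¬ 2 ∣ M) : 2 * hf M = 1 := by
  have h1 : 2 * ((M + 1) / 2) = M + 1 := by omega
  have h2 : ((2 * ((M + 1) / 2) : ℕ) : ZMod M) = ((M + 1 : ℕ) : ZMod M) := by rw [h1]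
  rw [Nat.cast_mul, Nat.cast_add, Nat.cast_one, ZMod.natCast_self, zero_add, Nat.cast_ofNat] at h2
  exact h2

/-- the reduction modulo `√D` -/
noncomputable def red {M : ℕ} (hM : (M : ℤ) = B.D) (hM2 : ¬ 2 ∣ M) : 𝓞 K →+* ZMod M where
  toFun r := ((B.cre r : ℤ) : ZMod M) + ((B.cim r : ℤ) : ZMod M) * ((B.T : ZMod M) * hf M)
  map_one' := by rw [B.coord_one.1, B.coord_one.2]; simp
  map_zero' := by rw [B.coord_zero.1, B.coord_zero.2]; simp
  map_add' x y := by
    rw [(B.coord_add x y).1, (B.coord_add x y).2]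
    push_cast
    ring
  map_mul' x y := by
    rw [(B.coord_mul x y).1, (B.coord_mul x y).2]
    push_cast
    have h1 := two_hf hM2
    have h2 : ((B.T : ZMod M) * B.T - 4 * B.N) = 0 := by
      have h3 : ((B.D : ℤ) : ZMod M) = 0 := by rw [← hM]; simp
      unfold QB.D at h3
      push_cast at h3
      exact h3
    have h3 : (B.N : ZMod M) = (B.T : ZMod M) * B.T * (hf M * hf M) := by
      linear_combination (-(hf M * hf M)) * h2 - (B.N : ZMod M) * (2 * hf M + 1) * h1
    rw [h3]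
    linear_combination (-((B.cim x : ZMod M) * (B.cim y : ZMod M) * B.T * B.T * hf M)) * h1

variable {B} {M : ℕ} (hM : (M : ℤ) = B.D) (hM2 : ¬ 2 ∣ M)

lemma red_apply (r : 𝓞 K) : red B hM hM2 r =
    ((B.cre r : ℤ) : ZMod M) + ((B.cim r : ℤ) : ZMod M) * ((B.T : ZMod M) * hf M) := rfl

lemma two_red (r : 𝓞 K) : 2 * red B hM hM2 r = ((2 * B.cre r + B.T * B.cim r : ℤ) : ZMod M) := by
  rw [red_apply]
  push_cast
  linear_combination ((B.cim r : ZMod M) * B.T) * two_hf hM2

lemma red_rt : red B hM hM2 B.rt = 0 := by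
  rw [red_apply, B.rt_coord.1, B.rt_coord.2]
  push_cast
  linear_combination (B.T : ZMod M) * two_hf hM2

lemma red_eq_zero {r : 𝓞 K} : red B hM hM2 r = 0 ↔ r ∈ Ideal.span {B.rt} := by
  constructor
  · intro h
    have h1 := two_red hM hM2 r
    rw [h, mul_zero] at h1
    have h2 := (ZMod.intCast_zmod_eq_zero_iff_dvd _ M).1 h1.symm
    rw [hM] at h2
    have hcop : IsCoprime (B.D) 2 := by
      rw [← hM]
      have : Nat.Coprime M 2 := ((Nat.Prime.coprime_iff_not_dvd Nat.prime_two).2 hM2).symm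
      exact_mod_cast Nat.isCoprime_iff_coprime.2 this
    have h3 : r * B.rt ∈ Ideal.span {((B.D : ℤ) : 𝓞 K)} := by
      have e : ((B.D : ℤ) : 𝓞 K) = ((M : ℤ) : 𝓞 K) := by rw [hM]
      rw [e, Ideal.mem_span_singleton]
      obtain ⟨k, hk⟩ := h2
      have h4 : B.D ∣ 2 * (-(B.T * B.cre r) - 2 * B.N * B.cim r) := by
        refine ⟨B.cim r - B.T * k, ?_⟩
        unfold QB.D at hk ⊢
        linear_combination (-B.T) * hk
      obtain ⟨l, hl⟩ := hcop.dvd_of_dvd_mul_left h4
      refine ⟨(l : 𝓞 K) + (k : 𝓞 K) * B.om, ?_⟩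
      rw [hM]
      apply B.ext_coord
      · rw [(B.coord_mul _ _).1, (B.coord_mul _ _).1, (B.uniq _ _).1, (B.uniq _ _).2,
          (B.coord_int _).1, (B.coord_int _).2, B.rt_coord.1, B.rt_coord.2]
        linear_combination hl
      · rw [(B.coord_mul _ _).2, (B.coord_mul _ _).2, (B.uniq _ _).1, (B.uniq _ _).2,
          (B.coord_int _).1, (B.coord_int _).2, B.rt_coord.1, B.rt_coord.2]
        linear_combination hk
    rw [Ideal.mem_span_singleton] at h3 ⊢
    obtain ⟨s, hs⟩ := h3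
    refine ⟨s, ?_⟩
    have hrt : B.rt ≠ 0 := by
      intro h0
      have := B.rt_coord.2
      rw [h0, B.coord_zero.2] at this
      norm_num at this
    apply mul_right_cancel₀ hrt
    rw [hs, ← B.rt_sq]
    ring
  · intro h
    obtain ⟨s, rfl⟩ := Ideal.mem_span_singleton.1 h
    rw [map_mul, red_rt, zero_mul]

lemma red_norm (r : 𝓞 K) : ((Algebra.norm ℤ r : ℤ) : ZMod M) = red B hM hM2 r * red B hM hM2 r := by
  have h1 := two_hf hM2
  have h2 : ((B.T : ZMod M) * B.T - 4 * B.N) = 0 := by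
    have h3 : ((B.D : ℤ) : ZMod M) = 0 := by rw [← hM]; simp
    unfold QB.D at h3
    push_cast at h3
    exact h3
  have h3 : (B.N : ZMod M) = (B.T : ZMod M) * B.T * (hf M * hf M) := by
    linear_combination (-(hf M * hf M)) * h2 - (B.N : ZMod M) * (2 * hf M + 1) * h1
  rw [B.norm_int, red_apply]
  push_cast
  rw [h3]
  linear_combination (-((B.cre r : ZMod M) * (B.cim r : ZMod M) * B.T)) * h1

lemma red_int (n : ℤ) : red B hM hM2 (n : 𝓞 K) = (n : ZMod M) := map_intCast _ _

lemma red_nat (n : ℕ) : red B hM hM2 (n : 𝓞 K) = (n : ZMod M) := map_natCast _ _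

lemma red_isUnit {r : 𝓞 K} : IsCoprime (Ideal.span {r}) (Ideal.span {B.rt}) ↔
    IsUnit (red B hM hM2 r) := by
  rw [cop_rt B hM, ← ZMod.isUnit_iff_coprime]
  have h1 : ((Ideal.absNorm (Ideal.span {r}) : ℕ) : ZMod M) = red B hM hM2 r * red B hM hM2 r ∨
      ((Ideal.absNorm (Ideal.span {r}) : ℕ) : ZMod M) = -(red B hM hM2 r * red B hM hM2 r) := by
    rw [← red_norm, Ideal.absNorm_span_singleton]
    rcases Int.natAbs_eq (Algebra.norm ℤ r) with h | h
    · left
      have := congrArg (fun n : ℤ => (n : ZMod M)) h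
      simp only [Int.cast_natCast] at this
      exact this.symm
    · right
      have := congrArg (fun n : ℤ => (n : ZMod M)) h
      simp only [Int.cast_natCast, Int.cast_neg] at this
      rw [this, neg_neg]
  constructor
  · intro h
    rcases h1 with h1 | h1
    · rw [h1] at h; exact isUnit_of_mul_isUnit_left h
    · rw [h1] at h
      exact isUnit_of_mul_isUnit_left (neg_neg (red B hM hM2 r * red B hM hM2 r) ▸ h.neg)
  · intro h
    rcases h1 with h1 | h1
    · rw [h1]; exact h.mul h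
    · rw [h1]; exact (h.mul h).neg

include hM hM2 in
/-- quadratic reciprocity -/
lemma jac_spl [NeZero M] {p : ℕ} (hp : p.Prime) (hpD : ¬ (p : ℤ) ∣ B.D) :
    jac M (p : ZMod M) = spl B.T B.N p := by
  have hM4 : M % 4 = 1 := by
    have h1 := D_mod B (by rw [← hM]; exact_mod_cast hM2)
    rw [← hM] at h1
    omega
  rw [jac_nat]
  by_cases hp2 : p = 2
  · subst hp2
    rw [spl_two]
    have hodd : Odd M := by rw [Nat.odd_iff]; omega
    have h1 : jacobiSym ((2 : ℕ) : ℤ) M = ZMod.χ₈ M := jacobiSym.at_two hodd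
    rw [h1, ZMod.χ₈_nat_eq_if_mod_eight, if_neg (by omega)]
    have hT : ¬ (2 : ℤ) ∣ B.T := by
      rintro ⟨k, hk⟩
      apply hM2
      have : (2 : ℤ) ∣ (M : ℤ) := by
        rw [hM]
        unfold QB.D
        rw [hk]
        exact ⟨2 * k * k - 2 * B.N, by ring⟩
      exact_mod_cast this
    obtain ⟨k, hk⟩ : ∃ k, B.T = 2 * k + 1 := by
      rcases Int.emod_two_eq_zero_or_one B.T with h1 | h1
      · exact absurd (Int.dvd_of_emod_eq_zero h1) hT
      · exact ⟨B.T / 2, by omega⟩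
    obtain ⟨j, hj⟩ := Int.even_mul_succ_self k
    have hM8 : (M : ℤ) = 8 * j + 1 - 4 * B.N := by
      rw [hM]
      unfold QB.D
      rw [hk]
      linear_combination 4 * hj
    by_cases hN : Even B.N
    · rw [if_pos hN]
      obtain ⟨n, hn⟩ := hN
      have h8 : M % 8 = 1 := by omega
      rw [if_pos (Or.inl h8)]
      simp
    · rw [if_neg hN]
      rw [Int.not_even_iff_odd] at hN
      obtain ⟨n, hn⟩ := hN
      have h8 : M % 8 = 5 := by omega
      rw [if_neg (by omega)]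
      simp
  · have : Fact p.Prime := ⟨hp⟩
    rw [spl_odd hp2]
    have hpo : Odd p := hp.odd_of_ne_two hp2
    rw [← jacobiSym.quadratic_reciprocity_one_mod_four hM4 hpo, ← jacobiSym.legendreSym.to_jacobiSym,
      qc_apply]
    unfold legendreSym
    rw [hM]
    rfl

end

end Pool.Agent.H505
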