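import Pool.Agent.H505.Exi

/-!
# Odd discriminants: existence of the base characters
-/

set_option autoImplicit false
set_option linter.unusedSectionVars false
set_option linter.unusedVariables false

open NumberField Complex Finset ZMod
open NumberField.Units NumberField.Units.dirichletUnitTheorem
open Pool.Agent.Y773 (TPos FT tw)
open Pool.Agent.Y773.G (rl sg eM)
open Pool.Agent.Y767 (ax ax_neg_mul Mq Mq_cop Mq_ne_bot Mq_cancel ext_mon)
open Pool.Agent.Y773.G.GH (kk Pk IsModK PrimK Kap kap_kk)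
open Pool.Agent.Y773.G.GH.H505 (GaussProp vanishn entire_n tau_exists)

namespace Pool.Agent.H505

section

variable {K : Type} [Field K] [NumberField K]

/-- the integers prime to an ideal -/
def Tc (𝔮 : Ideal (𝓞 K)) : Submonoid (𝓞 K) where
  carrier := {x | IsCoprime (Ideal.span {x}) 𝔮}
  mul_mem' {x y} hx hy := by
    change IsCoprime (Ideal.span {x * y}) 𝔮
    rw [← Ideal.span_singleton_mul_span_singleton]
    exact IsCoprime.mul_left hx hy
  one_mem' := by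
    change IsCoprime (Ideal.span {(1 : 𝓞 K)}) 𝔮
    rw [Ideal.span_singleton_one, ← Ideal.one_eq_top]
    exact isCoprime_one_left

/-- the principal ideals -/
def pc (𝔮 : Ideal (𝓞 K)) : Tc 𝔮 →* Mq 𝔮 where
  toFun x := ⟨Ideal.span {(x : 𝓞 K)}, x.2⟩
  map_one' := by
    apply Subtype.ext
    change Ideal.span {(1 : 𝓞 K)} = 1
    rw [Ideal.span_singleton_one, Ideal.one_eq_top]
  map_mul' x y := by
    apply Subtype.ext
    change Ideal.span {(x : 𝓞 K) * (y : 𝓞 K)} = _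
    rw [← Ideal.span_singleton_mul_span_singleton]
    rfl

lemma ne_zero_of_cop {𝔮 : Ideal (𝓞 K)} (htop : 𝔮 ≠ ⊤) {x : 𝓞 K}
    (h : IsCoprime (Ideal.span {x}) 𝔮) : x ≠ 0 := by
  rintro rfl
  rw [Ideal.span_singleton_eq_bot.mpr rfl, Ideal.isCoprime_iff_sup_eq, bot_sup_eq] at h
  exact htop h

open Classical in
/-- extension by zero -/
noncomputable def ofMq {𝔮 : Ideal (𝓞 K)} (htop : 𝔮 ≠ ⊤) (F : Mq 𝔮 →* ℂˣ) : Ideal (𝓞 K) →*₀ ℂ where
  toFun 𝔞 := if h : IsCoprime 𝔞 𝔮 then ((F ⟨𝔞, h⟩ : ℂˣ) : ℂ) else 0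
  map_zero' := by
    rw [dif_neg]
    intro h
    rw [Ideal.zero_eq_bot, Ideal.isCoprime_iff_sup_eq, bot_sup_eq] at h
    exact htop h
  map_one' := by
    rw [dif_pos isCoprime_one_left]
    have : (⟨1, isCoprime_one_left⟩ : Mq 𝔮) = 1 := rfl
    rw [this, map_one, Units.val_one]
  map_mul' 𝔞 𝔟 := by
    by_cases h1 : IsCoprime 𝔞 𝔮
    · by_cases h2 : IsCoprime 𝔟 𝔮
      · rw [dif_pos h1, dif_pos h2, dif_pos (h1.mul_left h2), ← Units.val_mul, ← map_mul]
        rfl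
      · rw [dif_neg h2, dif_neg (fun h => h2 (IsCoprime.mul_left_iff.mp h).2), mul_zero]
    · rw [dif_neg h1, dif_neg (fun h => h1 (IsCoprime.mul_left_iff.mp h).1), zero_mul]

open Classical in
lemma ofMq_coe {𝔮 : Ideal (𝓞 K)} (htop : 𝔮 ≠ ⊤) (F : Mq 𝔮 →* ℂˣ) (x : Mq 𝔮) :
    ofMq htop F (x : Ideal (𝓞 K)) = ((F x : ℂˣ) : ℂ) := by
  change (if h : IsCoprime (x : Ideal (𝓞 K)) 𝔮 then ((F ⟨(x : Ideal (𝓞 K)), h⟩ : ℂˣ) : ℂ) else 0) = _
  rw [dif_pos (Mq_cop x)]

open Classical in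
lemma ofMq_supp {𝔮 : Ideal (𝓞 K)} (htop : 𝔮 ≠ ⊤) (F : Mq 𝔮 →* ℂˣ) (𝔞 : Ideal (𝓞 K)) :
    ofMq htop F 𝔞 ≠ 0 ↔ IsCoprime 𝔞 𝔮 := by
  change (if h : IsCoprime 𝔞 𝔮 then ((F ⟨𝔞, h⟩ : ℂˣ) : ℂ) else 0) ≠ 0 ↔ _
  by_cases h : IsCoprime 𝔞 𝔮
  · rw [dif_pos h]
    exact ⟨fun _ => h, fun _ => Units.ne_zero _⟩
  · rw [dif_neg h]
    exact ⟨fun h1 => absurd rfl h1, fun h1 => absurd h1 h⟩

/-- extension to the ideals -/
theorem exists_ext {𝔮 : Ideal (𝓞 K)} (htop : 𝔮 ≠ ⊤) (f : 𝓞 K → ℂ) (f1 : f 1 = 1)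
    (fm : ∀ x y, x ≠ 0 → y ≠ 0 → f (x * y) = f x * f y)
    (fne : ∀ x, IsCoprime (Ideal.span {x}) 𝔮 → f x ≠ 0)
    (fu : ∀ u : (𝓞 K)ˣ, f (u : 𝓞 K) = 1) :
    ∃ ψ : Ideal (𝓞 K) →*₀ ℂ, (∀ 𝔞, ψ 𝔞 ≠ 0 ↔ IsCoprime 𝔞 𝔮) ∧
      ∀ x, IsCoprime (Ideal.span {x}) 𝔮 → ψ (Ideal.span {x}) = f x := by
  have := Mq_cancel htop
  let φ : Tc 𝔮 →* ℂˣ :=
    { toFun := fun x => Units.mk0 (f (x : 𝓞 K)) (fne _ x.2)
      map_one' := by
        ext
        rw [Units.val_mk0, Submonoid.coe_one, f1, Units.val_one]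
      map_mul' := fun x y => by
        ext
        rw [Units.val_mul, Units.val_mk0, Units.val_mk0, Units.val_mk0, Submonoid.coe_mul,
          fm _ _ (ne_zero_of_cop htop x.2) (ne_zero_of_cop htop y.2)] }
  obtain ⟨F, hF⟩ := ext_mon (pc 𝔮) φ (by
    intro a b hab
    have h1 : Ideal.span {(a : 𝓞 K)} = Ideal.span {(b : 𝓞 K)} := congrArg Subtype.val hab
    rw [Ideal.span_singleton_eq_span_singleton] at h1
    obtain ⟨u, hu⟩ := h1
    ext
    change f (a : 𝓞 K) = f (b : 𝓞 K)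
    rw [← hu, fm _ _ (ne_zero_of_cop htop a.2) u.ne_zero, fu, mul_one])
  refine ⟨ofMq htop F, ofMq_supp htop F, fun x hx => ?_⟩
  have h2 := ofMq_coe htop F (pc 𝔮 ⟨x, hx⟩)
  rw [hF] at h2
  exact h2

/-- a multiplicative function is trivial on the units if it is at `-1` and the fundamental ones -/
lemma units_one (hr : ∀ w : InfinitePlace K, w.IsReal) (f : 𝓞 K → ℂ) (f1 : f 1 = 1)
    (fm : ∀ x y, x ≠ 0 → y ≠ 0 → f (x * y) = f x * f y) (fneg : f (-1) = 1)
    (hfund : ∀ i, f (fundSystem K i : 𝓞 K) = 1) (u : (𝓞 K)ˣ) : f (u : 𝓞 K) = 1 := by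
  let g : (𝓞 K)ˣ →* ℂ :=
    { toFun := fun u => f (u : 𝓞 K)
      map_one' := by rw [Units.val_one, f1]
      map_mul' := fun x y => by rw [Units.val_mul, fm _ _ x.ne_zero y.ne_zero] }
  let G : (𝓞 K)ˣ →* ℂˣ := g.toHomUnits
  have hG : ∀ u : (𝓞 K)ˣ, ((G u : ℂˣ) : ℂ) = f (u : 𝓞 K) := fun u => rfl
  obtain ⟨⟨ζ, e⟩, hu, -⟩ := exist_unique_eq_mul_prod K u
  simp only at hu
  have h1 : ∀ i, G (fundSystem K i) = 1 := fun i => by
    ext
    rw [hG, hfund, Units.val_one]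
  have h2 : G (ζ : (𝓞 K)ˣ) = 1 := by
    obtain ⟨w⟩ : Nonempty (InfinitePlace K) := inferInstance
    have h3 := (mem_torsion K).1 ζ.2 w
    set φ : K →+* ℝ := InfinitePlace.embedding_of_isReal (hr w) with hφ
    have h4 : |φ (((ζ : (𝓞 K)ˣ) : 𝓞 K) : K)| = 1 := by
      rw [← Real.norm_eq_abs, hφ, InfinitePlace.norm_embedding_of_isReal]
      exact h3
    have h5 : (((ζ : (𝓞 K)ˣ) : 𝓞 K)) = 1 ∨ (((ζ : (𝓞 K)ˣ) : 𝓞 K)) = -1 := by
      rcases abs_eq (by norm_num : (0:ℝ) ≤ 1) |>.1 h4 with h | h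
      · left
        apply RingOfIntegers.ext
        apply φ.injective
        rw [h]
        have : ((1 : 𝓞 K) : K) = 1 := map_one _
        rw [this, map_one]
      · right
        apply RingOfIntegers.ext
        apply φ.injective
        rw [h]
        have h7 : ((-1 : 𝓞 K) : K) = -1 := by
          have h8 := map_neg (algebraMap (𝓞 K) K) 1
          rw [map_one] at h8
          exact h8
        rw [h7, map_neg, map_one]
    ext
    rw [hG, Units.val_one]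
    rcases h5 with h | h
    · rw [h, f1]
    · rw [h, fneg]
  have h3 : G u = 1 := by
    rw [hu, map_mul, map_prod, h2, one_mul]
    apply Finset.prod_eq_one
    intro i _
    rw [map_zpow, h1, one_zpow]
  have h4 := hG u
  rw [h3, Units.val_one] at h4
  exact h4.symm

lemma card_places (h2 : Module.finrank ℚ K = 2) (hr : ∀ w : InfinitePlace K, w.IsReal) :
    Fintype.card (InfinitePlace K) = 2 := by
  rw [← card_emb h2]
  exact (Fintype.card_of_bijective (mk_bij hr)).symm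

lemma two_places (h2 : Module.finrank ℚ K = 2) (hr : ∀ w : InfinitePlace K, w.IsReal) :
    ∃ w₁ w₂ : InfinitePlace K, w₁ ≠ w₂ ∧ ∀ w, w = w₁ ∨ w = w₂ := by
  classical
  obtain ⟨w₁, w₂, h, hu⟩ :=
    Finset.card_eq_two.1 ((Finset.card_univ (α := InfinitePlace K)).trans (card_places h2 hr))
  refine ⟨w₁, w₂, h, fun w => ?_⟩
  have h3 : w ∈ (Finset.univ : Finset (InfinitePlace K)) := Finset.mem_univ w
  rw [hu, Finset.mem_insert, Finset.mem_singleton] at h3
  exact h3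

lemma sum_two {w₁ w₂ : InfinitePlace K} (hne : w₁ ≠ w₂) (huniv : ∀ w, w = w₁ ∨ w = w₂)
    (f : InfinitePlace K → ℝ) : ∑ w, f w = f w₁ + f w₂ := by
  classical
  have h : (Finset.univ : Finset (InfinitePlace K)) = {w₁, w₂} := by
    ext w
    rw [Finset.mem_insert, Finset.mem_singleton]
    exact ⟨fun _ => huniv w, fun _ => Finset.mem_univ w⟩
  rw [h, Finset.sum_pair hne]

open Classical in
/-- the infinity types -/
noncomputable def nu (w₁ : InfinitePlace K) (t : ℝ) : InfinitePlace K → ℝ :=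
  fun w => if w = w₁ then t else -t

variable {w₁ w₂ : InfinitePlace K} (hne : w₁ ≠ w₂) (huniv : ∀ w, w = w₁ ∨ w = w₂)

include hne huniv

lemma nu_sum (t : ℝ) : ∑ w, nu w₁ t w = 0 := by
  rw [sum_two hne huniv]
  unfold nu
  rw [if_pos rfl, if_neg hne.symm]
  ring

lemma ax_nu (t : ℝ) (x : K) :
    ax (nu w₁ t) x = cexp (I * ((t * (Real.log (w₁ x) - Real.log (w₂ x)) : ℝ) : ℂ)) := by
  unfold ax
  rw [sum_two hne huniv]
  unfold nu
  rw [if_pos rfl, if_neg hne.symm]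
  congr 3
  ring

/-- the values at a unit can be prescribed -/
lemma exists_t (hr : ∀ w : InfinitePlace K, w.IsReal) {s : ℂ} (hs : s = 1 ∨ s = -1)
    (i : Fin (rank K)) :
    ∃ T : ℕ → ℝ, Function.Injective T ∧ (∀ j, T j ≠ 0) ∧
      ∀ j, ax (nu w₁ (T j)) ((fundSystem K i : 𝓞 K) : K) = s := by
  set ε : K := ((fundSystem K i : 𝓞 K) : K) with hε
  have hsum : Real.log (w₁ ε) + Real.log (w₂ ε) = 0 := by
    have h := sum_mult_mul_log (fundSystem K i)
    rw [sum_two hne huniv, InfinitePlace.mult, InfinitePlace.mult, if_pos (hr _),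
      if_pos (hr _), Nat.cast_one, one_mul, one_mul] at h
    exact h
  have hL : Real.log (w₁ ε) ≠ 0 := by
    intro h0
    have h1 : ∀ w : InfinitePlace K, w ε = 1 := by
      intro w
      have h2 : Real.log (w ε) = 0 := by
        rcases huniv w with h | h
        · rw [h]; exact h0
        · rw [h]; linarith
      have h3 : 0 < w ε := InfinitePlace.pos_iff.2 (coe_ne (fundSystem K i).ne_zero)
      rcases Real.log_eq_zero.1 h2 with h | h | h
      · exact absurd h h3.ne'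
      · exact h
      · linarith
    have h4 : fundSystem K i ∈ torsion K := (mem_torsion K).2 h1
    have h5 := (logEmbedding_eq_zero_iff (K := K)).2 h4
    rw [logEmbedding_fundSystem] at h5
    exact (basisUnitLattice K).ne_zero i (Subtype.ext h5)
  set L := Real.log (w₁ ε) with hLdef
  obtain ⟨b, hb⟩ : ∃ b : ℕ, s = (-1) ^ b := by
    rcases hs with h | h
    · exact ⟨0, by rw [h, pow_zero]⟩
    · exact ⟨1, by rw [h, pow_one]⟩
  refine ⟨fun j => Real.pi * ((2 * (j + 1) + b : ℕ) : ℝ) / (2 * L), ?_, ?_, ?_⟩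
  · intro j k hjk
    simp only at hjk
    have h2L : 2 * L ≠ 0 := mul_ne_zero two_ne_zero hL
    rw [div_left_inj' h2L] at hjk
    have h3 := mul_left_cancel₀ Real.pi_ne_zero hjk
    have h4 : 2 * (j + 1) + b = 2 * (k + 1) + b := by exact_mod_cast h3
    omega
  · intro j
    have h2L : 2 * L ≠ 0 := mul_ne_zero two_ne_zero hL
    have h3 : ((2 * (j + 1) + b : ℕ) : ℝ) ≠ 0 := by
      have : 2 * (j + 1) + b ≠ 0 := by omega
      exact_mod_cast this
    exact div_ne_zero (mul_ne_zero Real.pi_ne_zero h3) h2L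
  · intro j
    rw [ax_nu hne huniv]
    have h4 : Real.log (w₂ ε) = -L := by linarith
    rw [h4, hb]
    have h5 : Real.pi * ((2 * (j + 1) + b : ℕ) : ℝ) / (2 * L) * (L - -L) =
        Real.pi * ((2 * (j + 1) + b : ℕ) : ℝ) := by
      field_simp
      ring
    rw [h5]
    have h6 : I * ((Real.pi * ((2 * (j + 1) + b : ℕ) : ℝ) : ℝ) : ℂ) =
        ((2 * (j + 1) + b : ℕ) : ℂ) * (Real.pi * I) := by
      push_cast
      ring
    rw [h6, Complex.exp_nat_mul, Complex.exp_pi_mul_I, pow_add, pow_mul]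
    norm_num

end

end Pool.Agent.H505
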