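import Pool.Agent.H505.Exi2

/-!
# Odd discriminants: the base characters
-/

set_option autoImplicit false
set_option linter.unusedSectionVars false
set_option linter.unusedVariables false

open NumberField Complex Finset ZMod Filter Topology
open NumberField.Units NumberField.Units.dirichletUnitTheorem
open Pool.Agent.Y773 (TPos FT tw)
open Pool.Agent.Y773.G (rl sg eM)
open Pool.Agent.Y767 (ax ax_neg_mul ax_one)
open Pool.Agent.Y773.G.GH (kk Pk IsModK PrimK Kap kap_kk)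
open Pool.Agent.Y773.G.GH.H505 (GaussProp vanishn entire_n tau_exists)

namespace Pool.Agent.H505

section

variable {K : Type} [Field K] [NumberField K] {B : QB K}

lemma rt_ne_top (h2 : Module.finrank ℚ K = 2) (hr : ∀ w : InfinitePlace K, w.IsReal) :
    (Ideal.span {B.rt} : Ideal (𝓞 K)) ≠ ⊤ := by
  intro h
  have h1 : Ideal.absNorm (Ideal.span {B.rt}) = 1 := by rw [h, Ideal.absNorm_top]
  rw [Ideal.absNorm_span_singleton, B.norm_rt] at h1
  have h3 := D_pos B hr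
  have h4 := D_ne_one B h2
  omega

variable {M : ℕ} [NeZero M] (hM : (M : ℤ) = B.D) (hM2 : ¬ 2 ∣ M)

/-- what is needed of the character -/
structure PsiF (e0 : ℕ) (ν : InfinitePlace K → ℝ) (ψ : Ideal (𝓞 K) →*₀ ℂ) : Prop where
  supp : ∀ 𝔞, ψ 𝔞 ≠ 0 ↔ IsCoprime 𝔞 (Ideal.span {B.rt})
  val : ∀ x, IsCoprime (Ideal.span {x}) (Ideal.span {B.rt}) → ψ (Ideal.span {x}) =
    jac M (red B hM hM2 x) * sgN x ^ e0 * ax ν (x : K)

variable (h2 : Module.finrank ℚ K = 2) (hr : ∀ w : InfinitePlace K, w.IsReal)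

include h2 hr in
theorem exists_psi {e0 : ℕ} {ν : InfinitePlace K → ℝ}
    (hu : ∀ u : (𝓞 K)ˣ, jac M (red B hM hM2 (u : 𝓞 K)) * sgN (u : 𝓞 K) ^ e0 *
      ax ν ((u : 𝓞 K) : K) = 1) : ∃ ψ : Ideal (𝓞 K) →*₀ ℂ, PsiF hM hM2 e0 ν ψ := by
  obtain ⟨ψ, h1, h3⟩ := exists_ext (rt_ne_top (B := B) h2 hr)
    (fun x => jac M (red B hM hM2 x) * sgN x ^ e0 * ax ν (x : K)) (by
      have h4 : ((1 : 𝓞 K) : K) = 1 := map_one _
      rw [map_one, map_one, sgN_one, one_pow, h4, ax_one]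
      norm_num) (by
      intro x y hx hy
      rw [map_mul, map_mul, sgN_mul, mul_pow, ax_cmul ν hx hy]
      ring) (by
      intro x hx
      have hx0 := ne_zero_of_cop (rt_ne_top (B := B) h2 hr) hx
      refine mul_ne_zero (mul_ne_zero ?_ (pow_ne_zero _ (sgN_ne hx0))) (ax_ne _ _)
      exact (((red_isUnit hM hM2).1 hx).map (jac M)).ne_zero) hu
  exact ⟨ψ, h1, h3⟩

variable {hM hM2}

include h2 hr in
lemma PsiF.Pk_eq {e0 : ℕ} {ν : InfinitePlace K → ℝ} {ψ : Ideal (𝓞 K) →*₀ ℂ}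
    (h : PsiF hM hM2 e0 ν ψ) (r : 𝓞 K) :
    Pk ψ (kk (fun _ => e0) ν) ⊤ r = jac M (red B hM hM2 r) := by
  rw [Pk_top]
  by_cases hc : IsCoprime (Ideal.span {r}) (Ideal.span {B.rt})
  · have hr0 := ne_zero_of_cop (rt_ne_top (B := B) h2 hr) hc
    rw [h.val r hc]
    unfold kk
    rw [sg_const hr]
    have h5 : sgN r ^ e0 * sgN r ^ e0 = 1 := by
      rw [← mul_pow, sgN_sq hr0, one_pow]
    have h6 : ax (fun w => -ν w) (r : K) * ax ν (r : K) = 1 := ax_neg_mul _ _
    linear_combination (jac M (red B hM hM2 r) * ax ν (r : K) * ax (fun w => -ν w) (r : K)) * h5 +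
      jac M (red B hM hM2 r) * h6
  · have h3 : ψ (Ideal.span {r}) = 0 := by
      by_contra h0
      exact hc ((h.supp _).1 h0)
    rw [h3, zero_mul]
    symm
    apply (jac M).map_nonunit
    intro h4
    exact hc ((red_isUnit hM hM2).2 h4)

include h2 hr in
lemma PsiF.mod {e0 : ℕ} {ν : InfinitePlace K → ℝ} (hν : ∑ w, ν w = 0) {ψ : Ideal (𝓞 K) →*₀ ℂ}
    (h : PsiF hM hM2 e0 ν ψ) : IsModK (Ideal.span {B.rt}) (kk (fun _ => e0) ν) ψ := by
  refine ⟨kap_kk _ hν, ?_, rt_ne_top (B := B) h2 hr, h.supp, fun x hx hx1 => ?_⟩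
  · rw [Ne, Ideal.span_singleton_eq_bot]
    intro h0
    have := B.rt_coord.2
    rw [h0, B.coord_zero.2] at this
    norm_num at this
  · rw [← Pk_top, h.Pk_eq h2 hr]
    have h3 := (red_eq_zero hM hM2).2 hx1
    rw [map_sub, map_one] at h3
    rw [sub_eq_zero.1 h3, map_one]

include h2 hr in
lemma PsiF.prim {e0 : ℕ} {ν : InfinitePlace K → ℝ} {ψ : Ideal (𝓞 K) →*₀ ℂ}
    (h : PsiF hM hM2 e0 ν ψ) : PrimK (Ideal.span {B.rt}) (kk (fun _ => e0) ν) ψ := by
  intro 𝔤 hg1 hg2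
  have hle : Ideal.span {B.rt} ≤ 𝔤 := Ideal.dvd_iff_le.1 hg1
  obtain ⟨a, ha, ha'⟩ : ∃ a ∈ 𝔤, a ∉ Ideal.span {B.rt} := by
    by_contra h0
    push Not at h0
    exact hg2 (le_antisymm h0 hle)
  have hra : red B hM hM2 a ≠ 0 := fun h0 => ha' ((red_eq_zero hM hM2).1 h0)
  set n := (red B hM hM2 a).val with hn
  have hn0 : n ≠ 0 := by rwa [hn, Ne, ZMod.val_eq_zero]
  have hnM : n < M := ZMod.val_lt _
  have hd : n.gcd M ∣ M := Nat.gcd_dvd_right _ _
  have hdM : n.gcd M ≠ M := by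
    intro h0
    have := Nat.le_of_dvd (Nat.pos_of_ne_zero hn0) (h0 ▸ Nat.gcd_dvd_left n M)
    omega
  have hprim := jac_prim M hM2 (D_sqfree B hM hM2)
  rw [prim_iff] at hprim
  have hnf : ¬ Fac (jac M) (n.gcd M) := fun h0 => hdM (hprim _ hd h0)
  unfold Fac at hnf
  push Not at hnf
  obtain ⟨z, hz1, hz2, hz3⟩ := hnf
  -- `z = 1 + d k`, `d = n u + M v`
  obtain ⟨b, hb⟩ : ∃ b : ℤ, (z : ZMod M) = 1 + red B hM hM2 a * (b : ZMod M) := by
    have h5 : ((n.gcd M : ℕ) : ℤ) ∣ (z : ℤ) - 1 := by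
      have := (Nat.modEq_iff_dvd.1 hz2.symm)
      exact_mod_cast this
    obtain ⟨k, hk⟩ := h5
    refine ⟨n.gcdA M * k, ?_⟩
    have h6 := Nat.gcd_eq_gcd_ab n M
    have h7 : (z : ℤ) = 1 + (n : ℤ) * (n.gcdA M * k) + M * (n.gcdB M * k) := by
      rw [h6] at hk
      linear_combination hk
    have h8 := congrArg (fun m : ℤ => (m : ZMod M)) h7
    have h9 : ((n : ℕ) : ZMod M) = red B hM hM2 a := ZMod.natCast_zmod_val _
    push_cast at h8
    rw [ZMod.natCast_self, zero_mul, add_zero, h9] at h8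
    rw [h8]
    push_cast
    rfl
  have hred : red B hM hM2 (1 + a * (b : 𝓞 K)) = (z : ZMod M) := by
    rw [map_add, map_one, map_mul, red_int, hb]
  refine ⟨1 + a * (b : 𝓞 K), ?_, ?_, ?_⟩
  · rw [add_sub_cancel_left]
    exact 𝔤.mul_mem_right _ ha
  · rw [red_isUnit hM hM2, hred, ZMod.isUnit_iff_coprime]
    exact hz1
  · rw [← Pk_top, h.Pk_eq h2 hr, hred]
    exact hz3

/-! ## the Gauss sum is real -/

lemma conj_ex (m : ℕ) [NeZero m] (u : ℤ) (z : ZMod m) :
    (starRingEnd ℂ) (ex m u z) = ex m u (-z) := by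
  unfold ex
  rw [← AddChar.map_neg_eq_conj, mul_neg]

lemma jac_real (x : ZMod M) : (starRingEnd ℂ) (jac M x) = jac M x :=
  real_of_PQ (jac_sq M) x

lemma perd_jac (hM : (M : ℤ) = B.D) (hM2 : ¬ 2 ∣ M) : Perd (fun r => jac M (red B hM hM2 r)) M := by
  intro r s hrs
  simp only
  congr 1
  rw [← sub_eq_zero, ← map_sub, red_eq_zero hM hM2]
  have h1 : (M : 𝓞 K) = B.rt * B.rt := by rw [B.rt_sq, ← hM, Int.cast_natCast]
  rw [h1] at hrs
  exact (Ideal.span_singleton_le_span_singleton.2 (dvd_mul_right _ _)) hrs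

lemma SS_real (hM : (M : ℤ) = B.D) (hM2 : ¬ 2 ∣ M) :
    (starRingEnd ℂ) (SS B (fun r => jac M (red B hM hM2 r)) M 1) =
      SS B (fun r => jac M (red B hM hM2 r)) M 1 := by
  have hM4 : M % 4 = 1 := by
    have h1 := D_mod B (by rw [← hM]; exact_mod_cast hM2)
    rw [← hM] at h1
    omega
  have hP := perd_jac hM hM2
  unfold SS
  rw [map_sum, ← Equiv.sum_comp (Equiv.neg (ZMod M))]
  refine Finset.sum_congr rfl fun x _ => ?_
  rw [map_sum, ← Equiv.sum_comp (Equiv.neg (ZMod M))]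
  refine Finset.sum_congr rfl fun y _ => ?_
  rw [map_mul, conj_ex]
  simp only [Equiv.neg_apply]
  obtain ⟨a, rfl⟩ := ZMod.intCast_surjective x
  obtain ⟨b, rfl⟩ := ZMod.intCast_surjective y
  have e1 : (-(a : ZMod M)) = ((-a : ℤ) : ZMod M) := by push_cast; rfl
  have e2 : (-(b : ZMod M)) = ((-b : ℤ) : ZMod M) := by push_cast; rfl
  rw [e1, e2, cof_int B hP, cof_int B hP, jac_real]
  congr 1
  · have e3 : (((-a : ℤ) : 𝓞 K) + ((-b : ℤ) : 𝓞 K) * B.om) = -1 * ((a : 𝓞 K) + (b : 𝓞 K) * B.om) := by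
      push_cast; ring
    rw [e3, map_mul, map_mul, map_neg, map_one, jac_neg_one hM4, one_mul]
  · congr 1
    push_cast
    ring

include h2 hr in
/-- **the base characters** -/
theorem exists_e0 : ∃ e0 : ℕ, ∀ ν : InfinitePlace K → ℝ, ∑ w, ν w = 0 →
    (∀ u : (𝓞 K)ˣ, jac M (red B hM hM2 (u : 𝓞 K)) * sgN (u : 𝓞 K) ^ e0 *
      ax ν ((u : 𝓞 K) : K) = 1) → ∃ ψ : Ideal (𝓞 K) →*₀ ℂ, PsiF hM hM2 e0 ν ψ ∧ Base B e0 ν ψ := by
  set S := SS B (fun r => jac M (red B hM hM2 r)) M 1 with hS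
  obtain ⟨s, hs⟩ : ∃ s : ℝ, S = (s : ℂ) := by
    have h1 := SS_real hM hM2
    rw [← hS] at h1
    exact ⟨S.re, (Complex.conj_eq_iff_re.1 h1).symm⟩
  obtain ⟨e0, he0, s', hs', hss⟩ : ∃ e0 : ℕ, e0 ≤ 1 ∧ ∃ s' : ℝ, 0 ≤ s' ∧
      (-1 : ℂ) ^ e0 * S = ((-s' : ℝ) : ℂ) := by
    rcases le_total s 0 with h | h
    · exact ⟨0, by norm_num, -s, by linarith, by rw [hs]; push_cast; ring⟩
    · exact ⟨1, le_refl _, s, h, by rw [hs]; push_cast; ring⟩
  refine ⟨e0, fun ν hν hu => ?_⟩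
  obtain ⟨ψ, hψ⟩ := exists_psi hM hM2 h2 hr hu
  refine ⟨ψ, hψ, he0, hν, hψ.mod h2 hr hν, hψ.prim h2 hr, fun p hp hpD => ?_, fun M' _ hM' => ?_⟩
  · have hcop : IsCoprime (Ideal.span {(p : 𝓞 K)}) (Ideal.span {B.rt}) := by
      rw [cop_rt B hM, B.absNorm_nat]
      apply Nat.Coprime.pow_left
      rw [Nat.Prime.coprime_iff_not_dvd hp]
      intro h0
      apply hpD
      rw [← hM]
      exact_mod_cast h0
    have h3 : sgN ((p : ℕ) : 𝓞 K) = 1 := by
      unfold sgN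
      rw [QB.norm_nat B]
      have : (0 : ℤ) < (p : ℤ) ^ 2 := by
        have := hp.pos
        positivity
      rw [sign_pos this]
      simp
    rw [hψ.val _ hcop, h3, one_pow, mul_one, ax_nat hν hp.ne_zero, mul_one, red_nat,
      jac_spl hM hM2 hp hpD]
  · have h3 : M' = M := by
      have : (M' : ℤ) = M := by rw [hM', hM]
      exact_mod_cast this
    subst h3
    refine ⟨s', hs', ?_⟩
    rw [← hss]
    congr 1
    rw [hS]
    congr 1
    funext r
    exact hψ.Pk_eq h2 hr r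

include h2 hr in
lemma rank_one : rank K = 1 := by
  unfold rank
  rw [card_places h2 hr]

include h2 hr in
/-- **infinitely many infinity types** -/
theorem exists_many : ∃ e0 : ℕ, {ν : InfinitePlace K → ℝ | ∑ w, ν w = 0 ∧ ν ≠ 0 ∧
    ∃ ψ : Ideal (𝓞 K) →*₀ ℂ, PsiF hM hM2 e0 ν ψ ∧ Base B e0 ν ψ}.Infinite := by
  have hM4 : M % 4 = 1 := by
    have h1 := D_mod B (by rw [← hM]; exact_mod_cast hM2)
    rw [← hM] at h1
    omega
  obtain ⟨e0, he0⟩ := exists_e0 (hM := hM) (hM2 := hM2) h2 hr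
  obtain ⟨w₁, w₂, hne, huniv⟩ := two_places h2 hr
  have hrk := rank_one h2 hr
  set i₀ : Fin (rank K) := ⟨0, by rw [hrk]; norm_num⟩ with hi₀
  have hi : ∀ i : Fin (rank K), i = i₀ := by
    intro i
    apply Fin.ext
    have := i.2
    rw [hi₀]
    simp only
    omega
  set ε : 𝓞 K := (fundSystem K i₀ : 𝓞 K) with hε
  have hε0 : ε ≠ 0 := (fundSystem K i₀).ne_zero
  have hc : (jac M (red B hM hM2 ε) * sgN ε ^ e0) * (jac M (red B hM hM2 ε) * sgN ε ^ e0) = 1 := by
    have h3 : jac M (red B hM hM2 ε) * jac M (red B hM hM2 ε) = 1 :=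
      sq_mul_self (jac_sq M) ((fundSystem K i₀).isUnit.map (red B hM hM2))
    have h4 : sgN ε ^ e0 * sgN ε ^ e0 = 1 := by rw [← mul_pow, sgN_sq hε0, one_pow]
    linear_combination (sgN ε ^ e0 * sgN ε ^ e0) * h3 + h4
  obtain ⟨T, hT1, hT2, hT3⟩ := exists_t hne huniv hr (mul_self_eq_one_iff.1 hc) i₀
  refine ⟨e0, Set.infinite_of_injective_forall_mem (f := fun j => nu w₁ (T j)) ?_ ?_⟩
  · intro j k hjk
    have h3 := congrFun hjk w₁
    simp only [nu, if_true] at h3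
    exact hT1 h3
  · intro j
    refine ⟨nu_sum hne huniv _, ?_, he0 _ (nu_sum hne huniv _) ?_⟩
    · intro h3
      have h4 := congrFun h3 w₁
      simp only [nu, if_true, Pi.zero_apply] at h4
      exact hT2 j h4
    · refine units_one hr (fun x => jac M (red B hM hM2 x) * sgN x ^ e0 * ax (nu w₁ (T j)) (x : K))
        ?_ ?_ ?_ ?_
      · have h4 : ((1 : 𝓞 K) : K) = 1 := map_one _
        rw [map_one, map_one, sgN_one, one_pow, h4, ax_one]
        norm_num
      · intro x y hx hy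
        rw [map_mul, map_mul, sgN_mul, mul_pow, ax_cmul _ hx hy]
        ring
      · have h5 : ((-1 : 𝓞 K)) = (((-1 : ℤ)) : 𝓞 K) := by push_cast; rfl
        have h6 : sgN (-1 : 𝓞 K) = 1 := by
          have h7 : (-1 : 𝓞 K) * (-1) = 1 := by ring
          unfold sgN
          have h8 : Algebra.norm ℤ (-1 : 𝓞 K) = 1 := by
            rw [h5, B.norm_int, (B.coord_int _).1, (B.coord_int _).2]
            norm_num
          rw [h8]
          simp
        rw [h6, one_pow, mul_one]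
        have h9 := ax_int (K := K) (nu_sum hne huniv (T j)) (n := -1) (by norm_num)
        rw [← h5] at h9
        rw [h9, map_neg, map_one, jac_neg_one hM4, one_mul]
      · intro i
        rw [hi i]
        rw [hT3 j, ← hε]
        exact hc

/-! ## the characters are not invariant -/

lemma log_abs_lim {a : ℝ} (ha : a ≠ 0) :
    Tendsto (fun n : ℕ => Real.log |1 + n * a| - Real.log |1 - n * a|) atTop (𝓝 0) := by
  have h1 : Tendsto (fun n : ℕ => 1 / ((n : ℝ) * a)) atTop (𝓝 0) := by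
    have h2 : Tendsto (fun n : ℕ => (1 / a) * (1 / (n : ℝ))) atTop (𝓝 ((1 / a) * 0)) :=
      (tendsto_const_div_atTop_nhds_zero_nat 1).const_mul _
    rw [mul_zero] at h2
    refine h2.congr fun n => ?_
    rw [one_div_mul_one_div, mul_comm]
  have hc : ContinuousAt (fun u : ℝ => Real.log |u + 1| - Real.log |u - 1|) 0 := by
    apply ContinuousAt.sub
    · apply ContinuousAt.log
      · fun_prop
      · norm_num
    · apply ContinuousAt.log
      · fun_prop
      · norm_num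
  have h3 := hc.tendsto.comp h1
  have h4 : Real.log |(0 : ℝ) + 1| - Real.log |(0 : ℝ) - 1| = 0 := by norm_num
  rw [h4] at h3
  refine h3.congr' ?_
  filter_upwards [eventually_gt_atTop 0] with n hn
  have hn' : (n : ℝ) ≠ 0 := by exact_mod_cast hn.ne'
  have hna : (n : ℝ) * a ≠ 0 := mul_ne_zero hn' ha
  simp only [Function.comp]
  have e1 : (1 : ℝ) + n * a = (n * a) * (1 / (n * a) + 1) := by field_simp
  have e2 : (1 : ℝ) - n * a = (n * a) * (1 / (n * a) - 1) := by field_simp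
  rcases eq_or_ne (1 / ((n : ℝ) * a) + 1) 0 with h5 | h5
  · have h6 : 1 / ((n : ℝ) * a) - 1 = -2 := by linarith
    have h7 : (n : ℝ) * a = -1 := by
      have : 1 / ((n : ℝ) * a) = -1 := by linarith
      field_simp at this
      linarith
    rw [h5, h6, h7]
    norm_num
  rcases eq_or_ne (1 / ((n : ℝ) * a) - 1) 0 with h6 | h6
  · have h7 : (n : ℝ) * a = 1 := by
      have : 1 / ((n : ℝ) * a) = 1 := by linarith
      field_simp at this
      linarith
    rw [h7]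
    norm_num
  rw [e1, e2, abs_mul ((n : ℝ) * a), abs_mul ((n : ℝ) * a), Real.log_mul (abs_ne_zero.2 hna) (abs_ne_zero.2 h5),
    Real.log_mul (abs_ne_zero.2 hna) (abs_ne_zero.2 h6)]
  ring

variable (B) in
/-- the two real embeddings -/
lemma exists_emb (h2 : Module.finrank ℚ K = 2) (hr : ∀ w : InfinitePlace K, w.IsReal)
    {w₁ w₂ : InfinitePlace K} (hne : w₁ ≠ w₂) :
    ∃ a : ℝ, a ≠ 0 ∧ ∀ n : ℕ, w₁ ((1 + (n : 𝓞 K) * B.rt : 𝓞 K) : K) = |1 + n * a| ∧
      w₂ ((1 + (n : 𝓞 K) * B.rt : 𝓞 K) : K) = |1 - n * a| := by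
  set φ₁ : K →+* ℝ := InfinitePlace.embedding_of_isReal (hr w₁) with hφ₁
  set φ₂ : K →+* ℝ := InfinitePlace.embedding_of_isReal (hr w₂) with hφ₂
  have hw₁ : ∀ x : K, w₁ x = |φ₁ x| := fun x => by
    rw [← Real.norm_eq_abs, hφ₁, InfinitePlace.norm_embedding_of_isReal]
  have hw₂ : ∀ x : K, w₂ x = |φ₂ x| := fun x => by
    rw [← Real.norm_eq_abs, hφ₂, InfinitePlace.norm_embedding_of_isReal]
  have hrt : ∀ φ : K →+* ℝ, φ (B.rt : K) * φ (B.rt : K) = (B.D : ℝ) := by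
    intro φ
    rw [← map_mul, ← coe_mul', B.rt_sq]
    have : (((B.D : ℤ) : 𝓞 K) : K) = ((B.D : ℤ) : K) := map_intCast (algebraMap (𝓞 K) K) B.D
    rw [this, map_intCast]
  have hD : (0 : ℝ) < (B.D : ℝ) := by exact_mod_cast D_pos B hr
  have ha : φ₁ (B.rt : K) ≠ 0 := by
    intro h0
    have := hrt φ₁
    rw [h0, mul_zero] at this
    linarith
  have hneg : φ₂ (B.rt : K) = -φ₁ (B.rt : K) := by
    have h3 : φ₂ (B.rt : K) * φ₂ (B.rt : K) = φ₁ (B.rt : K) * φ₁ (B.rt : K) := by rw [hrt, hrt]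
    rcases mul_self_eq_mul_self_iff.1 h3 with h | h
    · exfalso
      apply hne
      have hom : φ₂ (B.om : K) = φ₁ (B.om : K) := by
        have e : ∀ φ : K →+* ℝ, φ (B.rt : K) = 2 * φ (B.om : K) - B.T := by
          intro φ
          have h5 : (B.rt : K) = 2 * (B.om : K) - (B.T : K) := by
            have h6 : B.rt = 2 * B.om - (B.T : 𝓞 K) := rfl
            rw [h6]
            have h7 := map_sub (algebraMap (𝓞 K) K) (2 * B.om) (B.T : 𝓞 K)
            rw [map_mul, map_ofNat, map_intCast] at h7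
            exact h7
          rw [h5, map_sub, map_mul, map_ofNat, map_intCast]
        have e1 := e φ₁
        have e2 := e φ₂
        rw [h, e1] at e2
        linarith
      have hint : ∀ x : 𝓞 K, φ₂ (x : K) = φ₁ (x : K) := by
        intro x
        have h5 : (x : K) = (B.cre x : K) + (B.cim x : K) * (B.om : K) := by
          conv_lhs => rw [B.eq_mk x]
          have h7 := map_add (algebraMap (𝓞 K) K) (B.cre x : 𝓞 K) ((B.cim x : 𝓞 K) * B.om)
          rw [map_mul, map_intCast, map_intCast] at h7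
          exact h7
        rw [h5, map_add, map_add, map_mul, map_mul, map_intCast, map_intCast, map_intCast,
          map_intCast, hom]
      have hall : φ₂ = φ₁ := by
        apply IsFractionRing.injective_comp_algebraMap (A := 𝓞 K)
        exact RingHom.ext hint
      apply InfinitePlace.ext
      intro x
      rw [hw₁, hw₂, hall]
    · exact h
  refine ⟨φ₁ (B.rt : K), ha, fun n => ?_⟩
  have h5 : ((1 + (n : 𝓞 K) * B.rt : 𝓞 K) : K) = 1 + (n : K) * (B.rt : K) := by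
    have h7 := map_add (algebraMap (𝓞 K) K) 1 ((n : 𝓞 K) * B.rt)
    rw [map_mul, map_natCast, map_one] at h7
    exact h7
  constructor
  · rw [hw₁, h5, map_add, map_mul, map_natCast, map_one]
  · rw [hw₂, h5, map_add, map_mul, map_natCast, map_one, hneg]
    congr 1
    ring

include h2 hr in
/-- the characters are not invariant under the conjugation -/
theorem PsiF.not_inv {e0 : ℕ} {ν : InfinitePlace K → ℝ} (hν : ∑ w, ν w = 0) (hν0 : ν ≠ 0)
    {ψ : Ideal (𝓞 K) →*₀ ℂ} (h : PsiF hM hM2 e0 ν ψ) :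
    ∃ 𝔞 : Ideal (𝓞 K), (starRingEnd ℂ) (ψ 𝔞) ≠ ψ 𝔞 := by
  obtain ⟨w₁, w₂, hne, huniv⟩ := two_places h2 hr
  obtain ⟨a, ha, hw⟩ := exists_emb B h2 hr hne
  have hs : ν w₂ = -ν w₁ := by
    rw [sum_two hne huniv] at hν
    linarith
  have ht : ν w₁ ≠ 0 := by
    intro h0
    apply hν0
    funext w
    rcases huniv w with h1 | h1
    · rw [h1, h0]; rfl
    · rw [h1, hs, h0, neg_zero]; rfl
  set t := ν w₁ with htdef
  have hlim : Tendsto (fun n : ℕ => t * (Real.log |1 + n * a| - Real.log |1 - n * a|)) atTop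
      (𝓝 0) := by
    have := (log_abs_lim ha).const_mul t
    rwa [mul_zero] at this
  have h3 : ∀ᶠ n : ℕ in atTop, |t * (Real.log |1 + n * a| - Real.log |1 - n * a|)| < Real.pi := by
    have h4 := hlim.abs
    rw [abs_zero] at h4
    exact h4.eventually (gt_mem_nhds Real.pi_pos)
  obtain ⟨n, hn, hn0⟩ := (h3.and (eventually_gt_atTop 0)).exists
  set α : 𝓞 K := 1 + (n : 𝓞 K) * B.rt with hα
  have hred : red B hM hM2 α = 1 := by
    rw [hα, map_add, map_one, map_mul, red_rt, mul_zero, add_zero]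
  have hcop : IsCoprime (Ideal.span {α}) (Ideal.span {B.rt}) := by
    rw [red_isUnit hM hM2, hred]
    exact isUnit_one
  have hα0 := ne_zero_of_cop (rt_ne_top (B := B) h2 hr) hcop
  set θ : ℝ := t * (Real.log |1 + n * a| - Real.log |1 - n * a|) with hθ
  have hax : ax ν (α : K) = cexp (I * (θ : ℂ)) := by
    unfold ax
    rw [sum_two hne huniv, hs, (hw n).1, (hw n).2]
    congr 3
    rw [hθ]
    ring
  have hθ0 : θ ≠ 0 := by
    rw [hθ]
    refine mul_ne_zero ht ?_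
    have hp1 : 0 < |1 + (n : ℝ) * a| := by
      rw [← (hw n).1]; exact InfinitePlace.pos_iff.2 (coe_ne hα0)
    have hp2 : 0 < |1 - (n : ℝ) * a| := by
      rw [← (hw n).2]; exact InfinitePlace.pos_iff.2 (coe_ne hα0)
    intro h0
    have h4 := Real.log_injOn_pos (Set.mem_Ioi.2 hp1) (Set.mem_Ioi.2 hp2) (sub_eq_zero.1 h0)
    have h5 : (1 + (n : ℝ) * a) ^ 2 = (1 - (n : ℝ) * a) ^ 2 := by
      rw [← sq_abs, h4, sq_abs]
    have h6 : (n : ℝ) * a = 0 := by nlinarith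
    have hn' : (n : ℝ) ≠ 0 := by exact_mod_cast hn0.ne'
    exact mul_ne_zero hn' ha h6
  have hsin : Real.sin θ ≠ 0 := by
    intro h0
    rcases lt_or_gt_of_ne hθ0 with h4 | h4
    · have h5 := Real.sin_neg_of_neg_of_neg_pi_lt h4 (by linarith [(abs_lt.1 hn).1])
      linarith
    · have h5 := Real.sin_pos_of_pos_of_lt_pi h4 (abs_lt.1 hn).2
      linarith
  refine ⟨Ideal.span {α}, fun h0 => hsin ?_⟩
  rw [h.val α hcop, hred, map_one, one_mul, map_mul, hax] at h0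
  have h6 : (starRingEnd ℂ) (sgN α ^ e0) = sgN α ^ e0 := by
    rw [map_pow]
    congr 1
    unfold sgN
    exact map_intCast (starRingEnd ℂ) _
  rw [h6] at h0
  have h7 := mul_left_cancel₀ (pow_ne_zero e0 (sgN_ne hα0)) h0
  have h8 := Complex.conj_eq_iff_im.1 h7
  rw [mul_comm, Complex.exp_ofReal_mul_I_im] at h8
  exact h8

end

end Pool.Agent.H505
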