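import Pool.Agent.H505.Tw2
import Pool.Graph.R_pool_sql_team_seeded_620a6dc7.A856.GH.Uni
import Pool.Graph.R_seed8.Y773.IQ.Ring

/-!
# A primitive Hecke character is determined by its values at almost all ideals
-/

set_option autoImplicit false
set_option linter.unusedSectionVars false

open NumberField Complex

namespace Pool.Agent.H505

open Pool.Agent.Y773 (TPos)
open Pool.Agent.Y773.G (sg_TPos)
open Pool.Agent.Y773.G.GH (IsHM IsHecke IsModK PrimK kk Pk uniq)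
open Pool.Agent.Y767 (ax ax_neg_mul ax_neg)
open Pool.Agent.Y773.IQ (exists_unit_lift)
open Pool.Agent.Y772.TW (exists_tpos)

section

variable {K : Type} [Field K] [NumberField K]

lemma isUnit_mk {𝔮 : Ideal (𝓞 K)} {x : 𝓞 K} (h : IsCoprime (Ideal.span {x}) 𝔮) :
    IsUnit (Ideal.Quotient.mk 𝔮 x) := by
  obtain ⟨a, ha, b, hb, hab⟩ := (Ideal.isCoprime_iff_exists).1 h
  obtain ⟨c, rfl⟩ := Ideal.mem_span_singleton'.mp ha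
  refine IsUnit.of_mul_eq_one (Ideal.Quotient.mk 𝔮 c) ?_
  rw [← map_mul, mul_comm, ← sub_eq_zero, ← map_one (Ideal.Quotient.mk 𝔮), ← map_sub,
    Ideal.Quotient.eq_zero_iff_mem]
  have : c * x - 1 = -b := by rw [← hab]; ring
  rw [this]; exact neg_mem hb

lemma coprime_of_isUnit {𝔮 : Ideal (𝓞 K)} {x : 𝓞 K} (h : IsUnit (Ideal.Quotient.mk 𝔮 x)) :
    IsCoprime (Ideal.span {x}) 𝔮 := by
  obtain ⟨v, hv⟩ := h.exists_right_inv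
  obtain ⟨c, rfl⟩ := Ideal.Quotient.mk_surjective v
  rw [Ideal.isCoprime_iff_exists]
  refine ⟨x * c, Ideal.mul_mem_right _ _ (Ideal.mem_span_singleton_self x), 1 - x * c, ?_, by ring⟩
  rw [← Ideal.Quotient.eq_zero_iff_mem, map_sub, map_mul, hv, map_one, sub_self]

lemma cop_mono {𝔞 𝔮 𝔣 : Ideal (𝓞 K)} (h : 𝔮 ≤ 𝔣) (h1 : IsCoprime 𝔞 𝔮) : IsCoprime 𝔞 𝔣 := by
  rw [Ideal.isCoprime_iff_sup_eq] at h1 ⊢
  exact top_le_iff.mp (h1 ▸ sup_le_sup_left h 𝔞)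

lemma cop_one {𝔮 : Ideal (𝓞 K)} {x : 𝓞 K} (h : x - 1 ∈ 𝔮) : IsCoprime (Ideal.span {x}) 𝔮 := by
  rw [Ideal.isCoprime_iff_exists]
  exact ⟨x, Ideal.mem_span_singleton_self x, 1 - x, by rw [← neg_sub]; exact neg_mem h, by ring⟩

lemma cop_congr {𝔮 : Ideal (𝓞 K)} {x y : 𝓞 K} (h : x - y ∈ 𝔮) (hy : IsCoprime (Ideal.span {y}) 𝔮) :
    IsCoprime (Ideal.span {x}) 𝔮 := by
  apply coprime_of_isUnit
  rw [(Ideal.Quotient.eq).mpr h]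
  exact isUnit_mk hy

/-- lifting of residue classes prime to the modulus -/
lemma exists_cop_lift {𝔣 𝔮 : Ideal (𝓞 K)} (h : 𝔮 ≤ 𝔣) (h𝔮 : 𝔮 ≠ ⊥) {z : 𝓞 K}
    (hz : IsCoprime (Ideal.span {z}) 𝔣) : ∃ z' : 𝓞 K, IsCoprime (Ideal.span {z'}) 𝔮 ∧ z' - z ∈ 𝔣 := by
  have : Finite (𝓞 K ⧸ 𝔮) := Ideal.finiteQuotientOfFreeOfNeBot 𝔮 h𝔮
  obtain ⟨v, hv, hvz⟩ := exists_unit_lift (Ideal.Quotient.factor h) (Ideal.Quotient.factor_surjective h)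
    (isUnit_mk hz)
  obtain ⟨z', rfl⟩ := Ideal.Quotient.mk_surjective v
  refine ⟨z', coprime_of_isUnit hv, ?_⟩
  rw [← Ideal.Quotient.eq, ← hvz, Ideal.Quotient.factor_mk]

lemma exists_inv {𝔮 : Ideal (𝓞 K)} {x : 𝓞 K} (h : IsCoprime (Ideal.span {x}) 𝔮) :
    ∃ w : 𝓞 K, w * x - 1 ∈ 𝔮 := by
  obtain ⟨v, hv⟩ := (isUnit_mk h).exists_left_inv
  obtain ⟨w, rfl⟩ := Ideal.Quotient.mk_surjective v
  refine ⟨w, ?_⟩
  rw [← Ideal.Quotient.eq, map_mul, hv, map_one]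

lemma exists_mem_one {𝔟 𝔮 : Ideal (𝓞 K)} (h : IsCoprime 𝔟 𝔮) :
    ∃ (x : 𝓞 K) (𝔠 : Ideal (𝓞 K)), x - 1 ∈ 𝔮 ∧ Ideal.span {x} = 𝔟 * 𝔠 ∧ IsCoprime 𝔠 𝔮 := by
  obtain ⟨x, hx, b, hb, hab⟩ := Ideal.isCoprime_iff_exists.mp h
  have h1 : x - 1 ∈ 𝔮 := by
    have : x - 1 = -b := by rw [← hab]; ring
    rw [this]; exact neg_mem hb
  obtain ⟨𝔠, h𝔠⟩ := Ideal.dvd_iff_le.mpr ((Ideal.span_singleton_le_iff_mem 𝔟).mpr hx)
  refine ⟨x, 𝔠, h1, h𝔠, ?_⟩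
  have h2 := cop_one h1
  rw [h𝔠] at h2
  exact (IsCoprime.mul_left_iff.mp h2).2

/-- **moving lemma** -/
lemma exists_moving {𝔠 𝔣 𝔮 : Ideal (𝓞 K)} (h : 𝔮 ≤ 𝔣) (h𝔮 : 𝔮 ≠ ⊥) (h𝔠 : 𝔠 ≠ ⊥)
    (hc : IsCoprime 𝔠 𝔣) : ∃ (y : 𝓞 K) (𝔟 : Ideal (𝓞 K)), y - 1 ∈ 𝔣 ∧ Ideal.span {y} = 𝔠 * 𝔟 ∧
      IsCoprime 𝔟 𝔮 := by
  obtain ⟨a, ha⟩ := IsDedekindDomain.exists_sup_span_eq (I := 𝔠 * 𝔮) (J := 𝔠) Ideal.mul_le_left
    (mul_ne_zero h𝔠 h𝔮)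
  have ha1 : a ∈ 𝔠 := by
    rw [← ha]; exact Ideal.mem_sup_right (Ideal.mem_span_singleton_self a)
  obtain ⟨𝔟, h𝔟⟩ := Ideal.dvd_iff_le.mpr ((Ideal.span_singleton_le_iff_mem 𝔠).mpr ha1)
  have h1 : IsCoprime 𝔟 𝔮 := by
    rw [Ideal.isCoprime_iff_sup_eq, ← Ideal.one_eq_top]
    apply mul_left_cancel₀ h𝔠
    rw [mul_one, Ideal.mul_sup, ← h𝔟, sup_comm]
    exact ha
  have h2 : IsCoprime (Ideal.span {a}) 𝔣 := by
    rw [h𝔟]; exact IsCoprime.mul_left hc (cop_mono h h1)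
  obtain ⟨w, hw⟩ := exists_inv h2
  have hw1 : IsCoprime (Ideal.span {w}) 𝔣 := by
    have := cop_one hw
    rw [← Ideal.span_singleton_mul_span_singleton] at this
    exact (IsCoprime.mul_left_iff.mp this).1
  obtain ⟨z, hz1, hz2⟩ := exists_cop_lift h h𝔮 hw1
  refine ⟨z * a, 𝔟 * Ideal.span {z}, ?_, ?_, IsCoprime.mul_left h1 hz1⟩
  · have : z * a - 1 = (z - w) * a + (w * a - 1) := by ring
    rw [this]
    exact add_mem (Ideal.mul_mem_right _ _ hz2) hw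
  · rw [← mul_assoc, ← h𝔟, Ideal.span_singleton_mul_span_singleton, mul_comm z a]

/-- a totally positive representative -/
lemma exists_tpos_mem {𝔮 : Ideal (𝓞 K)} (h : 𝔮 ≠ ⊥) (x : 𝓞 K) :
    ∃ y : 𝓞 K, y - x ∈ 𝔮 ∧ TPos K y ∧ y ≠ 0 := by
  have hN : 0 < Ideal.absNorm 𝔮 :=
    Nat.pos_of_ne_zero (by rwa [Ne, Ideal.absNorm_eq_zero_iff])
  obtain ⟨k, hk1, hk2⟩ := exists_tpos x hN
  refine ⟨_, ?_, hk1, hk2⟩
  rw [add_sub_cancel_left]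
  exact Ideal.mul_mem_left _ _ (Ideal.absNorm_mem 𝔮)

lemma TPos_mul {x y : 𝓞 K} (hx : TPos K x) (hy : TPos K y) : TPos K (x * y) := by
  intro σ
  rw [coe_mul', map_mul]
  exact mul_pos (hx σ) (hy σ)

/-- congruent totally positive elements -/
lemma hm_congr {𝔣 : Ideal (𝓞 K)} {ν : InfinitePlace K → ℝ} {ψ : Ideal (𝓞 K) →*₀ ℂ}
    (h : IsHM K 𝔣 ν ψ) {x y : 𝓞 K} (hx0 : x ≠ 0) (hy0 : y ≠ 0) (hx : TPos K x) (hy : TPos K y)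
    (hc : IsCoprime (Ideal.span {x}) 𝔣) (hxy : y - x ∈ 𝔣) :
    ψ (Ideal.span {y}) * ax ν (x : K) = ψ (Ideal.span {x}) * ax ν (y : K) := by
  obtain ⟨w₀, hw₀⟩ := exists_inv hc
  obtain ⟨w, hw1, hw2, hw3⟩ := exists_tpos_mem h.ne_bot w₀
  have e1 : w * x - 1 ∈ 𝔣 := by
    have : w * x - 1 = (w - w₀) * x + (w₀ * x - 1) := by ring
    rw [this]
    exact add_mem (Ideal.mul_mem_right _ _ hw1) hw₀
  have e2 : w * y - 1 ∈ 𝔣 := by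
    have : w * y - 1 = w * (y - x) + (w * x - 1) := by ring
    rw [this]
    exact add_mem (Ideal.mul_mem_left _ _ hxy) e1
  have g1 := h.ray (w * x) (mul_ne_zero hw3 hx0) e1 (TPos_mul hw2 hx)
  have g2 := h.ray (w * y) (mul_ne_zero hw3 hy0) e2 (TPos_mul hw2 hy)
  rw [← Ideal.span_singleton_mul_span_singleton, map_mul, ax_cmul ν hw3 hx0] at g1
  rw [← Ideal.span_singleton_mul_span_singleton, map_mul, ax_cmul ν hw3 hy0] at g2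
  have hw : ψ (Ideal.span {w}) ≠ 0 := by
    intro h0
    rw [h0, zero_mul] at g1
    exact mul_ne_zero (ax_ne _ _) (ax_ne _ _) g1.symm
  apply mul_left_cancel₀ (mul_ne_zero hw (ax_ne ν (w : K)))
  linear_combination (ax ν (w : K) * ax ν (x : K)) * g2 - (ax ν (w : K) * ax ν (y : K)) * g1

lemma prim_cond_le {𝔮 𝔣 𝔣' : Ideal (𝓞 K)} {ν : InfinitePlace K → ℝ} {ψ ψ' : Ideal (𝓞 K) →*₀ ℂ}
    (hq : 𝔮 ≠ ⊥) (h : IsHecke K 𝔣 ν ψ) (h' : IsHecke K 𝔣' ν ψ') (hqf : 𝔮 ≤ 𝔣) (hqf' : 𝔮 ≤ 𝔣')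
    (he : ∀ 𝔞, IsCoprime 𝔞 𝔮 → ψ 𝔞 = ψ' 𝔞) : 𝔣' ≤ 𝔣 := by
  by_contra hcon
  have hne : 𝔣 ⊔ 𝔣' ≠ 𝔣 := fun h1 => hcon (h1 ▸ le_sup_right)
  obtain ⟨x, hx1, hxT, hx2, hx3⟩ := h.prim (𝔣 ⊔ 𝔣') (Ideal.dvd_iff_le.mpr le_sup_left) hne
  obtain ⟨f, hf, f', hf', hff⟩ := Submodule.mem_sup.mp hx1
  apply hx3
  have hz : x - f = 1 + f' := by linear_combination -hff
  have hz1 : IsCoprime (Ideal.span {x - f}) 𝔣 := cop_congr (by
    have : x - f - x = -f := by ring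
    rw [this]; exact neg_mem hf) hx2
  have hz2 : IsCoprime (Ideal.span {x - f}) 𝔣' := by
    rw [hz]; exact cop_one (by rw [add_sub_cancel_left]; exact hf')
  have hz3 : IsCoprime (Ideal.span {x - f}) (𝔣 ⊓ 𝔣') :=
    cop_mono Ideal.mul_le_inf (IsCoprime.mul_right hz1 hz2)
  obtain ⟨z₀, hz4, hz5⟩ := exists_cop_lift (le_inf hqf hqf') hq hz3
  obtain ⟨z', hz'1, hz'2, hz'3⟩ := exists_tpos_mem hq z₀
  have hz6 : z' - x ∈ 𝔣 := by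
    have : z' - x = (z' - z₀) + (z₀ - (x - f)) - f := by ring
    rw [this]
    exact sub_mem (add_mem (hqf hz'1) (inf_le_left (b := 𝔣') hz5)) hf
  have hz7 : z' - 1 ∈ 𝔣' := by
    have : z' - 1 = (z' - z₀) + (z₀ - (x - f)) + f' := by rw [hz]; ring
    rw [this]
    exact add_mem (add_mem (hqf' hz'1) (inf_le_right (a := 𝔣) hz5)) hf'
  have hc : IsCoprime (Ideal.span {z'}) 𝔮 := cop_congr hz'1 hz4
  have hx0 : x ≠ 0 := by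
    rintro rfl
    rw [Ideal.span_singleton_eq_bot.mpr rfl, Ideal.isCoprime_iff_sup_eq, bot_sup_eq] at hx2
    exact hcon (hx2 ▸ le_top)
  have h3 := hm_congr h.toIsHM hx0 hz'3 hxT hz'2 hx2 hz6
  rw [he _ hc, h'.ray z' hz'3 hz7 hz'2, mul_comm] at h3
  exact (mul_right_cancel₀ (ax_ne ν (z' : K)) h3).symm

/-- the infinity type is determined -/
lemma nu_unique {𝔪 𝔣 𝔣' : Ideal (𝓞 K)} {ν ν' : InfinitePlace K → ℝ} {ψ ψ' : Ideal (𝓞 K) →*₀ ℂ}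
    (hm : 𝔪 ≠ ⊥) (h : IsHecke K 𝔣 ν ψ) (h' : IsHecke K 𝔣' ν' ψ') (hν : ∑ w, ν w = 0)
    (hν' : ∑ w, ν' w = 0)
    (he : ∀ 𝔞, IsCoprime 𝔞 𝔪 → ψ 𝔞 = ψ' 𝔞) : ν = ν' := by
  have hq : 𝔪 * 𝔣 * 𝔣' ≠ ⊥ := mul_ne_zero (mul_ne_zero hm h.ne_bot) h'.ne_bot
  have hqm : 𝔪 * 𝔣 * 𝔣' ≤ 𝔪 := Ideal.mul_le_left.trans Ideal.mul_le_left
  have hqf : 𝔪 * 𝔣 * 𝔣' ≤ 𝔣 := Ideal.mul_le_left.trans Ideal.mul_le_right
  have hqf' : 𝔪 * 𝔣 * 𝔣' ≤ 𝔣' := Ideal.mul_le_right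
  have key := uniq hq (μ := fun w => ν w + -ν' w) (by
    rw [Finset.sum_add_distrib, Finset.sum_neg_distrib, hν, hν']; ring) (fun x hx0 hx1 hx => by
    have e1 := h.ray x hx0 (hqf hx1) hx
    have e2 := h'.ray x hx0 (hqf' hx1) hx
    rw [he _ (cop_mono hqm (cop_one hx1)), e2] at e1
    have e3 : ax (fun w => ν w + -ν' w) (x : K) = ax ν (x : K) * ax (fun w => -ν' w) (x : K) := by
      unfold ax
      rw [← Complex.exp_add, ← mul_add, ← Complex.ofReal_add, ← Finset.sum_add_distrib]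
      congr 4
      funext w
      ring
    rw [e3, ← e1, mul_comm]
    exact ax_neg_mul _ _)
  funext w
  have := congrFun key w
  simp only [Pi.zero_apply] at this
  linarith

/-- **a primitive character is determined by its values on the ideals prime to some ideal** -/
theorem hecke_unique {𝔪 𝔣 𝔣' : Ideal (𝓞 K)} {ν ν' : InfinitePlace K → ℝ}
    {ψ ψ' : Ideal (𝓞 K) →*₀ ℂ} (hm : 𝔪 ≠ ⊥) (h : IsHecke K 𝔣 ν ψ) (h' : IsHecke K 𝔣' ν' ψ')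
    (hν : ∑ w, ν w = 0) (hν' : ∑ w, ν' w = 0)
    (he : ∀ 𝔞, IsCoprime 𝔞 𝔪 → ψ 𝔞 = ψ' 𝔞) : ψ = ψ' := by
  have hνν := nu_unique hm h h' hν hν' he
  subst hνν
  set 𝔮 := 𝔪 * 𝔣 * 𝔣' with h𝔮
  have hq : 𝔮 ≠ ⊥ := mul_ne_zero (mul_ne_zero hm h.ne_bot) h'.ne_bot
  have hqm : 𝔮 ≤ 𝔪 := Ideal.mul_le_left.trans Ideal.mul_le_left
  have hqf : 𝔮 ≤ 𝔣 := Ideal.mul_le_left.trans Ideal.mul_le_right
  have hqf' : 𝔮 ≤ 𝔣' := Ideal.mul_le_right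
  have he' : ∀ 𝔞, IsCoprime 𝔞 𝔮 → ψ 𝔞 = ψ' 𝔞 := fun 𝔞 h𝔞 => he 𝔞 (cop_mono hqm h𝔞)
  have h1 := prim_cond_le hq h h' hqf hqf' he'
  have h2 := prim_cond_le hq h' h hqf' hqf (fun 𝔞 ha => (he' 𝔞 ha).symm)
  obtain rfl : 𝔣 = 𝔣' := le_antisymm h2 h1
  ext 𝔞
  by_cases h0 : 𝔞 = ⊥
  · rw [h0, ← Ideal.zero_eq_bot, map_zero, map_zero]
  by_cases hc : IsCoprime 𝔞 𝔣
  · -- a totally positive element of `𝔞` congruent to one
    obtain ⟨x₀, 𝔠₀, hx1, hx2, hx3⟩ := exists_mem_one hc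
    obtain ⟨x, hxx, hxT, hx0⟩ := exists_tpos_mem (𝔮 := 𝔞 * 𝔣) (mul_ne_zero h0 h.ne_bot) x₀
    have hxm : x ∈ 𝔞 := by
      have e1 : x = (x - x₀) + x₀ := by ring
      rw [e1]
      refine add_mem (Ideal.mul_le_left hxx) ?_
      have : x₀ ∈ Ideal.span {x₀} := Ideal.mem_span_singleton_self x₀
      rw [hx2] at this
      exact Ideal.mul_le_left this
    have hx1' : x - 1 ∈ 𝔣 := by
      have e1 : x - 1 = (x - x₀) + (x₀ - 1) := by ring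
      rw [e1]
      exact add_mem (Ideal.mul_le_right hxx) hx1
    obtain ⟨𝔠, h𝔠⟩ := Ideal.dvd_iff_le.mpr ((Ideal.span_singleton_le_iff_mem 𝔞).mpr hxm)
    have h𝔠f : IsCoprime 𝔠 𝔣 := by
      have h3 := cop_one hx1'
      rw [h𝔠] at h3
      exact (IsCoprime.mul_left_iff.mp h3).2
    have h𝔠0 : 𝔠 ≠ ⊥ := by
      rintro rfl
      rw [Ideal.mul_bot, Ideal.span_singleton_eq_bot] at h𝔠
      exact hx0 h𝔠
    obtain ⟨y₀, 𝔟₀, hy1, hy2, hy3⟩ := exists_moving hqf hq h𝔠0 h𝔠f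
    obtain ⟨y, hyy, hyT, hy0⟩ := exists_tpos_mem (𝔮 := 𝔠 * 𝔮) (mul_ne_zero h𝔠0 hq) y₀
    have hym : y ∈ 𝔠 := by
      have e1 : y = (y - y₀) + y₀ := by ring
      rw [e1]
      refine add_mem (Ideal.mul_le_left hyy) ?_
      have : y₀ ∈ Ideal.span {y₀} := Ideal.mem_span_singleton_self y₀
      rw [hy2] at this
      exact Ideal.mul_le_left this
    have hy1' : y - 1 ∈ 𝔣 := by
      have e1 : y - 1 = (y - y₀) + (y₀ - 1) := by ring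
      rw [e1]
      exact add_mem (hqf (Ideal.mul_le_right hyy)) hy1
    obtain ⟨𝔟, h𝔟⟩ := Ideal.dvd_iff_le.mpr ((Ideal.span_singleton_le_iff_mem 𝔠).mpr hym)
    have hb : IsCoprime 𝔟 𝔮 := by
      rw [Ideal.isCoprime_iff_sup_eq, ← Ideal.one_eq_top]
      apply mul_left_cancel₀ h𝔠0
      rw [mul_one, Ideal.mul_sup, ← h𝔟]
      have h4 : Ideal.span {y₀} ⊔ 𝔠 * 𝔮 = 𝔠 := by
        rw [hy2, ← Ideal.mul_sup, (Ideal.isCoprime_iff_sup_eq).1 hy3, Ideal.mul_top]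
      apply le_antisymm
      · exact sup_le ((Ideal.span_singleton_le_iff_mem _).2 hym) Ideal.mul_le_left
      · conv_lhs => rw [← h4]
        refine sup_le ?_ le_sup_right
        rw [Ideal.span_singleton_le_iff_mem]
        have e1 : y₀ = y - (y - y₀) := by ring
        rw [e1]
        exact sub_mem (Ideal.mem_sup_left (Ideal.mem_span_singleton_self y)) (Ideal.mem_sup_right hyy)
    have e1 : ∀ (φ : Ideal (𝓞 K) →*₀ ℂ), IsHecke K 𝔣 ν φ →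
        φ 𝔞 * ax ν (y : K) = φ 𝔟 * ax ν (x : K) := by
      intro φ hφ
      have h3 := hφ.ray x hx0 hx1' hxT
      have h4 := hφ.ray y hy0 hy1' hyT
      rw [h𝔠, map_mul] at h3
      rw [h𝔟, map_mul] at h4
      have h5 : φ 𝔠 ≠ 0 := by
        intro h6; rw [h6, mul_zero] at h3; exact ax_ne _ _ h3.symm
      apply mul_left_cancel₀ h5
      linear_combination ax ν (y : K) * h3 - ax ν (x : K) * h4
    have e2 := e1 ψ h
    have e3 := e1 ψ' h'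
    rw [he' 𝔟 hb, ← e3] at e2
    exact mul_right_cancel₀ (ax_ne _ _) e2
  · have h3 : ψ 𝔞 = 0 := by
      by_contra h4; exact hc ((h.supp 𝔞 h0).mp h4)
    have h5 : ψ' 𝔞 = 0 := by
      by_contra h4; exact hc ((h'.supp 𝔞 h0).mp h4)
    rw [h3, h5]

/-- from the data of the functional equation to Hecke characters -/
theorem isHecke_of {𝔣 : Ideal (𝓞 K)} {e : InfinitePlace K → ℕ} {ν : InfinitePlace K → ℝ}
    {ψ : Ideal (𝓞 K) →*₀ ℂ} (h : IsModK 𝔣 (kk e ν) ψ) (hp : PrimK 𝔣 (kk e ν) ψ) :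
    IsHecke K 𝔣 ν ψ := by
  have hray : ∀ x : 𝓞 K, x ≠ 0 → TPos K x → ψ (Ideal.span {x}) * kk e ν (x : K) = 1 →
      ψ (Ideal.span {x}) = ax ν (x : K) := by
    intro x hx0 hxT h3
    unfold kk at h3
    rw [sg_TPos e hx0 hxT, one_mul] at h3
    calc ψ (Ideal.span {x}) = ψ (Ideal.span {x}) * (ax (fun w => -ν w) (x : K) * ax ν (x : K)) := by
          rw [ax_neg_mul, mul_one]
      _ = (ψ (Ideal.span {x}) * ax (fun w => -ν w) (x : K)) * ax ν (x : K) := by ring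
      _ = _ := by rw [h3, one_mul]
  refine ⟨⟨h.ne_bot, fun 𝔞 _ => h.supp 𝔞, fun x hx0 hx1 hxT => hray x hx0 hxT (h.sig x hx0 hx1)⟩,
    fun 𝔤 hg1 hg2 => ?_⟩
  obtain ⟨x, hx1, hx2, hx3⟩ := hp 𝔤 hg1 hg2
  obtain ⟨y, hy1, hyT, hy0⟩ := exists_tpos_mem h.ne_bot x
  have hle : 𝔣 ≤ 𝔤 := Ideal.dvd_iff_le.1 hg1
  refine ⟨y, ?_, hyT, cop_congr hy1 hx2, fun h4 => hx3 ?_⟩
  · have : y - 1 = (y - x) + (x - 1) := by ring
    rw [this]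
    exact 𝔤.add_mem (hle hy1) hx1
  · rw [← Pk_top, ← Pk_congr h hy1, Pk_top, h4]
    unfold kk
    rw [sg_TPos e hy0 hyT, one_mul, mul_comm, ax_neg_mul]

lemma entire_eq_of_half {F G : ℂ → ℂ} (hF : Differentiable ℂ F) (hG : Differentiable ℂ G)
    (h : ∀ s : ℂ, 1 < s.re → F s = G s) : F = G := by
  have hF' : AnalyticOnNhd ℂ F Set.univ := fun z _ => hF.analyticAt z
  have hG' : AnalyticOnNhd ℂ G Set.univ := fun z _ => hG.analyticAt z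
  refine hF'.eq_of_eventuallyEq hG' (z₀ := 2) ?_
  have hopen : IsOpen {s : ℂ | 1 < s.re} := isOpen_lt continuous_const Complex.continuous_re
  filter_upwards [hopen.mem_nhds (show (2 : ℂ) ∈ {s : ℂ | 1 < s.re} by simp)] with s hs
  exact h s hs

end

end Pool.Agent.H505
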