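import Pool.Agent.H505.Exi3
import Pool.Agent.H505.Uni
import Pool.Agent.H505.Cnt2

/-!
# Odd discriminants: the central values of the twists
-/

set_option autoImplicit false
set_option linter.unusedSectionVars false
set_option linter.unusedVariables false

open NumberField Complex Finset ZMod Filter Topology
open Pool.Agent.Y773 (TPos tw LI)
open Pool.Agent.Y767 (ax)
open Pool.Agent.Y773.G.GH (kk Pk IsModK PrimK IsHM IsHecke)
open Pool.Agent.Y773.G.GH.H505 (entire_n)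

namespace Pool.Agent.H505

section

variable {K : Type} [Field K] [NumberField K]

/-- `v` is the central value of the twist of `ψ` by `η` -/
def CV (ψ : Ideal (𝓞 K) →*₀ ℂ) {q : ℕ} (η : DirichletCharacter ℂ q) (v : ℂ) : Prop :=
  ∃ (𝔣' : Ideal (𝓞 K)) (ν' : InfinitePlace K → ℝ) (ψ' : Ideal (𝓞 K) →*₀ ℂ) (F : ℂ → ℂ),
    ∑ w, ν' w = 0 ∧ IsHecke K 𝔣' ν' ψ' ∧
    (∃ 𝔪 : Ideal (𝓞 K), 𝔪 ≠ ⊥ ∧ ∀ 𝔞 : Ideal (𝓞 K), IsCoprime 𝔞 𝔪 →
      ψ' 𝔞 = ψ 𝔞 * η ((Ideal.absNorm 𝔞 : ℕ) : ZMod q)) ∧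
    Differentiable ℂ F ∧
    (∀ s : ℂ, 1 < s.re →
      HasSum (fun 𝔞 : Ideal (𝓞 K) => ψ' 𝔞 * ((Ideal.absNorm 𝔞 : ℕ) : ℂ) ^ (-s)) (F s)) ∧
    F (1 / 2) = v

variable {B : QB K}

/-- existence and uniqueness of the central value, vanishing -/
theorem cv_unique (h2 : Module.finrank ℚ K = 2) (hr : ∀ w : InfinitePlace K, w.IsReal) {e0 : ℕ}
    {ν : InfinitePlace K → ℝ} {ψ : Ideal (𝓞 K) →*₀ ℂ} (h : Base B e0 ν ψ)
    {M : ℕ} (hM : (M : ℤ) = B.D) (hM2 : ¬ 2 ∣ M) {q : ℕ} (hq : q ≠ 0)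
    {η : DirichletCharacter ℂ q} (hη : η ∈ PQ q) :
    ∃ v₀ : ℂ, (∀ v, CV ψ η v ↔ v = v₀) ∧ (Even (c3 (q.gcd M)) → v₀ = 0) := by
  obtain ⟨e1, 𝔣', he1, hmod, hprim, hvan⟩ :=
    base_twist hr h2 h hM (D_sqfree B hM hM2) hM2 hq hη
  have hH := isHecke_of hmod hprim
  obtain ⟨F₁, hF₁, hF₁s⟩ := entire_n (fun _ => he1)
    (fun w hw => absurd (hr w) (InfinitePlace.not_isReal_iff_isComplex.2 hw)) h.sum hprim hmod
  have hsum : ∀ s : ℂ, 1 < s.re →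
      HasSum (fun 𝔞 : Ideal (𝓞 K) => tw ψ η 𝔞 * ((Ideal.absNorm 𝔞 : ℕ) : ℂ) ^ (-s)) (F₁ s) := by
    intro s hs
    rw [hF₁s s hs]
    exact (Pool.Agent.Y773.G.summable_LI hmod.norm_le_one hs).hasSum
  refine ⟨F₁ (1 / 2), fun v => ⟨?_, ?_⟩, ?_⟩
  · rintro ⟨𝔣₂, ν₂, ψ₂, F₂, g0, g1, ⟨𝔪, g2, g3⟩, g4, g5, rfl⟩
    have e : tw ψ η = ψ₂ := hecke_unique g2 hH g1 h.sum g0 (fun 𝔞 h𝔞 => by
      rw [g3 𝔞 h𝔞, tw_apply])
    subst e
    have : F₂ = F₁ := entire_eq_of_half g4 hF₁ fun s hs => (g5 s hs).unique (hsum s hs)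
    rw [this]
  · rintro rfl
    exact ⟨𝔣', ν, tw ψ η, F₁, h.sum, hH, ⟨⊤, by
      intro h0
      have : (1 : 𝓞 K) ∈ (⊥ : Ideal (𝓞 K)) := by rw [← h0]; trivial
      exact one_ne_zero (Ideal.mem_bot.1 this), fun 𝔞 _ => tw_apply _ _ _⟩, hF₁, hsum, rfl⟩
  · intro he
    obtain ⟨F, hF, hFs, hF0⟩ := hvan he
    have : F₁ = F := entire_eq_of_half hF₁ hF fun s hs => by rw [hF₁s s hs, hFs s hs]
    rw [this, hF0]

/-- the values at the integers -/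
lemma psi_nat (h2 : Module.finrank ℚ K = 2) (hr : ∀ w : InfinitePlace K, w.IsReal)
    {M : ℕ} [NeZero M] {hM : (M : ℤ) = B.D} {hM2 : ¬ 2 ∣ M} {e0 : ℕ}
    {ν : InfinitePlace K → ℝ} (hν : ∑ w, ν w = 0) {ψ : Ideal (𝓞 K) →*₀ ℂ}
    (h : PsiF hM hM2 e0 ν ψ) (n : ℕ) :
    ψ (Ideal.span {(n : 𝓞 K)}) = ((jacobiSym (n : ℤ) M : ℤ) : ℂ) := by
  rw [← jac_nat]
  by_cases hc : IsCoprime (Ideal.span {(n : 𝓞 K)}) (Ideal.span {B.rt})
  · have hn : n ≠ 0 := by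
      rintro rfl
      have := ne_zero_of_cop (rt_ne_top (B := B) h2 hr) hc
      simp at this
    rw [h.val _ hc, red_nat, ax_nat hν hn, mul_one]
    have h3 : sgN ((n : ℕ) : 𝓞 K) = 1 := by
      unfold sgN
      rw [QB.norm_nat B]
      have : (0 : ℤ) < (n : ℤ) ^ 2 := by
        have := Nat.pos_of_ne_zero hn
        positivity
      rw [sign_pos this]
      simp
    rw [h3, one_pow, mul_one]
  · have h3 : ψ (Ideal.span {(n : 𝓞 K)}) = 0 := by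
      by_contra h0
      exact hc ((h.supp _).1 h0)
    rw [h3]
    symm
    apply (jac M).map_nonunit
    intro h4
    apply hc
    rw [red_isUnit hM hM2, red_nat]
    exact h4

/-- the primitive quadratic characters of conductor less than `x` -/
def QX (x : ℝ) : Set (Σ q : ℕ, DirichletCharacter ℂ q) :=
  {η | 0 < η.1 ∧ (η.1 : ℝ) < x ∧ η.2.IsPrimitive ∧ η.2 ≠ 1 ∧ η.2 ^ 2 = 1}

lemma ne_one_iff {q : ℕ} (hq : 0 < q) {η : DirichletCharacter ℂ q} (hη : η.IsPrimitive) :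
    η ≠ 1 ↔ q ≠ 1 := by
  have : NeZero q := ⟨hq.ne'⟩
  constructor
  · rintro h rfl
    exact h (DirichletCharacter.level_one η)
  · rintro h rfl
    apply h
    rw [prim_iff] at hη
    exact (hη 1 (one_dvd _) (fun z hz _ => by
      rw [MulChar.one_apply ((ZMod.isUnit_iff_coprime _ _).2 hz)])).symm

lemma QX_eq (x : ℝ) : QX x = CS (fun q => q ≠ 1) x := by
  ext η
  unfold QX CS PQ
  simp only [Set.mem_ofPred_eq]
  constructor
  · rintro ⟨h1, h2, h3, h4, h5⟩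
    exact ⟨h1, h2, ⟨h3, h5⟩, (ne_one_iff h1 h3).1 h4⟩
  · rintro ⟨h1, h2, ⟨h3, h5⟩, h4⟩
    exact ⟨h1, h2, h3, (ne_one_iff h1 h3).2 h4, h5⟩

lemma QX_finite (x : ℝ) : (QX x).Finite := by rw [QX_eq]; exact CS_finite _ _

/-- those with a nonzero central value -/
def NV (ψ : Ideal (𝓞 K) →*₀ ℂ) (x : ℝ) : Set (Σ q : ℕ, DirichletCharacter ℂ q) :=
  {η ∈ QX x | ∃ v : ℂ, CV ψ η.2 v ∧ v ≠ 0}

lemma NV_sub (h2 : Module.finrank ℚ K = 2) (hr : ∀ w : InfinitePlace K, w.IsReal) {e0 : ℕ}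
    {ν : InfinitePlace K → ℝ} {ψ : Ideal (𝓞 K) →*₀ ℂ} (h : Base B e0 ν ψ)
    {M : ℕ} (hM : (M : ℤ) = B.D) (hM2 : ¬ 2 ∣ M) (x : ℝ) :
    NV ψ x ⊆ CS (fun q => Odd (c3 (q.gcd M)) ∧ q ≠ 1) x := by
  rintro η ⟨h1, v, h3, h4⟩
  rw [QX_eq] at h1
  obtain ⟨g1, g2, g3, g4⟩ := h1
  refine ⟨g1, g2, g3, ?_, g4⟩
  by_contra hodd
  rw [Nat.not_odd_iff_even] at hodd
  obtain ⟨v₀, k1, k2⟩ := cv_unique h2 hr h hM hM2 g1.ne' g3
  rw [k1, k2 hodd] at h3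
  exact h4 h3

/-- the bound of the proportion -/
theorem ratio_bound (h2 : Module.finrank ℚ K = 2) (hr : ∀ w : InfinitePlace K, w.IsReal) {e0 : ℕ}
    {ν : InfinitePlace K → ℝ} {ψ : Ideal (𝓞 K) →*₀ ℂ} (h : Base B e0 ν ψ)
    {M : ℕ} (hM : (M : ℤ) = B.D) (hM2 : ¬ 2 ∣ M) {ε : ℝ} (hε : 0 < ε) :
    ∀ᶠ x : ℝ in atTop, ((NV ψ x).ncard : ℝ) / ((QX x).ncard : ℝ) ≤
      (1 - ∏ p ∈ M.primeFactors.filter (fun p => p % 4 = 3), ((p : ℝ) - 1) / (p + 1)) / 2 + ε := by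
  have hM0 : M ≠ 0 := by
    rintro rfl
    exact hM2 (dvd_zero _)
  have h3 := ratio_lim hM0 hM2
  filter_upwards [h3.eventually (gt_mem_nhds (lt_add_of_pos_right _ hε))] with x hx
  refine le_trans ?_ hx.le
  rw [QX_eq]
  apply div_le_div_of_nonneg_right _ (Nat.cast_nonneg _)
  exact_mod_cast Set.ncard_le_ncard (NV_sub h2 hr h hM hM2 x) (CS_finite _ _)

lemma prod_pos' (M : ℕ) :
    0 < ∏ p ∈ M.primeFactors.filter (fun p => p % 4 = 3), ((p : ℝ) - 1) / (p + 1) := by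
  apply Finset.prod_pos
  intro p hp
  rw [Finset.mem_filter, Nat.mem_primeFactors] at hp
  have h1 : (2 : ℝ) ≤ p := by exact_mod_cast hp.1.1.two_le
  apply div_pos <;> linarith

theorem ratio_not (h2 : Module.finrank ℚ K = 2) (hr : ∀ w : InfinitePlace K, w.IsReal) {e0 : ℕ}
    {ν : InfinitePlace K → ℝ} {ψ : Ideal (𝓞 K) →*₀ ℂ} (h : Base B e0 ν ψ)
    {M : ℕ} (hM : (M : ℤ) = B.D) (hM2 : ¬ 2 ∣ M) :
    ¬ Tendsto (fun x : ℝ => ((NV ψ x).ncard : ℝ) / ((QX x).ncard : ℝ)) atTop (𝓝 (1 / 2)) := by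
  intro hlim
  have hp := prod_pos' M
  set Q₀ := ∏ p ∈ M.primeFactors.filter (fun p => p % 4 = 3), ((p : ℝ) - 1) / (p + 1) with hQ
  have h3 := ratio_bound h2 hr h hM hM2 (ε := Q₀ / 4) (by linarith)
  rw [← hQ] at h3
  have h4 := le_of_tendsto hlim h3
  linarith

/-- the number of the quadratic fields -/
theorem QX_mean : ∃ c : ℝ, 0 < c ∧ Tendsto (fun x : ℝ => ((QX x).ncard : ℝ) / x) atTop (𝓝 c) := by
  classical
  obtain ⟨c, hc0, hc⟩ := mean_nn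
  refine ⟨c, hc0, ?_⟩
  have h1 : ∀ x : ℝ, ((QX x).ncard : ℝ) = SA (fun n => if n ≠ 1 then (nn n : ℝ) else 0) x := by
    intro x
    rw [QX_eq, CS_card]
    congr!
  have hlow : Tendsto (fun x : ℝ => SA (fun n => (nn n : ℝ)) x / x - 1 / x) atTop (𝓝 (c - 0)) :=
    Tendsto.sub hc (tendsto_const_nhds.div_atTop tendsto_id)
  rw [sub_zero] at hlow
  refine tendsto_of_tendsto_of_tendsto_of_le_of_le' hlow hc ?_ ?_
  · filter_upwards [eventually_gt_atTop 0] with x hx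
    rw [h1, ← sub_div]
    apply div_le_div_of_nonneg_right _ hx.le
    have h3 : SA (fun n => (nn n : ℝ)) x = SA (fun n => if n ≠ 1 then (nn n : ℝ) else 0) x +
        SA (fun n => if n = 1 then (1 : ℝ) else 0) x := by
      rw [← SA_add]
      apply SA_congr
      intro n _
      by_cases h : n = 1
      · rw [if_neg (not_not.2 h), if_pos h, h, nn_one]; norm_num
      · rw [if_pos h, if_neg h, add_zero]
    have h4 : SA (fun n => if n = 1 then (1 : ℝ) else 0) x ≤ 1 := by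
      unfold SA
      rw [Finset.sum_ite_eq']
      split_ifs <;> norm_num
    linarith
  · filter_upwards [eventually_gt_atTop 0] with x hx
    rw [h1]
    apply div_le_div_of_nonneg_right _ hx.le
    unfold SA
    apply Finset.sum_le_sum
    intro n _
    split_ifs
    · exact le_refl _
    · exact Nat.cast_nonneg _

end

end Pool.Agent.H505
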