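import Mathlib

/-!
# The Gauss sums of the binary quadratic form `x² + T x y + N y²`

Adapted from the case `x² + x y - y²` in the library module `R423.GC.Gau`.
-/

set_option autoImplicit false

open Finset ZMod

namespace Pool.Agent.H505

/-! ## sums over residue classes -/

lemma sum_range_zmod (q : ℕ) [NeZero q] (f : ZMod q → ℂ) :
    ∑ x ∈ range q, f (x : ZMod q) = ∑ x : ZMod q, f x := by
  obtain ⟨k, rfl⟩ := Nat.exists_eq_succ_of_ne_zero (NeZero.ne q)
  rw [Finset.sum_range]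
  refine Finset.sum_congr rfl fun i _ => ?_
  congr 1
  exact Fin.cast_val_eq_self i

lemma sum_range_mul (n p : ℕ) (f : ℕ → ℂ) :
    ∑ x ∈ range (n * p), f x = ∑ i ∈ range n, ∑ j ∈ range p, f (i + n * j) := by
  rw [← Finset.sum_product']
  symm
  refine Finset.sum_nbij' (fun x => x.1 + n * x.2) (fun x => (x % n, x / n)) ?_ ?_ ?_ ?_ ?_
  · rintro ⟨i, j⟩ h
    simp only [mem_product, mem_range] at h ⊢
    calc i + n * j < n + n * j := by omega
      _ = n * (j + 1) := by ring
      _ ≤ n * p := Nat.mul_le_mul_left n (by omega)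
  · intro x h
    simp only [mem_product, mem_range] at h ⊢
    have hn : 0 < n := Nat.pos_of_ne_zero (by rintro rfl; simp at h)
    exact ⟨Nat.mod_lt _ hn, Nat.div_lt_of_lt_mul h⟩
  · rintro ⟨i, j⟩ h
    simp only [mem_product, mem_range] at h
    have hn : 0 < n := by omega
    simp only [Nat.add_mul_mod_self_left, Nat.mod_eq_of_lt h.1, Prod.mk.injEq, true_and]
    rw [Nat.add_mul_div_left _ _ hn, Nat.div_eq_of_lt h.1, zero_add]
  · intro x _
    exact Nat.mod_add_div x n
  · intro x _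
    rfl

lemma sum_range_dvd (p m : ℕ) (hp : 0 < p) (f : ℕ → ℂ) :
    ∑ i ∈ range (p * m), (if p ∣ i then f i else 0) = ∑ j ∈ range m, f (p * j) := by
  rw [sum_range_mul]
  rw [Finset.sum_eq_single 0]
  · refine Finset.sum_congr rfl fun j _ => ?_
    rw [zero_add, if_pos (dvd_mul_right p j)]
  · intro i hi hi0
    rw [mem_range] at hi
    refine Finset.sum_eq_zero fun j _ => ?_
    rw [if_neg]
    intro h
    have h2 : p ∣ i := (Nat.dvd_add_left (dvd_mul_right p j)).1 h
    exact absurd (Nat.le_of_dvd (Nat.pos_of_ne_zero hi0) h2) (by omega)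
  · intro h
    exact absurd (mem_range.2 hp) h

/-- the Chinese remainder theorem for double sums -/
lemma sum_crt {a b : ℕ} [NeZero a] [NeZero b] [NeZero (a * b)] (h : a.Coprime b)
    (F : ZMod a → ZMod a → ℂ) (G : ZMod b → ZMod b → ℂ) :
    ∑ x : ZMod (a * b), ∑ y : ZMod (a * b),
      F (chineseRemainder h x).1 (chineseRemainder h y).1 *
        G (chineseRemainder h x).2 (chineseRemainder h y).2 =
    (∑ x : ZMod a, ∑ y : ZMod a, F x y) * ∑ x : ZMod b, ∑ y : ZMod b, G x y := by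
  have h1 : ∀ g : ZMod a × ZMod b → ℂ, ∑ x : ZMod (a * b), g (chineseRemainder h x) =
      ∑ x : ZMod a × ZMod b, g x := fun g =>
    Equiv.sum_comp (chineseRemainder h).toEquiv g
  have h2 := h1 fun X => ∑ y : ZMod (a * b), F X.1 (chineseRemainder h y).1 *
        G X.2 (chineseRemainder h y).2
  rw [h2]
  have h3 : ∀ X : ZMod a × ZMod b, ∑ y : ZMod (a * b), F X.1 (chineseRemainder h y).1 *
        G X.2 (chineseRemainder h y).2 = (∑ y, F X.1 y) * ∑ y, G X.2 y := by
    intro X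
    rw [h1 fun Y => F X.1 Y.1 * G X.2 Y.2, Fintype.sum_prod_type, Finset.sum_mul_sum]
  simp_rw [h3]
  rw [Fintype.sum_prod_type, Finset.sum_mul_sum]

/-- `exp(2 π i t n / q)` -/
noncomputable def ex (q : ℕ) [NeZero q] (t : ℤ) (x : ZMod q) : ℂ := stdAddChar ((t : ZMod q) * x)

lemma ex_int (q : ℕ) [NeZero q] (t n : ℤ) :
    ex q t (n : ZMod q) = Complex.exp (2 * Real.pi * Complex.I * ((t * n : ℤ) : ℂ) / q) := by
  rw [ex, ← Int.cast_mul, stdAddChar_coe]

lemma ex_add (q : ℕ) [NeZero q] (t : ℤ) (x y : ZMod q) : ex q t (x + y) = ex q t x * ex q t y := by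
  rw [ex, mul_add, AddChar.map_add_eq_mul]
  rfl

/-- splitting the additive character -/
lemma ex_crt {a b : ℕ} [NeZero a] [NeZero b] [NeZero (a * b)] (h : a.Coprime b) {t t1 t2 : ℤ}
    (ht : t = t1 * b + t2 * a) (x : ZMod (a * b)) :
    ex (a * b) t x = ex a t1 (chineseRemainder h x).1 * ex b t2 (chineseRemainder h x).2 := by
  obtain ⟨n, rfl⟩ := ZMod.intCast_surjective x
  have e1 : (chineseRemainder h (n : ZMod (a * b))).1 = (n : ZMod a) := by
    rw [map_intCast]; rfl
  have e2 : (chineseRemainder h (n : ZMod (a * b))).2 = (n : ZMod b) := by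
    rw [map_intCast]; rfl
  rw [e1, e2, ex_int, ex_int, ex_int, ← Complex.exp_add]
  congr 1
  have ha : (a : ℂ) ≠ 0 := by exact_mod_cast NeZero.ne a
  have hb : (b : ℂ) ≠ 0 := by exact_mod_cast NeZero.ne b
  rw [ht]
  push_cast
  field_simp

/-- the form -/
def Nf {R : Type*} [CommRing R] (T N : ℤ) (x y : R) : R := x * x + (T : R) * (x * y) + (N : R) * (y * y)

/-- the Gauss sum of the form -/
noncomputable def HZ (T N : ℤ) (q : ℕ) [NeZero q] (t : ℤ) : ℂ :=
  ∑ x : ZMod q, ∑ y : ZMod q, ex q t (Nf T N x y)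

variable {T N : ℤ}

lemma HZ_range (q : ℕ) [NeZero q] (t : ℤ) :
    HZ T N q t = ∑ x ∈ range q, ∑ y ∈ range q, ex q t (((Nf T N (x : ℤ) (y : ℤ)) : ℤ) : ZMod q) := by
  unfold HZ
  rw [← sum_range_zmod]
  refine Finset.sum_congr rfl fun x _ => ?_
  rw [← sum_range_zmod]
  refine Finset.sum_congr rfl fun y _ => ?_
  congr 1
  unfold Nf
  push_cast
  rfl

lemma Nf_map {R S : Type*} [CommRing R] [CommRing S] (f : R →+* S) (x y : R) :
    f (Nf T N x y) = Nf T N (f x) (f y) := by
  unfold Nf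
  simp only [map_add, map_mul, map_intCast]

lemma HZ_mul {a b : ℕ} [NeZero a] [NeZero b] [NeZero (a * b)] (h : a.Coprime b) {t t1 t2 : ℤ}
    (ht : t = t1 * b + t2 * a) : HZ T N (a * b) t = HZ T N a t1 * HZ T N b t2 := by
  unfold HZ
  rw [← sum_crt h (fun x y => ex a t1 (Nf T N x y)) (fun x y => ex b t2 (Nf T N x y))]
  refine Finset.sum_congr rfl fun x _ => Finset.sum_congr rfl fun y _ => ?_
  rw [ex_crt h ht]
  have h1 := Nf_map (T := T) (N := N) (chineseRemainder h : ZMod (a * b) →+* ZMod a × ZMod b) x y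
  have h2 : (chineseRemainder h (Nf T N x y)) = Nf T N (chineseRemainder h x) (chineseRemainder h y) := h1
  rw [h2]
  have h3 := Nf_map (T := T) (N := N) (RingHom.fst (ZMod a) (ZMod b)) (chineseRemainder h x)
    (chineseRemainder h y)
  have h4 := Nf_map (T := T) (N := N) (RingHom.snd (ZMod a) (ZMod b)) (chineseRemainder h x)
    (chineseRemainder h y)
  rw [RingHom.coe_fst] at h3
  rw [RingHom.coe_snd] at h4
  rw [h3, h4]

lemma geom_ex (p : ℕ) [Fact p.Prime] {t : ℤ} (ht : ¬ (p : ℤ) ∣ t) (c : ℤ) :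
    ∑ s ∈ range p, ex p t (((s : ℤ) * c : ℤ) : ZMod p) = if (p : ℤ) ∣ c then (p : ℂ) else 0 := by
  have h1 : ∀ s : ℕ, ex p t (((s : ℤ) * c : ℤ) : ZMod p) =
      (fun x : ZMod p => stdAddChar (x * ((t : ZMod p) * (c : ZMod p)))) (s : ZMod p) := by
    intro s
    simp only
    rw [ex]
    congr 1
    push_cast
    ring
  simp_rw [h1]
  rw [sum_range_zmod p (fun x : ZMod p => stdAddChar (x * ((t : ZMod p) * (c : ZMod p)))),
    AddChar.sum_mulShift _ (isPrimitive_stdAddChar p)]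
  have h2 : ((t : ZMod p) * (c : ZMod p) = 0) ↔ (p : ℤ) ∣ c := by
    rw [mul_eq_zero, ZMod.intCast_zmod_eq_zero_iff_dvd, ZMod.intCast_zmod_eq_zero_iff_dvd]
    constructor
    · rintro (h | h)
      · exact absurd h ht
      · exact h
    · exact Or.inr
  by_cases h : (p : ℤ) ∣ c
  · rw [if_pos (h2.2 h), if_pos h, ZMod.card]
  · rw [if_neg (fun h' => h (h2.1 h')), if_neg h]
    simp

/-- step: square factors -/
lemma HZ_sq (p m : ℕ) [Fact p.Prime] [NeZero m] [NeZero (p * m)] [NeZero (p * m * p)]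
    (hD : ¬ (p : ℤ) ∣ T * T - 4 * N)
    {t : ℤ} (ht : ¬ (p : ℤ) ∣ t) : HZ T N (p * m * p) t = (p : ℂ) ^ 2 * HZ T N m t := by
  have hp : p.Prime := Fact.out
  have hp0 : (p : ℂ) ≠ 0 := by exact_mod_cast hp.ne_zero
  have hm0 : (m : ℂ) ≠ 0 := by exact_mod_cast NeZero.ne m
  rw [HZ_range]
  have h1 : ∀ x0 y0 s1 s2 : ℕ,
      ex (p * m * p) t (((Nf T N (((x0 + p * m * s1 : ℕ)) : ℤ) (((y0 + p * m * s2 : ℕ)) : ℤ)) : ℤ) :
        ZMod (p * m * p)) =
      ex (p * m * p) t (((Nf T N (x0 : ℤ) (y0 : ℤ)) : ℤ) : ZMod (p * m * p)) *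
        (ex p t (((s1 : ℤ) * (2 * x0 + T * y0) : ℤ) : ZMod p) *
          ex p t (((s2 : ℤ) * (T * x0 + 2 * N * y0) : ℤ) : ZMod p)) := by
    intro x0 y0 s1 s2
    rw [ex_int, ex_int, ex_int, ex_int, ← Complex.exp_add, ← Complex.exp_add]
    rw [Complex.exp_eq_exp_iff_exists_int]
    refine ⟨t * m * Nf T N (s1 : ℤ) (s2 : ℤ), ?_⟩
    unfold Nf
    push_cast
    field_simp
    ring
  rw [sum_range_mul (p * m) p]
  have h2 : ∀ x0 ∈ range (p * m), ∀ s1 ∈ range p,
      ∑ y ∈ range (p * m * p), ex (p * m * p) t (((Nf T N (((x0 + p * m * s1 : ℕ)) : ℤ) (y : ℤ)) : ℤ) :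
        ZMod (p * m * p)) =
      ∑ y0 ∈ range (p * m), ex (p * m * p) t (((Nf T N (x0 : ℤ) (y0 : ℤ)) : ℤ) : ZMod (p * m * p)) *
        (ex p t (((s1 : ℤ) * (2 * x0 + T * y0) : ℤ) : ZMod p) *
          if (p : ℤ) ∣ (T * x0 + 2 * N * y0) then (p : ℂ) else 0) := by
    intro x0 _ s1 _
    rw [sum_range_mul (p * m) p]
    refine Finset.sum_congr rfl fun y0 _ => ?_
    simp_rw [h1]
    rw [← Finset.mul_sum, ← Finset.mul_sum, geom_ex p ht]
  have h3 : ∀ x0 ∈ range (p * m), ∑ s1 ∈ range p,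
      ∑ y ∈ range (p * m * p), ex (p * m * p) t (((Nf T N (((x0 + p * m * s1 : ℕ)) : ℤ) (y : ℤ)) : ℤ) :
        ZMod (p * m * p)) =
      ∑ y0 ∈ range (p * m), ex (p * m * p) t (((Nf T N (x0 : ℤ) (y0 : ℤ)) : ℤ) : ZMod (p * m * p)) *
        ((if (p : ℤ) ∣ (2 * x0 + T * y0) then (p : ℂ) else 0) *
          if (p : ℤ) ∣ (T * x0 + 2 * N * y0) then (p : ℂ) else 0) := by
    intro x0 hx0
    rw [Finset.sum_congr rfl (h2 x0 hx0), Finset.sum_comm]
    refine Finset.sum_congr rfl fun y0 _ => ?_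
    rw [← Finset.mul_sum, ← Finset.sum_mul, geom_ex p ht]
  rw [Finset.sum_congr rfl h3]
  have h4 : ∀ x0 y0 : ℕ, ((if (p : ℤ) ∣ (2 * x0 + T * y0) then (p : ℂ) else 0) *
          if (p : ℤ) ∣ (T * x0 + 2 * N * y0) then (p : ℂ) else 0) =
      (if p ∣ x0 then (if p ∣ y0 then (p : ℂ) ^ 2 else 0) else 0) := by
    intro x0 y0
    have hpI : Prime (p : ℤ) := Nat.prime_iff_prime_int.1 hp
    by_cases hA : (p : ℤ) ∣ (2 * x0 + T * y0)
    · by_cases hB : (p : ℤ) ∣ (T * x0 + 2 * N * y0)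
      · have h6 : (p : ℤ) ∣ (T * T - 4 * N) * y0 := by
          have : (T * T - 4 * N) * y0 = T * (2 * x0 + T * y0) - 2 * (T * x0 + 2 * N * y0) := by ring
          rw [this]
          exact dvd_sub (hA.mul_left _) (hB.mul_left _)
        have h7 : (p : ℤ) ∣ (T * T - 4 * N) * x0 := by
          have : (T * T - 4 * N) * x0 = T * (T * x0 + 2 * N * y0) - 2 * N * (2 * x0 + T * y0) := by ring
          rw [this]
          exact dvd_sub (hB.mul_left _) (hA.mul_left _)
        have hy : p ∣ y0 := by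
          have := (hpI.dvd_or_dvd h6).resolve_left hD
          exact_mod_cast this
        have hx : p ∣ x0 := by
          have := (hpI.dvd_or_dvd h7).resolve_left hD
          exact_mod_cast this
        rw [if_pos hA, if_pos hB, if_pos hx, if_pos hy]
        ring
      · rw [if_neg hB, mul_zero]
        by_cases hx : p ∣ x0
        · by_cases hy : p ∣ y0
          · exfalso
            have hx' : (p : ℤ) ∣ x0 := by exact_mod_cast hx
            have hy' : (p : ℤ) ∣ y0 := by exact_mod_cast hy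
            exact hB (dvd_add (hx'.mul_left _) (hy'.mul_left _))
          · rw [if_pos hx, if_neg hy]
        · rw [if_neg hx]
    · rw [if_neg hA, zero_mul]
      by_cases hx : p ∣ x0
      · by_cases hy : p ∣ y0
        · exfalso
          have hx' : (p : ℤ) ∣ x0 := by exact_mod_cast hx
          have hy' : (p : ℤ) ∣ y0 := by exact_mod_cast hy
          exact hA (dvd_add (hx'.mul_left _) (hy'.mul_left _))
        · rw [if_pos hx, if_neg hy]
      · rw [if_neg hx]
  simp_rw [h4]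
  have h5' : ∀ x0 : ℕ, ∑ y0 ∈ range (p * m),
      ex (p * m * p) t (((Nf T N (x0 : ℤ) (y0 : ℤ)) : ℤ) : ZMod (p * m * p)) *
        (if p ∣ x0 then (if p ∣ y0 then (p : ℂ) ^ 2 else 0) else 0) =
      if p ∣ x0 then (∑ y1 ∈ range m, ex (p * m * p) t
        (((Nf T N (x0 : ℤ) ((p * y1 : ℕ) : ℤ)) : ℤ) : ZMod (p * m * p)) * (p : ℂ) ^ 2) else 0 := by
    intro x0
    by_cases hx : p ∣ x0
    · simp only [if_pos hx]
      rw [← sum_range_dvd p m hp.pos (fun y0 => ex (p * m * p) t
        (((Nf T N (x0 : ℤ) (y0 : ℤ)) : ℤ) : ZMod (p * m * p)) * (p : ℂ) ^ 2)]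
      refine Finset.sum_congr rfl fun y0 _ => ?_
      split_ifs <;> simp
    · simp [if_neg hx]
  simp_rw [h5']
  rw [sum_range_dvd p m hp.pos, HZ_range, Finset.mul_sum]
  refine Finset.sum_congr rfl fun x1 _ => ?_
  rw [Finset.mul_sum]
  refine Finset.sum_congr rfl fun y1 _ => ?_
  rw [mul_comm]
  congr 1
  rw [ex_int, ex_int]
  congr 1
  unfold Nf
  push_cast
  field_simp

/-! ## the values -/

section

variable {p : ℕ} [Fact p.Prime]

/-- the quadratic character with complex values -/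
noncomputable def qc (p : ℕ) [Fact p.Prime] : MulChar (ZMod p) ℂ :=
  (quadraticChar (ZMod p)).ringHomComp (Int.castRingHom ℂ)

lemma qc_apply (x : ZMod p) : qc p x = ((quadraticChar (ZMod p) x : ℤ) : ℂ) := rfl

lemma qc_sq {x : ZMod p} (hx : x ≠ 0) : qc p x * qc p x = 1 := by
  rw [qc_apply, ← Int.cast_mul, ← pow_two, quadraticChar_sq_one hx, Int.cast_one]

lemma sum_sq (hp2 : p ≠ 2) (ψ : AddChar (ZMod p) ℂ) (hψ : ψ.IsPrimitive) {c : ZMod p} (hc : c ≠ 0) :
    ∑ x : ZMod p, ψ (c * (x * x)) = qc p c * gaussSum (qc p) ψ := by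
  have hchar : ringChar (ZMod p) ≠ 2 := by rw [ZMod.ringChar_zmod_n]; exact hp2
  have h1 : ∑ x : ZMod p, ψ (c * (x * x)) =
      ∑ n : ZMod p, ((quadraticChar (ZMod p) n + 1 : ℤ) : ℂ) * ψ (c * n) := by
    rw [← Finset.sum_fiberwise (s := univ) (g := fun x : ZMod p => x * x)]
    refine Finset.sum_congr rfl fun n _ => ?_
    rw [← quadraticChar_card_sqrts hchar n]
    have h2 : ∀ x ∈ univ.filter (fun x : ZMod p => x * x = n), ψ (c * (x * x)) = ψ (c * n) := by
      intro x hx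
      rw [(mem_filter.1 hx).2]
    rw [Finset.sum_congr rfl h2, Finset.sum_const, nsmul_eq_mul]
    congr 1
    rw [Int.cast_natCast]
    congr 2
    ext x
    simp [pow_two]
  rw [h1]
  have h3 : ∑ n : ZMod p, ((quadraticChar (ZMod p) n + 1 : ℤ) : ℂ) * ψ (c * n) =
      ∑ n : ZMod p, qc p n * ψ (c * n) + ∑ n : ZMod p, ψ (n * c) := by
    rw [← Finset.sum_add_distrib]
    refine Finset.sum_congr rfl fun n _ => ?_
    rw [qc_apply, mul_comm n c]
    push_cast
    ring
  rw [h3, AddChar.sum_mulShift _ hψ, if_neg hc]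
  have h4 : ∑ n : ZMod p, qc p n * ψ (c * n) = gaussSum (qc p) (ψ.mulShift c) := by
    unfold gaussSum
    refine Finset.sum_congr rfl fun n _ => ?_
    rw [AddChar.mulShift_apply]
  rw [h4]
  have hu : IsUnit c := isUnit_iff_ne_zero.2 hc
  have h5 := gaussSum_mulShift (qc p) ψ hu.unit
  rw [hu.unit_spec] at h5
  have h6 : qc p c * qc p c = 1 := qc_sq hc
  rw [← h5]
  have : qc p c * (qc p c * gaussSum (qc p) (ψ.mulShift c)) = gaussSum (qc p) (ψ.mulShift c) := by
    rw [← mul_assoc, h6, one_mul]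
  rw [this]
  simp

end

lemma qc_quad (p : ℕ) [Fact p.Prime] : (qc p).IsQuadratic :=
  (quadraticChar_isQuadratic (ZMod p)).comp _

lemma qc_ne_one {p : ℕ} [Fact p.Prime] (hp2 : p ≠ 2) : qc p ≠ 1 := by
  intro h
  have hchar : ringChar (ZMod p) ≠ 2 := by rw [ZMod.ringChar_zmod_n]; exact hp2
  obtain ⟨a, ha⟩ := quadraticChar_exists_neg_one' hchar
  have h1 : qc p a = (-1 : ℂ) := by
    rw [qc_apply, ha]; simp
  rw [h, MulChar.one_apply_coe] at h1
  norm_num at h1

open Classical in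
/-- the splitting symbol of the form at the prime `p`: `1` if the form represents `0` modulo `p`
nontrivially, `-1` otherwise (for the primes not dividing the discriminant) -/
noncomputable def spl (T N : ℤ) (p : ℕ) : ℂ :=
  if p = 2 then (if Even N then 1 else -1) else
    (if h : p.Prime then haveI : Fact p.Prime := ⟨h⟩; qc p ((T * T - 4 * N : ℤ) : ZMod p) else 1)

lemma spl_two : spl T N 2 = if Even N then 1 else -1 := by
  unfold spl
  rw [if_pos rfl]

lemma spl_odd {p : ℕ} [hF : Fact p.Prime] (hp2 : p ≠ 2) :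
    spl T N p = qc p ((T * T - 4 * N : ℤ) : ZMod p) := by
  unfold spl
  rw [if_neg hp2, dif_pos hF.out]

lemma spl_sq {p : ℕ} (hp : p.Prime) (hD : ¬ (p : ℤ) ∣ T * T - 4 * N) : spl T N p * spl T N p = 1 := by
  have : Fact p.Prime := ⟨hp⟩
  by_cases hp2 : p = 2
  · rw [hp2, spl_two]
    split_ifs <;> norm_num
  · rw [spl_odd hp2]
    apply qc_sq
    intro h
    exact hD ((ZMod.intCast_zmod_eq_zero_iff_dvd _ _).1 h)

lemma two_zmod2 : (2 : ZMod 2) = 0 := by decide

lemma int_zmod2 (n : ℤ) : (n : ZMod 2) = if Even n then 0 else 1 := by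
  split_ifs with h
  · obtain ⟨k, rfl⟩ := h
    push_cast
    have : (2 : ZMod 2) = 0 := by decide
    linear_combination (k : ZMod 2) * this
  · rw [Int.not_even_iff_odd] at h
    obtain ⟨k, rfl⟩ := h
    push_cast
    have : (2 : ZMod 2) = 0 := by decide
    linear_combination (k : ZMod 2) * this

lemma HZ_prime (p : ℕ) [Fact p.Prime] (hD : ¬ (p : ℤ) ∣ T * T - 4 * N) {t : ℤ}
    (ht : ¬ (p : ℤ) ∣ t) : HZ T N p t = spl T N p * p := by
  have hp : p.Prime := Fact.out
  by_cases hp2 : p = 2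
  · subst hp2
    have hT : ¬ Even T := by
      rintro ⟨k, rfl⟩
      apply hD
      exact ⟨2 * k * k - 2 * N, by push_cast; ring⟩
    have hT1 : ((T : ℤ) : ZMod 2) = 1 := by rw [int_zmod2, if_neg hT]
    have ht1 : (t : ZMod 2) = 1 := by
      rw [int_zmod2, if_neg]
      rintro ⟨k, rfl⟩
      apply ht
      exact ⟨k, by push_cast; ring⟩
    have e0 : ex 2 t 0 = 1 := by
      rw [ex, mul_zero, AddChar.map_zero_eq_one]
    have e1 : ex 2 t 1 = -1 := by
      rw [ex, ht1, mul_one]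
      have := stdAddChar_coe (N := 2) 1
      rw [Int.cast_one] at this
      rw [this]
      have h3 : 2 * (Real.pi : ℂ) * Complex.I * ((1 : ℤ) : ℂ) / ((2 : ℕ) : ℂ) = Real.pi * Complex.I := by
        push_cast
        ring
      rw [h3, Complex.exp_pi_mul_I]
    have hs : HZ T N 2 t = (ex 2 t (Nf T N 0 0) + ex 2 t (Nf T N 0 1)) +
        (ex 2 t (Nf T N 1 0) + ex 2 t (Nf T N 1 1)) := by
      unfold HZ
      exact (Fin.sum_univ_two _).trans (by
        congr 1 <;> exact Fin.sum_univ_two _)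
    have n1 : Nf T N (0 : ZMod 2) 0 = 0 := by unfold Nf; ring
    have n2 : Nf T N (0 : ZMod 2) 1 = (N : ZMod 2) := by unfold Nf; ring
    have n3 : Nf T N (1 : ZMod 2) 0 = 1 := by unfold Nf; ring
    have n4 : Nf T N (1 : ZMod 2) 1 = (N : ZMod 2) := by
      unfold Nf
      rw [hT1]
      linear_combination two_zmod2
    rw [hs, n1, n2, n3, n4, e0, e1, spl_two]
    rw [int_zmod2 N]
    split_ifs with h
    · rw [e0]; norm_num
    · rw [e1]; norm_num
  · have h4 : (4 : ZMod p) ≠ 0 := by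
      intro h
      have h6 : ((4 : ℕ) : ZMod p) = 0 := by exact_mod_cast h
      rw [ZMod.natCast_eq_zero_iff] at h6
      have : p ∣ 2 ^ 2 := by norm_num; exact h6
      exact hp2 ((Nat.prime_dvd_prime_iff_eq hp Nat.prime_two).1 (hp.dvd_of_dvd_pow this))
    have h2 : (2 : ZMod p) ≠ 0 := by
      intro h
      apply h4
      have : (4 : ZMod p) = 2 * 2 := by norm_num
      rw [this, h, zero_mul]
    set d : ZMod p := ((T * T - 4 * N : ℤ) : ZMod p) with hd
    have hd0 : d ≠ 0 := by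
      intro h
      exact hD ((ZMod.intCast_zmod_eq_zero_iff_dvd _ _).1 h)
    have ht0 : (t : ZMod p) ≠ 0 := by
      intro h
      exact ht ((ZMod.intCast_zmod_eq_zero_iff_dvd _ _).1 h)
    set s : ZMod p := (t : ZMod p) * 4⁻¹ with hs
    have hs0 : s ≠ 0 := mul_ne_zero ht0 (inv_ne_zero h4)
    set ψ : AddChar (ZMod p) ℂ := stdAddChar with hψdef
    have hψ : ψ.IsPrimitive := isPrimitive_stdAddChar p
    have key : HZ T N p t = (∑ x : ZMod p, ψ (s * (x * x))) * ∑ y : ZMod p, ψ ((-d * s) * (y * y)) := by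
      unfold HZ
      rw [Finset.sum_comm, Finset.sum_mul_sum, Finset.sum_comm (s := univ) (t := univ)
        (f := fun x y : ZMod p => ψ (s * (x * x)) * ψ ((-d * s) * (y * y)))]
      refine Finset.sum_congr rfl fun y _ => ?_
      have hbij : Function.Bijective fun x : ZMod p => 2 * x + (T : ZMod p) * y := by
        refine (Finite.injective_iff_bijective).1 fun x x' h => ?_
        have h7 : 2 * x = 2 * x' := add_right_cancel h
        exact mul_left_cancel₀ h2 h7
      rw [← hbij.sum_comp (fun X => ψ (s * (X * X)) * ψ ((-d * s) * (y * y)))]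
      refine Finset.sum_congr rfl fun x _ => ?_
      rw [← AddChar.map_add_eq_mul]
      show ψ _ = ψ _
      congr 1
      unfold Nf
      rw [hs, hd]
      push_cast
      field_simp
      ring
    rw [key, sum_sq hp2 ψ hψ hs0, sum_sq hp2 ψ hψ (mul_ne_zero (neg_ne_zero.2 hd0) hs0)]
    have hg : gaussSum (qc p) ψ ^ 2 = qc p (-1) * (Fintype.card (ZMod p) : ℂ) :=
      gaussSum_sq (qc_ne_one hp2) (qc_quad p) hψ
    have h8 : qc p s * qc p (-d * s) * qc p (-1) = qc p d := by
      rw [← map_mul, ← map_mul]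
      have h9 : s * (-d * s) * -1 = d * (s * s) := by ring
      rw [h9, map_mul, map_mul, qc_sq hs0, mul_one]
    rw [ZMod.card] at hg
    rw [spl_odd hp2]
    calc qc p s * gaussSum (qc p) ψ * (qc p (-d * s) * gaussSum (qc p) ψ) =
        qc p s * qc p (-d * s) * gaussSum (qc p) ψ ^ 2 := by ring
      _ = (qc p s * qc p (-d * s) * qc p (-1)) * p := by rw [hg]; ring
      _ = _ := by rw [h8]

lemma HZ_one (t : ℤ) : HZ T N 1 t = 1 := by
  unfold HZ
  rw [Fintype.sum_unique, Fintype.sum_unique]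
  have : ∀ z : ZMod 1, ex 1 t z = 1 := by
    intro z
    have hz : z = 0 := Subsingleton.elim _ _
    rw [hz, ex, mul_zero, AddChar.map_zero_eq_one]
  exact this _

/-- **the value of the Gauss sum** -/
theorem HZ_eval (c : ℕ → ℂ) (c1 : c 1 = 1) (cm : ∀ a b, c (a * b) = c a * c b) :
    ∀ (q : ℕ) [NeZero q] (t : ℤ), (∀ p, p.Prime → p ∣ q → ¬ (p : ℤ) ∣ T * T - 4 * N ∧ c p = spl T N p) →
      IsCoprime t (q : ℤ) → HZ T N q t = c q * q := by
  intro q
  induction q using Nat.strong_induction_on with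
  | _ q ih =>
    intro _ t hc ht
    by_cases hq1 : q = 1
    · subst hq1
      rw [HZ_one, c1]
      norm_num
    have hq0 : q ≠ 0 := NeZero.ne q
    set p := q.minFac with hpdef
    have hp : p.Prime := Nat.minFac_prime hq1
    have hF : Fact p.Prime := ⟨hp⟩
    obtain ⟨hpD, hcp⟩ := hc p hp (Nat.minFac_dvd q)
    have hpt : ¬ (p : ℤ) ∣ t := by
      intro h
      have h1 : (p : ℤ) ∣ q := by exact_mod_cast Nat.minFac_dvd q
      have h2 := ht.isUnit_of_dvd' h h1
      rw [Int.isUnit_iff] at h2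
      have := hp.two_le
      omega
    have csq : c p * c p = 1 := by rw [hcp, spl_sq hp hpD]
    obtain ⟨n, hn⟩ := Nat.minFac_dvd q
    rw [← hpdef] at hn
    by_cases hpn : p ∣ n
    · obtain ⟨m, rfl⟩ := hpn
      have hm0 : m ≠ 0 := by
        rintro rfl
        exact hq0 (by rw [hn]; ring)
      have : NeZero m := ⟨hm0⟩
      have : NeZero (p * m) := ⟨mul_ne_zero hp.ne_zero hm0⟩
      have hqe : q = p * m * p := by rw [hn]; ring
      have : NeZero (p * m * p) := ⟨by rw [← hqe]; exact hq0⟩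
      have hml : m < q := by
        rw [hqe]
        have := hp.two_le
        have hmpos := Nat.pos_of_ne_zero hm0
        nlinarith [Nat.mul_le_mul this (le_refl (m * p)), Nat.mul_le_mul (le_refl m) this]
      have hcm : ∀ l, l.Prime → l ∣ m → ¬ (l : ℤ) ∣ T * T - 4 * N ∧ c l = spl T N l := by
        intro l hl hlm
        exact hc l hl (hlm.trans (by rw [hqe]; exact ⟨p * p, by ring⟩))
      have htm : IsCoprime t (m : ℤ) := ht.of_isCoprime_of_dvd_right (by
        rw [hqe]; push_cast; exact ⟨p * p, by ring⟩)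
      clear_value p
      subst hqe
      rw [HZ_sq p m hpD hpt, ih m hml t hcm htm]
      rw [cm, cm]
      push_cast
      linear_combination (-(c m) * p * m * p) * csq
    · have hn0 : n ≠ 0 := by
        rintro rfl
        exact hq0 (by rw [hn]; ring)
      have hcop : p.Coprime n := (Nat.Prime.coprime_iff_not_dvd hp).2 hpn
      have : NeZero n := ⟨hn0⟩
      have : NeZero (p * n) := ⟨by rw [← hn]; exact hq0⟩
      have hcn : ∀ l, l.Prime → l ∣ n → ¬ (l : ℤ) ∣ T * T - 4 * N ∧ c l = spl T N l := by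
        intro l hl hlm
        exact hc l hl (hlm.trans (by rw [hn]; exact ⟨p, by ring⟩))
      have hnl : n < q := by
        rw [hn]
        have := hp.two_le
        have hmpos := Nat.pos_of_ne_zero hn0
        nlinarith
      have hcI : IsCoprime (p : ℤ) (n : ℤ) := Nat.isCoprime_iff_coprime.2 hcop
      obtain ⟨u, v, huv⟩ := hcI
      -- `u p + v n = 1`
      have htt : t = (t * v) * n + (t * u) * p := by linear_combination (-t) * huv
      have h1 : ¬ (p : ℤ) ∣ t * v := by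
        intro h
        rcases (Nat.prime_iff_prime_int.1 hp).dvd_or_dvd h with h | h
        · exact hpt h
        · have h2 : (p : ℤ) ∣ 1 := by
            rw [← huv]
            exact dvd_add (Dvd.intro_left u rfl) (h.mul_right n)
          have h3 := Int.isUnit_iff.1 (isUnit_of_dvd_one h2)
          have := hp.two_le
          omega
      have h2 : IsCoprime (t * u) (n : ℤ) := by
        refine IsCoprime.mul_left (ht.of_isCoprime_of_dvd_right (by
          rw [hn]; push_cast; exact ⟨p, by ring⟩)) ⟨p, v, by linear_combination huv⟩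
      clear_value p
      subst hn
      rw [HZ_mul hcop htt, HZ_prime p hpD h1, ih n hnl (t * u) hcn h2]
      rw [cm, hcp]
      push_cast
      ring

/-! ## Gauss sums of `χ ∘ N` -/

lemma sum_units {q : ℕ} [NeZero q] (F : ZMod q → ℂ) (hF : ∀ m, ¬ IsUnit m → F m = 0) :
    ∑ m, F m = ∑ u : (ZMod q)ˣ, F u := by
  symm
  refine Fintype.sum_of_injective (fun u : (ZMod q)ˣ => (u : ZMod q)) Units.val_injective _ _ ?_ ?_
  · intro i hi
    apply hF
    rintro ⟨u, hu⟩
    exact hi ⟨u, hu⟩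
  · intro u
    rfl

section

variable {q : ℕ} [NeZero q] {χ : DirichletCharacter ℂ q}

lemma gs_mul (hχ : χ.IsPrimitive) (hr : χ⁻¹ = χ) (n : ZMod q) :
    χ n * gaussSum χ stdAddChar = ∑ m : ZMod q, χ m * stdAddChar (n * m) := by
  have h := gaussSum_mulShift_of_isPrimitive (stdAddChar (N := q)) hχ n
  rw [hr] at h
  rw [← h]
  unfold gaussSum
  refine Finset.sum_congr rfl fun m _ => ?_
  rw [AddChar.mulShift_apply]

lemma gs_ne (hχ : χ.IsPrimitive) (hr : χ⁻¹ = χ) : gaussSum χ stdAddChar ≠ 0 := by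
  intro h0
  have h1 : ∑ n : ZMod q, (χ n * gaussSum χ stdAddChar) * stdAddChar (-n) = q := by
    simp_rw [gs_mul hχ hr, Finset.sum_mul]
    rw [Finset.sum_comm]
    have h2 : ∀ m : ZMod q, ∑ n : ZMod q, χ m * stdAddChar (n * m) * stdAddChar (-n) =
        χ m * (if m - 1 = 0 then (Fintype.card (ZMod q) : ℂ) else 0) := by
      intro m
      have h3 := AddChar.sum_mulShift (m - 1) (isPrimitive_stdAddChar q)
      have h4 : ((if m - 1 = 0 then Fintype.card (ZMod q) else 0 : ℕ) : ℂ) =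
          (if m - 1 = 0 then (Fintype.card (ZMod q) : ℂ) else 0) := by
        split_ifs <;> simp
      rw [← h4, ← h3, Finset.mul_sum]
      refine Finset.sum_congr rfl fun n _ => ?_
      rw [mul_assoc, ← AddChar.map_add_eq_mul]
      congr 2
      ring
    simp_rw [h2]
    rw [Finset.sum_eq_single 1]
    · simp
    · intro m _ hm
      rw [if_neg (sub_ne_zero.2 hm), mul_zero]
    · intro h
      exact absurd (mem_univ _) h
  rw [h0] at h1
  simp only [mul_zero, zero_mul, Finset.sum_const_zero] at h1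
  have : (q : ℂ) ≠ 0 := by exact_mod_cast NeZero.ne q
  exact this h1.symm

variable (T N) in
/-- the Gauss sum of `χ ∘ N` -/
noncomputable def TZ (q : ℕ) [NeZero q] (χ : DirichletCharacter ℂ q) (t : ℤ) : ℂ :=
  ∑ x : ZMod q, ∑ y : ZMod q, χ (Nf T N x y) * ex q t (2 * x + (T : ZMod q) * y)

theorem TZ_eval (c : ℕ → ℂ) (c1 : c 1 = 1) (cm : ∀ a b, c (a * b) = c a * c b)
    (hχ : χ.IsPrimitive) (hr : χ⁻¹ = χ)
    (hc : ∀ p, p.Prime → p ∣ q → ¬ (p : ℤ) ∣ T * T - 4 * N ∧ c p = spl T N p) {t : ℤ}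
    (ht : IsCoprime t (q : ℤ)) : TZ T N q χ t = c q * χ (-1) * q := by
  have hτ := gs_ne hχ hr
  have htu : IsUnit ((t : ℤ) : ZMod q) := by
    obtain ⟨u, v, h⟩ := ht
    refine IsUnit.of_mul_eq_one (u : ZMod q) ?_
    have h1 := congrArg (fun n : ℤ => (n : ZMod q)) h
    push_cast at h1
    rw [ZMod.natCast_self, mul_zero, add_zero] at h1
    rw [mul_comm]
    exact h1
  have hsq : ∀ u : ZMod q, IsUnit u → χ u * χ u = 1 := by
    intro u hu
    have h1 : χ u * χ⁻¹ u = 1 := by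
      rw [← MulChar.mul_apply, mul_inv_cancel, MulChar.one_apply hu]
    rwa [hr] at h1
  -- the inner sum
  have hinner : ∀ m : (ZMod q)ˣ, ∑ x : ZMod q, ∑ y : ZMod q,
      stdAddChar ((m : ZMod q) * Nf T N x y) * ex q t (2 * x + (T : ZMod q) * y) =
      stdAddChar (-((t : ZMod q) * (t : ZMod q) * ((m⁻¹ : (ZMod q)ˣ) : ZMod q))) * (c q * q) := by
    intro m
    obtain ⟨z, hz⟩ := ZMod.intCast_surjective (m : ZMod q)
    have hzc : IsCoprime z (q : ℤ) := by
      have h1 : IsUnit (z : ZMod q) := by rw [hz]; exact m.isUnit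
      have := (ZMod.coe_int_isUnit_iff_isCoprime z q).1 h1
      exact this.symm
    rw [← HZ_eval c c1 cm q z hc hzc]
    unfold HZ
    set k : ZMod q := (t : ZMod q) * ((m⁻¹ : (ZMod q)ˣ) : ZMod q) with hk
    rw [← Equiv.sum_comp (Equiv.addRight k) (fun x => ∑ y : ZMod q, ex q z (Nf T N x y)),
      Finset.mul_sum]
    refine Finset.sum_congr rfl fun x _ => ?_
    rw [Finset.mul_sum]
    refine Finset.sum_congr rfl fun y _ => ?_
    rw [ex, ex, hz, Equiv.coe_addRight, ← AddChar.map_add_eq_mul, ← AddChar.map_add_eq_mul]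
    congr 1
    have hm : (m : ZMod q) * ((m⁻¹ : (ZMod q)ˣ) : ZMod q) = 1 := m.mul_inv
    unfold Nf
    rw [hk]
    linear_combination (-(t : ZMod q) * (2 * x + (T : ZMod q) * y) -
      (t : ZMod q) * (t : ZMod q) * ((m⁻¹ : (ZMod q)ˣ) : ZMod q)) * hm
  have hmain : gaussSum χ stdAddChar * TZ T N q χ t =
      (c q * q) * ∑ m : (ZMod q)ˣ, χ m *
        stdAddChar (-((t : ZMod q) * (t : ZMod q) * ((m⁻¹ : (ZMod q)ˣ) : ZMod q))) := by
    have e1 : gaussSum χ stdAddChar * TZ T N q χ t = ∑ m : ZMod q, χ m * ∑ x : ZMod q, ∑ y : ZMod q,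
        stdAddChar (m * Nf T N x y) * ex q t (2 * x + (T : ZMod q) * y) := by
      unfold TZ
      rw [Finset.mul_sum]
      simp_rw [Finset.mul_sum]
      rw [Finset.sum_comm (s := (univ : Finset (ZMod q))) (t := univ)
        (f := fun m x => ∑ y : ZMod q, χ m * (stdAddChar (m * Nf T N x y) *
          ex q t (2 * x + (T : ZMod q) * y)))]
      refine Finset.sum_congr rfl fun x _ => ?_
      rw [Finset.sum_comm]
      refine Finset.sum_congr rfl fun y _ => ?_
      rw [← mul_assoc, mul_comm (gaussSum χ stdAddChar), gs_mul hχ hr, Finset.sum_mul]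
      refine Finset.sum_congr rfl fun m _ => ?_
      rw [mul_comm (Nf T N x y) m]
      ring
    rw [e1, sum_units _ (fun m hm => by rw [χ.map_nonunit hm, zero_mul]), Finset.mul_sum]
    refine Finset.sum_congr rfl fun m _ => ?_
    rw [hinner m]
    ring
  have hlast : ∑ m : (ZMod q)ˣ, χ m * stdAddChar (-((t : ZMod q) * (t : ZMod q) * ((m⁻¹ : (ZMod q)ˣ) : ZMod q))) =
      χ (-1) * gaussSum χ stdAddChar := by
    unfold gaussSum
    rw [sum_units (fun m => χ m * stdAddChar m) (fun m hm => by rw [χ.map_nonunit hm, zero_mul])]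
    -- `u = - t² m⁻¹`
    let φ : (ZMod q)ˣ ≃ (ZMod q)ˣ :=
      (Equiv.inv (ZMod q)ˣ).trans (Equiv.mulLeft (-(htu.unit * htu.unit)))
    rw [← Equiv.sum_comp φ (fun m : (ZMod q)ˣ => χ (m : ZMod q) * stdAddChar (m : ZMod q)),
      Finset.mul_sum]
    refine Finset.sum_congr rfl fun m _ => ?_
    have hφ : ((φ m : (ZMod q)ˣ) : ZMod q) = -((t : ZMod q) * (t : ZMod q) * ((m⁻¹ : (ZMod q)ˣ) : ZMod q)) := by
      show (((-(htu.unit * htu.unit)) * m⁻¹ : (ZMod q)ˣ) : ZMod q) = _
      push_cast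
      rw [htu.unit_spec]
      ring
    rw [hφ]
    have h7 : χ (-((t : ZMod q) * (t : ZMod q) * ((m⁻¹ : (ZMod q)ˣ) : ZMod q))) = χ (-1) * χ m := by
      have h8 : -((t : ZMod q) * (t : ZMod q) * ((m⁻¹ : (ZMod q)ˣ) : ZMod q)) =
          (-1) * ((t : ZMod q) * (t : ZMod q)) * ((m⁻¹ : (ZMod q)ˣ) : ZMod q) := by ring
      rw [h8, map_mul, map_mul, map_mul, hsq _ htu, mul_one]
      congr 1
      have h9 := hsq _ m.isUnit
      have h10 : χ (m : ZMod q) * χ ((m⁻¹ : (ZMod q)ˣ) : ZMod q) = 1 := by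
        rw [← map_mul, m.mul_inv, map_one]
      calc χ ((m⁻¹ : (ZMod q)ˣ) : ZMod q) = (χ m * χ m) * χ ((m⁻¹ : (ZMod q)ˣ) : ZMod q) := by
            rw [h9, one_mul]
        _ = χ m * (χ m * χ ((m⁻¹ : (ZMod q)ˣ) : ZMod q)) := by ring
        _ = χ m := by rw [h10, mul_one]
    have h11 : χ (-1) * χ (-1) = 1 := by
      rw [← map_mul]
      norm_num
    rw [h7]
    linear_combination (-χ (m : ZMod q) * stdAddChar
      (-((t : ZMod q) * (t : ZMod q) * ((m⁻¹ : (ZMod q)ˣ) : ZMod q)))) * h11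
  rw [hlast] at hmain
  have h12 : gaussSum χ stdAddChar * TZ T N q χ t =
      gaussSum χ stdAddChar * (c q * χ (-1) * q) := by
    rw [hmain]
    ring
  exact mul_left_cancel₀ hτ h12

end

end Pool.Agent.H505
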