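import Pool.Agent.H505.Qd
import Pool.Agent.H505.Gau

/-!
# Quadratic fields: prime ideals
-/

set_option autoImplicit false

open NumberField

namespace Pool.Agent.H505.QB

variable {K : Type} [Field K] [NumberField K] (B : QB K)

include B in
lemma norm_nat (n : ℕ) : Algebra.norm ℤ (n : 𝓞 K) = (n : ℤ) ^ 2 := by
  have h := B.norm_int ((n : ℤ) : 𝓞 K)
  rw [(B.coord_int n).1, (B.coord_int n).2, Int.cast_natCast] at h
  rw [h]
  ring

include B in
lemma absNorm_nat (n : ℕ) : Ideal.absNorm (Ideal.span {(n : 𝓞 K)}) = n ^ 2 := by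
  rw [Ideal.absNorm_span_singleton, B.norm_nat, Int.natAbs_pow, Int.natAbs_natCast]

/-- divisibility by an integer in terms of the coordinates -/
lemma mem_span_int {m : ℤ} {r : 𝓞 K} : r ∈ Ideal.span {(m : 𝓞 K)} ↔ m ∣ B.cre r ∧ m ∣ B.cim r := by
  rw [Ideal.mem_span_singleton]
  constructor
  · rintro ⟨t, rfl⟩
    rw [(B.coord_mul _ _).1, (B.coord_mul _ _).2, (B.coord_int m).1, (B.coord_int m).2]
    constructor
    · exact ⟨B.cre t, by ring⟩
    · exact ⟨B.cim t, by ring⟩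
  · rintro ⟨⟨u, hu⟩, ⟨v, hv⟩⟩
    refine ⟨(u : 𝓞 K) + v * B.om, ?_⟩
    conv_lhs => rw [B.eq_mk r, hu, hv]
    push_cast
    ring

omit [NumberField K] in
/-- an integer in a prime ideal above `p` is divisible by `p` -/
lemma dvd_of_mem {P : Ideal (𝓞 K)} (hP : P ≠ ⊤) {p : ℕ} (hp : p.Prime) (hpP : (p : 𝓞 K) ∈ P) {n : ℤ}
    (hn : (n : 𝓞 K) ∈ P) : (p : ℤ) ∣ n := by
  by_contra h
  have h1 : IsCoprime (p : ℤ) n := ((Nat.prime_iff_prime_int.1 hp).coprime_iff_not_dvd).2 h
  obtain ⟨u, v, huv⟩ := h1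
  apply hP
  rw [Ideal.eq_top_iff_one]
  have h2 := congrArg (fun n : ℤ => (n : 𝓞 K)) huv
  push_cast at h2
  rw [← h2]
  exact P.add_mem (P.mul_mem_left _ hpP) (P.mul_mem_left _ hn)

/-- at a prime ideal of degree one all integers are congruent to rational integers -/
lemma exists_root {P : Ideal (𝓞 K)} {p : ℕ} (hp : p.Prime) (hN : Ideal.absNorm P = p) :
    ∃ n : ℤ, B.om - (n : 𝓞 K) ∈ P ∧ (p : ℤ) ∣ n * n - B.T * n + B.N := by
  have hPt : P ≠ ⊤ := by
    rintro rfl
    rw [Ideal.absNorm_top] at hN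
    exact hp.one_lt.ne hN
  have hpP : (p : 𝓞 K) ∈ P := by
    rw [← hN]; exact Ideal.absNorm_mem P
  have hcard : Nat.card (𝓞 K ⧸ P) = p := by
    rw [← hN, Ideal.absNorm_apply, Submodule.cardQuot_apply]
  have : Finite (𝓞 K ⧸ P) := Nat.finite_of_card_ne_zero (by rw [hcard]; exact hp.ne_zero)
  have : Fintype (𝓞 K ⧸ P) := Fintype.ofFinite _
  have hinj : Function.Injective fun i : Fin p => (Ideal.Quotient.mk P (((i : ℕ) : ℤ) : 𝓞 K)) := by
    intro i j hij
    simp only at hij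
    rw [Ideal.Quotient.eq, ← Int.cast_sub] at hij
    have h1 := dvd_of_mem hPt hp hpP hij
    have hi := i.2
    have hj := j.2
    apply Fin.ext
    have h2 : (((i : ℕ) : ℤ) - ((j : ℕ) : ℤ)) = 0 := by
      apply Int.eq_zero_of_abs_lt_dvd h1
      rw [abs_lt]
      omega
    omega
  have hbij : Function.Bijective fun i : Fin p => (Ideal.Quotient.mk P (((i : ℕ) : ℤ) : 𝓞 K)) := by
    rw [Fintype.bijective_iff_injective_and_card]
    refine ⟨hinj, ?_⟩
    rw [Fintype.card_fin, ← Nat.card_eq_fintype_card, hcard]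
  obtain ⟨i, hi⟩ := hbij.2 (Ideal.Quotient.mk P B.om)
  refine ⟨((i : ℕ) : ℤ), ?_, ?_⟩
  · rw [← Ideal.Quotient.eq]
    exact hi.symm
  · apply dvd_of_mem hPt hp hpP
    have h1 : B.om - (((i : ℕ) : ℤ) : 𝓞 K) ∈ P := by
      rw [← Ideal.Quotient.eq]
      exact hi.symm
    have h2 : ((((i : ℕ) : ℤ) * ((i : ℕ) : ℤ) - B.T * ((i : ℕ) : ℤ) + B.N : ℤ) : 𝓞 K) =
        (B.om - (((i : ℕ) : ℤ) : 𝓞 K)) * ((B.T : 𝓞 K) - B.om - (((i : ℕ) : ℤ) : 𝓞 K)) := by
      push_cast
      linear_combination B.om_sq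
    rw [h2]
    exact P.mul_mem_right _ h1

lemma mul_cjI_prime {P : Ideal (𝓞 K)} (hP : P.IsPrime) (hP0 : P ≠ ⊥) :
    P * B.cjI P = Ideal.span {((Ideal.absNorm P : ℕ) : 𝓞 K)} := by
  classical
  -- the prime below
  have hN0 : Ideal.absNorm P ≠ 0 := by rwa [Ne, Ideal.absNorm_eq_zero_iff]
  have hN1 : Ideal.absNorm P ≠ 1 := by
    rw [Ne, Ideal.absNorm_eq_one_iff]; exact hP.ne_top
  obtain ⟨p, hp, hpP⟩ : ∃ p : ℕ, p.Prime ∧ (p : 𝓞 K) ∈ P := by
    have key : ∀ n : ℕ, n ≠ 0 → (n : 𝓞 K) ∈ P → ∃ p : ℕ, p.Prime ∧ (p : 𝓞 K) ∈ P := by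
      intro n
      induction n using Nat.strong_induction_on with
      | _ n ih =>
        intro hn0 hn
        by_cases h1 : n = 1
        · exfalso
          rw [h1, Nat.cast_one] at hn
          exact hP.ne_top ((Ideal.eq_top_iff_one _).2 hn)
        obtain ⟨k, hk⟩ := Nat.minFac_dvd n
        have hq := Nat.minFac_prime h1
        rw [hk, Nat.cast_mul] at hn
        rcases hP.mem_or_mem hn with h | h
        · exact ⟨_, hq, h⟩
        · refine ih k ?_ ?_ h
          · have hk0 : 0 < k := Nat.pos_of_ne_zero (by rintro rfl; exact hn0 (by rw [hk]; simp))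
            calc k < n.minFac * k := by
                  have := hq.two_le
                  nlinarith
              _ = n := hk.symm
          · rintro rfl
            exact hn0 (by rw [hk]; simp)
    exact key _ hN0 (Ideal.absNorm_mem P)
  have hle : Ideal.span {(p : 𝓞 K)} ≤ P := (Ideal.span_singleton_le_iff_mem _).2 hpP
  have hdvd : Ideal.absNorm P ∣ p ^ 2 := by
    rw [← B.absNorm_nat p]
    exact Ideal.absNorm_dvd_absNorm_of_le hle
  rw [Nat.dvd_prime_pow hp] at hdvd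
  obtain ⟨f, hf, hNf⟩ := hdvd
  interval_cases f
  · exact absurd hNf (by rwa [pow_zero])
  · -- degree one
    rw [pow_one] at hNf
    obtain ⟨n, hn, hpn⟩ := B.exists_root hp hNf
    rw [hNf]
    have hmem : ∀ a ∈ P, (p : ℤ) ∣ B.cre a + B.cim a * n := by
      intro a ha
      apply dvd_of_mem hP.ne_top hp hpP
      have e : ((B.cre a + B.cim a * n : ℤ) : 𝓞 K) = a - (B.cim a : 𝓞 K) * (B.om - n) := by
        conv_rhs => rw [B.eq_mk a]
        rw [(B.uniq _ _).2]
        push_cast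
        ring
      rw [e]
      exact P.sub_mem ha (P.mul_mem_left _ hn)
    refine eq_of_le_absNorm ?_ ?_ ?_
    · rw [Ideal.mul_le]
      intro a ha b hb
      rw [B.mem_cjI] at hb
      obtain ⟨u, hu⟩ := hmem a ha
      obtain ⟨v, hv⟩ := hmem _ hb
      obtain ⟨w, hw⟩ := hpn
      rw [B.cj_cre, B.cj_cim] at hv
      have e1 : ((p : ℕ) : 𝓞 K) = (((p : ℕ) : ℤ) : 𝓞 K) := by push_cast; rfl
      rw [e1, B.mem_span_int, (B.coord_mul _ _).1, (B.coord_mul _ _).2]
      -- `x = p u - y n`, `x' = p v - T y' + y' n`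
      have hx : B.cre a = p * u - B.cim a * n := by linarith
      have hx' : B.cre b = p * v - B.T * B.cim b + B.cim b * n := by linarith
      rw [hx, hx']
      constructor
      · refine ⟨(p * u - B.cim a * n) * v - u * (B.T * B.cim b - B.cim b * n) - B.cim a * B.cim b * w, ?_⟩
        linear_combination (-(B.cim a * B.cim b)) * hw
      · refine ⟨u * B.cim b + B.cim a * v, ?_⟩
        ring
    · rw [map_mul, B.absNorm_cjI, hNf, B.absNorm_nat, pow_two]
    · rw [B.absNorm_nat]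
      exact pow_ne_zero _ hp.ne_zero
  · -- degree two
    have h1 : P = Ideal.span {(p : 𝓞 K)} := by
      symm
      refine eq_of_le_absNorm hle ?_ hN0
      rw [B.absNorm_nat, hNf]
    have h2 : B.cj (p : 𝓞 K) = (p : 𝓞 K) := by
      have := B.cj_int (p : ℤ)
      rwa [Int.cast_natCast] at this
    rw [hNf, h1, B.cjI_span, h2, Ideal.span_singleton_mul_span_singleton, ← pow_two]
    push_cast
    rfl

/-- **an ideal times its conjugate is generated by its norm** -/
theorem mul_cjI (I : Ideal (𝓞 K)) :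
    I * B.cjI I = Ideal.span {((Ideal.absNorm I : ℕ) : 𝓞 K)} := by
  induction I using UniqueFactorizationMonoid.induction_on_prime with
  | h₁ =>
    rw [zero_mul, Ideal.zero_eq_bot, Ideal.absNorm_bot, Nat.cast_zero]
    exact (Ideal.span_singleton_eq_bot.2 rfl).symm
  | h₂ x hx =>
    rw [Ideal.isUnit_iff] at hx
    rw [hx, Ideal.absNorm_top, Nat.cast_one, Ideal.span_singleton_one, Ideal.top_mul]
    have : (⊤ : Ideal (𝓞 K)) = Ideal.span {1} := Ideal.span_singleton_one.symm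
    rw [this, B.cjI_span]
    have h1 : B.cj 1 = 1 := by
      have := B.cj_int 1
      rwa [Int.cast_one] at this
    rw [h1]
  | h₃ a P ha hP ih =>
    have hPp : P.IsPrime := Ideal.isPrime_of_prime hP
    have h1 := B.mul_cjI_prime hPp hP.ne_zero
    rw [B.cjI_mul, map_mul, Nat.cast_mul, ← Ideal.span_singleton_mul_span_singleton, ← ih, ← h1]
    ring

/-- at the primes which split the symbol is `1` -/
lemma spl_of_root {p : ℕ} (hp : p.Prime) (hD : ¬ (p : ℤ) ∣ B.D) {n : ℤ}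
    (hn : (p : ℤ) ∣ n * n - B.T * n + B.N) : spl B.T B.N p = 1 := by
  have : Fact p.Prime := ⟨hp⟩
  by_cases hp2 : p = 2
  · subst hp2
    rw [spl_two, if_pos]
    have hT : ¬ Even B.T := by
      rintro ⟨k, hk⟩
      apply hD
      unfold QB.D
      rw [hk]
      exact ⟨2 * k * k - 2 * B.N, by push_cast; ring⟩
    rw [Int.not_even_iff_odd] at hT
    obtain ⟨k, hk⟩ := hT
    obtain ⟨l, hl⟩ := hn
    rw [hk] at hl
    have h1 : Even (n * (n + 1)) := Int.even_mul_succ_self n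
    obtain ⟨j, hj⟩ := h1
    refine ⟨l - j + (k + 1) * n, ?_⟩
    push_cast at hl
    linarith
  · rw [spl_odd hp2]
    have hd : ((B.T * B.T - 4 * B.N : ℤ) : ZMod p) = ((2 * n - B.T : ℤ) : ZMod p) * ((2 * n - B.T : ℤ) : ZMod p) := by
      have h1 : (((n * n - B.T * n + B.N : ℤ)) : ZMod p) = 0 := (ZMod.intCast_zmod_eq_zero_iff_dvd _ _).2 hn
      push_cast at h1 ⊢
      linear_combination (-4) * h1
    rw [hd, map_mul]
    apply qc_sq
    intro h0
    apply hD
    have h2 : ((B.D : ℤ) : ZMod p) = 0 := by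
      unfold QB.D
      rw [hd, h0, zero_mul]
    exact (ZMod.intCast_zmod_eq_zero_iff_dvd _ _).1 h2

end Pool.Agent.H505.QB
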