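import Mathlib

/-!
# Quadratic fields: the ring of integers, trace, norm, different, conjugation
-/

set_option autoImplicit false

open NumberField

namespace Pool.Agent.H505

/-- an integral basis `1, ω` of a quadratic field -/
structure QB (K : Type) [Field K] [NumberField K] where
  om : 𝓞 K
  T : ℤ
  N : ℤ
  om_sq : om * om = (T : 𝓞 K) * om - (N : 𝓞 K)
  cre : 𝓞 K → ℤ
  cim : 𝓞 K → ℤ
  eq_mk : ∀ r : 𝓞 K, r = (cre r : 𝓞 K) + (cim r : 𝓞 K) * om
  uniq : ∀ a b : ℤ, cre ((a : 𝓞 K) + (b : 𝓞 K) * om) = a ∧ cim ((a : 𝓞 K) + (b : 𝓞 K) * om) = b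

theorem exists_QB (K : Type) [Field K] [NumberField K] (h2 : Module.finrank ℚ K = 2) :
    Nonempty (QB K) := by
  have hr : Module.finrank ℤ (𝓞 K) = 2 := by rw [RingOfIntegers.rank, h2]
  let b : Module.Basis (Fin 2) ℤ (𝓞 K) := Module.finBasisOfFinrankEq ℤ (𝓞 K) hr
  set x := b.repr 1 0 with hx
  set y := b.repr 1 1 with hy
  have h1 : (1 : 𝓞 K) = x • b 0 + y • b 1 := by
    have := b.sum_repr 1
    rw [Fin.sum_univ_two] at this
    exact this.symm
  have hg : IsCoprime x y := by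
    by_contra hcon
    rw [Int.isCoprime_iff_gcd_eq_one] at hcon
    have hg0 : Int.gcd x y ≠ 0 := by
      intro h0
      rw [Int.gcd_eq_zero_iff] at h0
      rw [h0.1, h0.2] at h1
      simp at h1
    obtain ⟨p, hp, hpd⟩ := Nat.exists_prime_and_dvd hcon
    have hpx : (p : ℤ) ∣ x := (Int.natCast_dvd_natCast.2 hpd).trans (Int.gcd_dvd_left ..)
    have hpy : (p : ℤ) ∣ y := (Int.natCast_dvd_natCast.2 hpd).trans (Int.gcd_dvd_right ..)
    obtain ⟨x', hx'⟩ := hpx
    obtain ⟨y', hy'⟩ := hpy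
    have h3 : (1 : 𝓞 K) = (p : 𝓞 K) * (x' • b 0 + y' • b 1) := by
      rw [h1, hx', hy']
      simp only [zsmul_eq_mul]
      push_cast
      ring
    have h4 : IsUnit (p : 𝓞 K) := IsUnit.of_mul_eq_one _ h3.symm
    have h5 := h4.map (Algebra.norm ℤ)
    have h6 : Algebra.norm ℤ (p : 𝓞 K) = (p : ℤ) ^ 2 := by
      have := Algebra.norm_algebraMap_of_basis b (p : ℤ)
      simpa using this
    rw [h6, Int.isUnit_iff_natAbs_eq, Int.natAbs_pow, Int.natAbs_natCast] at h5
    have := hp.two_le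
    nlinarith
  obtain ⟨u, v, huv⟩ := hg
  -- `u x + v y = 1`
  set om : 𝓞 K := (-v) • b 0 + u • b 1 with hom
  have hb0 : b 0 = u • (1 : 𝓞 K) - y • om := by
    rw [h1, hom]
    simp only [zsmul_eq_mul]
    have := congrArg (fun n : ℤ => (n : 𝓞 K)) huv
    push_cast at this ⊢
    linear_combination (-(b 0)) * this
  have hb1 : b 1 = v • (1 : 𝓞 K) + x • om := by
    rw [h1, hom]
    simp only [zsmul_eq_mul]
    have := congrArg (fun n : ℤ => (n : 𝓞 K)) huv
    push_cast at this ⊢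
    linear_combination (-(b 1)) * this
  have hsp : ∀ r : 𝓞 K, ∃ c d : ℤ, r = (c : 𝓞 K) + (d : 𝓞 K) * om := by
    intro r
    have h7 := b.sum_repr r
    rw [Fin.sum_univ_two] at h7
    refine ⟨b.repr r 0 * u + b.repr r 1 * v, -(b.repr r 0 * y) + b.repr r 1 * x, ?_⟩
    generalize b.repr r 0 = c0 at h7 ⊢
    generalize b.repr r 1 = c1 at h7 ⊢
    rw [← h7, hb0, hb1]
    simp only [zsmul_eq_mul]
    push_cast
    ring
  choose cr ci hci using hsp
  have huniq : ∀ a b' : ℤ, (a : 𝓞 K) + (b' : 𝓞 K) * om = 0 → a = 0 ∧ b' = 0 := by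
    intro a b' h0
    have h8 : ((a * x - b' * v) • b 0 + (a * y + b' * u) • b 1 : 𝓞 K) = 0 := by
      have e1 : (a : 𝓞 K) = a • (1 : 𝓞 K) := by rw [zsmul_eq_mul, mul_one]
      have e2 : (a : 𝓞 K) = (a : 𝓞 K) * (x • b 0 + y • b 1) := by rw [← h1, mul_one]
      rw [e2, hom] at h0
      rw [← h0]
      simp only [zsmul_eq_mul]
      push_cast
      ring
    have h9 := congrArg (fun z => b.repr z) h8
    simp only [map_add, map_zsmul, map_zero, b.repr_self] at h9
    have e0 := DFunLike.congr_fun h9 0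
    have e1 := DFunLike.congr_fun h9 1
    simp at e0 e1
    constructor
    · linear_combination u * e0 + v * e1 - a * huv
    · linear_combination (-y) * e0 + x * e1 - b' * huv
  have huniq2 : ∀ a b' a' b'' : ℤ, (a : 𝓞 K) + (b' : 𝓞 K) * om = (a' : 𝓞 K) + (b'' : 𝓞 K) * om →
      a = a' ∧ b' = b'' := by
    intro a b' a' b'' h
    have := huniq (a - a') (b' - b'') (by push_cast; linear_combination h)
    omega
  refine ⟨⟨om, ci (om * om), -cr (om * om), ?_, cr, ci, hci, fun a b' => ?_⟩⟩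
  · conv_lhs => rw [hci (om * om)]
    push_cast
    ring
  · have := huniq2 _ _ _ _ (hci ((a : 𝓞 K) + (b' : 𝓞 K) * om))
    exact ⟨this.1.symm, this.2.symm⟩

namespace QB

variable {K : Type} [Field K] [NumberField K] (B : QB K)

lemma coord_unique {a b : ℤ} {x : 𝓞 K} (h : x = (a : 𝓞 K) + (b : 𝓞 K) * B.om) :
    B.cre x = a ∧ B.cim x = b := by
  rw [h]; exact B.uniq a b

lemma coord_add (x y : 𝓞 K) : B.cre (x + y) = B.cre x + B.cre y ∧
    B.cim (x + y) = B.cim x + B.cim y := by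
  apply B.coord_unique
  conv_lhs => rw [B.eq_mk x, B.eq_mk y]
  push_cast
  ring

lemma coord_neg (x : 𝓞 K) : B.cre (-x) = -B.cre x ∧ B.cim (-x) = -B.cim x := by
  apply B.coord_unique
  conv_lhs => rw [B.eq_mk x]
  push_cast
  ring

lemma coord_sub (x y : 𝓞 K) : B.cre (x - y) = B.cre x - B.cre y ∧
    B.cim (x - y) = B.cim x - B.cim y := by
  apply B.coord_unique
  conv_lhs => rw [B.eq_mk x, B.eq_mk y]
  push_cast
  ring

lemma coord_mul (x y : 𝓞 K) : B.cre (x * y) = B.cre x * B.cre y - B.N * (B.cim x * B.cim y) ∧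
    B.cim (x * y) = B.cre x * B.cim y + B.cim x * B.cre y + B.T * (B.cim x * B.cim y) := by
  apply B.coord_unique
  conv_lhs => rw [B.eq_mk x, B.eq_mk y]
  push_cast
  linear_combination ((B.cim x : 𝓞 K) * (B.cim y : 𝓞 K)) * B.om_sq

lemma coord_int (n : ℤ) : B.cre (n : 𝓞 K) = n ∧ B.cim (n : 𝓞 K) = 0 := by
  apply B.coord_unique
  push_cast
  ring

lemma coord_one : B.cre 1 = 1 ∧ B.cim 1 = 0 := by
  apply B.coord_unique
  push_cast
  ring

lemma coord_zero : B.cre 0 = 0 ∧ B.cim 0 = 0 := by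
  apply B.coord_unique
  push_cast
  ring

lemma coord_om : B.cre B.om = 0 ∧ B.cim B.om = 1 := by
  apply B.coord_unique
  push_cast
  ring

lemma coord_smul (n : ℤ) (x : 𝓞 K) : B.cre (n • x) = n * B.cre x ∧ B.cim (n • x) = n * B.cim x := by
  apply B.coord_unique
  conv_lhs => rw [B.eq_mk x]
  rw [zsmul_eq_mul]
  push_cast
  ring

lemma ext_coord {x y : 𝓞 K} (h1 : B.cre x = B.cre y) (h2 : B.cim x = B.cim y) : x = y := by
  rw [B.eq_mk x, B.eq_mk y, h1, h2]

/-- the coordinates -/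
noncomputable def cEquiv : 𝓞 K ≃ₗ[ℤ] (Fin 2 → ℤ) where
  toFun x := ![B.cre x, B.cim x]
  invFun v := (v 0 : 𝓞 K) + v 1 * B.om
  map_add' x y := by
    rw [(B.coord_add x y).1, (B.coord_add x y).2]
    simp
  map_smul' n x := by
    rw [(B.coord_smul n x).1, (B.coord_smul n x).2]
    simp
  left_inv x := (B.eq_mk x).symm
  right_inv v := by
    funext i
    fin_cases i
    · simpa using (B.uniq (v 0) (v 1)).1
    · simpa using (B.uniq (v 0) (v 1)).2

/-- the integral basis -/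
noncomputable def bas : Module.Basis (Fin 2) ℤ (𝓞 K) := Module.Basis.ofEquivFun B.cEquiv

lemma bas_repr (x : 𝓞 K) : B.bas.repr x 0 = B.cre x ∧ B.bas.repr x 1 = B.cim x := by
  constructor
  · exact Module.Basis.ofEquivFun_repr_apply B.cEquiv x 0
  · exact Module.Basis.ofEquivFun_repr_apply B.cEquiv x 1

lemma bas_zero : B.bas 0 = 1 := by
  rw [bas, Module.Basis.coe_ofEquivFun]
  show ((Function.update 0 0 1 : Fin 2 → ℤ) 0 : 𝓞 K) + ((Function.update 0 0 1 : Fin 2 → ℤ) 1 : 𝓞 K) * B.om = 1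
  simp

lemma bas_one : B.bas 1 = B.om := by
  rw [bas, Module.Basis.coe_ofEquivFun]
  show ((Function.update 0 1 1 : Fin 2 → ℤ) 0 : 𝓞 K) + ((Function.update 0 1 1 : Fin 2 → ℤ) 1 : 𝓞 K) * B.om = B.om
  simp

lemma trace_int (x : 𝓞 K) : Algebra.trace ℤ (𝓞 K) x = 2 * B.cre x + B.T * B.cim x := by
  rw [Algebra.trace_eq_matrix_trace B.bas, Matrix.trace_fin_two]
  simp only [Algebra.leftMulMatrix_eq_repr_mul, B.bas_zero, B.bas_one, (B.bas_repr _).1,
    (B.bas_repr _).2, (B.coord_mul _ _).1, (B.coord_mul _ _).2, B.coord_one.1, B.coord_one.2,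
    B.coord_om.1, B.coord_om.2]
  ring

lemma norm_int (x : 𝓞 K) : Algebra.norm ℤ x =
    B.cre x * B.cre x + B.T * (B.cre x * B.cim x) + B.N * (B.cim x * B.cim x) := by
  rw [Algebra.norm_eq_matrix_det B.bas, Matrix.det_fin_two]
  simp only [Algebra.leftMulMatrix_eq_repr_mul, B.bas_zero, B.bas_one, (B.bas_repr _).1,
    (B.bas_repr _).2, (B.coord_mul _ _).1, (B.coord_mul _ _).2, B.coord_one.1, B.coord_one.2,
    B.coord_om.1, B.coord_om.2]
  ring

/-- the discriminant -/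
def D : ℤ := B.T * B.T - 4 * B.N

lemma discr_eq : discr K = B.D := by
  rw [← discr_eq_discr K B.bas, Algebra.discr_def, Matrix.det_fin_two]
  simp only [Algebra.traceMatrix_apply, Algebra.traceForm_apply, B.bas_zero, B.bas_one, B.trace_int,
    (B.coord_mul _ _).1, (B.coord_mul _ _).2, B.coord_one.1, B.coord_one.2, B.coord_om.1, B.coord_om.2]
  unfold D
  ring

/-- the square root of the discriminant -/
noncomputable def rt : 𝓞 K := 2 * B.om - (B.T : 𝓞 K)

lemma rt_sq : B.rt * B.rt = (B.D : 𝓞 K) := by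
  unfold rt D
  push_cast
  linear_combination 4 * B.om_sq

lemma rt_coord : B.cre B.rt = -B.T ∧ B.cim B.rt = 2 := by
  apply B.coord_unique
  unfold rt
  push_cast
  ring

lemma norm_rt : Algebra.norm ℤ B.rt = -B.D := by
  rw [B.norm_int, B.rt_coord.1, B.rt_coord.2]
  unfold D
  ring

lemma D_ne_zero : B.D ≠ 0 := by
  rw [← B.discr_eq]
  exact discr_ne_zero K

lemma eq_of_le_absNorm {I J : Ideal (𝓞 K)} (h : I ≤ J) (h1 : Ideal.absNorm I = Ideal.absNorm J)
    (h0 : Ideal.absNorm J ≠ 0) : I = J := by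
  obtain ⟨L, rfl⟩ := Ideal.dvd_iff_le.2 h
  rw [map_mul] at h1
  have h2 : Ideal.absNorm L = 1 := by
    have := Nat.eq_of_mul_eq_mul_left (Nat.pos_of_ne_zero h0) (h1.trans (mul_one _).symm)
    exact this
  rw [Ideal.absNorm_eq_one_iff] at h2
  rw [h2, Ideal.mul_top]

open Polynomial in
lemma minpoly_om : minpoly ℤ B.om = X ^ 2 - C B.T * X + C B.N := by
  have hint : IsIntegral ℤ B.om := Algebra.IsIntegral.isIntegral B.om
  have h0 : aeval B.om (X ^ 2 - C B.T * X + C B.N : ℤ[X]) = 0 := by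
    simp only [map_add, map_sub, map_mul, map_pow, aeval_X, eq_intCast, map_intCast]
    rw [pow_two, B.om_sq]
    ring
  have hdeg : (X ^ 2 - C B.T * X + C B.N : ℤ[X]).degree = 2 := by compute_degree!
  have hmon : (X ^ 2 - C B.T * X + C B.N : ℤ[X]).Monic := by monicity!
  have hnd : (X ^ 2 - C B.T * X + C B.N : ℤ[X]).natDegree = 2 := natDegree_eq_of_degree_eq_some hdeg
  have hdvd := minpoly.isIntegrallyClosed_dvd hint h0
  have hm := minpoly.monic hint
  have hle : 2 ≤ (minpoly ℤ B.om).natDegree := by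
    by_contra hlt
    push Not at hlt
    have h1 : (minpoly ℤ B.om).natDegree = 1 := by
      have h2 := minpoly.natDegree_pos hint
      omega
    have h3 := minpoly.aeval ℤ B.om
    rw [Polynomial.eq_X_add_C_of_natDegree_le_one (p := minpoly ℤ B.om) h1.le] at h3
    have h4 : (minpoly ℤ B.om).coeff 1 = 1 := by
      have := hm.coeff_natDegree
      rwa [h1] at this
    rw [h4] at h3
    simp only [map_add, aeval_X, eq_intCast, Int.cast_one, one_mul, map_intCast] at h3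
    have h5 : (((minpoly ℤ B.om).coeff 0 : ℤ) : 𝓞 K) + ((1 : ℤ) : 𝓞 K) * B.om = 0 := by
      push_cast
      linear_combination h3
    have h6 := B.coord_unique h5.symm
    rw [B.coord_zero.2] at h6
    omega
  symm
  obtain ⟨Q, hQ⟩ := hdvd
  have hQm : Q.Monic := by
    refine Polynomial.Monic.of_mul_monic_left hm ?_
    rw [← hQ]
    exact hmon
  have h7 : (minpoly ℤ B.om).natDegree + Q.natDegree = 2 := by
    rw [← hm.natDegree_mul hQm, ← hQ, hnd]
  have h8 : Q.natDegree = 0 := by omega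
  have h9 : Q = 1 := by
    rw [hQm.natDegree_eq_zero] at h8
    exact h8
  rw [hQ, h9, mul_one]

open Polynomial in
lemma different : differentIdeal ℤ (𝓞 K) = Ideal.span {B.rt} := by
  have h1 : Ideal.absNorm (differentIdeal ℤ (𝓞 K)) = B.D.natAbs := by
    rw [absNorm_differentIdeal (K := K) (𝒪 := 𝓞 K), B.discr_eq]
  have hadj : Algebra.adjoin ℚ {algebraMap (𝓞 K) K B.om} = ⊤ := by
    rw [eq_top_iff]
    intro z _
    obtain ⟨n, hn0, hn⟩ := ((IsFractionRing.isAlgebraic_iff ℤ ℚ K).2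
      (Algebra.IsAlgebraic.isAlgebraic (R := ℚ) z)).exists_integral_multiple
    obtain ⟨r, hr⟩ : ∃ r : 𝓞 K, (r : K) = n • z := ⟨⟨n • z, hn⟩, rfl⟩
    have h2 : z = (n : ℚ)⁻¹ • ((B.cre r : ℚ) • (1 : K) + (B.cim r : ℚ) • (algebraMap (𝓞 K) K B.om)) := by
      have h3 := congrArg (algebraMap (𝓞 K) K) (B.eq_mk r)
      rw [map_add, map_mul, map_intCast, map_intCast] at h3
      have h4 : (algebraMap (𝓞 K) K) r = n • z := hr
      rw [h4] at h3
      have hn0' : (n : K) ≠ 0 := by exact_mod_cast hn0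
      simp only [Algebra.smul_def, map_inv₀, map_intCast, mul_one]
      rw [← h3, zsmul_eq_mul, inv_mul_cancel_left₀ hn0']
    rw [h2]
    exact Subalgebra.smul_mem _ (Subalgebra.add_mem _ (Subalgebra.smul_mem _ (Subalgebra.one_mem _) _)
      (Subalgebra.smul_mem _ (Algebra.subset_adjoin (Set.mem_singleton _)) _)) _
  have h3 := aeval_derivative_mem_differentIdeal ℤ ℚ K B.om hadj
  rw [B.minpoly_om] at h3
  have h4 : aeval B.om (derivative (X ^ 2 - C B.T * X + C B.N : ℤ[X])) = B.rt := by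
    simp only [derivative_add, derivative_sub, derivative_mul, derivative_C, derivative_X,
      zero_mul, mul_one, zero_add, add_zero, derivative_X_pow, map_add, map_sub, map_mul, map_pow,
      aeval_X, aeval_C]
    unfold rt
    simp
  rw [h4] at h3
  symm
  refine eq_of_le_absNorm ((Ideal.span_singleton_le_iff_mem _).2 h3) ?_ ?_
  · rw [h1, Ideal.absNorm_span_singleton, B.norm_rt, Int.natAbs_neg]
  · rw [h1]
    exact Int.natAbs_ne_zero.2 B.D_ne_zero

/-! ## conjugation -/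

/-- the conjugate -/
noncomputable def cj (x : 𝓞 K) : 𝓞 K :=
  ((B.cre x + B.T * B.cim x : ℤ) : 𝓞 K) + ((-B.cim x : ℤ) : 𝓞 K) * B.om

lemma cj_cre (x : 𝓞 K) : B.cre (B.cj x) = B.cre x + B.T * B.cim x := (B.uniq _ _).1
lemma cj_cim (x : 𝓞 K) : B.cim (B.cj x) = -B.cim x := (B.uniq _ _).2

lemma cj_cj (x : 𝓞 K) : B.cj (B.cj x) = x := by
  apply B.ext_coord
  · rw [cj_cre, cj_cre, cj_cim]; ring
  · rw [cj_cim, cj_cim]; ring

/-- the conjugation -/
noncomputable def cjE : 𝓞 K ≃+* 𝓞 K where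
  toFun := B.cj
  invFun := B.cj
  left_inv := B.cj_cj
  right_inv := B.cj_cj
  map_mul' x y := by
    apply B.ext_coord
    · rw [cj_cre, (B.coord_mul _ _).1, (B.coord_mul _ _).1, (B.coord_mul _ _).2, cj_cre, cj_cre,
        cj_cim, cj_cim]
      ring
    · rw [cj_cim, (B.coord_mul _ _).2, (B.coord_mul _ _).2, cj_cre, cj_cre, cj_cim,
        cj_cim]
      ring
  map_add' x y := by
    apply B.ext_coord
    · rw [cj_cre, (B.coord_add _ _).1, (B.coord_add _ _).1, (B.coord_add _ _).2, cj_cre, cj_cre]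
      ring
    · rw [cj_cim, (B.coord_add _ _).2, (B.coord_add _ _).2, cj_cim, cj_cim]
      ring

lemma cjE_apply (x : 𝓞 K) : B.cjE x = B.cj x := rfl

lemma norm_cj (x : 𝓞 K) : Algebra.norm ℤ (B.cj x) = Algebra.norm ℤ x := by
  rw [B.norm_int, B.norm_int, cj_cre, cj_cim]
  ring

lemma mul_cj (x : 𝓞 K) : x * B.cj x = ((Algebra.norm ℤ x : ℤ) : 𝓞 K) := by
  apply B.ext_coord
  · rw [(B.coord_mul _ _).1, (B.coord_int _).1, cj_cre, cj_cim, B.norm_int]
    ring
  · rw [(B.coord_mul _ _).2, (B.coord_int _).2, cj_cre, cj_cim]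
    ring

lemma cj_int (n : ℤ) : B.cj (n : 𝓞 K) = n := by
  apply B.ext_coord
  · rw [cj_cre, (B.coord_int n).1, (B.coord_int n).2]; ring
  · rw [cj_cim, (B.coord_int n).2]; ring

/-- the conjugation of ideals -/
noncomputable def cjI : Ideal (𝓞 K) ≃ Ideal (𝓞 K) where
  toFun I := I.map (B.cjE : 𝓞 K →+* 𝓞 K)
  invFun I := I.map (B.cjE : 𝓞 K →+* 𝓞 K)
  left_inv I := by
    simp only
    rw [Ideal.map_map]
    have : (B.cjE : 𝓞 K →+* 𝓞 K).comp (B.cjE : 𝓞 K →+* 𝓞 K) = RingHom.id _ := by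
      refine RingHom.ext fun x => ?_
      exact B.cj_cj x
    rw [this, Ideal.map_id]
  right_inv I := by
    simp only
    rw [Ideal.map_map]
    have : (B.cjE : 𝓞 K →+* 𝓞 K).comp (B.cjE : 𝓞 K →+* 𝓞 K) = RingHom.id _ := by
      refine RingHom.ext fun x => ?_
      exact B.cj_cj x
    rw [this, Ideal.map_id]

lemma cjI_eq (I : Ideal (𝓞 K)) : B.cjI I = I.map (B.cjE : 𝓞 K →+* 𝓞 K) := rfl

lemma cjI_cjI (I : Ideal (𝓞 K)) : B.cjI (B.cjI I) = I := B.cjI.left_inv I

lemma cjI_span (x : 𝓞 K) : B.cjI (Ideal.span {x}) = Ideal.span {B.cj x} := by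
  show Ideal.map _ _ = _
  rw [Ideal.map_span, Set.image_singleton]
  rfl

lemma cjI_mul (I J : Ideal (𝓞 K)) : B.cjI (I * J) = B.cjI I * B.cjI J := by
  rw [cjI_eq, cjI_eq, cjI_eq, Ideal.map_mul]

lemma mem_cjI {I : Ideal (𝓞 K)} {x : 𝓞 K} : x ∈ B.cjI I ↔ B.cj x ∈ I := by
  rw [cjI_eq]
  constructor
  · intro h
    have h1 := Ideal.mem_map_of_mem (B.cjE : 𝓞 K →+* 𝓞 K) h
    rw [← cjI_eq, ← cjI_eq, cjI_cjI] at h1
    exact h1
  · intro h
    have h1 := Ideal.mem_map_of_mem (B.cjE : 𝓞 K →+* 𝓞 K) h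
    have h2 : (B.cjE : 𝓞 K →+* 𝓞 K) (B.cj x) = x := B.cj_cj x
    rwa [h2] at h1

lemma absNorm_cjI (I : Ideal (𝓞 K)) : Ideal.absNorm (B.cjI I) = Ideal.absNorm I := by
  rw [Ideal.absNorm_apply, Ideal.absNorm_apply, Submodule.cardQuot_apply, Submodule.cardQuot_apply]
  exact Nat.card_congr (Ideal.quotientEquiv I (B.cjI I) B.cjE rfl).symm.toEquiv

end QB

end Pool.Agent.H505
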