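import Pool.Agent.H505.Van
import Pool.Agent.H505.Pri
import Pool.Graph.R_seed8.Y772.HG.Tw
import Pool.Graph.R_seed8.Y772.HG.Per
import Pool.Graph.R_seed8.Y773.HG.Per

/-!
# Real quadratic fields: the archimedean places
-/

set_option autoImplicit false

open NumberField Complex
open Pool.Agent.Y773 (TPos)
open Pool.Agent.Y773.G (rl sg eM)
open Pool.Agent.Y767 (ax ax_mul ax_one ax_neg ax_neg_mul norm_ax)
open Pool.Agent.Y773.G.GH (kk Gn vn)

set_option linter.unusedSectionVars false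
set_option linter.unusedVariables false

namespace Pool.Agent.H505

section

variable {K : Type} [Field K] [NumberField K]

lemma isReal_emb (hr : ∀ w : InfinitePlace K, w.IsReal) (φ : K →+* ℂ) : ComplexEmbedding.IsReal φ := by
  have h1 := hr (InfinitePlace.mk φ)
  exact InfinitePlace.isReal_mk_iff.1 h1

lemma emb_real (hr : ∀ w : InfinitePlace K, w.IsReal) (φ : K →+* ℂ) (x : K) :
    (starRingEnd ℂ) (φ x) = φ x := by
  have h := isReal_emb hr φ
  rw [ComplexEmbedding.isReal_iff] at h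
  exact DFunLike.congr_fun h x

lemma mk_bij (hr : ∀ w : InfinitePlace K, w.IsReal) :
    Function.Bijective (InfinitePlace.mk : (K →+* ℂ) → InfinitePlace K) := by
  refine ⟨fun φ ψ h => ?_, fun w => ⟨w.embedding, InfinitePlace.mk_embedding w⟩⟩
  rcases InfinitePlace.mk_eq_iff.1 h with h | h
  · exact h
  · rw [ComplexEmbedding.isReal_iff.1 (isReal_emb hr φ)] at h
    exact h

lemma emb_eq (hr : ∀ w : InfinitePlace K, w.IsReal) (φ : K →+* ℂ) (x : K) :
    φ x = ((rl (InfinitePlace.mk φ) x : ℝ) : ℂ) := by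
  have h1 := InfinitePlace.embedding_mk_eq_of_isReal (isReal_emb hr φ)
  have h2 := Pool.Agent.Y772.G.rl_real (hr (InfinitePlace.mk φ)) x
  rw [h2]
  rw [InfinitePlace.embedding_of_isReal_apply, h1]

/-- the norm is the product of the real conjugates -/
lemma norm_prod_rl (hr : ∀ w : InfinitePlace K, w.IsReal) (x : 𝓞 K) :
    ∏ w : InfinitePlace K, rl w (x : K) = (Algebra.norm ℤ x : ℝ) := by
  have h1 : ((∏ w : InfinitePlace K, rl w (x : K) : ℝ) : ℂ) = ((Algebra.norm ℤ x : ℝ) : ℂ) := by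
    have h2 := Algebra.norm_eq_prod_embeddings ℚ ℂ (x : K)
    push_cast
    have h3 : (algebraMap ℚ ℂ) (Algebra.norm ℚ (x : K)) = ((Algebra.norm ℤ x : ℤ) : ℂ) := by
      rw [← Algebra.coe_norm_int]
      simp
    rw [← h3, h2, ← (mk_bij hr).prod_comp (fun w => ((rl w (x : K) : ℝ) : ℂ))]
    rw [← Equiv.prod_comp (RingHom.equivRatAlgHom (R := K) (S := ℂ))]
    refine Finset.prod_congr rfl fun φ _ => ?_
    rw [← emb_eq hr]
    rfl
  exact_mod_cast h1

/-- the sign of the norm -/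
noncomputable def sgN (x : 𝓞 K) : ℂ := (((SignType.sign (Algebra.norm ℤ x) : SignType) : ℤ) : ℂ)

lemma sg_const (hr : ∀ w : InfinitePlace K, w.IsReal) (e0 : ℕ) (x : 𝓞 K) :
    sg (fun _ => e0) (x : K) = sgN x ^ e0 := by
  unfold sg sgN
  rw [Finset.prod_pow]
  congr 1
  have h1 : SignType.sign (Algebra.norm ℤ x) = SignType.sign (Algebra.norm ℤ x : ℝ) := by
    rcases lt_trichotomy (Algebra.norm ℤ x) 0 with h | h | h
    · rw [sign_neg h, sign_neg (by exact_mod_cast h)]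
    · rw [h]; simp
    · rw [sign_pos h, sign_pos (by exact_mod_cast h)]
  rw [h1, ← norm_prod_rl hr]
  have h2 : SignType.sign (∏ w : InfinitePlace K, rl w (x : K)) =
      ∏ w : InfinitePlace K, SignType.sign (rl w (x : K)) :=
    map_prod (signHom (α := ℝ)) _ _
  rw [h2]
  have h3 : ∀ s : Finset (InfinitePlace K),
      ((((∏ w ∈ s, SignType.sign (rl w (x : K)) : SignType)) : ℤ) : ℂ) =
      ∏ w ∈ s, (((SignType.sign (rl w (x : K)) : SignType) : ℤ) : ℂ) := by
    intro s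
    classical
    induction s using Finset.induction_on with
    | empty => simp
    | insert w s hw ih =>
      rw [Finset.prod_insert hw, Finset.prod_insert hw, ← ih]
      push_cast
      rfl
  rw [h3]

lemma norm_ne {r : 𝓞 K} (hr : r ≠ 0) : Algebra.norm ℤ r ≠ 0 :=
  Algebra.norm_ne_zero_iff.2 hr

lemma sgN_mul (x y : 𝓞 K) : sgN (x * y) = sgN x * sgN y := by
  unfold sgN
  rw [map_mul, sign_mul]
  push_cast
  rfl

lemma sgN_sq {x : 𝓞 K} (hx : x ≠ 0) : sgN x * sgN x = 1 := by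
  unfold sgN
  rcases lt_or_gt_of_ne (norm_ne hx) with h | h
  · rw [sign_neg h]; simp
  · rw [sign_pos h]; simp

lemma sgN_pm {x : 𝓞 K} (hx : x ≠ 0) : sgN x = 1 ∨ sgN x = -1 :=
  mul_self_eq_one_iff.1 (sgN_sq hx)

lemma sgN_ne {x : 𝓞 K} (hx : x ≠ 0) : sgN x ≠ 0 := by
  intro h
  have := sgN_sq hx
  rw [h] at this
  norm_num at this

lemma sgN_one : sgN (1 : 𝓞 K) = 1 := by
  unfold sgN
  simp

lemma sgN_of_tpos {x : 𝓞 K} (hx0 : x ≠ 0) (hx : TPos K x) : sgN x = 1 := by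
  unfold sgN
  have h := Pool.Agent.Y772.TW.absNorm_tpos hx0 hx
  have h2 : 0 < Algebra.norm ℤ x := by
    rw [← h]
    have : Ideal.absNorm (Ideal.span {x}) ≠ 0 := by
      rw [Ne, Ideal.absNorm_eq_zero_iff, Ideal.span_singleton_eq_bot]
      exact hx0
    omega
  rw [sign_pos h2]
  simp

/-- the value of a quadratic Dirichlet character at the norm of an ideal -/
lemma chi_norm {q : ℕ} {χ : DirichletCharacter ℂ q} {e0 : ℕ} (h : χ (-1) = (-1) ^ e0) {x : 𝓞 K}
    (hx : x ≠ 0) : χ ((Ideal.absNorm (Ideal.span {x}) : ℕ) : ZMod q) =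
      χ ((Algebra.norm ℤ x : ℤ) : ZMod q) * sgN x ^ e0 := by
  rw [Ideal.absNorm_span_singleton]
  unfold sgN
  set n := Algebra.norm ℤ x with hn
  rcases lt_or_gt_of_ne (norm_ne hx) with h1 | h1
  · rw [sign_neg h1]
    have h2 : (n : ZMod q) = (-1) * ((n.natAbs : ℕ) : ZMod q) := by
      have h3 : (n : ℤ) = -1 * (n.natAbs : ℤ) := by omega
      have h4 := congrArg (fun k : ℤ => (k : ZMod q)) h3
      rw [h4, Int.cast_mul, Int.cast_neg, Int.cast_one, Int.cast_natCast]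
    rw [h2, map_mul, h]
    simp only [SignType.coe_neg_one, Int.cast_neg, Int.cast_one]
    have h5 : ((-1 : ℂ)) ^ e0 * (-1) ^ e0 = 1 := by rw [← mul_pow]; norm_num
    linear_combination (-(χ ((n.natAbs : ℕ) : ZMod q))) * h5
  · rw [sign_pos h1]
    have h2 : (n : ZMod q) = ((n.natAbs : ℕ) : ZMod q) := by
      have h3 : (n : ℤ) = (n.natAbs : ℤ) := by omega
      have h4 := congrArg (fun k : ℤ => (k : ZMod q)) h3
      rw [h4, Int.cast_natCast]
    rw [h2]
    simp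

/-! ## the archimedean character -/

lemma ax_nat {ν : InfinitePlace K → ℝ} (hν : ∑ w, ν w = 0) {n : ℕ} (hn : n ≠ 0) :
    ax ν ((n : 𝓞 K) : K) = 1 := by
  unfold ax
  have h0 : ((n : 𝓞 K) : K) = (n : K) := map_natCast (algebraMap (𝓞 K) K) n
  have : (∑ w : InfinitePlace K, ν w * Real.log (w ((n : 𝓞 K) : K)) : ℝ) = 0 := by
    have h1 : ∀ w : InfinitePlace K, w ((n : 𝓞 K) : K) = n := fun w => by
      rw [h0, ← InfinitePlace.norm_embedding_eq w, map_natCast]
      simp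
    simp_rw [h1]
    rw [← Finset.sum_mul, hν, zero_mul]
  rw [this]
  simp

lemma ax_int {ν : InfinitePlace K → ℝ} (hν : ∑ w, ν w = 0) {n : ℤ} (hn : n ≠ 0) :
    ax ν ((n : 𝓞 K) : K) = 1 := by
  unfold ax
  have h0 : ((n : 𝓞 K) : K) = (n : K) := map_intCast (algebraMap (𝓞 K) K) n
  have : (∑ w : InfinitePlace K, ν w * Real.log (w ((n : 𝓞 K) : K)) : ℝ) = 0 := by
    have h1 : ∀ w : InfinitePlace K, w ((n : 𝓞 K) : K) = |(n : ℝ)| := fun w => by
      rw [h0, ← InfinitePlace.norm_embedding_eq w, map_intCast]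
      rw [Complex.norm_intCast]
    simp_rw [h1]
    rw [← Finset.sum_mul, hν, zero_mul]
  rw [this]
  simp

lemma coe_mul' (x y : 𝓞 K) : ((x * y : 𝓞 K) : K) = (x : K) * (y : K) :=
  map_mul (algebraMap (𝓞 K) K) x y

lemma coe_ne {x : 𝓞 K} (hx : x ≠ 0) : (x : K) ≠ 0 := by simpa using hx

lemma ax_cmul (ν : InfinitePlace K → ℝ) {x y : 𝓞 K} (hx : x ≠ 0) (hy : y ≠ 0) :
    ax ν ((x * y : 𝓞 K) : K) = ax ν (x : K) * ax ν (y : K) := by
  rw [coe_mul', ax_mul ν (coe_ne hx) (coe_ne hy)]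

lemma ax_conj (ν : InfinitePlace K → ℝ) (x : K) :
    (starRingEnd ℂ) (ax ν x) = ax (fun w => -ν w) x := by
  rw [ax_neg]
  have h := norm_ax ν x
  rw [Complex.inv_def, Complex.normSq_eq_norm_sq, h]
  simp

lemma ax_ne (ν : InfinitePlace K → ℝ) (x : K) : ax ν x ≠ 0 := by
  rw [← norm_ne_zero_iff, norm_ax]
  exact one_ne_zero

lemma ax_cj (B : QB K) {ν : InfinitePlace K → ℝ} (hν : ∑ w, ν w = 0) {x : 𝓞 K} (hx : x ≠ 0) :
    ax ν ((B.cj x : 𝓞 K) : K) = (starRingEnd ℂ) (ax ν (x : K)) := by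
  have hcj : B.cj x ≠ 0 := by
    intro h
    have h1 := B.cj_cj x
    have h0 : B.cj 0 = 0 := by
      have := B.cj_int 0
      rwa [Int.cast_zero] at this
    rw [h, h0] at h1
    exact hx h1.symm
  have h1 := ax_cmul ν hx hcj
  rw [B.mul_cj, ax_int hν (norm_ne hx)] at h1
  rw [ax_conj, ax_neg]
  exact eq_inv_of_mul_eq_one_right h1.symm

lemma sgN_cj (B : QB K) (x : 𝓞 K) : sgN (B.cj x) = sgN x := by
  unfold sgN
  rw [B.norm_cj]

/-! ## the gamma factor -/

lemma card_emb (h2 : Module.finrank ℚ K = 2) : Fintype.card (K →+* ℂ) = 2 := by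
  rw [Embeddings.card, h2]

lemma sum_eM (h2 : Module.finrank ℚ K = 2) (e0 : ℕ) :
    ∑ φ : K →+* ℂ, eM (fun _ : InfinitePlace K => e0) φ = 2 * e0 := by
  have : ∀ φ : K →+* ℂ, eM (fun _ : InfinitePlace K => e0) φ = e0 := fun φ => rfl
  simp_rw [this]
  rw [Finset.sum_const, Finset.card_univ, smul_eq_mul, card_emb h2]

lemma gam_real (h2 : Module.finrank ℚ K = 2) (hr : ∀ w : InfinitePlace K, w.IsReal) (e0 : ℕ)
    {ν : InfinitePlace K → ℝ} (hν : ∑ w, ν w = 0) (s : ℂ) :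
    Gn (fun _ : InfinitePlace K => e0) ν ((starRingEnd ℂ) s) =
      (starRingEnd ℂ) (Gn (fun _ : InfinitePlace K => e0) ν s) := by
  classical
  obtain ⟨φ, ψ, hne, huniv⟩ := Finset.card_eq_two.1 ((Finset.card_univ (α := K →+* ℂ)).trans (card_emb h2))
  have hex : ∀ φ : K →+* ℂ, Pool.Agent.Y773.G.ex (fun _ : InfinitePlace K => e0) φ = e0 := by
    intro φ
    unfold Pool.Agent.Y773.G.ex
    rw [if_pos (hr _)]
  have hmult : ∀ φ : K →+* ℂ, vn ν φ = -ν (InfinitePlace.mk φ) := by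
    intro φ
    unfold vn
    rw [InfinitePlace.mult, if_pos (hr _)]
    simp
  have hsum : ν (InfinitePlace.mk φ) + ν (InfinitePlace.mk ψ) = 0 := by
    rw [← (mk_bij hr).sum_comp ν, huniv, Finset.sum_pair hne] at hν
    exact hν
  have hψ : ν (InfinitePlace.mk ψ) = -ν (InfinitePlace.mk φ) := by linarith
  have hG : ∀ z : ℂ, (starRingEnd ℂ) (Gammaℝ z) = Gammaℝ ((starRingEnd ℂ) z) := by
    intro z
    rw [Gammaℝ_def, Gammaℝ_def, map_mul, ← Complex.Gamma_conj]
    congr 1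
    · have h7 : ((Real.pi : ℝ) : ℂ).arg ≠ Real.pi := by
        rw [Complex.arg_ofReal_of_nonneg Real.pi_pos.le]
        exact Real.pi_ne_zero.symm
      have h8 := Complex.conj_cpow (Real.pi : ℂ) ((starRingEnd ℂ) (-z / 2)) h7
      rw [Complex.conj_ofReal, Complex.conj_conj] at h8
      rw [← h8]
      congr 1
      rw [map_div₀, map_neg, map_ofNat]
    · congr 1
      rw [map_div₀, map_ofNat]
  unfold Gn
  rw [huniv, Finset.prod_pair hne, Finset.prod_pair hne, map_mul, hG, hG]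
  simp only [hex, hmult, hψ]
  rw [mul_comm]
  simp only [map_add, map_mul, Complex.conj_I, map_natCast, Complex.conj_ofReal, neg_neg]
  congr 2
  · push_cast
    ring
  · push_cast
    ring

end

end Pool.Agent.H505
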