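import Pool.Agent.H812.SF.Stm4

set_option autoImplicit false

/-! A slow rotation hits a given direction in `O(1 / δ)` steps: proof of `S_SCH2`. -/

namespace Pool.Agent.H505.SfSCH2

open Pool.Agent.N229.SC Pool.Agent.H812.SF

theorem nonzero {δ : ℝ} {N : ℕ} {a b : ℕ → ℝ} (hδ : 0 < δ) (h0 : a 0 ≠ 0 ∨ b 0 ≠ 0)
    (hS : ∀ j < N, δ * (a j ^ 2 + b j ^ 2) ≤ a j * b (j + 1) - b j * a (j + 1)) :
    ∀ j ≤ N, 0 < a j ^ 2 + b j ^ 2 := by
  intro j
  induction j with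
  | zero =>
    intro _
    rcases h0 with h | h
    · have := pow_pos (abs_pos.2 h) 2
      rw [sq_abs] at this
      nlinarith [sq_nonneg (b 0)]
    · have := pow_pos (abs_pos.2 h) 2
      rw [sq_abs] at this
      nlinarith [sq_nonneg (a 0)]
  | succ j ih =>
    intro hj
    have h1 := ih (by omega)
    have h2 := hS j (by omega)
    have h3 : 0 < δ * (a j ^ 2 + b j ^ 2) := mul_pos hδ h1
    by_contra hcon
    have h4 : a (j + 1) ^ 2 + b (j + 1) ^ 2 ≤ 0 := not_lt.1 hcon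
    have h5 : a (j + 1) ^ 2 = 0 :=
      le_antisymm (by linarith [sq_nonneg (b (j + 1))]) (sq_nonneg _)
    have h6 : b (j + 1) ^ 2 = 0 :=
      le_antisymm (by linarith [sq_nonneg (a (j + 1))]) (sq_nonneg _)
    have h7 : a (j + 1) = 0 := pow_eq_zero_iff (two_ne_zero) |>.1 h5
    have h8 : b (j + 1) = 0 := pow_eq_zero_iff (two_ne_zero) |>.1 h6
    rw [h7, h8] at h2
    linarith

theorem bd {ε δ x y x' y' : ℝ} (hε' : ε ≤ 1 / 10) (hδ : 0 < δ)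
    (hδ' : 200 * δ ≤ ε) (h1 : |x' - x| ≤ 100 * δ * (|x| + |y|))
    (h2 : |y' - y| ≤ 100 * δ * (|x| + |y|)) :
    |x' - x| ≤ 1 / 20 * (|x| + |y|) ∧ |y' - y| ≤ 1 / 20 * (|x| + |y|) := by
  have h3 : 100 * δ * (|x| + |y|) ≤ 1 / 20 * (|x| + |y|) :=
    mul_le_mul_of_nonneg_right (by linarith) (by positivity)
  exact ⟨h1.trans h3, h2.trans h3⟩

theorem norm_le {ε x y : ℝ} (hε : 0 < ε) (hε' : ε ≤ 1 / 10) :
    (x + 2 * ε * y) ^ 2 + y ^ 2 ≤ 31 / 25 * (x ^ 2 + y ^ 2) := by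
  have h1 : 0 ≤ 1 / 5 * ε * (x - y) ^ 2 := by positivity
  have h2 : 4 * ε * (x * y) ≤ 1 / 5 * (x ^ 2 + y ^ 2) := by
    have h3 : 2 * (x * y) ≤ x ^ 2 + y ^ 2 := by nlinarith [sq_nonneg (x - y)]
    have h4 : 2 * ε * (2 * (x * y)) ≤ 2 * ε * (x ^ 2 + y ^ 2) :=
      mul_le_mul_of_nonneg_left h3 (by linarith)
    have h5 : 2 * ε * (x ^ 2 + y ^ 2) ≤ 1 / 5 * (x ^ 2 + y ^ 2) :=
      mul_le_mul_of_nonneg_right (by linarith) (by positivity)
    linarith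
  have h6 : 4 * ε ^ 2 * y ^ 2 ≤ 1 / 25 * y ^ 2 := by
    apply mul_le_mul_of_nonneg_right _ (sq_nonneg y)
    nlinarith
  nlinarith [sq_nonneg x]

theorem norm_le' {x y x' y' : ℝ} (h1 : |x' - x| ≤ 1 / 20 * (|x| + |y|))
    (h2 : |y' - y| ≤ 1 / 20 * (|x| + |y|)) : x' ^ 2 + y' ^ 2 ≤ 5 / 4 * (x ^ 2 + y ^ 2) := by
  have h0 : (|x| + |y|) ^ 2 ≤ 2 * (x ^ 2 + y ^ 2) := by
    nlinarith [sq_nonneg (|x| - |y|), sq_abs x, sq_abs y]
  have h3 : (x' - x) ^ 2 ≤ 1 / 400 * (|x| + |y|) ^ 2 := by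
    have := mul_self_le_mul_self (abs_nonneg _) h1
    rw [abs_mul_abs_self] at this
    nlinarith
  have h4 : (y' - y) ^ 2 ≤ 1 / 400 * (|x| + |y|) ^ 2 := by
    have := mul_self_le_mul_self (abs_nonneg _) h2
    rw [abs_mul_abs_self] at this
    nlinarith
  -- x'^2 ≤ (1 + t) x^2 + (1 + 1/t) (x' - x)^2 with t = 1/9
  have h5 : x' ^ 2 ≤ 10 / 9 * x ^ 2 + 10 * (x' - x) ^ 2 := by
    nlinarith [sq_nonneg (x - 9 * (x' - x))]
  have h6 : y' ^ 2 ≤ 10 / 9 * y ^ 2 + 10 * (y' - y) ^ 2 := by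
    nlinarith [sq_nonneg (y - 9 * (y' - y))]
  nlinarith

theorem step {ε δ x y x' y' : ℝ} (hε : 0 < ε) (hε' : ε ≤ 1 / 10) (hδ : 0 < δ)
    (h0 : 0 < x ^ 2 + y ^ 2)
    (h1 : |x' - x| ≤ 1 / 20 * (|x| + |y|)) (h2 : |y' - y| ≤ 1 / 20 * (|x| + |y|))
    (hS : δ * (x ^ 2 + y ^ 2) ≤ x * y' - y * x')
    (hp : 0 < x + 2 * ε * y) (hp' : 0 < x' + 2 * ε * y') :
    Real.arctan (y / (x + 2 * ε * y)) + δ / 2 ≤ Real.arctan (y' / (x' + 2 * ε * y')) := by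
  have n1 : (x + 2 * ε * y) ^ 2 + y ^ 2 ≤ 31 / 25 * (x ^ 2 + y ^ 2) := norm_le hε hε'
  have n2 : (x' + 2 * ε * y') ^ 2 + y' ^ 2 ≤ 2 * (x ^ 2 + y ^ 2) := by
    have := norm_le (x := x') (y := y') hε hε'
    have h3 := norm_le' h1 h2
    linarith
  have h5 : (x + 2 * ε * y) * y' - y * (x' + 2 * ε * y') = x * y' - y * x' := by ring
  rw [← h5] at hS
  clear h5 h1 h2
  generalize x + 2 * ε * y = P at *
  generalize x' + 2 * ε * y' = P' at *
  generalize x ^ 2 + y ^ 2 = s at *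
  have hSpos : 0 < P * y' - y * P' := lt_of_lt_of_le (mul_pos hδ h0) hS
  have hlt : y / P < y' / P' := by
    rw [div_lt_div_iff₀ hp hp']
    linarith
  have hA : Real.arctan (y / P) < Real.arctan (y' / P') := Real.arctan_strictMono hlt
  set θ := Real.arctan (y' / P') - Real.arctan (y / P) with hθ
  have hθ0 : 0 < θ := by linarith
  have hsin : Real.sin θ ≤ θ := Real.sin_le hθ0.le
  have hval : Real.sin θ = (P * y' - y * P') /
      (Real.sqrt (P ^ 2 + y ^ 2) * Real.sqrt (P' ^ 2 + y' ^ 2)) := by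
    rw [hθ, Real.sin_sub, Real.sin_arctan, Real.cos_arctan, Real.sin_arctan, Real.cos_arctan]
    have e1 : Real.sqrt (1 + (y / P) ^ 2) = Real.sqrt (P ^ 2 + y ^ 2) / P := by
      rw [show 1 + (y / P) ^ 2 = (P ^ 2 + y ^ 2) / P ^ 2 by field_simp,
        Real.sqrt_div (by positivity), Real.sqrt_sq hp.le]
    have e2 : Real.sqrt (1 + (y' / P') ^ 2) = Real.sqrt (P' ^ 2 + y' ^ 2) / P' := by
      rw [show 1 + (y' / P') ^ 2 = (P' ^ 2 + y' ^ 2) / P' ^ 2 by field_simp,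
        Real.sqrt_div (by positivity), Real.sqrt_sq hp'.le]
    rw [e1, e2]
    have s1 : 0 < Real.sqrt (P ^ 2 + y ^ 2) := Real.sqrt_pos.2 (by positivity)
    have s2 : 0 < Real.sqrt (P' ^ 2 + y' ^ 2) := Real.sqrt_pos.2 (by positivity)
    field_simp
  have hprod : Real.sqrt (P ^ 2 + y ^ 2) * Real.sqrt (P' ^ 2 + y' ^ 2) ≤ 2 * s := by
    rw [← Real.sqrt_mul (by positivity), show 2 * s = Real.sqrt ((2 * s) ^ 2) by
      rw [Real.sqrt_sq (by linarith)]]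
    apply Real.sqrt_le_sqrt
    have h6 : (P ^ 2 + y ^ 2) * (P' ^ 2 + y' ^ 2) ≤ (31 / 25 * s) * (2 * s) :=
      mul_le_mul n1 n2 (by positivity) (by positivity)
    nlinarith [sq_nonneg s]
  have s1 : 0 < Real.sqrt (P ^ 2 + y ^ 2) := Real.sqrt_pos.2 (by positivity)
  have s2 : 0 < Real.sqrt (P' ^ 2 + y' ^ 2) := Real.sqrt_pos.2 (by positivity)
  have hfin : δ / 2 ≤ Real.sin θ := by
    rw [hval, le_div_iff₀ (mul_pos s1 s2)]
    calc δ / 2 * (Real.sqrt (P ^ 2 + y ^ 2) * Real.sqrt (P' ^ 2 + y' ^ 2))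
        ≤ δ / 2 * (2 * s) := mul_le_mul_of_nonneg_left hprod (by positivity)
      _ = δ * s := by ring
      _ ≤ _ := hS
  linarith

theorem fin {ε δ x y x' y' : ℝ} (hε : 0 < ε) (hε' : ε ≤ 1 / 10) (hδ : 0 < δ)
    (hδ' : 200 * δ ≤ ε) (h1 : |x' - x| ≤ 100 * δ * (|x| + |y|))
    (h2 : |y' - y| ≤ 100 * δ * (|x| + |y|)) (hp : 0 ≤ x + 2 * ε * y)
    (hp' : x' + 2 * ε * y' ≤ 0) : |x + 2 * ε * y| ≤ ε * |y| := by
  have e1 : |x + 2 * ε * y| ≤ 120 * δ * (|x| + |y|) := by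
    rw [abs_of_nonneg hp]
    have h3 : x - x' ≤ 100 * δ * (|x| + |y|) := by
      have := neg_abs_le (x' - x)
      linarith
    have h4 : y - y' ≤ 100 * δ * (|x| + |y|) := by
      have := neg_abs_le (y' - y)
      linarith
    have h5 : 2 * ε * (y - y') ≤ 2 * ε * (100 * δ * (|x| + |y|)) :=
      mul_le_mul_of_nonneg_left h4 (by linarith)
    have h6 : 2 * ε * (100 * δ * (|x| + |y|)) ≤ 1 / 5 * (100 * δ * (|x| + |y|)) :=
      mul_le_mul_of_nonneg_right (by linarith) (by positivity)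
    nlinarith
  have e2 : |x| ≤ |x + 2 * ε * y| + 1 / 5 * |y| := by
    have h3 := abs_add_le (x + 2 * ε * y) (-(2 * ε * y))
    rw [add_neg_cancel_right, abs_neg, abs_mul, abs_of_pos (show 0 < 2 * ε by linarith)] at h3
    have h4 : 2 * ε * |y| ≤ 1 / 5 * |y| :=
      mul_le_mul_of_nonneg_right (by linarith) (abs_nonneg y)
    linarith
  have e3 : 120 * δ * (|x| + |y|) ≤ 120 * δ * (|x + 2 * ε * y| + 6 / 5 * |y|) :=
    mul_le_mul_of_nonneg_left (by linarith) (by positivity)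
  have e4 : 120 * δ * |x + 2 * ε * y| ≤ 6 / 100 * |x + 2 * ε * y| :=
    mul_le_mul_of_nonneg_right (by linarith) (abs_nonneg _)
  have e5 : 200 * δ * |y| ≤ ε * |y| := mul_le_mul_of_nonneg_right hδ' (abs_nonneg y)
  have e6 : 0 ≤ δ * |y| := by positivity
  nlinarith

theorem conc {ε x y : ℝ} (hε : 0 < ε) (h : |x + 2 * ε * y| ≤ ε * |y|)
    (h0 : 0 < x ^ 2 + y ^ 2) : y ≠ 0 ∧ ε ≤ -(x / y) ∧ -(x / y) ≤ 3 * ε := by
  have hy : y ≠ 0 := by
    rintro rfl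
    rw [mul_zero, add_zero, abs_zero, mul_zero] at h
    have := abs_nonpos_iff.1 h
    rw [this] at h0
    norm_num at h0
  have h1 : |(x + 2 * ε * y) / y| ≤ ε := by
    rw [abs_div, div_le_iff₀ (abs_pos.2 hy)]
    exact h
  have h2 : (x + 2 * ε * y) / y = x / y + 2 * ε := by
    field_simp
  rw [h2, abs_le] at h1
  exact ⟨hy, by linarith, by linarith⟩

theorem core (ε δ : ℝ) (N : ℕ) (a b : ℕ → ℝ) (hε : 0 < ε) (hε' : ε ≤ 1 / 10) (hδ : 0 < δ)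
    (hδ' : 200 * δ ≤ ε) (hN : 10 / δ + 3 ≤ N) (h0 : a 0 ≠ 0 ∨ b 0 ≠ 0)
    (h : ∀ j < N, |a (j + 1) - a j| ≤ 100 * δ * (|a j| + |b j|) ∧
      |b (j + 1) - b j| ≤ 100 * δ * (|a j| + |b j|) ∧
      δ * (a j ^ 2 + b j ^ 2) ≤ a j * b (j + 1) - b j * a (j + 1))
    (hp0 : 0 ≤ a 0 + 2 * ε * b 0) :
    ∃ j ≤ N, b j ≠ 0 ∧ ε ≤ -(a j / b j) ∧ -(a j / b j) ≤ 3 * ε := by
  have hnz := nonzero hδ h0 (fun j hj => (h j hj).2.2)
  by_cases hA : ∃ j ≤ N, a j + 2 * ε * b j = 0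
  · obtain ⟨j, hj, h1⟩ := hA
    refine ⟨j, hj, conc hε ?_ (hnz j hj)⟩
    rw [h1, abs_zero]
    positivity
  by_cases hB : ∃ j < N, 0 ≤ a j + 2 * ε * b j ∧ a (j + 1) + 2 * ε * b (j + 1) ≤ 0
  · obtain ⟨j, hj, h1, h2⟩ := hB
    exact ⟨j, hj.le, conc hε (fin hε hε' hδ hδ' (h j hj).1 (h j hj).2.1 h1 h2) (hnz j hj.le)⟩
  exfalso
  have hpos : ∀ j ≤ N, 0 < a j + 2 * ε * b j := by
    intro j
    induction j with
    | zero =>
      intro h1
      exact lt_of_le_of_ne hp0 fun h2 => hA ⟨0, h1, h2.symm⟩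
    | succ j ih =>
      intro h1
      by_contra hcon
      exact hB ⟨j, by omega, (ih (by omega)).le, not_lt.1 hcon⟩
  have hbd : ∀ j < N, |a (j + 1) - a j| ≤ 1 / 20 * (|a j| + |b j|) ∧
      |b (j + 1) - b j| ≤ 1 / 20 * (|a j| + |b j|) :=
    fun j hj => bd hε' hδ hδ' (h j hj).1 (h j hj).2.1
  have hr : ∀ m : ℕ, m ≤ N →
      Real.arctan (b 0 / (a 0 + 2 * ε * b 0)) + m * (δ / 2) ≤
        Real.arctan (b m / (a m + 2 * ε * b m)) := by
    intro m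
    induction m with
    | zero =>
      intro _
      simp
    | succ m ih =>
      intro h1
      have h2 := ih (by omega)
      have h3 := step hε hε' hδ (hnz m (by omega)) (hbd m (by omega)).1 (hbd m (by omega)).2
        (h m (by omega)).2.2 (hpos m (by omega)) (hpos (m + 1) (by omega))
      push_cast
      linarith
  have h1 := hr N le_rfl
  have h2 := Real.neg_pi_div_two_lt_arctan (b 0 / (a 0 + 2 * ε * b 0))
  have h3 := Real.arctan_lt_pi_div_two (b N / (a N + 2 * ε * b N))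
  have h4 : (5 : ℝ) ≤ N * (δ / 2) := by
    have h5 : 10 / δ ≤ (N : ℝ) := by linarith
    have h6 : 10 / δ * (δ / 2) ≤ N * (δ / 2) :=
      mul_le_mul_of_nonneg_right h5 (by positivity)
    have h7 : 10 / δ * (δ / 2) = 5 := by
      field_simp
      norm_num
    linarith
  have h5 := Real.pi_lt_four
  linarith

theorem proof_SCH2 : S_SCH2 := by
  intro ε δ N a b hε hε' hδ hδ' hN h0 h
  by_cases hp : 0 ≤ a 0 + 2 * ε * b 0
  · exact core ε δ N a b hε hε' hδ hδ' hN h0 h hp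
  · obtain ⟨j, hj, h1, h2, h3⟩ := core ε δ N (fun j => -(a j)) (fun j => -(b j)) hε hε' hδ hδ' hN
      (h0.imp (fun h => neg_ne_zero.2 h) (fun h => neg_ne_zero.2 h)) (fun j hj => by
        obtain ⟨h1, h2, h3⟩ := h j hj
        refine ⟨?_, ?_, ?_⟩
        · show |-(a (j + 1)) - -(a j)| ≤ 100 * δ * (|-(a j)| + |-(b j)|)
          rw [abs_neg, abs_neg, show -(a (j + 1)) - -(a j) = -(a (j + 1) - a j) by ring, abs_neg]
          exact h1
        · show |-(b (j + 1)) - -(b j)| ≤ 100 * δ * (|-(a j)| + |-(b j)|)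
          rw [abs_neg, abs_neg, show -(b (j + 1)) - -(b j) = -(b (j + 1) - b j) by ring, abs_neg]
          exact h2
        · show δ * ((-(a j)) ^ 2 + (-(b j)) ^ 2) ≤ -(a j) * -(b (j + 1)) - -(b j) * -(a (j + 1))
          nlinarith) (by
        show 0 ≤ -(a 0) + 2 * ε * -(b 0)
        linarith [not_le.1 hp])
    refine ⟨j, hj, neg_ne_zero.1 h1, ?_, ?_⟩
    · rw [neg_div_neg_eq] at h2
      exact h2
    · rw [neg_div_neg_eq] at h3
      exact h3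

end Pool.Agent.H505.SfSCH2
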