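import Pool.Agent.H505.Twist
import Pool.Agent.H505.Dec2

/-!
# The base characters and their twists by all real characters
-/

set_option autoImplicit false
set_option linter.unusedSectionVars false
set_option linter.unusedVariables false

open NumberField Complex Finset ZMod
open Pool.Agent.Y773 (TPos FT tw)
open Pool.Agent.Y773.G (rl sg eM)
open Pool.Agent.Y767 (ax)
open Pool.Agent.Y773.G.GH (kk Pk IsModK PrimK Kap kap_kk)
open Pool.Agent.Y773.G.GH.H505 (GaussProp vanishn entire_n tau_exists)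
open Pool.Agent.Y772.TW (prim_char norm_surj crt_tpos coprime_q absNorm_tpos norm_eq_of_sub)

namespace Pool.Agent.H505

section

variable {K : Type} [Field K] [NumberField K] (B : QB K)

lemma tw_apply {q : ℕ} (χ : DirichletCharacter ℂ q) (ψ : Ideal (𝓞 K) →*₀ ℂ) (I : Ideal (𝓞 K)) :
    tw ψ χ I = ψ I * χ ((Ideal.absNorm I : ℕ) : ZMod q) := rfl

include B in
lemma prime_below {P : Ideal (𝓞 K)} (hP : P.IsPrime) (hP0 : P ≠ ⊥) :
    ∃ p : ℕ, p.Prime ∧ (p : 𝓞 K) ∈ P ∧ (Ideal.absNorm P = p ∨ Ideal.absNorm P = p ^ 2) := by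
  classical
  have hN0 : Ideal.absNorm P ≠ 0 := by rwa [Ne, Ideal.absNorm_eq_zero_iff]
  have hN1 : Ideal.absNorm P ≠ 1 := by
    rw [Ne, Ideal.absNorm_eq_one_iff]; exact hP.ne_top
  obtain ⟨p, hp, hpP⟩ : ∃ p : ℕ, p.Prime ∧ (p : 𝓞 K) ∈ P := by
    have key : ∀ n : ℕ, n ≠ 0 → (n : 𝓞 K) ∈ P → ∃ p : ℕ, p.Prime ∧ (p : 𝓞 K) ∈ P := by
      intro n
      induction n using Nat.strong_induction_on with
      | _ n ih =>
        intro hn0 hn
        by_cases h1 : n = 1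
        · exfalso
          rw [h1, Nat.cast_one] at hn
          exact hP.ne_top ((Ideal.eq_top_iff_one _).2 hn)
        obtain ⟨k, hk⟩ := Nat.minFac_dvd n
        have hq := Nat.minFac_prime h1
        rw [hk, Nat.cast_mul] at hn
        rcases hP.mem_or_mem hn with h | h
        · exact ⟨_, hq, h⟩
        · refine ih k ?_ ?_ h
          · have hk0 : 0 < k := Nat.pos_of_ne_zero (by rintro rfl; exact hn0 (by rw [hk]; simp))
            calc k < n.minFac * k := by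
                  have := hq.two_le
                  nlinarith
              _ = n := hk.symm
          · rintro rfl
            exact hn0 (by rw [hk]; simp)
    exact key _ hN0 (Ideal.absNorm_mem P)
  have hle : Ideal.span {(p : 𝓞 K)} ≤ P := (Ideal.span_singleton_le_iff_mem _).2 hpP
  have hdvd : Ideal.absNorm P ∣ p ^ 2 := by
    rw [← B.absNorm_nat p]
    exact Ideal.absNorm_dvd_absNorm_of_le hle
  rw [Nat.dvd_prime_pow hp] at hdvd
  obtain ⟨f, hf, hNf⟩ := hdvd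
  refine ⟨p, hp, hpP, ?_⟩
  interval_cases f
  · exact absurd hNf (by rwa [pow_zero])
  · left; rwa [pow_one] at hNf
  · right; exact hNf

/-- coprimality to `√D` -/
lemma cop_rt {M : ℕ} (hM : (M : ℤ) = B.D) {𝔞 : Ideal (𝓞 K)} :
    IsCoprime 𝔞 (Ideal.span {B.rt}) ↔ Nat.Coprime (Ideal.absNorm 𝔞) M := by
  rw [← coprime_q]
  have h1 : (Ideal.span {(M : 𝓞 K)} : Ideal (𝓞 K)) = Ideal.span {B.rt} * Ideal.span {B.rt} := by
    rw [Ideal.span_singleton_mul_span_singleton, B.rt_sq, ← hM, Int.cast_natCast]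
  rw [h1, IsCoprime.mul_right_iff, and_self]

/-- the base characters -/
structure Base (e0 : ℕ) (ν : InfinitePlace K → ℝ) (ψ : Ideal (𝓞 K) →*₀ ℂ) : Prop where
  e_le : e0 ≤ 1
  sum : ∑ w, ν w = 0
  mod : IsModK (Ideal.span {B.rt}) (kk (fun _ => e0) ν) ψ
  prim : PrimK (Ideal.span {B.rt}) (kk (fun _ => e0) ν) ψ
  cen : ∀ p : ℕ, p.Prime → ¬ (p : ℤ) ∣ B.D → ψ (Ideal.span {(p : 𝓞 K)}) = spl B.T B.N p
  sgn : ∀ (M : ℕ) [NeZero M], (M : ℤ) = B.D → ∃ s : ℝ, 0 ≤ s ∧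
    (-1) ^ e0 * SS B (Pk ψ (kk (fun _ => e0) ν) ⊤) M 1 = ((-s : ℝ) : ℂ)

variable {B}

lemma Base.cop {e0 : ℕ} {ν : InfinitePlace K → ℝ} {ψ : Ideal (𝓞 K) →*₀ ℂ} (h : Base B e0 ν ψ)
    {M : ℕ} (hM : (M : ℤ) = B.D) (𝔞 : Ideal (𝓞 K)) :
    ψ 𝔞 ≠ 0 ↔ Nat.Coprime (Ideal.absNorm 𝔞) M := by
  rw [h.mod.supp, cop_rt B hM]

lemma Base.norm_one {e0 : ℕ} {ν : InfinitePlace K → ℝ} {ψ : Ideal (𝓞 K) →*₀ ℂ} (h : Base B e0 ν ψ)
    {M : ℕ} (hM : (M : ℤ) = B.D) (𝔞 : Ideal (𝓞 K)) :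
    Nat.Coprime (Ideal.absNorm 𝔞) M → ψ (Ideal.span {((Ideal.absNorm 𝔞 : ℕ) : 𝓞 K)}) = 1 := by
  have hM1 : M ≠ 1 := by
    intro h1
    apply h.mod.ne_top
    rw [Ideal.span_singleton_eq_top]
    refine IsUnit.of_mul_eq_one B.rt ?_
    rw [B.rt_sq, ← hM, h1]
    simp
  induction 𝔞 using UniqueFactorizationMonoid.induction_on_prime with
  | h₁ =>
    intro hc
    rw [Ideal.zero_eq_bot, Ideal.absNorm_bot, Nat.coprime_zero_left] at hc
    exact absurd hc hM1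
  | h₂ x hx =>
    intro _
    rw [Ideal.isUnit_iff] at hx
    rw [hx, Ideal.absNorm_top, Nat.cast_one, Ideal.span_singleton_one, ← Ideal.one_eq_top, map_one]
  | h₃ a P ha hP ih =>
    intro hc
    rw [map_mul, Nat.coprime_mul_iff_left] at hc
    have hPp : P.IsPrime := Ideal.isPrime_of_prime hP
    rw [map_mul, Nat.cast_mul, ← Ideal.span_singleton_mul_span_singleton, map_mul, ih hc.2, mul_one]
    obtain ⟨p, hp, hpP, hN⟩ := prime_below B hPp hP.ne_zero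
    have hpD : ¬ (p : ℤ) ∣ B.D := by
      intro h1
      rw [← hM] at h1
      have h2 : p ∣ M := by exact_mod_cast h1
      have h3 : p ∣ Ideal.absNorm P := by
        rcases hN with h | h
        · rw [h]
        · rw [h]; exact dvd_pow_self p two_ne_zero
      exact Nat.not_coprime_of_dvd_of_dvd hp.one_lt h3 h2 hc.1
    rcases hN with hN | hN
    · obtain ⟨n, hn, hpn⟩ := B.exists_root hp hN
      rw [hN, h.cen p hp hpD]
      exact B.spl_of_root hp hpD hpn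
    · rw [hN]
      have h1 : (Ideal.span {((p ^ 2 : ℕ) : 𝓞 K)} : Ideal (𝓞 K)) =
          Ideal.span {(p : 𝓞 K)} * Ideal.span {(p : 𝓞 K)} := by
        rw [Ideal.span_singleton_mul_span_singleton]
        push_cast
        rw [pow_two]
      rw [h1, map_mul, h.cen p hp hpD]
      exact spl_sq hp hpD

lemma Base.conj {e0 : ℕ} {ν : InfinitePlace K → ℝ} {ψ : Ideal (𝓞 K) →*₀ ℂ} (h : Base B e0 ν ψ)
    {M : ℕ} (hM : (M : ℤ) = B.D) (𝔞 : Ideal (𝓞 K)) :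
    ψ (B.cjI 𝔞) = (starRingEnd ℂ) (ψ 𝔞) := by
  by_cases hc : Nat.Coprime (Ideal.absNorm 𝔞) M
  · have h1 : ψ 𝔞 * ψ (B.cjI 𝔞) = 1 := by
      rw [← map_mul, B.mul_cjI, h.norm_one hM 𝔞 hc]
    have h2 : ‖ψ 𝔞‖ = 1 := h.mod.norm_eq_one ((cop_rt B hM).2 hc)
    have h3 : ψ 𝔞 * (starRingEnd ℂ) (ψ 𝔞) = 1 := by
      rw [Complex.mul_conj, Complex.normSq_eq_norm_sq, h2]
      simp
    have h4 : ψ 𝔞 ≠ 0 := (h.cop hM 𝔞).2 hc
    exact mul_left_cancel₀ h4 (h1.trans h3.symm)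
  · have h1 : ψ 𝔞 = 0 := by
      by_contra h0
      exact hc ((h.cop hM 𝔞).1 h0)
    have h2 : ψ (B.cjI 𝔞) = 0 := by
      by_contra h0
      have := (h.cop hM _).1 h0
      rw [B.absNorm_cjI] at this
      exact hc this
    rw [h1, h2, map_zero]

lemma real_of_PQ {q : ℕ} {η : DirichletCharacter ℂ q} (hη : η ^ 2 = 1) (x : ZMod q) :
    (starRingEnd ℂ) (η x) = η x := by
  by_cases hx : IsUnit x
  · rcases mul_self_eq_one_iff.1 (sq_mul_self hη hx) with h | h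
    · rw [h, map_one]
    · rw [h, map_neg, map_one]
  · rw [η.map_nonunit hx, map_zero]

lemma pm_of_PQ {q : ℕ} {η : DirichletCharacter ℂ q} (hη : η ^ 2 = 1) :
    ∃ e : ℕ, e ≤ 1 ∧ η (-1) = (-1) ^ e := by
  rcases mul_self_eq_one_iff.1 (sq_mul_self hη isUnit_one.neg) with h | h
  · exact ⟨0, by norm_num, by rw [h, pow_zero]⟩
  · exact ⟨1, le_refl _, by rw [h, pow_one]⟩

open Pool.Agent.Y773 (LI) in
/-- the L-functions of the real twists of a base character are real -/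
lemma Base.LI_real {e0 : ℕ} {ν : InfinitePlace K → ℝ} {ψ : Ideal (𝓞 K) →*₀ ℂ} (h : Base B e0 ν ψ)
    {M : ℕ} (hM : (M : ℤ) = B.D) {q : ℕ} {χ : DirichletCharacter ℂ q} (hχ : χ ^ 2 = 1) (s : ℂ) :
    LI (tw ψ χ) ((starRingEnd ℂ) s) = (starRingEnd ℂ) (LI (tw ψ χ) s) := by
  unfold LI
  rw [Complex.conj_tsum, ← B.cjI.tsum_eq]
  refine tsum_congr fun I => ?_
  rw [tw_apply, tw_apply, h.conj hM, B.absNorm_cjI, map_mul, map_mul, real_of_PQ hχ]
  congr 1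
  rw [← map_neg (starRingEnd ℂ) s]
  have h1 : ((Ideal.absNorm I : ℕ) : ℂ).arg ≠ Real.pi := by
    rw [Complex.natCast_arg]
    exact Real.pi_ne_zero.symm
  have h2 := Complex.cpow_conj ((Ideal.absNorm I : ℕ) : ℂ) (-s) h1
  rw [h2, Complex.conj_natCast]

/-- genus characters are trivial at the norms of the elements -/
lemma genus {g M : ℕ} (hM : (M : ℤ) = B.D) (hg : g ∣ M) (hg2 : ¬ 2 ∣ g)
    {χ : DirichletCharacter ℂ g} (hχ : χ ^ 2 = 1) {r : 𝓞 K}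
    (hr : IsUnit ((Algebra.norm ℤ r : ℤ) : ZMod g)) :
    χ ((Algebra.norm ℤ r : ℤ) : ZMod g) = 1 := by
  set u : ZMod g := ((2 * B.cre r + B.T * B.cim r : ℤ) : ZMod g) with hu
  have h0 : ((B.D : ℤ) : ZMod g) = 0 := by
    rw [ZMod.intCast_zmod_eq_zero_iff_dvd, ← hM]
    exact_mod_cast hg
  have h1 : u * u = 2 * 2 * ((Algebra.norm ℤ r : ℤ) : ZMod g) := by
    rw [B.norm_int, hu]
    unfold QB.D at h0
    push_cast at h0 ⊢
    linear_combination ((B.cim r : ZMod g) * (B.cim r : ZMod g)) * h0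
  have h2 : IsUnit (2 : ZMod g) := by
    have : ((2 : ℕ) : ZMod g) = 2 := by norm_num
    rw [← this, ZMod.isUnit_iff_coprime]
    exact (Nat.Prime.coprime_iff_not_dvd Nat.prime_two).2 hg2
  have h3 : IsUnit (u * u) := by
    rw [h1]
    exact (h2.mul h2).mul hr
  have hu' : IsUnit u := isUnit_of_mul_isUnit_left h3
  have h4 : χ u * χ u = 1 := sq_mul_self hχ hu'
  have h5 : χ 2 * χ 2 = 1 := sq_mul_self hχ h2
  rw [← map_mul, h1, map_mul, map_mul, h5, one_mul] at h4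
  exact h4

variable (hr : ∀ w : InfinitePlace K, w.IsReal)

include hr in
/-- the twist as a function on the elements -/
lemma tw_Pk {e0 e1 eη : ℕ} {ν : InfinitePlace K → ℝ} {ψ : Ideal (𝓞 K) →*₀ ℂ} (h : Base B e0 ν ψ)
    {M : ℕ} (hM : (M : ℤ) = B.D) {g m : ℕ} (hc : g.Coprime m) (hg : g ∣ M) (hg2 : ¬ 2 ∣ g)
    {η : DirichletCharacter ℂ (g * m)} (hη : η ^ 2 = 1) (hpar : η (-1) = (-1) ^ eη)
    (he1 : ((-1 : ℂ)) ^ e1 = (-1) ^ e0 * (-1) ^ eη) (r : 𝓞 K) :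
    Pk (tw ψ η) (kk (fun _ => e1) ν) ⊤ r = Pk ψ (kk (fun _ => e0) ν) ⊤ r *
      compR hc η ((Algebra.norm ℤ r : ℤ) : ZMod m) := by
  rw [Pk_top, Pk_top, tw_apply]
  by_cases hψ : ψ (Ideal.span {r}) = 0
  · rw [hψ]; ring
  have hcop := (h.cop hM _).1 hψ
  have hr0 : r ≠ 0 := by
    rintro rfl
    rw [Ideal.span_singleton_eq_bot.2 rfl, ← Ideal.zero_eq_bot, map_zero] at hψ
    exact hψ rfl
  have hgu : IsUnit ((Algebra.norm ℤ r : ℤ) : ZMod g) := by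
    rw [ZMod.coe_int_isUnit_iff_isCoprime]
    rw [Ideal.absNorm_span_singleton] at hcop
    have h1 : Nat.Coprime g (Algebra.norm ℤ r).natAbs :=
      Nat.Coprime.coprime_dvd_left hg hcop.symm
    rw [Int.isCoprime_iff_gcd_eq_one]
    exact h1
  have hηg : compL hc η ^ 2 = 1 := ((pow_eq_one_iff' hc η 2).1 hη).1
  rw [chi_norm hpar hr0, comp_int hc, genus hM hg hg2 hηg hgu, one_mul]
  unfold kk
  rw [sg_const hr, sg_const hr]
  have key : sgN r ^ eη * sgN r ^ e1 = sgN r ^ e0 := by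
    rcases sgN_pm hr0 with h1 | h1
    · rw [h1]; simp
    · rw [h1, he1]
      have : ((-1 : ℂ)) ^ eη * (-1) ^ eη = 1 := by rw [← mul_pow]; norm_num
      linear_combination ((-1 : ℂ) ^ e0) * this
  rw [← key]
  ring

lemma chi_ne_zero_iff {q : ℕ} (χ : DirichletCharacter ℂ q) (n : ℕ) :
    χ (n : ZMod q) ≠ 0 ↔ n.Coprime q := by
  rw [← ZMod.isUnit_iff_coprime]
  constructor
  · intro h0
    by_contra h1
    exact h0 (χ.map_nonunit h1)
  · intro h0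
    exact (h0.map χ).ne_zero

lemma tw_supp {e0 : ℕ} {ν : InfinitePlace K → ℝ} {ψ : Ideal (𝓞 K) →*₀ ℂ} (h : Base B e0 ν ψ)
    {M : ℕ} (hM : (M : ℤ) = B.D) {g m : ℕ} (hg : g ∣ M)
    {η : DirichletCharacter ℂ (g * m)} (𝔞 : Ideal (𝓞 K)) :
    tw ψ η 𝔞 ≠ 0 ↔ IsCoprime 𝔞 (Ideal.span {B.rt} * Ideal.span {(m : 𝓞 K)}) := by
  rw [tw_apply, mul_ne_zero_iff, h.cop hM, chi_ne_zero_iff, IsCoprime.mul_right_iff, cop_rt B hM,
    coprime_q, Nat.coprime_mul_iff_right]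
  constructor
  · rintro ⟨h1, h2, h3⟩
    exact ⟨h1, h3⟩
  · rintro ⟨h1, h3⟩
    exact ⟨h1, Nat.Coprime.coprime_dvd_right hg h1, h3⟩

open Pool.Agent.Y773 (LI) in
include hr in
/-- **the twists of a base character by the real characters** -/
theorem base_twist (h2 : Module.finrank ℚ K = 2) {e0 : ℕ} {ν : InfinitePlace K → ℝ}
    {ψ : Ideal (𝓞 K) →*₀ ℂ} (h : Base B e0 ν ψ)
    {M : ℕ} (hM : (M : ℤ) = B.D) (hMsq : Squarefree M) (hM2 : ¬ 2 ∣ M) {q : ℕ} (hq : q ≠ 0)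
    {η : DirichletCharacter ℂ q} (hη : η ∈ PQ q) :
    ∃ (e1 : ℕ) (𝔣' : Ideal (𝓞 K)), e1 ≤ 1 ∧ IsModK 𝔣' (kk (fun _ => e1) ν) (tw ψ η) ∧
      PrimK 𝔣' (kk (fun _ => e1) ν) (tw ψ η) ∧
      (Even (c3 (q.gcd M)) → ∃ F : ℂ → ℂ, Differentiable ℂ F ∧
        (∀ s : ℂ, 1 < s.re → F s = LI (tw ψ η) s) ∧ F (1 / 2) = 0) := by
  obtain ⟨g, m, hqgm, hgq, hc, hmM, hgM, hgsq, hg2, hg0, hm0⟩ := exists_dec hq hMsq hM2 hη
  rw [← hgq]
  clear hgq
  subst hqgm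
  have hM0 : M ≠ 0 := hMsq.ne_zero
  have : NeZero M := ⟨hM0⟩
  have : NeZero m := ⟨hm0⟩
  have : NeZero g := ⟨hg0⟩
  have : NeZero (g * m) := ⟨hq⟩
  have : NeZero (M * m) := ⟨mul_ne_zero hM0 hm0⟩
  obtain ⟨eη, -, hpar⟩ := pm_of_PQ hη.2
  have he1 : ((-1 : ℂ)) ^ ((e0 + eη) % 2) = (-1) ^ e0 * (-1) ^ eη := by
    rw [← pow_add]
    exact (neg_one_pow_eq_pow_mod_two (e0 + eη)).symm
  set e1 := (e0 + eη) % 2 with he1def
  have hPQR : compR hc η ∈ PQ m := by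
    obtain ⟨g1, g2⟩ := hη
    rw [prim_prod hc] at g1
    rw [pow_eq_one_iff' hc] at g2
    exact ⟨g1.2, g2.2⟩
  have hPQL : compL hc η ∈ PQ g := by
    obtain ⟨g1, g2⟩ := hη
    rw [prim_prod hc] at g1
    rw [pow_eq_one_iff' hc] at g2
    exact ⟨g1.1, g2.1⟩
  have hPk := tw_Pk hr h hM hc hgM hg2 hη.2 hpar he1
  have hsupp := tw_supp h hM (η := η) hgM
  have hkap' : Kap (kk (fun _ => e1) ν : K → ℂ) := kap_kk _ h.sum
  have hmod := twist_mod h.mod (Nat.pos_of_ne_zero hm0) hkap' hsupp hPk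
  have hMm : M.Coprime m := hmM.symm
  have hcopI : IsCoprime (Ideal.span {B.rt}) (Ideal.span {(m : 𝓞 K)}) := by
    rw [coprime_q]
    have h1 : Ideal.absNorm (Ideal.span {B.rt}) = M := by
      rw [Ideal.absNorm_span_singleton, B.norm_rt, ← hM]
      simp
    rw [h1]
    exact hMm
  have hdisc : IsCoprime (m : ℤ) (discr K) := by
    rw [B.discr_eq, ← hM]
    exact Nat.isCoprime_iff_coprime.2 hmM
  have hprim := twist_prim h.mod h.prim (Nat.pos_of_ne_zero hm0) hPQR.1 hcopI hdisc hPk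
  refine ⟨e1, _, by omega, hmod, hprim, fun heven => ?_⟩
  refine vanishn (fun _ => by omega) (fun w hw => ?_) h.sum hprim hmod
    (gam_real h2 hr e1 h.sum) (fun s _ => h.LI_real hM hη.2 s) (fun τ hτ => ?_)
  · exact absurd (hr w) (InfinitePlace.not_isReal_iff_isComplex.2 hw)
  -- the Gauss sum
  have hMf : (M : 𝓞 K) ∈ Ideal.span {B.rt} := by
    have h1 : (M : 𝓞 K) = B.rt * B.rt := by rw [B.rt_sq, ← hM, Int.cast_natCast]
    rw [h1]
    exact Ideal.mul_mem_left _ _ (Ideal.mem_span_singleton_self _)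
  have hSS := SS_twist B h.mod (M := M) hMf (q := m) hMm hPQR.1 (inv_of_sq hPQR.2) hPk
    (fun p hp hpm => by
      have hpD : ¬ (p : ℤ) ∣ B.D := by
        intro h1
        rw [← hM] at h1
        exact Nat.not_coprime_of_dvd_of_dvd hp.one_lt hpm (by exact_mod_cast h1) hmM
      exact ⟨hpD, h.cen p hp hpD⟩)
  have hfd : (Ideal.span {B.rt} * Ideal.span {(m : 𝓞 K)}) * differentIdeal ℤ (𝓞 K) =
      Ideal.span {((M * m : ℕ) : 𝓞 K)} := by
    rw [B.different, Ideal.span_singleton_mul_span_singleton, Ideal.span_singleton_mul_span_singleton]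
    congr 2
    have h1 : (M : 𝓞 K) = B.rt * B.rt := by rw [B.rt_sq, ← hM, Int.cast_natCast]
    push_cast
    rw [h1]
    ring
  have hτS := tau_SS B hmod (M := M * m) hfd hτ
  rw [hSS] at hτS
  obtain ⟨s, hs0, hs⟩ := h.sgn M hM
  set S0 := SS B (Pk ψ (kk (fun _ => e0) ν) ⊤) M 1 with hS0
  set Nf' : ℕ := Ideal.absNorm (Ideal.span {B.rt} * Ideal.span {(m : 𝓞 K)}) with hNf'
  have hNf0 : Nf' ≠ 0 := by
    rw [hNf', Ne, Ideal.absNorm_eq_zero_iff]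
    exact hmod.ne_bot
  set c : ℝ := ((M * m : ℕ) : ℝ) ^ (Module.finrank ℚ K) / (Nf' : ℝ) with hcdef
  have hc0 : 0 < c := by
    rw [hcdef]
    have h1 : (0 : ℝ) < ((M * m : ℕ) : ℝ) := by exact_mod_cast Nat.pos_of_ne_zero (mul_ne_zero hM0 hm0)
    have h3 : (0 : ℝ) < (Nf' : ℝ) := by exact_mod_cast Nat.pos_of_ne_zero hNf0
    positivity
  have hcC : (((M * m : ℕ) : ℂ) ^ (Module.finrank ℚ K) / (Nf' : ℂ)) = ((c : ℝ) : ℂ) := by
    rw [hcdef]
    push_cast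
    rfl
  rw [hcC] at hτS
  -- the sign
  have hgm : η (-1) = compR hc η (-1) := by
    have h5 := comp_int hc η (-1)
    push_cast at h5
    have h6 := neg_one_val g hg2 hgsq _ hPQL
    rw [heven.neg_one_pow] at h6
    rw [h5, h6, one_mul]
  rw [hpar] at hgm
  rw [← hgm] at hτS
  refine ⟨m * s / c, by positivity, ?_⟩
  have hI : (-I) ^ (∑ φ : K →+* ℂ, eM (fun _ : InfinitePlace K => e1) φ) = (-1 : ℂ) ^ e1 := by
    rw [sum_eM h2, pow_mul]
    congr 1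
    rw [neg_sq, Complex.I_sq]
  rw [hI, he1]
  have hcC0 : (c : ℂ) ≠ 0 := by exact_mod_cast hc0.ne'
  have hsq : ((-1 : ℂ)) ^ eη * (-1) ^ eη = 1 := by rw [← mul_pow]; norm_num
  have h7 : (-1 : ℂ) ^ e0 * (-1) ^ eη * τ * c = ((-(m * s) : ℝ) : ℂ) := by
    push_cast at hs ⊢
    linear_combination (-((-1 : ℂ) ^ e0 * (-1) ^ eη)) * hτS + (m : ℂ) * hs +
      ((-1 : ℂ) ^ e0 * m * S0) * hsq
  have h8 : (-1 : ℂ) ^ e0 * (-1) ^ eη * τ = ((-(m * s) : ℝ) : ℂ) / c := by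
    rw [← h7]; field_simp
  rw [h8]
  push_cast
  ring

end

end Pool.Agent.H505
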