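import Pool.Agent.H505.Comb

/-!
# Twists: conductor and primitivity
-/

set_option autoImplicit false
set_option linter.unusedSectionVars false
set_option linter.unusedVariables false

open NumberField Complex Finset ZMod
open Pool.Agent.Y773 (TPos FT tw)
open Pool.Agent.Y773.G (rl sg eM)
open Pool.Agent.Y767 (ax)
open Pool.Agent.Y773.G.GH (kk Pk IsModK PrimK Kap)
open Pool.Agent.Y773.G.GH.H505 (GaussProp)
open Pool.Agent.Y772.TW (prim_char norm_surj crt_tpos coprime_q absNorm_tpos norm_eq_of_sub)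
open Pool.Agent.Y772.DK (below)
open Pool.Agent.Y772.SG (coprime_iff coprime_congr)

namespace Pool.Agent.H505

section

variable {K : Type} [Field K] [NumberField K]

lemma Pk_congr {𝔣 : Ideal (𝓞 K)} {κ : K → ℂ} {ψ : Ideal (𝓞 K) →*₀ ℂ} (h : IsModK 𝔣 κ ψ)
    {x y : 𝓞 K} (hxy : x - y ∈ 𝔣) : Pk ψ κ ⊤ x = Pk ψ κ ⊤ y := by
  refine h.per (𝔟 := ⊤) (by rw [← Ideal.one_eq_top]; exact one_ne_zero) ?_
  rwa [Ideal.top_mul]

lemma kap_one {κ : K → ℂ} (hκ : Kap κ) : κ ((1 : 𝓞 K) : K) = 1 := by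
  have h1 : ((1 : 𝓞 K) : K) = ((1 : ℕ) : K) := by
    rw [Nat.cast_one]
    exact map_one (algebraMap (𝓞 K) K)
  rw [h1]
  exact hκ.nat 1 one_pos

lemma Pk_one {κ : K → ℂ} (hκ : Kap κ) (ψ : Ideal (𝓞 K) →*₀ ℂ) : Pk ψ κ ⊤ 1 = 1 := by
  rw [Pk_top, Ideal.span_singleton_one, ← Ideal.one_eq_top, map_one, kap_one hκ, one_mul]

lemma hone {q : ℕ} {χ : DirichletCharacter ℂ q} {z : 𝓞 K} (hz : z - 1 ∈ Ideal.span {(q : 𝓞 K)}) :
    χ ((Algebra.norm ℤ z : ℤ) : ZMod q) = 1 := by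
  rw [norm_eq_of_sub hz, map_one, Int.cast_one, map_one]

/-- the twist is a character modulo the product -/
theorem twist_mod {𝔣 : Ideal (𝓞 K)} {κ : K → ℂ} {ψ : Ideal (𝓞 K) →*₀ ℂ} (h : IsModK 𝔣 κ ψ)
    {q : ℕ} (hq : 0 < q) {χ : DirichletCharacter ℂ q} {κ' : K → ℂ} (hκ' : Kap κ')
    {ψ' : Ideal (𝓞 K) →*₀ ℂ}
    (hsupp : ∀ 𝔞 : Ideal (𝓞 K), ψ' 𝔞 ≠ 0 ↔ IsCoprime 𝔞 (𝔣 * Ideal.span {(q : 𝓞 K)}))
    (hψ' : ∀ r : 𝓞 K, Pk ψ' κ' ⊤ r = Pk ψ κ ⊤ r * χ ((Algebra.norm ℤ r : ℤ) : ZMod q)) :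
    IsModK (𝔣 * Ideal.span {(q : 𝓞 K)}) κ' ψ' := by
  have hQ0 : (Ideal.span {(q : 𝓞 K)} : Ideal (𝓞 K)) ≠ 0 := by
    rw [Ne, Ideal.zero_eq_bot, Ideal.span_singleton_eq_bot]
    exact_mod_cast hq.ne'
  refine ⟨hκ', mul_ne_zero h.ne_bot hQ0, ?_, hsupp, fun x hx hx1 => ?_⟩
  · intro h0
    apply h.ne_top
    rw [Ideal.eq_top_iff_one]
    have h1 : (1 : 𝓞 K) ∈ 𝔣 * Ideal.span {(q : 𝓞 K)} := by rw [h0]; trivial
    exact Ideal.mul_le_left h1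
  · have h1 : x - 1 ∈ 𝔣 := Ideal.mul_le_left hx1
    have h2 : x - 1 ∈ Ideal.span {(q : 𝓞 K)} := Ideal.mul_le_right hx1
    rw [← Pk_top, hψ', Pk_congr h h1, Pk_one h.kap, hone h2, one_mul]

/-- the twist is primitive -/
theorem twist_prim {𝔣 : Ideal (𝓞 K)} {κ : K → ℂ} {ψ : Ideal (𝓞 K) →*₀ ℂ} (h : IsModK 𝔣 κ ψ)
    (hp : PrimK 𝔣 κ ψ) {q : ℕ} (hq0 : 0 < q) {χ : DirichletCharacter ℂ q} (hχ : χ.IsPrimitive)
    (hcop : IsCoprime 𝔣 (Ideal.span {(q : 𝓞 K)})) (hdisc : IsCoprime (q : ℤ) (discr K))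
    {κ' : K → ℂ} {ψ' : Ideal (𝓞 K) →*₀ ℂ}
    (hψ' : ∀ r : 𝓞 K, Pk ψ' κ' ⊤ r = Pk ψ κ ⊤ r * χ ((Algebra.norm ℤ r : ℤ) : ZMod q)) :
    PrimK (𝔣 * Ideal.span {(q : 𝓞 K)}) κ' ψ' := by
  classical
  have hQ0 : (Ideal.span {(q : 𝓞 K)} : Ideal (𝓞 K)) ≠ 0 := by
    rw [Ne, Ideal.zero_eq_bot, Ideal.span_singleton_eq_bot]
    exact_mod_cast hq0.ne'
  have hcone : ∀ (J : Ideal (𝓞 K)) (z : 𝓞 K), z - 1 ∈ J → IsCoprime (Ideal.span {z}) J := by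
    intro J z hz
    exact coprime_iff.2 ⟨1, by rwa [mul_one]⟩
  intro 𝔤 hg1 hg2
  obtain ⟨𝔤₁, 𝔤₂, h1, h2, rfl⟩ := exists_dvd_and_dvd_of_dvd_mul hg1
  have hle1 : 𝔣 ≤ 𝔤₁ := Ideal.dvd_iff_le.1 h1
  have hle2 : Ideal.span {(q : 𝓞 K)} ≤ 𝔤₂ := Ideal.dvd_iff_le.1 h2
  have hcop12 : IsCoprime 𝔤₁ 𝔤₂ := hcop.of_isCoprime_of_dvd_left h1 |>.of_isCoprime_of_dvd_right h2
  have hmem : ∀ z : 𝓞 K, z ∈ 𝔤₁ → z ∈ 𝔤₂ → z ∈ 𝔤₁ * 𝔤₂ := by
    intro z hz1 hz2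
    rw [Ideal.mul_eq_inf_of_coprime (Ideal.isCoprime_iff_sup_eq.1 hcop12)]
    exact ⟨hz1, hz2⟩
  by_cases hc : 𝔤₁ = 𝔣
  · -- case (ii)
    have hg2' : 𝔤₂ ≠ Ideal.span {(q : 𝓞 K)} := by
      intro h
      exact hg2 (by rw [hc, h])
    obtain ⟨𝔥, h𝔥⟩ := h2
    have h𝔥0 : 𝔥 ≠ 0 := by
      rintro rfl
      rw [mul_zero] at h𝔥
      exact hQ0 h𝔥
    have h𝔥1 : ¬ IsUnit 𝔥 := by
      intro h
      rw [Ideal.isUnit_iff] at h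
      rw [h, Ideal.mul_top] at h𝔥
      exact hg2' h𝔥.symm
    obtain ⟨P, hPi, 𝔥', rfl⟩ := WfDvdMonoid.exists_irreducible_factor h𝔥1 h𝔥0
    have hPp : Prime P := UniqueFactorizationMonoid.irreducible_iff_prime.1 hPi
    obtain ⟨p, hp, hover⟩ := below hPp
    have hPprime : P.IsPrime := Ideal.isPrime_of_prime hPp
    have hover2 : P.LiesOver (Ideal.span {(p : ℤ)}) := hover.2
    have hmemP : ∀ n : ℕ, ((n : 𝓞 K)) ∈ P ↔ p ∣ n := by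
      intro n
      have h3 : (n : ℤ) ∈ Ideal.span {(p : ℤ)} ↔ algebraMap ℤ (𝓞 K) (n : ℤ) ∈ P :=
        P.mem_of_liesOver (Ideal.span {(p : ℤ)}) (n : ℤ)
      rw [Ideal.mem_span_singleton] at h3
      simp only [algebraMap_int_eq, eq_intCast, Int.cast_natCast] at h3
      rw [← h3]
      exact Int.natCast_dvd_natCast
    have hpP : Ideal.span {(p : 𝓞 K)} ≤ P := by
      rw [Ideal.span_singleton_le_iff_mem]
      exact (hmemP p).2 dvd_rfl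
    obtain ⟨P', hPP'⟩ := Ideal.dvd_iff_le.2 hpP
    have hPQ : Ideal.span {(q : 𝓞 K)} ≤ P := by
      rw [h𝔥]
      exact Ideal.dvd_iff_le.1 ⟨𝔤₂ * 𝔥', by ring⟩
    have hpq : p ∣ q := by
      rw [Ideal.span_singleton_le_iff_mem] at hPQ
      exact (hmemP q).1 hPQ
    have hpd : ¬ (p : ℤ) ∣ discr K := by
      intro h
      have h3 : (p : ℤ) ∣ q := by exact_mod_cast hpq
      have h4 := hdisc.isUnit_of_dvd' h3 h
      rw [Int.isUnit_iff] at h4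
      have := hp.two_le
      omega
    obtain ⟨m, rfl⟩ := hpq
    have hm0 : 0 < m := Nat.pos_of_mul_pos_left hq0
    obtain ⟨t, ht1, ht2, ht3⟩ := prim_char hp hm0 χ hχ
    obtain ⟨y, hy1, hy2⟩ := norm_surj hq0 hp (Dvd.intro m rfl) hpd hPprime hPP'.symm t
      (by rwa [Nat.mul_div_cancel_left m hp.pos])
    rw [Nat.mul_div_cancel_left m hp.pos] at hy1
    -- (m) P' ≤ 𝔤₂
    have hmP' : Ideal.span {(m : 𝓞 K)} * P' ≤ 𝔤₂ := by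
      have h3 : 𝔤₂ * 𝔥' = Ideal.span {(m : 𝓞 K)} * P' := by
        have h4 : P * (𝔤₂ * 𝔥') = P * (Ideal.span {(m : 𝓞 K)} * P') := by
          calc P * (𝔤₂ * 𝔥') = 𝔤₂ * (P * 𝔥') := by ring
            _ = Ideal.span {((p * m : ℕ) : 𝓞 K)} := h𝔥.symm
            _ = Ideal.span {(p : 𝓞 K)} * Ideal.span {(m : 𝓞 K)} := by
              rw [Ideal.span_singleton_mul_span_singleton]; push_cast; rfl
            _ = _ := by rw [hPP']; ring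
        exact mul_left_cancel₀ hPp.ne_zero h4
      rw [← h3]
      exact Ideal.mul_le_left
    obtain ⟨z, hz1, hz2, hz3, hz4⟩ := crt_tpos h.ne_bot hq0 hcop 1 y
    have hNz : ((Algebra.norm ℤ z : ℤ) : ZMod (p * m)) = (t : ZMod (p * m)) := by
      rw [norm_eq_of_sub hz2, hy2]
    refine ⟨z, hmem _ (hle1 hz1) ?_, ?_, ?_⟩
    · have : z - 1 = (z - y) + (y - 1) := by ring
      rw [this]
      exact 𝔤₂.add_mem (hle2 hz2) (hmP' hy1)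
    · rw [IsCoprime.mul_right_iff]
      refine ⟨hcone _ _ hz1, coprime_q.2 ?_⟩
      rw [← ZMod.isUnit_iff_coprime]
      have h5 : ((Ideal.absNorm (Ideal.span {z}) : ℕ) : ZMod (p * m)) =
          ((Algebra.norm ℤ z : ℤ) : ZMod (p * m)) := by
        rw [← absNorm_tpos hz4 hz3]
        simp
      rw [h5, hNz]
      exact ht2
    · rw [← Pk_top, hψ', Pk_congr h hz1, Pk_one h.kap, hNz, one_mul]
      exact ht3
  · -- case (i)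
    obtain ⟨x₀, hx1, hx3, hx4⟩ := hp 𝔤₁ h1 hc
    obtain ⟨z, hz1, hz2, hz3, hz4⟩ := crt_tpos h.ne_bot hq0 hcop x₀ 1
    refine ⟨z, hmem _ ?_ (hle2 hz2), ?_, ?_⟩
    · have : z - 1 = (z - x₀) + (x₀ - 1) := by ring
      rw [this]
      exact 𝔤₁.add_mem (hle1 hz1) hx1
    · rw [IsCoprime.mul_right_iff]
      exact ⟨coprime_congr hz1 hx3, hcone _ _ hz2⟩
    · rw [← Pk_top, hψ', Pk_congr h hz1, hone hz2, mul_one, Pk_top]
      exact hx4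

end

end Pool.Agent.H505
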