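import Pool.Graph.R_pool_sql_team_seeded_620a6dc7.A856.GH.Sig

/-! # Vanishing at the centre of the L-function of a self-dual Hecke character of infinite order with
root number `-1` (the functional equation is the one of `A856.GH.FEkn`, with the constant made explicit) -/

set_option autoImplicit false
set_option linter.unusedSectionVars false

open NumberField Complex Filter Topology MeasureTheory Set
open NumberField.Units NumberField.Units.dirichletUnitTheorem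

namespace Pool.Agent.Y773.G.GH.H505

open Pool.Agent.Y767

variable {K : Type} [Field K] [NumberField K]

/-- the property of the Gauss sum constant -/
def GaussProp (𝔣 : Ideal (𝓞 K)) (ψ : Ideal (𝓞 K) →*₀ ℂ) (κ : K → ℂ) (τ : ℂ) : Prop :=
  ∀ (𝔟 𝔟' : Ideal (𝓞 K)) (m D : ℕ), 0 < m → 0 < D →
    𝔟' * (𝔟 * 𝔣 * differentIdeal ℤ (𝓞 K)) = Ideal.span {((m * D : ℕ) : 𝓞 K)} →
    (m : 𝓞 K) ∈ 𝔟 * 𝔣 → (D : 𝓞 K) ∈ differentIdeal ℤ (𝓞 K) → ∀ x : 𝓞 K,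
      FT D m (Pk ψ κ 𝔟) x = τ * ((m : ℂ) ^ (Module.finrank ℚ K) /
        ((Ideal.absNorm 𝔟 : ℂ) * (Ideal.absNorm 𝔣 : ℂ))) * (starRingEnd ℂ) (Pk ψ κ 𝔟' x)

/-- the functional equation, with the root number -/
theorem fe_rootn {𝔣 : Ideal (𝓞 K)} {ψ : Ideal (𝓞 K) →*₀ ℂ} {e : InfinitePlace K → ℕ}
    {ν : InfinitePlace K → ℝ} (he : ∀ w, e w ≤ 1)
    (hc : ∀ w : InfinitePlace K, w.IsComplex → e w = 0) (hν : ∑ w, ν w = 0)
    (hp : PrimK 𝔣 (kk e ν) ψ) (h : IsModK 𝔣 (kk e ν) ψ) :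
    ∃ (τ : ℂ) (C c R : ℝ) (M : ℂ → ℂ), GaussProp 𝔣 ψ (kk e ν) τ ∧ 0 < C ∧ 0 < c ∧ 0 < R ∧
      Differentiable ℂ M ∧ (∀ s : ℂ, 1 < s.re → M s = C * (Gn e ν s * LI ψ s)) ∧
      ((c : ℂ) * (-I) ^ (∑ φ : K →+* ℂ, eM e φ) * τ ≠ 0) ∧
      (∀ s : ℂ, (R : ℂ) ^ (s / 2) * M s = ((c : ℂ) * (-I) ^ (∑ φ : K →+* ℂ, eM e φ) * τ) *
        (starRingEnd ℂ) ((R : ℂ) ^ ((1 - (starRingEnd ℂ) s) / 2) * M (1 - (starRingEnd ℂ) s))) := by
  classical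
  have h𝔡 : differentIdeal ℤ (𝓞 K) ≠ ⊥ := differentIdeal_ne_bot
  obtain ⟨V, hV, hfe⟩ := fam_fen K
  obtain ⟨C, hC, hmel⟩ := mellin_Ftotn K
  obtain ⟨τ, hτ⟩ := gauss_maink 𝔣 ψ (kk e ν) hp h
  have hD0 : 0 < Dd K := Dd_pos
  -- the constant term
  have hz : ∀ 𝔟 : ClassGroup (𝓞 K) → Ideal (𝓞 K), Reps 𝔟 →
      G00 e * Ph K (fun w => -ν w) *
        (∑ c, (Ideal.absNorm (𝔟 c) : ℂ) * FT (Dd K) (mm 𝔟 𝔣) (Pk ψ (kk e ν) (𝔟 c)) 0) = 0 := by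
    intro 𝔟 h𝔟
    have : ∀ c, FT (Dd K) (mm 𝔟 𝔣) (Pk ψ (kk e ν) (𝔟 c)) 0 = 0 := by
      intro c
      obtain ⟨𝔟'', h𝔟''⟩ := exists_compl (𝔣 := 𝔣) (𝔟 := 𝔟 c) (m := mm 𝔟 𝔣) (D := Dd K)
        (mm_mem _ _ c) Dd_mem
      rw [hτ (𝔟 c) 𝔟'' (mm 𝔟 𝔣) (Dd K) (mm_pos h𝔟.ne_bot h.ne_bot) hD0 h𝔟'' (mm_mem _ _ c) Dd_mem]
      have h5 : 𝔟'' ≠ ⊥ := by
        rintro rfl
        rw [Ideal.bot_mul] at h𝔟''
        exact span_m_ne_bot (Nat.mul_pos (mm_pos h𝔟.ne_bot h.ne_bot) hD0) h𝔟''.symm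
      rw [Pk_zero h5, map_zero, mul_zero]
    simp_rw [this]
    simp
  set m := mm (rp K) 𝔣 with hm
  set D := Dd K with hD
  have hm0 : 0 < m := mm_pos rp_ne_bot h.ne_bot
  have hN : ∀ c, Nicen e ν (Pk ψ (kk e ν) (rp K c)) := fun c => h.nice he hc (rp_ne_bot c)
  obtain ⟨h1, h2, h3⟩ := hfe (rp K) reps_rp e ν hν ψ hN m D hm0
    hD0 Dd_mem (fun c => h.per_m (rp_ne_bot c) (mm_mem _ _ c)) (hz _ reps_rp)
  choose 𝔟' h𝔟' using fun c => exists_compl (𝔣 := 𝔣) (𝔟 := rp K c) (m := m) (D := D)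
    (mm_mem _ _ c) Dd_mem
  have hR' : Reps 𝔟' := reps_compl h.ne_bot reps_rp (Nat.mul_pos hm0 hD0) h𝔟'
  have hN' : ∀ c, Nicen e ν (Pk ψ (kk e ν) (𝔟' c)) := fun c => h.nice he hc (hR'.ne_bot c)
  set R : ℝ := ((Ideal.absNorm 𝔣 * Ideal.absNorm (differentIdeal ℤ (𝓞 K)) : ℕ) : ℝ) with hRdef
  have hR1 : 1 ≤ R := by
    rw [hRdef]
    have h4 : Ideal.absNorm 𝔣 * Ideal.absNorm (differentIdeal ℤ (𝓞 K)) ≠ 0 :=
      mul_ne_zero (fun h1 => h.ne_bot (Ideal.absNorm_eq_zero_iff.mp h1))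
        (fun h1 => h𝔡 (Ideal.absNorm_eq_zero_iff.mp h1))
    exact_mod_cast Nat.one_le_iff_ne_zero.mpr h4
  have hR0 : 0 < R := by linarith
  have hRc : (R : ℂ) ≠ 0 := by exact_mod_cast hR0.ne'
  have hNf0 : (0 : ℝ) < (Ideal.absNorm 𝔣 : ℝ) := by
    exact_mod_cast Nat.pos_of_ne_zero (fun h1 => h.ne_bot (Ideal.absNorm_eq_zero_iff.mp h1))
  set M := mellin (Ftotn ψ e ν (rp K)) with hM
  -- the mellin transform for the complementary representatives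
  have hdM' : Differentiable ℂ (mellin (Ftotn ψ e ν 𝔟')) :=
    (hfe 𝔟' hR' e ν hν ψ hN' (mm 𝔟' 𝔣) D (mm_pos hR'.ne_bot h.ne_bot) hD0 Dd_mem
      (fun c => h.per_m (hR'.ne_bot c) (mm_mem _ _ c)) (hz _ hR')).2.1
  have hMM : mellin (Ftotn ψ e ν 𝔟') = M := by
    refine entire_eq hdM' h2 fun s hs => ?_
    rw [hM, (hmel 𝔟' hR' e ν ψ h.norm_le_one hN' s hs).2,
      (hmel (rp K) reps_rp e ν ψ h.norm_le_one hN s hs).2]
  -- the functional equation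
  set κ : ℂ := ((V⁻¹ : ℝ) : ℂ) * ((m : ℂ) ^ (Module.finrank ℚ K))⁻¹ * (-I) ^ (∑ φ : K →+* ℂ, eM e φ) with hκ
  set A : ℂ := τ * ((m : ℂ) ^ (Module.finrank ℚ K) / (Ideal.absNorm 𝔣 : ℂ)) with hA
  have hG : ∀ s, mellin (Gtotn ψ e ν (rp K) m D) s =
      A * ((R : ℂ) ^ s * (starRingEnd ℂ) (M ((starRingEnd ℂ) s))) := by
    intro s
    have h5 : Gtotn ψ e ν (rp K) m D = fun t => A • (starRingEnd ℂ) (Ftotn ψ e ν 𝔟' (R⁻¹ * t)) := by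
      funext t
      rw [smul_eq_mul]
      exact Gtotn_eq h reps_rp hR' h𝔟' (fun c x => hτ (rp K c) (𝔟' c) m D hm0 hD0 (h𝔟' c)
        (mm_mem _ _ c) Dd_mem x) t
    rw [h5, mellin_const_smul, smul_eq_mul, mellin_conj (fun t => Ftotn ψ e ν 𝔟' (R⁻¹ * t)),
      mellin_comp_mul_left _ _ (inv_pos.mpr hR0), hMM, smul_eq_mul, map_mul]
    congr 2
    have h6 : (((R⁻¹ : ℝ) : ℂ)) ^ (-(starRingEnd ℂ) s) = (R : ℂ) ^ ((starRingEnd ℂ) s) := by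
      rw [Complex.cpow_def_of_ne_zero (by exact_mod_cast (inv_pos.mpr hR0).ne'),
        ← Complex.ofReal_log (inv_pos.mpr hR0).le, Real.log_inv,
        Complex.cpow_def_of_ne_zero hRc, ← Complex.ofReal_log hR0.le]
      congr 1
      push_cast
      ring
    rw [h6]
    have h7 : ((R : ℝ) : ℂ).arg ≠ Real.pi := by
      rw [Complex.arg_ofReal_of_nonneg hR0.le]
      exact Real.pi_ne_zero.symm
    have h8 := Complex.conj_cpow (R : ℂ) s h7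
    rw [Complex.conj_ofReal] at h8
    exact h8.symm
  set L : ℂ → ℂ := fun s => (R : ℂ) ^ (s / 2) * M s with hL
  set w : ℂ := κ * A * (R : ℂ) ^ (1 / 2 : ℂ) with hw
  have hconjR : ∀ z : ℂ, (starRingEnd ℂ) ((R : ℂ) ^ z) = (R : ℂ) ^ ((starRingEnd ℂ) z) := by
    intro z
    have h7 : ((R : ℝ) : ℂ).arg ≠ Real.pi := by
      rw [Complex.arg_ofReal_of_nonneg hR0.le]
      exact Real.pi_ne_zero.symm
    have h8 := Complex.conj_cpow (R : ℂ) ((starRingEnd ℂ) z) h7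
    rw [Complex.conj_ofReal, Complex.conj_conj] at h8
    exact h8.symm
  have hLfe : ∀ s, L s = w * (starRingEnd ℂ) (L (1 - (starRingEnd ℂ) s)) := by
    intro s
    have h5 := h3 (1 - s)
    rw [sub_sub_cancel, hG, map_sub, map_one] at h5
    rw [hL]
    simp only
    rw [h5, map_mul, hconjR, hw]
    have h6 : (starRingEnd ℂ) ((1 - (starRingEnd ℂ) s) / 2) = (1 - s) / 2 := by
      have h20 : (starRingEnd ℂ) (2 : ℂ) = 2 := map_ofNat (starRingEnd ℂ) 2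
      rw [map_div₀, map_sub, map_one, Complex.conj_conj, h20]
    rw [h6]
    have h7 : (R : ℂ) ^ (s / 2) * (R : ℂ) ^ (1 - s) = (R : ℂ) ^ (1 / 2 : ℂ) * (R : ℂ) ^ ((1 - s) / 2) := by
      rw [← Complex.cpow_add _ _ hRc, ← Complex.cpow_add _ _ hRc]
      congr 1
      ring
    linear_combination (κ * A * (starRingEnd ℂ) (M (1 - (starRingEnd ℂ) s))) * h7
  have hL2 : L 2 ≠ 0 := by
    rw [hL]
    simp only
    have h5 : (1 : ℝ) < (2 : ℂ).re := by norm_num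
    rw [hM, (hmel (rp K) reps_rp e ν ψ h.norm_le_one hN 2 h5).2]
    obtain ⟨A', -, hd⟩ := Pool.Agent.Y772.DK.t_dirK K
    have h6 := (hd ψ h.norm_le_one).2.2.1 2 h5
    refine mul_ne_zero ?_ (mul_ne_zero (by exact_mod_cast hC.ne')
      (mul_ne_zero (gamn_ne_zero e ν (by norm_num)) h6))
    rw [Ne, Complex.cpow_eq_zero_iff]
    exact fun h => hRc h.1
  have hw0 : w ≠ 0 := by
    intro h0
    apply hL2
    rw [hLfe 2, h0, zero_mul]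
  have hcw : (((V⁻¹ * (R ^ ((1 : ℝ) / 2) / (Ideal.absNorm 𝔣 : ℝ)) : ℝ) : ℂ) *
      (-I) ^ (∑ φ : K →+* ℂ, eM e φ) * τ) = w := by
    rw [hw, hκ, hA]
    have h5 : (R : ℂ) ^ (1 / 2 : ℂ) = ((R ^ ((1 : ℝ) / 2) : ℝ) : ℂ) := by
      rw [Complex.ofReal_cpow hR0.le]
      norm_num
    rw [h5]
    have h6 : ((m : ℂ) ^ (Module.finrank ℚ K)) ≠ 0 := by
      exact_mod_cast pow_ne_zero _ hm0.ne'
    push_cast
    field_simp
  refine ⟨τ, C, V⁻¹ * (R ^ ((1 : ℝ) / 2) / (Ideal.absNorm 𝔣 : ℝ)), R, M, ?_, hC, by positivity, hR0,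
    h2, ?_, ?_, ?_⟩
  · intro 𝔟 𝔟'' m' D' a1 a2 a3 a4 a5 x
    exact hτ 𝔟 𝔟'' m' D' a1 a2 a3 a4 a5 x
  · intro s hs
    rw [hM, (hmel (rp K) reps_rp e ν ψ h.norm_le_one hN s hs).2]
  · rw [hcw]
    exact hw0
  · intro s
    rw [hcw]
    exact hLfe s

/-- **vanishing at the centre** -/
theorem vanishn {𝔣 : Ideal (𝓞 K)} {ψ : Ideal (𝓞 K) →*₀ ℂ} {e : InfinitePlace K → ℕ}
    {ν : InfinitePlace K → ℝ} (he : ∀ w, e w ≤ 1)
    (hc : ∀ w : InfinitePlace K, w.IsComplex → e w = 0) (hν : ∑ w, ν w = 0)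
    (hp : PrimK 𝔣 (kk e ν) ψ) (h : IsModK 𝔣 (kk e ν) ψ)
    (hgam : ∀ s : ℂ, Gn e ν ((starRingEnd ℂ) s) = (starRingEnd ℂ) (Gn e ν s))
    (hreal : ∀ s : ℂ, 1 < s.re → LI ψ ((starRingEnd ℂ) s) = (starRingEnd ℂ) (LI ψ s))
    (hτ : ∀ τ : ℂ, GaussProp 𝔣 ψ (kk e ν) τ →
      ∃ r : ℝ, 0 ≤ r ∧ (-I) ^ (∑ φ : K →+* ℂ, eM e φ) * τ = ((-r : ℝ) : ℂ)) :
    ∃ F : ℂ → ℂ, Differentiable ℂ F ∧ (∀ s : ℂ, 1 < s.re → F s = LI ψ s) ∧ F (1 / 2) = 0 := by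
  obtain ⟨τ, C, c, R, M, hg, hC, hc0, hR, hM, hML, hne, hfe⟩ := fe_rootn he hc hν hp h
  obtain ⟨r, hr, hτr⟩ := hτ τ hg
  have hC' : (C : ℂ) ≠ 0 := by exact_mod_cast hC.ne'
  have hRc : (R : ℂ) ≠ 0 := by exact_mod_cast hR.ne'
  refine ⟨fun s => (C : ℂ)⁻¹ * (M s * (Gn e ν s)⁻¹),
    (hM.mul (differentiable_gamn e ν)).const_mul _, fun s hs => ?_, ?_⟩
  · change (C : ℂ)⁻¹ * (M s * (Gn e ν s)⁻¹) = LI ψ s
    rw [hML s hs]
    have h3 := gamn_ne_zero e (K := K) ν (s := s) (by linarith)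
    field_simp
  -- reality
  have hconj : Differentiable ℂ fun s => (starRingEnd ℂ) (M ((starRingEnd ℂ) s)) := by
    intro s
    have h1 := (hM ((starRingEnd ℂ) s)).star_star
    have h2 : (star ∘ M ∘ star) = fun s => (starRingEnd ℂ) (M ((starRingEnd ℂ) s)) := rfl
    rw [← h2]
    have h3 : star ((starRingEnd ℂ) s) = s := Complex.conj_conj s
    rw [h3] at h1
    exact h1
  have hMreal : (fun s => (starRingEnd ℂ) (M ((starRingEnd ℂ) s))) = M := by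
    refine entire_eq hconj hM fun s hs => ?_
    rw [hML _ hs, hML _ (by simpa using hs), map_mul, map_mul, hgam, hreal s hs,
      Complex.conj_conj, Complex.conj_conj, Complex.conj_ofReal]
  have h12 : (starRingEnd ℂ) (1 / 2 : ℂ) = 1 / 2 := by
    rw [map_div₀, map_one, map_ofNat]
  have hhalf : (starRingEnd ℂ) (M (1 / 2)) = M (1 / 2) := by
    have h1 := congrFun hMreal (1 / 2)
    rw [h12] at h1
    exact h1
  have h5 := hfe (1 / 2)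
  rw [h12] at h5
  have h6 : (1 : ℂ) - 1 / 2 = 1 / 2 := by norm_num
  rw [h6, map_mul, hhalf] at h5
  have h7 : (starRingEnd ℂ) ((R : ℂ) ^ ((1 / 2 : ℂ) / 2)) = (R : ℂ) ^ ((1 / 2 : ℂ) / 2) := by
    have h7 : ((R : ℝ) : ℂ).arg ≠ Real.pi := by
      rw [Complex.arg_ofReal_of_nonneg hR.le]
      exact Real.pi_ne_zero.symm
    have h8 := Complex.conj_cpow (R : ℂ) ((1 / 2 : ℂ) / 2) h7
    have h9 : (starRingEnd ℂ) ((1 / 2 : ℂ) / 2) = (1 / 2 : ℂ) / 2 := by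
      rw [map_div₀, h12, map_ofNat]
    rw [Complex.conj_ofReal, h9] at h8
    exact h8.symm
  rw [h7, mul_assoc (c : ℂ), hτr] at h5
  have h8 : ((1 + c * r : ℝ) : ℂ) * ((R : ℂ) ^ ((1 / 2 : ℂ) / 2) * M (1 / 2)) = 0 := by
    push_cast at h5 ⊢
    linear_combination h5
  have h9 : ((1 + c * r : ℝ) : ℂ) ≠ 0 := by
    have : 0 < 1 + c * r := by positivity
    exact_mod_cast this.ne'
  have h10 : (R : ℂ) ^ ((1 / 2 : ℂ) / 2) ≠ 0 := by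
    rw [Ne, Complex.cpow_eq_zero_iff]
    exact fun h => hRc h.1
  have h11 : M (1 / 2) = 0 := by
    rcases mul_eq_zero.1 h8 with h | h
    · exact absurd h h9
    · exact (mul_eq_zero.1 h).resolve_left h10
  change (C : ℂ)⁻¹ * (M (1 / 2) * (Gn e ν (1 / 2))⁻¹) = 0
  rw [h11, zero_mul, mul_zero]

/-- the Gauss sum constant is not zero -/
theorem tau_exists {𝔣 : Ideal (𝓞 K)} {ψ : Ideal (𝓞 K) →*₀ ℂ} {e : InfinitePlace K → ℕ}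
    {ν : InfinitePlace K → ℝ} (he : ∀ w, e w ≤ 1)
    (hc : ∀ w : InfinitePlace K, w.IsComplex → e w = 0) (hν : ∑ w, ν w = 0)
    (hp : PrimK 𝔣 (kk e ν) ψ) (h : IsModK 𝔣 (kk e ν) ψ) :
    ∃ τ : ℂ, τ ≠ 0 ∧ GaussProp 𝔣 ψ (kk e ν) τ := by
  obtain ⟨τ, C, c, R, M, hg, hC, hc0, hR, hM, hML, hne, hfe⟩ := fe_rootn he hc hν hp h
  refine ⟨τ, ?_, hg⟩
  rintro rfl
  exact hne (mul_zero _)

/-- the L-function is entire -/
theorem entire_n {𝔣 : Ideal (𝓞 K)} {ψ : Ideal (𝓞 K) →*₀ ℂ} {e : InfinitePlace K → ℕ}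
    {ν : InfinitePlace K → ℝ} (he : ∀ w, e w ≤ 1)
    (hc : ∀ w : InfinitePlace K, w.IsComplex → e w = 0) (hν : ∑ w, ν w = 0)
    (hp : PrimK 𝔣 (kk e ν) ψ) (h : IsModK 𝔣 (kk e ν) ψ) :
    ∃ F : ℂ → ℂ, Differentiable ℂ F ∧ (∀ s : ℂ, 1 < s.re → F s = LI ψ s) := by
  obtain ⟨F, hF, h2⟩ := fe_primn he hc hν hp h
  exact ⟨F, hF.diff, h2⟩

end Pool.Agent.Y773.G.GH.H505
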